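import Pool.Agent.P.MP_667fa2_an.FrameB

/-! Composition of an admissible triple with a localised one. -/

namespace Pool.Agent.P.MP_667fa2_an

open Set Filter Topology MeasureTheory Metric
open scoped ENNReal NNReal

variable {n : ℕ} {p : ℝ}

/-- The energy density. -/
noncomputable def frEn (p : ℝ) (Φ : E n → E n →L[ℝ] E n) (x : E n) : ℝ≥0∞ := 1 + ‖Φ x‖ₑ ^ p

theorem fr_le_en (hp : 1 ≤ p) (t : ℝ≥0∞) : t ≤ 1 + t ^ p := by
  rcases le_total t 1 with h | h
  · exact h.trans le_self_add
  · exact le_add_left (by simpa using ENNReal.rpow_le_rpow_of_exponent_le h hp)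

theorem frEn_meas {Φ : E n → E n →L[ℝ] E n} (h : Measurable Φ) : Measurable (frEn p Φ) :=
  (h.enorm.pow_const p).const_add 1

theorem fr_en_fin {Φ : E n → E n →L[ℝ] E n} {S : Set (E n)} (hS : S ⊆ ball 0 1)
    (h : ∫⁻ x in S, ‖Φ x‖ₑ ^ p < ⊤) : ∫⁻ x in S, frEn p Φ x < ⊤ := by
  simp only [frEn]
  rw [lintegral_add_left measurable_const, setLIntegral_one]
  exact ENNReal.add_lt_top.2 ⟨(measure_mono hS).trans_lt measure_ball_lt_top, h⟩

theorem Adm.fr_cont {f : E n ≃ₜ E n} {Φ : E n → E n →L[ℝ] E n} {V : Set (E n)}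
    (hf : Adm p f Φ V) {x : E n} (hx : x ∈ V) : ContinuousAt Φ x :=
  ((hf.c1 x hx).1.continuousAt_fderiv one_ne_zero).congr
    (mem_of_superset (hf.isOpen.mem_nhds hx) fun y hy => ((hf.c1 y hy).2.1).symm)

theorem fr_unif {F : Type*} [PseudoMetricSpace F] {K : Set (E n)} (hK : IsCompact K)
    (g : E n → F) (hg : ∀ a ∈ K, ContinuousAt g a) {η : ℝ} (hη : 0 < η) :
    ∃ ρ > 0, ∀ y ∈ K, ∀ z, dist y z < ρ → dist (g y) (g z) < η := by
  obtain ⟨ρ, hρ, h⟩ := Metric.mem_uniformity_dist.1
    (hK.uniformContinuousAt_of_continuousAt g hg (Metric.dist_mem_uniformity hη))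
  exact ⟨ρ, hρ, fun y hy z hz => h hz hy⟩

theorem fr_compose (hp : 1 ≤ p) {f : E n ≃ₜ E n} {Φ : E n → E n →L[ℝ] E n} {V : Set (E n)}
    (hf : Adm p f Φ V) {S W K : Set (E n)} {h : E n ≃ₜ E n} {Θ : E n → E n →L[ℝ] E n}
    (H : FrLoc p S h Θ W) (hK : IsCompact K) (hSK : S ⊆ K) (hKV : K ⊆ V)
    (h0 : volume (K \ S) = 0) :
    Adm p (h.trans f) (fun x => Φ (h x) ∘L Θ x) ((V \ K) ∪ W) := by
  have hSQ : S ⊆ ball 0 1 := (hSK.trans hKV).trans hf.sub
  have hhK : ∀ x ∈ K, h x ∈ K := fun x hx => by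
    by_cases hS : x ∈ S
    · exact hSK (fr_maps H.out hS)
    · rwa [H.out x hS]
  have e1 : ∀ x, x ∉ S → Φ (h x) ∘L Θ x = Φ x := fun x hx => by
    rw [H.out x hx, H.outD x hx, ContinuousLinearMap.comp_id]
  obtain ⟨M, hM⟩ := hK.exists_bound_of_continuousOn
    fun x hx => (hf.fr_cont (hKV hx)).continuousWithinAt
  have hKS : ∀ F : E n → ℝ≥0∞, ∫⁻ x in K, F x ≤ ∫⁻ x in S, F x := fun F =>
    lintegral_mono_set' (ae_le_set.2 h0)
  refine ⟨fun x hx => ?_, fr_meas_comp (hf.meas.comp h.continuous.measurable) H.meas,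
    fun x hx => ?_, ?_, (hf.isOpen.sdiff hK.isClosed).union H.isOpen,
    union_subset (sdiff_subset.trans hf.sub) (H.sub.trans hSQ), ?_, ?_, ?_⟩
  · rw [Homeomorph.trans_apply, H.out x fun h => hx (hSQ h), hf.out x hx]
  · rw [e1 x fun h => hx (hSQ h), hf.outD x hx]
  · refine (hf.approx.fr_add (u' := fun x => f (h x) - f x)
      (Δ' := fun x => Φ (h x) ∘L Θ x - Φ x) (fun ε hε => ?_) (hf.meas.sub_const _)).fr_congr
      (fun x => by simp) fun x => by abel
    set I := ∫⁻ x in K, ‖Θ x‖ₑ with hI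
    have hI' : I ≠ ⊤ := ((hKS _).trans_lt ((lintegral_mono fun x => fr_le_en hp _).trans_lt
      (fr_en_fin hSQ H.fin))).ne
    set D := |M| + 1 + I.toReal with hD
    have hD1 : 1 ≤ D := by
      have := abs_nonneg M
      have := ENNReal.toReal_nonneg (a := I)
      linarith
    set η := min 1 (ε / D) with hη
    have hη0 : 0 < η := by positivity
    have hηD : D * η ≤ ε := by
      rw [mul_comm, ← le_div_iff₀ (by linarith)]
      exact min_le_right _ _
    obtain ⟨ρ1, r1, s1⟩ := fr_unif hK f (fun a _ => f.continuous.continuousAt) hη0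
    obtain ⟨ρ2, r2, s2⟩ := fr_unif hK Φ (fun a ha => hf.fr_cont (hKV ha)) hη0
    obtain ⟨ρ3, r3, s3⟩ := hK.exists_thickening_subset_open hf.isOpen hKV
    obtain ⟨g, ⟨L, g1⟩, g2, g3, g4⟩ := H.approx (min (min ρ1 (min ρ2 ρ3) / 2) η) (by positivity)
    have hd : ∀ x, dist (h x) (x + g x) < min ρ1 (min ρ2 ρ3) := fun x => by
      have e : dist (h x) (x + g x) = ‖g x - (h x - x)‖ := by
        rw [dist_comm, dist_eq_norm]
        congr 1
        abel
      have : 0 < min ρ1 (min ρ2 ρ3) := by positivity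
      linarith [g3 x, min_le_left (min ρ1 (min ρ2 ρ3) / 2) η]
    simp only [lt_min_iff] at hd
    have hV : ∀ x ∈ K, x + g x ∈ V := fun x hx =>
      s3 (mem_thickening_iff.2 ⟨h x, hhK x hx, by rw [dist_comm]; exact (hd x).2.2⟩)
    have hG : LipschitzWith (1 + L) fun x => x + g x := LipschitzWith.id.add g1
    have hz : ∀ x, x ∉ K → f (x + g x) - f x = 0 := fun x hx => by
      simp [g2 x fun h => hx (hSK h)]
    refine ⟨fun x => f (x + g x) - f x, LL.lipschitz_of_support (fun x _ => ?_) 0 1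
      fun x hx => hz x fun h => hx (hf.sub (hKV h)), fun x hx => hz x fun h => hx (hf.sub (hKV h)),
      fun x => ?_, ?_⟩
    · by_cases hx : x ∈ K
      · obtain ⟨K1, t1, a1, b1⟩ := (hf.c1 _ (hV x hx)).1.exists_lipschitzOnWith
        obtain ⟨K2, t2, a2, b2⟩ := (hf.c1 _ (hKV hx)).1.exists_lipschitzOnWith
        refine ⟨_, (fun x => x + g x) ⁻¹' t1 ∩ t2, inter_mem (hG.continuous.continuousAt a1) a2,
          LipschitzOnWith.sub (b1.comp hG.lipschitzOnWith fun y hy => hy.1)
            (b2.mono inter_subset_right)⟩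
      · refine ⟨0, Kᶜ, hK.isClosed.isOpen_compl.mem_nhds hx, fun y hy z hz' => ?_⟩
        simp [hz y hy, hz z hz']
    · rw [sub_sub_sub_cancel_right]
      by_cases hx : x ∈ K
      · rw [← dist_eq_norm, dist_comm]
        have := s1 _ (hhK x hx) _ (hd x).1
        nlinarith
      · simp [g2 x fun h => hx (hSK h), H.out x fun h => hx (hSK h), hε.le]
    · calc _ ≤ ∫⁻ x, ENNReal.ofReal (|M| + 1) *
            ‖fderiv ℝ g x - (Θ x - ContinuousLinearMap.id ℝ (E n))‖ₑ +
            K.indicator (fun x => ENNReal.ofReal η * ‖Θ x‖ₑ) x := by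
            refine lintegral_mono_ae ?_
            filter_upwards [g1.ae_differentiableAt] with x hx
            by_cases hxK : x ∈ K
            · obtain ⟨a1, a2, -⟩ := hf.c1 _ (hV x hxK)
              obtain ⟨b1, b2, -⟩ := hf.c1 _ (hKV hxK)
              have d1 := ((a1.differentiableAt one_ne_zero).hasFDerivAt.comp x
                ((hasFDerivAt_id x).add hx.hasFDerivAt)).sub
                (b1.differentiableAt one_ne_zero).hasFDerivAt
              rw [show fderiv ℝ (fun x => f (x + g x) - f x) x = _ from d1.fderiv, ← a2, ← b2,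
                indicator_of_mem hxK]
              have d2 := (s2 _ (hhK x hxK) _ (hd x).2.1).le
              rw [dist_comm, dist_eq_norm] at d2
              have d3 : ‖Φ (x + g x)‖ ≤ |M| + 1 := by
                have := norm_le_norm_add_norm_sub' (Φ (x + g x)) (Φ (h x))
                linarith [hM _ (hhK x hxK), le_abs_self M, min_le_left 1 (ε / D)]
              refine le_trans (le_of_eq ?_) ((fr_enorm_add
                (Φ (x + g x) ∘L (fderiv ℝ g x - (Θ x - ContinuousLinearMap.id ℝ (E n))))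
                ((Φ (x + g x) - Φ (h x)) ∘L Θ x)).trans (add_le_add ?_ ?_))
              · congr 1
                ext1 y
                simp
                abel
              · refine (fr_enorm_comp _ _).trans (mul_le_mul_left ?_ _)
                rw [← ofReal_norm]
                exact ENNReal.ofReal_le_ofReal d3
              · refine (fr_enorm_comp _ _).trans (mul_le_mul_left ?_ _)
                rw [← ofReal_norm]
                exact ENNReal.ofReal_le_ofReal d2
            · have : (fun x => f (x + g x) - f x) =ᶠ[𝓝 x] fun _ => 0 :=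
                mem_of_superset (hK.isClosed.isOpen_compl.mem_nhds hxK) hz
              rw [this.fderiv_eq, e1 x fun h => hxK (hSK h)]
              simp [← ofReal_norm]
        _ ≤ ENNReal.ofReal (|M| + 1) * ENNReal.ofReal η + ENNReal.ofReal η * I := by
            rw [lintegral_add_left (((measurable_fderiv ℝ g).fun_sub
              (H.meas.sub_const _)).enorm.const_mul _), lintegral_indicator hK.measurableSet,
              lintegral_const_mul' _ _ ENNReal.ofReal_ne_top,
              lintegral_const_mul' _ _ ENNReal.ofReal_ne_top]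
            exact add_le_add_left (mul_le_mul_right
              (g4.trans (ENNReal.ofReal_le_ofReal (min_le_right _ _))) _) _
        _ ≤ ENNReal.ofReal ε := by
            rw [← ENNReal.ofReal_toReal hI', ← ENNReal.ofReal_mul (by positivity),
              ← ENNReal.ofReal_mul hη0.le, ← ENNReal.ofReal_add (by positivity) (by positivity)]
            exact ENNReal.ofReal_le_ofReal (by linarith)
  · rintro x (hx | hx)
    · have : (h.trans f : E n → E n) =ᶠ[𝓝 x] f :=
        mem_of_superset (hK.isClosed.isOpen_compl.mem_nhds hx.2) fun y hy => by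
          simp [H.out y fun h => hy (hSK h)]
      obtain ⟨a1, a2⟩ := hf.c1 x hx.1
      exact ⟨a1.congr_of_eventuallyEq this, by rwa [this.fderiv_eq, e1 x fun h => hx.2 (hSK h)]⟩
    · obtain ⟨a1, a2, a3⟩ := hf.c1 _ (hKV (hhK x (hSK (H.sub hx))))
      obtain ⟨b1, b2, b3⟩ := H.c1 x hx
      refine ⟨a1.comp x b1, ?_, by rw [fr_det_comp]; positivity⟩
      rw [a2, b2]
      exact (fderiv_comp x (a1.differentiableAt one_ne_zero) (b1.differentiableAt one_ne_zero)).symm
  · filter_upwards [hf.neg, H.neg, measure_eq_zero_iff_ae_notMem.1 h0] with x a1 a2 a3 hx hV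
    by_cases hS : x ∈ S
    · rw [fr_det_comp]
      exact mul_neg_of_pos_of_neg (hf.c1 _ (hKV (hhK x (hSK hS)))).2.2 (a2 hS fun h => hV (Or.inr h))
    · rw [e1 x hS]
      exact a1 hx fun h => hV (Or.inl ⟨h, fun h => a3 ⟨h, hS⟩⟩)
  · have h1 : ENNReal.ofReal M ^ p ≠ ⊤ :=
      ENNReal.rpow_ne_top_of_nonneg (by linarith) ENNReal.ofReal_ne_top
    calc _ ≤ ∫⁻ x in (ball 0 1 \ K) ∪ K, ‖Φ (h x) ∘L Θ x‖ₑ ^ p :=
          lintegral_mono_set (subset_sdiff_union _ _)
      _ ≤ _ := lintegral_union_le _ _ _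
      _ ≤ (∫⁻ x in ball 0 1, ‖Φ x‖ₑ ^ p) + ∫⁻ x in K, ENNReal.ofReal M ^ p * ‖Θ x‖ₑ ^ p := by
          refine add_le_add ?_ (setLIntegral_mono' hK.measurableSet fun x hx => ?_)
          · rw [setLIntegral_congr_fun (measurableSet_ball.diff hK.measurableSet)
              fun x hx => by rw [e1 x fun h => hx.2 (hSK h)]]
            exact lintegral_mono_set sdiff_subset
          · rw [← ENNReal.mul_rpow_of_nonneg _ _ (by linarith)]
            refine ENNReal.rpow_le_rpow ((fr_enorm_comp _ _).trans (mul_le_mul_left ?_ _))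
              (by linarith)
            rw [← ofReal_norm]
            exact ENNReal.ofReal_le_ofReal (hM _ (hhK x hx))
      _ < ⊤ := by
          rw [lintegral_const_mul' _ _ h1]
          exact ENNReal.add_lt_top.2 ⟨hf.fin, ENNReal.mul_lt_top h1.lt_top ((hKS _).trans_lt H.fin)⟩

end Pool.Agent.P.MP_667fa2_an
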