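import Pool.Agent.P.MP_667fa2_an.Lines

/-! Gluing across a closed set. -/

namespace Pool.Agent.P.MP_667fa2_an

open Set Filter Topology MeasureTheory Metric
open scoped ENNReal NNReal

variable {n : ℕ}

theorem gl_ae_differentiableAt {F : Type*} [NormedAddCommGroup F] [NormedSpace ℝ F]
    [FiniteDimensional ℝ F] {U : Set (E n)} {f : E n → F} (h : LL U f) :
    ∀ᵐ x, x ∈ U → DifferentiableAt ℝ f x := by
  rw [ae_iff]
  refine measure_null_of_locally_null _ fun x hx => ?_
  simp only [mem_ofPred_eq, Classical.not_imp] at hx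
  obtain ⟨K, t, ht, hK⟩ := h x hx.1
  refine ⟨_, inter_mem_nhdsWithin _ (interior_mem_nhds.2 ht), ?_⟩
  refine measure_mono_null (fun y hy => ?_)
    (ae_iff.1 (hK.ae_differentiableWithinAt_of_mem (μ := volume)))
  simp only [mem_inter_iff, mem_ofPred_eq, Classical.not_imp] at hy ⊢
  exact ⟨interior_subset hy.2, fun hd =>
    hy.1.2 (hd.differentiableAt (mem_interior_iff_mem_nhds.1 hy.2))⟩

theorem gl_exists_dist (C : Set (E n)) (hC : IsClosed C) :
    ∃ d : E n → ℝ, LipschitzWith 1 d ∧ (∀ x, 0 ≤ d x) ∧ (∀ x ∈ C, d x = 0) ∧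
      ∀ x, x ∉ C → 0 < d x := by
  rcases C.eq_empty_or_nonempty with rfl | hne
  · exact ⟨fun _ => 1, (LipschitzWith.const 1).weaken zero_le_one, fun _ => zero_le_one,
      by simp, fun _ _ => one_pos⟩
  · exact ⟨fun x => infDist x C, lipschitz_infDist_pt C, fun _ => infDist_nonneg,
      fun _ hx => infDist_zero_of_mem hx, fun _ hx => (hC.notMem_iff_infDist_pos hne).1 hx⟩

/-- The cut-off profile. -/
noncomputable def glCut (s : ℝ) : ℝ := max 0 (min 1 (s - 1))

theorem glCut_nonneg (s : ℝ) : 0 ≤ glCut s := le_max_left _ _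

theorem glCut_le (s : ℝ) : glCut s ≤ 1 := max_le zero_le_one (min_le_left _ _)

theorem glCut_of_le {s : ℝ} (h : s ≤ 1) : glCut s = 0 :=
  max_eq_left ((min_le_right _ _).trans (by linarith))

theorem glCut_of_ge {s : ℝ} (h : 2 ≤ s) : glCut s = 1 := by
  rw [glCut, min_eq_left (by linarith), max_eq_right zero_le_one]

theorem glCut_lip (s t : ℝ) : |glCut s - glCut t| ≤ |s - t| := by
  refine (abs_max_sub_max_le_max _ _ _ _).trans (max_le (by simp) ?_)
  refine (abs_min_sub_min_le_max _ _ _ _).trans (max_le (by simp) (le_of_eq ?_))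
  congr 1
  ring

theorem gl_PLip {u : E n → E n} {d : E n → ℝ} (hd : LipschitzWith 1 d) {e : ℝ} (he : 0 < e)
    {y : E n} {B : ℝ} (h : PLip u y B) :
    PLip (fun x => glCut ((‖u x‖ + d x) / e) • u x) y (B + (B + 1) / e * ‖u y‖) := by
  filter_upwards [h] with z hz
  have h1 : glCut ((‖u z‖ + d z) / e) • u z - glCut ((‖u y‖ + d y) / e) • u y =
      glCut ((‖u z‖ + d z) / e) • (u z - u y) +
        (glCut ((‖u z‖ + d z) / e) - glCut ((‖u y‖ + d y) / e)) • u y := by
    rw [smul_sub, sub_smul]; abel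
  have h2 : |glCut ((‖u z‖ + d z) / e) - glCut ((‖u y‖ + d y) / e)| ≤ (B + 1) / e * ‖z - y‖ := by
    refine (glCut_lip _ _).trans ?_
    rw [← sub_div, abs_div, abs_of_pos he, div_mul_eq_mul_div]
    refine div_le_div_of_nonneg_right ?_ he.le
    have h3 := abs_norm_sub_norm_le (u z) (u y)
    have h4 := hd.dist_le_mul z y
    rw [Real.dist_eq, dist_eq_norm, NNReal.coe_one, one_mul] at h4
    have h5 : ‖u z‖ + d z - (‖u y‖ + d y) = (‖u z‖ - ‖u y‖) + (d z - d y) := by ring
    rw [h5]
    refine (abs_add_le _ _).trans ?_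
    linarith
  rw [h1]
  refine (norm_add_le _ _).trans ?_
  rw [norm_smul, norm_smul, Real.norm_eq_abs, Real.norm_eq_abs, abs_of_nonneg (glCut_nonneg _)]
  have h6 : glCut ((‖u z‖ + d z) / e) * ‖u z - u y‖ ≤ B * ‖z - y‖ :=
    (mul_le_of_le_one_left (norm_nonneg _) (glCut_le _)).trans hz
  have h7 := mul_le_mul_of_nonneg_right h2 (norm_nonneg (u y))
  nlinarith

/-- T2a. -/
theorem approx0_of_glue (C : Set (E n)) (hC : IsClosed C) (u : E n → E n) (hu : Continuous u)
    (h0 : ∀ x ∈ C, u x = 0) (hout : ∀ x, x ∉ ball (0 : E n) 1 → u x = 0) (hLL : LL Cᶜ u)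
    (hint : ∫⁻ x in ball (0 : E n) 1 \ C, ‖fderiv ℝ u x‖ₑ < ⊤) :
    Approx0 (ball (0 : E n) 1) u (Cᶜ.indicator (fderiv ℝ u)) := by
  obtain ⟨d, hd, hd0, hdC, hdpos⟩ := gl_exists_dist C hC
  set g : ℝ → E n → E n := fun e x => glCut ((‖u x‖ + d x) / e) • u x with hg
  have hω : Continuous fun x => ‖u x‖ + d x := hu.norm.add hd.continuous
  have hzero : ∀ e, 0 < e → ∀ x ∈ C, g e =ᶠ[𝓝 x] fun _ => 0 := by
    intro e he x hx
    have h1 : ‖u x‖ + d x < e := by rw [h0 x hx, hdC x hx]; simpa using he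
    filter_upwards [hω.continuousAt.eventually (gt_mem_nhds h1)] with y hy
    simp only [hg]
    rw [glCut_of_le ((div_le_one he).2 hy.le), zero_smul]
  have hone : ∀ e, 0 < e → ∀ x, 2 * e < ‖u x‖ + d x → g e =ᶠ[𝓝 x] u := by
    intro e he x hx
    filter_upwards [hω.continuousAt.eventually (lt_mem_nhds hx)] with y hy
    simp only [hg]
    rw [glCut_of_ge ((le_div_iff₀ he).2 hy.le), one_smul]
  have hgout : ∀ e x, x ∉ ball (0 : E n) 1 → g e x = 0 := fun e x hx => by
    simp only [hg]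
    rw [hout x hx, smul_zero]
  have hlip : ∀ e, 0 < e → ∃ K, LipschitzWith K (g e) := by
    intro e he
    refine LL.lipschitz_of_support (fun x _ => ?_) 0 1 (hgout e)
    by_cases hx : x ∈ C
    · refine ⟨0, _, hzero e he x hx, ?_⟩
      intro y hy z hz
      have h1 : g e y = 0 := hy
      have h2 : g e z = 0 := hz
      simp [h1, h2]
    · refine LL.of_PLip (U := Cᶜ) (fun x hx => ?_) x hx
      obtain ⟨K, t, ht, hK⟩ := hLL x hx
      refine ⟨K + (K + 1) / e * (‖u x‖ + 1), ?_⟩
      filter_upwards [interior_mem_nhds.2 ht,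
        hu.norm.continuousAt.eventually (gt_mem_nhds (lt_add_one ‖u x‖))] with y hy hy'
      refine (gl_PLip hd he
        (PLip.of_lipschitzOn (mem_interior_iff_mem_nhds.1 hy) hK)).mono ?_
      have : (0 : ℝ) ≤ (K + 1) / e := by positivity
      exact add_le_add le_rfl (mul_le_mul_of_nonneg_left hy'.le this)
  have hclose : ∀ e, 0 < e → ∀ x, ‖g e x - u x‖ ≤ 2 * e := by
    intro e he x
    simp only [hg]
    by_cases hx : 2 * e ≤ ‖u x‖ + d x
    · rw [glCut_of_ge ((le_div_iff₀ he).2 hx), one_smul, sub_self, norm_zero]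
      positivity
    · have h1 : glCut ((‖u x‖ + d x) / e) • u x - u x = (glCut ((‖u x‖ + d x) / e) - 1) • u x := by
        rw [sub_smul, one_smul]
      have h2 : |glCut ((‖u x‖ + d x) / e) - 1| ≤ 1 :=
        abs_le.2 ⟨by linarith [glCut_nonneg ((‖u x‖ + d x) / e)],
          by linarith [glCut_le ((‖u x‖ + d x) / e)]⟩
      rw [h1, norm_smul, Real.norm_eq_abs]
      have h3 := mul_le_of_le_one_left (norm_nonneg (u x)) h2
      linarith [hd0 x]
  have hS : MeasurableSet (ball (0 : E n) 1 \ C) := measurableSet_ball.diff hC.measurableSet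
  have hek : ∀ k : ℕ, (0 : ℝ) < 1 / ((k : ℝ) + 1) := fun k => by positivity
  have hz : ‖(0 : E n →L[ℝ] E n)‖ₑ = 0 := by
    rw [← ofReal_norm]
    simp
  have hlim : Tendsto (fun k : ℕ => ∫⁻ x, ‖fderiv ℝ (g (1 / ((k : ℝ) + 1))) x -
      Cᶜ.indicator (fderiv ℝ u) x‖ₑ) atTop (𝓝 (∫⁻ _ : E n, 0)) := by
    refine tendsto_lintegral_of_dominated_convergence
      ((ball (0 : E n) 1 \ C).indicator fun x => 4 * ‖fderiv ℝ u x‖ₑ + 5)
      (fun k => ((measurable_fderiv ℝ _).sub
        ((measurable_fderiv ℝ u).indicator hC.measurableSet.compl)).enorm) (fun k => ?_) ?_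
      (Eventually.of_forall fun x => ?_)
    · have hsph : ∀ᵐ x : E n, x ∉ sphere (0 : E n) 1 :=
        measure_eq_zero_iff_ae_notMem.1 (Measure.addHaar_sphere_of_ne_zero volume 0 one_ne_zero)
      filter_upwards [hsph, gl_ae_differentiableAt hLL] with x hx1 hx2
      by_cases hx : x ∈ C
      · rw [(hzero _ (hek k) x hx).fderiv_eq, indicator_of_notMem (by simpa using hx)]
        simp [hz]
      rw [indicator_of_mem (mem_compl hx)]
      by_cases hb : x ∈ ball (0 : E n) 1
      · rw [indicator_of_mem (show x ∈ ball (0 : E n) 1 \ C from ⟨hb, hx⟩)]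
        by_cases hs : 2 * (1 / ((k : ℝ) + 1)) < ‖u x‖ + d x
        · rw [(hone _ (hek k) x hs).fderiv_eq]
          simp [hz]
        · have h1 := gl_PLip hd (hek k) (PLip.of_differentiableAt (hx2 hx))
          have h2 : (‖fderiv ℝ u x‖ + 1 + 1) / (1 / ((k : ℝ) + 1)) * ‖u x‖ ≤
              2 * (‖fderiv ℝ u x‖ + 1 + 1) := by
            rw [div_mul_eq_mul_div, div_le_iff₀ (hek k)]
            have h3 : ‖u x‖ ≤ 2 * (1 / ((k : ℝ) + 1)) := by linarith [hd0 x]
            nlinarith [norm_nonneg (fderiv ℝ u x)]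
          have h4 : ‖fderiv ℝ (g (1 / ((k : ℝ) + 1))) x‖ ≤ 3 * ‖fderiv ℝ u x‖ + 5 :=
            (h1.mono (by linarith)).norm_fderiv_le (by positivity)
          have h5 : ‖fderiv ℝ (g (1 / ((k : ℝ) + 1))) x - fderiv ℝ u x‖ ≤
              4 * ‖fderiv ℝ u x‖ + 5 := (norm_sub_le _ _).trans (by linarith)
          rw [← ofReal_norm, ← ofReal_norm]
          refine (ENNReal.ofReal_le_ofReal h5).trans (le_of_eq ?_)
          rw [ENNReal.ofReal_add (by positivity) (by norm_num),
            ENNReal.ofReal_mul (by norm_num)]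
          simp
      · have hcl : x ∉ closedBall (0 : E n) 1 := by
          rw [← ball_union_sphere]
          exact fun h => h.elim hb hx1
        have h1 : ∀ᶠ y in 𝓝 x, y ∉ ball (0 : E n) 1 := by
          filter_upwards [isClosed_closedBall.isOpen_compl.mem_nhds hcl] with y hy
          exact fun h => hy (ball_subset_closedBall h)
        have h2 : g (1 / ((k : ℝ) + 1)) =ᶠ[𝓝 x] u := by
          filter_upwards [h1] with y hy
          rw [hgout _ y hy, hout y hy]
        rw [h2.fderiv_eq]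
        simp [hz]
    · rw [lintegral_indicator hS, lintegral_add_right _ measurable_const,
        lintegral_const_mul' _ _ (by simp), setLIntegral_const]
      have h1 : volume (ball (0 : E n) 1 \ C) < ⊤ :=
        (measure_mono sdiff_subset).trans_lt measure_ball_lt_top
      exact ENNReal.add_ne_top.2 ⟨ENNReal.mul_ne_top (by simp) hint.ne,
        ENNReal.mul_ne_top (by simp) h1.ne⟩
    · refine tendsto_const_nhds.congr' ?_
      by_cases hx : x ∈ C
      · refine Eventually.of_forall fun k => ?_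
        simp only
        rw [(hzero _ (hek k) x hx).fderiv_eq, indicator_of_notMem (by simpa using hx)]
        simp [hz]
      · have h1 : 0 < (‖u x‖ + d x) / 2 := by linarith [hdpos x hx, norm_nonneg (u x)]
        filter_upwards [tendsto_one_div_add_atTop_nhds_zero_nat.eventually (gt_mem_nhds h1)]
          with k hk
        rw [(hone _ (hek k) x (by linarith)).fderiv_eq, indicator_of_mem (mem_compl hx)]
        simp [hz]
  intro ε hε
  rw [lintegral_zero] at hlim
  obtain ⟨k, hk1, hk2⟩ := ((hlim.eventually (ge_mem_nhds (ENNReal.ofReal_pos.2 hε))).and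
    (tendsto_one_div_add_atTop_nhds_zero_nat.eventually (ge_mem_nhds (half_pos hε)))).exists
  exact ⟨g (1 / ((k : ℝ) + 1)), hlip _ (hek k), hgout _,
    fun x => (hclose _ (hek k) x).trans (by linarith), hk1⟩

end Pool.Agent.P.MP_667fa2_an
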