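import Pool.Agent.P.MP_667fa2_an.Cells
import Pool.Agent.P.MP_667fa2_an.Glue
import Pool.Agent.P.MP_667fa2_an.FrameC

/-! Composition of the collapse with a map that reflects the skeleton. -/

namespace Pool.Agent.P.MP_667fa2_an

open Set Filter Topology MeasureTheory Metric
open scoped ENNReal NNReal

variable {n : ℕ}

theorem as_tangent {F G : E n → E n} {s : ℝ} {I : Finset (Fin n)} {z : Fin n → ℤ} {x w : E n}
    (hx : x ∈ oface s I z) (hF : DifferentiableAt ℝ F x) (hG : DifferentiableAt ℝ G x)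
    (h : ∀ y ∈ face s I z, F y = G y) (hw : ∀ i, i ∉ I → w i = 0) :
    fderiv ℝ F x w = fderiv ℝ G x w := by
  have h1 : HasDerivAt _ _ _ := hF.hasFDerivAt.hasLineDerivAt w
  have h2 : HasDerivAt _ _ _ := hG.hasFDerivAt.hasLineDerivAt w
  refine h1.unique (h2.congr_of_eventuallyEq ?_)
  have h3 : ∀ᶠ t : ℝ in 𝓝 0, ∀ i ∈ I, s * z i < x i + t * w i ∧ x i + t * w i < s * (z i + 1) := by
    refine (eventually_all_finset I).2 fun i hi => ?_
    have h4 : Tendsto (fun t : ℝ => x i + t * w i) (𝓝 0) (𝓝 (x i)) := by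
      simpa using (by fun_prop : Continuous fun t : ℝ => x i + t * w i).tendsto 0
    exact h4.eventually (Ioo_mem_nhds (hx.1 i hi).1 (hx.1 i hi).2)
  filter_upwards [h3] with t ht
  exact h _ (oface_subset_face ⟨ht, fun i hi => by simp [hw i hi, hx.2 i hi]⟩)

theorem as_eta {F : E n → E n} {Q : Set (E n)} (hQ : IsCompact Q)
    (hF : ∀ x ∈ Q, ContDiffAt ℝ 1 F x) : ∃ η : ℝ, 0 < η ∧ ∀ x ∈ Q, η * ‖fderiv ℝ F x‖ ≤ 1 ∧
      ∀ y, dist y x ≤ η → ‖fderiv ℝ F y - fderiv ℝ F x‖ ≤ 1 := by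
  have h1 : ∀ x ∈ Q, ContinuousAt (fderiv ℝ F) x := fun x hx =>
    (hF x hx).continuousAt_fderiv one_ne_zero
  obtain ⟨ρ, hρ, h2⟩ := fr_unif hQ _ h1 one_pos
  obtain ⟨M, hM⟩ := hQ.exists_bound_of_continuousOn fun x hx => (h1 x hx).continuousWithinAt
  have h3 : 0 < |M| + 1 := by positivity
  refine ⟨min (ρ / 2) (|M| + 1)⁻¹, lt_min (half_pos hρ) (inv_pos.2 h3), fun x hx =>
    ⟨?_, fun y hy => ?_⟩⟩
  · refine (mul_le_mul_of_nonneg_right (min_le_right _ _) (norm_nonneg _)).trans ?_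
    rw [inv_mul_le_iff₀ h3]
    linarith [hM x hx, le_abs_self M]
  · rw [← dist_eq_norm, dist_comm]
    exact (h2 x hx y (by rw [dist_comm]; linarith [min_le_left (ρ / 2) (|M| + 1)⁻¹])).le

theorem as_young {p q : ℝ} (hp : 0 < p) (hpq : p < q) (W B : ℝ≥0∞) :
    (W * B) ^ p ≤ B ^ q + W ^ (p * q / (q - p)) := by
  have h0 := sub_pos.2 hpq
  rw [ENNReal.mul_rpow_of_nonneg _ _ hp.le]
  rcases le_total (W ^ p) (B ^ (q - p)) with h | h
  · refine le_trans ?_ le_self_add
    calc _ ≤ B ^ (q - p) * B ^ p := by gcongr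
      _ = _ := by rw [← ENNReal.rpow_add_of_nonneg _ _ h0.le hp.le, sub_add_cancel]
  · refine le_trans ?_ le_add_self
    have h1 := ENNReal.rpow_le_rpow h (div_pos hp h0).le
    rw [← ENNReal.rpow_mul, ← ENNReal.rpow_mul, mul_div_cancel₀ _ h0.ne'] at h1
    calc _ ≤ W ^ p * W ^ (p * (p / (q - p))) := by gcongr
      _ = _ := by
        rw [← ENNReal.rpow_add_of_nonneg _ _ hp.le (by positivity)]
        congr 1
        field_simp
        ring

theorem as_good {T A A0 H : E n →L[ℝ] E n} {I : Finset (Fin n)} {t c η B : ℝ} (hT : ‖T‖ ≤ t)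
    (hc : 0 ≤ c) (hη : 0 < η) (hH : ‖H‖ ≤ B) (h1 : ‖A - A0‖ ≤ 1) (h2 : η * ‖A0‖ ≤ 1)
    (h3 : ∀ w : E n, (∀ i, i ∉ I → w i = 0) → ‖T (A0 w)‖ ≤ c * ‖w‖)
    (h4 : ∀ ξ i, i ∉ I → |H ξ i| ≤ η * B * ‖ξ‖) : ‖T ∘L A ∘L H‖ ≤ (2 * t + c) * B := by
  have hB := (norm_nonneg _).trans hH
  have ht := (norm_nonneg _).trans hT
  refine ContinuousLinearMap.opNorm_le_bound _ (by positivity) fun ξ => ?_
  have h5 : ‖H ξ‖ ≤ B * ‖ξ‖ := H.le_of_opNorm_le hH ξ
  set w : E n := fun i => if i ∈ I then H ξ i else 0 with hw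
  have h6 : ‖w‖ ≤ B * ‖ξ‖ := le_trans ((pi_norm_le_iff_of_nonneg (norm_nonneg _)).2 fun i => by
    by_cases hi : i ∈ I
    · simpa [hw, hi] using norm_le_pi_norm (H ξ) i
    · simp [hw, hi]) h5
  have h7 : ‖H ξ - w‖ ≤ η * B * ‖ξ‖ := (pi_norm_le_iff_of_nonneg (by positivity)).2 fun i => by
    by_cases hi : i ∈ I
    · simp only [hw, Pi.sub_apply, if_pos hi, sub_self, norm_zero]
      positivity
    · simpa [hw, hi] using h4 ξ i hi
  have h8 : (T ∘L A ∘L H) ξ = T ((A - A0) (H ξ)) + T (A0 (H ξ - w)) + T (A0 w) := by simp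
  have h9 : ‖(A - A0) (H ξ)‖ ≤ B * ‖ξ‖ := ((A - A0).le_of_opNorm_le h1 _).trans (by linarith)
  have h10 : ‖A0 (H ξ - w)‖ ≤ B * ‖ξ‖ :=
    calc _ ≤ ‖A0‖ * (η * B * ‖ξ‖) := A0.le_opNorm_of_le h7
      _ = η * ‖A0‖ * (B * ‖ξ‖) := by ring
      _ ≤ _ := mul_le_of_le_one_left (by positivity) h2
  have h11 := (h3 w fun i hi => if_neg hi).trans (mul_le_mul_of_nonneg_left h6 hc)
  rw [h8]
  refine (norm_add₃_le).trans ?_
  linarith [T.le_of_opNorm_le_of_le hT h9, T.le_of_opNorm_le_of_le hT h10]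

theorem as_congr {S : Set (E n)} {u u' : E n → E n} {Δ Δ' : E n → E n →L[ℝ] E n}
    (h : Approx0 S u Δ) (hu : ∀ x, u x = u' x) (hΔ : ∀ᵐ x, Δ x = Δ' x) : Approx0 S u' Δ' := by
  intro ε hε
  obtain ⟨g, h1, h2, h3, h4⟩ := h ε hε
  refine ⟨g, h1, h2, fun x => hu x ▸ h3 x, le_trans (le_of_eq (lintegral_congr_ae ?_)) h4⟩
  filter_upwards [hΔ] with x hx
  rw [hx]

/-- Composition of the collapse with a homeomorphism that reflects the skeleton. -/
theorem assemble {j : ℕ} {p q : ℝ} (hp : 1 ≤ p) (hpq : p < q) {M : ℝ≥0∞} {Λ : ℝ} (hM : M ≠ ⊤)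
    (hΛ : 1 ≤ Λ) (hc : CollapseAt n j q M Λ) {ϱ : E n → ℝ} {μ ε : ℝ}
    (hS : Setup ϱ μ (closedBall 0 (1 - ε / 2))) (hε : 0 < ε) (hε1 : ε ≤ 1 / 8)
    (hμ : 4 * Λ * μ ≤ ε / 2) {C : Set (E n)} (hC : ∀ x, ϱ x = 0 ↔ x ∈ C)
    (hCb : C ⊆ ball 0 (1 - 4 * ε)) (v : E n) (i0 : Fin n) (hv : v i0 = 1) (hv1 : ‖v‖ = 1)
    (θ : E n → ℝ) (hθ : ContDiff ℝ 1 θ) (hθ1 : ∀ y, ‖y‖ ≤ 1 - 3 * ε → θ y = 1)
    (hθ0 : ∀ y, 1 - 5 / 2 * ε ≤ ‖y‖ → θ y = 0) (F : E n ≃ₜ E n)
    (hF0 : ∀ y, 1 - ε < ‖y‖ → F y = y) (hFC : ∀ y ∈ C, F y = y - (2 * θ y * y i0) • v)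
    (hFK : ∀ k I z, Active ϱ μ (closedBall 0 (1 - ε / 2)) k I z → I.card = j →
      (∀ y ∈ face (mesh μ k) I z, F y = y - (2 * θ y * y i0) • v) ∧
      ∀ y ∈ oface (mesh μ k) I z, ContDiffAt ℝ 1 F y)
    (hLL : LL Cᶜ F) (hN : AENice Cᶜ F) (π : E n →L[ℝ] E n) (hπ : ∀ x, π x = x - x i0 • v)
    {δ : ℝ≥0∞} (hδ : 0 < δ) (hδ' : δ ≠ ⊤) :
    ∃ (b : E n ≃ₜ E n) (Ψ : E n → E n →L[ℝ] E n) (W : Set (E n)), Adm p b Ψ W ∧
      W ⊆ ball 0 1 \ C ∧ (∀ x ∈ C, ‖Ψ x‖ ≤ 3) ∧
      ∫⁻ x in ball 0 1 \ C, ‖π ∘L Ψ x‖ₑ ^ p ≤ 6 ^ p * (M * volume (ball (0 : E n) 1 \ C) + δ) := by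
  classical
  set X := closedBall (0 : E n) (1 - ε / 2) with hX
  set U := ball (0 : E n) 1 \ C with hU
  have hμ0 := hS.pos
  have hϱc := hS.lip.continuous
  have hpos : ∀ x, x ∉ C ↔ 0 < ϱ x := fun x => by
    rw [← hC, (hS.nonneg x).lt_iff_ne']
  have hCc : IsClosed C := by
    rw [show C = {x | ϱ x = 0} from Set.ext fun x => (hC x).symm]
    exact isClosed_eq hϱc continuous_const
  have hUm : MeasurableSet U := measurableSet_ball.diff hCc.measurableSet
  have hUf : volume U < ⊤ := (measure_mono sdiff_subset).trans_lt measure_ball_lt_top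
  have hp0 : 0 < p := by linarith
  set g : E n → ℝ := fun y => 2 * θ y * y i0 with hg
  have hgc : ContDiff ℝ 1 g := by fun_prop
  have hg0 : ∀ y, y ∉ ball (0 : E n) 1 → g y = 0 := fun y hy => by
    simp [hg, hθ0 y (by linarith [not_lt.1 (mt mem_ball_zero_iff.2 hy)])]
  obtain ⟨L, hL⟩ := hgc.lipschitzWith_of_hasCompactSupport (HasCompactSupport.intro
    (isCompact_closedBall 0 1) fun y hy => hg0 y fun h => hy (ball_subset_closedBall h)) one_ne_zero
  set Lam : E n → E n := fun y => y - g y • v with hLam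
  have hLc : ContDiff ℝ 1 Lam := contDiff_id.sub (hgc.smul contDiff_const)
  have hLd : ∀ y, HasFDerivAt Lam
      (ContinuousLinearMap.id ℝ (E n) - (fderiv ℝ g y).smulRight v) y := fun y =>
    (hasFDerivAt_id y).sub ((hgc.differentiable one_ne_zero y).hasFDerivAt.smul_const v)
  have hLn : ∀ y w, ‖fderiv ℝ Lam y w‖ ≤ (1 + L) * ‖w‖ := fun y w => by
    rw [(hLd y).fderiv]
    refine (norm_sub_le w (fderiv ℝ g y w • v)).trans ?_
    have h1 := (fderiv ℝ g y).le_of_opNorm_le (norm_fderiv_le_of_lipschitz ℝ hL) w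
    rw [norm_smul, hv1]
    linarith
  have hπn : ‖π‖ ≤ 2 := π.opNorm_le_bound zero_le_two fun x => by
    rw [hπ]
    refine (norm_sub_le _ _).trans ?_
    rw [norm_smul, hv1]
    linarith [norm_le_pi_norm x i0]
  set R : E n →L[ℝ] E n :=
    ContinuousLinearMap.id ℝ (E n) - ((2 : ℝ) • ContinuousLinearMap.proj i0).smulRight v with hR
  have hRn : ‖R‖ ≤ 3 := R.opNorm_le_bound (by norm_num) fun x => by
    refine (norm_sub_le x ((2 * x i0) • v)).trans ?_
    rw [norm_smul, hv1, norm_mul, Real.norm_ofNat]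
    linarith [norm_le_pi_norm x i0]
  have hRd : R.det = -1 := by
    have h1 : (R : E n →ₗ[ℝ] E n) = LinearMap.transvection ((-2 : ℝ) • LinearMap.proj i0) v := by
      refine LinearMap.ext fun x => ?_
      simp [hR, LinearMap.transvection.apply, sub_eq_add_neg]
    rw [ContinuousLinearMap.det, h1, LinearMap.transvection.det]
    simp [hv]
    norm_num
  have hLR : ∀ x ∈ C, fderiv ℝ Lam x = R := fun x hx => by
    have h1 : g =ᶠ[𝓝 x] ((2 : ℝ) • ContinuousLinearMap.proj i0 : E n →L[ℝ] ℝ) := by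
      filter_upwards [isOpen_ball.mem_nhds (hCb hx)] with y hy
      simp [hg, hθ1 y (by linarith [mem_ball_zero_iff.1 hy])]
    rw [(hLd x).fderiv, h1.fderiv_eq, ContinuousLinearMap.fderiv]
  set om : ℝ → ℝ≥0∞ := fun s => ⨆ y ∈ closedBall (0 : E n) 1 ∩ {y | s / Λ ≤ ϱ y}, ‖fderiv ℝ F y‖ₑ
    with hom
  have hoa : Antitone om := fun s s' h => biSup_mono fun y hy =>
    ⟨hy.1, le_trans (by gcongr) (show s' / Λ ≤ ϱ y from hy.2)⟩
  have hof : ∀ s, 0 < s → om s < ⊤ := fun s hs => by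
    obtain ⟨K, hK⟩ := hLL.norm_fderiv_le ((isCompact_closedBall (0 : E n) 1).inter_right
      (isClosed_le continuous_const hϱc : IsClosed {y | s / Λ ≤ ϱ y}))
      fun y hy => (hpos y).2 (lt_of_lt_of_le (by positivity) (show s / Λ ≤ ϱ y from hy.2))
    refine lt_of_le_of_lt (iSup₂_le fun y hy => ?_) (ENNReal.ofReal_lt_top (r := K))
    rw [← ofReal_norm]
    exact ENNReal.ofReal_le_ofReal (hK y hy)
  have hr : 0 < p * q / (q - p) := div_pos (mul_pos hp0 (hp0.trans hpq)) (sub_pos.2 hpq)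
  set w : E n → ℝ≥0∞ := fun x => om (ϱ x) ^ (p * q / (q - p)) with hw
  have hwm : Measurable w := (hoa.measurable.comp hϱc.measurable).pow_const _
  have : IsFiniteMeasure (volume.restrict (ball (0 : E n) 1)) :=
    isFiniteMeasure_restrict.2 measure_ball_lt_top.ne
  set ν' := (volume.restrict (ball (0 : E n) 1)).withDensity w with hν'
  obtain ⟨ς, hς, hc'⟩ := hc ϱ μ X (volume.restrict U) ν' δ hS.lip hS.nonneg hμ0 hS.le_one hS.bdd
    hS.sub (isFiniteMeasure_restrict.2 hUf.ne) (by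
      rw [Measure.restrict_apply' hUm]
      convert measure_empty (μ := (volume : Measure (E n)))
      exact eq_empty_of_forall_notMem fun x hx => hx.2.2 ((hC x).1 hx.1))
    ((withDensity_absolutelyContinuous _ _).trans Measure.absolutelyContinuous_restrict)
    (fun s hs => by
      have hm : MeasurableSet {x | s ≤ ϱ x} := measurableSet_le measurable_const hϱc.measurable
      rw [hν', withDensity_apply _ hm]
      refine lt_of_le_of_lt (setLIntegral_mono' (g := fun _ => om s ^ (p * q / (q - p))) hm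
        fun x hx => ENNReal.rpow_le_rpow (hoa hx) hr.le) ?_
      rw [setLIntegral_const]
      exact ENNReal.mul_lt_top (ENNReal.rpow_lt_top_of_nonneg hr.le (hof s hs).ne)
        (measure_lt_top _ _)) hδ
  have hs := mesh_pos hμ0
  have hex : ∀ k, ∃ η : ℝ, 0 < η ∧ ∀ I z, Active ϱ μ X k I z → I.card = j →
      ∀ x ∈ face (mesh μ k) I z,
      (∀ i ∈ I, mesh μ k * z i + ς k ≤ x i ∧ x i ≤ mesh μ k * (z i + 1) - ς k) →
      η * ‖fderiv ℝ F x‖ ≤ 1 ∧ ∀ y, dist y x ≤ η → ‖fderiv ℝ F y - fderiv ℝ F x‖ ≤ 1 := by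
    intro k
    obtain ⟨η, h1, h2⟩ := as_eta (F := F) (Q := ⋃ a ∈ {a : Finset (Fin n) × (Fin n → ℤ) |
      Active ϱ μ X k a.1 a.2 ∧ a.1.card = j}, face (mesh μ k) a.1 a.2 ∩ ⋂ i ∈ a.1,
        {x | x i ∈ Icc (mesh μ k * a.2 i + ς k) (mesh μ k * (a.2 i + 1) - ς k)})
      (((hS.finite_level k).subset fun a ha => ha.1).isCompact_biUnion fun a _ =>
        (isCompact_face _ _ _).inter_right (isClosed_biInter fun i _ =>
          isClosed_Icc.preimage (continuous_apply i))) (fun x hx => by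
        obtain ⟨a, ha, h3, h4⟩ := mem_iUnion₂.1 hx
        refine (hFK k a.1 a.2 ha.1 ha.2).2 x ⟨fun i hi => ?_, h3.2⟩
        have h5 : x i ∈ Icc _ _ := mem_iInter₂.1 h4 i hi
        constructor <;> linarith [h5.1, h5.2, hς k])
    exact ⟨η, h1, fun I z ha hI x hx hx' =>
      h2 x (mem_iUnion₂.2 ⟨(I, z), ⟨ha, hI⟩, hx, mem_iInter₂.2 hx'⟩)⟩
  choose η hη hη' using hex
  obtain ⟨h, B, bad, a1, a2, a3, a4, a5, a6, a7, a8, a9, a10, a11, a12⟩ := hc' η hη
  have hΛμ : μ ≤ Λ * μ := le_mul_of_one_le_left hμ0.le hΛ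
  have hh0 : ∀ x, 1 - ε / 8 ≤ ‖x‖ → h x = x := fun x hx => a2 x fun y hy => by
    rw [hX, mem_closedBall_zero_iff] at hy
    rw [dist_eq_norm]
    linarith [norm_sub_norm_le x y]
  have hout : ∀ x : E n, x ∉ ball (0 : E n) 1 → 1 - ε / 8 < ‖x‖ := fun x hx => by
    linarith [not_lt.1 (mt mem_ball_zero_iff.2 hx)]
  have hhC : ∀ x, x ∉ C → h x ∉ C := fun x hx => (hpos _).2
    ((mul_pos_iff_of_pos_left (by linarith)).1 (((hpos x).1 hx).trans_le (a4 x).2))
  set b := h.trans F with hb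
  have hb1 : ∀ x, b x = F (h x) := fun x => rfl
  have hb0 : ∀ x, 1 - ε / 8 < ‖x‖ → b x = x := fun x hx => by
    rw [hb1, hh0 x hx.le, hF0 x (by linarith)]
  have hbN : ∀ᵐ x, x ∉ C → Nice h x ∧ Nice F (h x) := by
    filter_upwards [a9.ae_comp hN] with x hx hx'
    exact ⟨(hx ((hpos x).1 hx')).1, (hx ((hpos x).1 hx')).2 (hhC x hx')⟩
  have hbN' : ∀ᵐ x, x ∉ C → Nice b x := hbN.mono fun x hx hx' => (hx hx').2.comp (hx hx').1
  have key : ∀ (T : E n →L[ℝ] E n) (t c : ℝ), ‖T‖ ≤ t → 0 ≤ c →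
      (∀ y u, ‖T (fderiv ℝ Lam y u)‖ ≤ c * ‖u‖) → ∫⁻ x in U, ‖T ∘L fderiv ℝ b x‖ₑ ^ p ≤
        ENNReal.ofReal (2 * t + c) ^ p * (M * volume U + δ) := by
    intro T t c hT hc0 hTL
    have ht := (norm_nonneg _).trans hT
    have hBm : Measurable fun x => ENNReal.ofReal (B x) ^ q := a5.ennreal_ofReal.pow_const q
    calc _ ≤ ∫⁻ x in U, ENNReal.ofReal (2 * t + c) ^ p *
          (ENNReal.ofReal (B x) ^ q + (toMeasurable ν' bad).indicator w x) := by
          refine lintegral_mono_ae ?_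
          filter_upwards [ae_restrict_of_ae hbN, ae_restrict_mem hUm] with x hx hxU
          obtain ⟨n1, n2⟩ := hx hxU.2
          have hϱ := (hpos x).1 hxU.2
          have hB0 : 0 ≤ B x := by linarith [a6 x]
          have hH := (a7 x hϱ).norm_fderiv_le hB0
          have hD : fderiv ℝ b x = fderiv ℝ F (h x) ∘L fderiv ℝ h x :=
            fderiv_comp x n2.differentiableAt n1.differentiableAt
          rw [hD]
          by_cases hbad : x ∈ toMeasurable ν' bad
          · rw [indicator_of_mem hbad]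
            refine le_trans ?_ (mul_le_mul_right (as_young hp0 hpq _ _) _)
            rw [← ENNReal.mul_rpow_of_nonneg _ _ hp0.le]
            refine ENNReal.rpow_le_rpow ((fr_enorm_comp _ _).trans (mul_le_mul' ?_
              ((fr_enorm_comp _ _).trans (mul_le_mul' ?_ ?_)))) hp0.le
            · rw [← ofReal_norm]
              exact ENNReal.ofReal_le_ofReal (by linarith)
            · refine le_iSup₂_of_le (f := fun y (_ : y ∈ closedBall (0 : E n) 1 ∩
                {y | ϱ x / Λ ≤ ϱ y}) => ‖fderiv ℝ F y‖ₑ) (h x) ⟨ball_subset_closedBall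
                (fr_maps (fun y hy => hh0 y (hout y hy).le) hxU.1), ?_⟩ le_rfl
              rw [mem_ofPred_eq, div_le_iff₀' (by linarith)]
              exact (a4 x).2
            · rw [← ofReal_norm]
              exact ENNReal.ofReal_le_ofReal hH
          have h1 : ‖T ∘L fderiv ℝ F (h x) ∘L fderiv ℝ h x‖ ≤ (2 * t + c) * B x := by
            by_cases hD0 : x ∈ D ϱ μ X 0
            · obtain ⟨k, I, z, g1, g2, g3, g4⟩ :=
                a12 x hD0 hϱ fun h' => hbad (subset_toMeasurable _ _ h')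
              have g5 : snap (mesh μ k) I z (h x) ∈ oface (mesh μ k) I z :=
                snap_mem_oface fun i hi => by
                  constructor <;> linarith [(g3 i hi).1, (g3 i hi).2, hς k]
              obtain ⟨g6, g7⟩ := hη' k I z g2 g1 _ (oface_subset_face g5)
                fun i hi => by simpa [snap, hi] using g3 i hi
              refine as_good (I := I) hT hc0 (hη k) hH
                (g7 _ (dist_snap_le (hη k).le fun i hi => (g4 i hi).1)) g6 (fun u hu => ?_)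
                fun ξ i hi => ?_
              · rw [as_tangent g5 (((hFK k I z g2 g1).2 _ g5).differentiableAt one_ne_zero)
                  (hLc.differentiable one_ne_zero _) (hFK k I z g2 g1).1 hu]
                exact hTL _ _
              · have g8 := (g4 i hi).2.norm_fderiv_le (mul_nonneg (hη k).le hB0)
                rw [fderiv_apply n1.differentiableAt] at g8
                exact ContinuousLinearMap.le_of_opNorm_le _ g8 ξ
            · have g1 : ¬‖x‖ ≤ 1 - ε / 2 := fun h' =>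
                hD0 (hS.subset_D (mem_closedBall_zero_iff.2 h'))
              have g2 := a3 x
              rw [dist_comm, dist_eq_norm] at g2
              have g3 : (F : E n → E n) =ᶠ[𝓝 (h x)] id := by
                filter_upwards [(isOpen_lt continuous_const continuous_norm).mem_nhds
                  (show 1 - ε < ‖h x‖ by linarith [norm_sub_norm_le x (h x), not_le.1 g1])]
                  with y hy using hF0 y hy
              rw [g3.fderiv_eq, fderiv_id, ContinuousLinearMap.id_comp]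
              exact (T.opNorm_comp_le _).trans
                (mul_le_mul (by linarith) hH (norm_nonneg _) (by linarith))
          rw [indicator_of_notMem hbad, add_zero]
          calc _ ≤ (ENNReal.ofReal (2 * t + c) * ENNReal.ofReal (B x)) ^ p := by
                rw [← ENNReal.ofReal_mul (by linarith), ← ofReal_norm]
                gcongr
            _ ≤ _ := by
                rw [ENNReal.mul_rpow_of_nonneg _ _ hp0.le]
                exact mul_le_mul_right (ENNReal.rpow_le_rpow_of_exponent_le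
                  (ENNReal.one_le_ofReal.2 (a6 x)) hpq.le) _
      _ ≤ _ := by
          rw [lintegral_const_mul _ (hBm.fun_add (hwm.indicator (measurableSet_toMeasurable _ _))),
            lintegral_add_left hBm]
          refine mul_le_mul_right (add_le_add (by simpa using a10) (le_trans ?_ a11)) _
          rw [← measure_toMeasurable bad, hν', withDensity_apply _ (measurableSet_toMeasurable _ _),
            ← lintegral_indicator (measurableSet_toMeasurable _ _)]
          exact lintegral_mono_set sdiff_subset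
  have hfin : ∫⁻ x in U, ‖fderiv ℝ b x‖ₑ ^ p < ⊤ := by
    refine lt_of_le_of_lt (key (ContinuousLinearMap.id ℝ (E n)) 1 (1 + L)
      ContinuousLinearMap.norm_id_le (by positivity) hLn) ?_
    exact ENNReal.mul_lt_top (ENNReal.rpow_lt_top_of_nonneg hp0.le ENNReal.ofReal_ne_top)
      (ENNReal.add_lt_top.2 ⟨ENNReal.mul_lt_top hM.lt_top hUf, hδ'.lt_top⟩)
  have hΨ : ∀ x, x ∉ C → C.piecewise (fun _ => R) (fderiv ℝ b) x = fderiv ℝ b x :=
    fun x hx => piecewise_eq_of_notMem _ _ _ hx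
  have hΨ' : ∀ x ∈ C, C.piecewise (fun _ => R) (fderiv ℝ b) x = R :=
    fun x hx => piecewise_eq_of_mem _ _ _ hx
  have hLn' : ∀ y, ‖fderiv ℝ Lam y‖ₑ ≤ ENNReal.ofReal (1 + L) := fun y => by
    rw [← ofReal_norm]
    exact ENNReal.ofReal_le_ofReal (ContinuousLinearMap.opNorm_le_bound _ (by positivity) (hLn y))
  refine ⟨b, C.piecewise (fun _ => R) (fderiv ℝ b),
    U ∩ {x | Nice b x ∧ 0 < (fderiv ℝ b x).det}, ⟨fun x hx => hb0 x (hout x hx),
    measurable_const.piecewise hCc.measurableSet (measurable_fderiv ℝ _), fun x hx => ?_, ?_, ?_,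
    fun x hx => hx.1.1, fun x hx => ?_, ?_, ?_⟩, inter_subset_left,
    fun x hx => (hΨ' x hx).symm ▸ hRn, ?_⟩
  · have h1 : (b : E n → E n) =ᶠ[𝓝 x] id := by
      filter_upwards [(isOpen_lt continuous_const continuous_norm).mem_nhds (hout x hx)]
        with y hy using hb0 y hy
    rw [hΨ x fun h' => hx (ball_subset_ball (by linarith) (hCb h')), h1.fderiv_eq, fderiv_id]
  · have hLd' := hLc.differentiable one_ne_zero
    have A1 := approx0_of_glue C hCc (fun x => b x - Lam x) (b.continuous.sub hLc.continuous)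
      (fun x hx => by rw [hb1, a1 x ((hC x).2 hx), hFC x hx, sub_self])
      (fun x hx => by simp [hb0 x (hout x hx), hLam, hg0 x hx]) (fun x hx => by
        have h1 : LL Cᶜ h := LL.of_PLip fun y hy => by
          have h2 := (hpos y).1 hy
          obtain ⟨K, hK⟩ := a8 _ (half_pos h2)
          refine ⟨K, ?_⟩
          filter_upwards [(isOpen_lt continuous_const hϱc).mem_nhds (half_lt_self h2)] with y' h3
          exact (a7 y' ((half_pos h2).trans h3)).mono (hK y' (le_of_lt h3))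
        obtain ⟨K, t, ht, hK⟩ := hLL.comp h1 hhC x hx
        obtain ⟨K', t', ht', hK'⟩ := hLc.contDiffAt.exists_lipschitzOnWith (x := x)
        exact ⟨_, _, inter_mem ht ht',
          (hK.mono inter_subset_left).sub (hK'.mono inter_subset_right)⟩) (by
        calc _ ≤ ∫⁻ x in U, (ENNReal.ofReal (1 + L) + 1) + ‖fderiv ℝ b x‖ₑ ^ p := by
              refine lintegral_mono_ae ?_
              filter_upwards [ae_restrict_of_ae hbN', ae_restrict_mem hUm] with x hx hxU
              rw [fderiv_fun_sub (hx hxU.2).differentiableAt (hLd' x), add_assoc, add_comm]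
              exact (enorm_sub_le).trans (add_le_add (fr_le_en hp _) (hLn' x))
          _ < ⊤ := by
              rw [lintegral_add_left measurable_const, setLIntegral_const]
              exact ENNReal.add_lt_top.2 ⟨ENNReal.mul_lt_top (by simp) hUf, hfin⟩)
    have A2 := approx0_of_glue ∅ isClosed_empty (fun x => Lam x - x)
      (hLc.continuous.sub continuous_id) (fun x hx => hx.elim)
      (fun x hx => by simp [hLam, hg0 x hx])
      (LL.of_contDiffAt fun x _ => (hLc.sub contDiff_id).contDiffAt) (by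
        refine lt_of_le_of_lt (lintegral_mono (g := fun _ => ENNReal.ofReal (1 + L) + 1)
          fun x => ?_) ?_
        · simp only
          rw [fderiv_fun_sub (hLd' x) differentiableAt_fun_id, fderiv_fun_id]
          refine (enorm_sub_le).trans (add_le_add (hLn' x) ?_)
          rw [← ofReal_norm]
          exact ENNReal.ofReal_le_one.2 ContinuousLinearMap.norm_id_le
        · rw [setLIntegral_const, sdiff_empty]
          exact ENNReal.mul_lt_top (by simp) measure_ball_lt_top)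
    refine as_congr (A1.fr_add A2 ((measurable_fderiv ℝ _).indicator hCc.measurableSet.compl))
      (fun x => by simp) ?_
    filter_upwards [hbN'] with x hx
    rw [compl_empty, indicator_univ, fderiv_fun_sub (hLd' x) differentiableAt_fun_id, fderiv_fun_id]
    by_cases hxC : x ∈ C
    · rw [indicator_of_notMem (notMem_compl_iff.2 hxC), zero_add, hLR x hxC, hΨ' x hxC]
    · rw [indicator_of_mem (mem_compl hxC), fderiv_fun_sub (hx hxC).differentiableAt (hLd' x),
        hΨ x hxC, sub_add_sub_cancel]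
  · refine (isOpen_ball.sdiff hCc).inter (isOpen_iff_mem_nhds.2 fun x hx => ?_)
    have h1 : ContinuousAt (fun y => (fderiv ℝ b y).det) x :=
      ContinuousLinearMap.continuous_det.continuousAt.comp (hx.1.1.continuousAt_fderiv one_ne_zero)
    exact hx.1.eventually.and (h1.eventually (lt_mem_nhds hx.2))
  · rw [hΨ x hx.1.2]
    exact ⟨hx.2.1.1, rfl, hx.2.2⟩
  · filter_upwards [hbN'] with x hx hx1 hx2
    by_cases hxC : x ∈ C
    · rw [hΨ' x hxC, hRd]
      norm_num
    · rw [hΨ x hxC]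
      exact lt_of_le_of_ne (not_lt.1 fun h' => hx2 ⟨⟨hx1, hxC⟩, hx hxC, h'⟩) (hx hxC).det_ne_zero
  · rw [← lintegral_inter_add_sdiff _ _ hCc.measurableSet]
    refine ENNReal.add_lt_top.2 ⟨?_, ?_⟩
    · rw [setLIntegral_congr_fun (g := fun _ => ‖R‖ₑ ^ p)
        (measurableSet_ball.inter hCc.measurableSet) fun x hx => by simp only [hΨ' x hx.2],
        setLIntegral_const]
      exact ENNReal.mul_lt_top (ENNReal.rpow_lt_top_of_nonneg hp0.le enorm_ne_top)
        ((measure_mono inter_subset_left).trans_lt measure_ball_lt_top)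
    · rwa [setLIntegral_congr_fun (g := fun x => ‖fderiv ℝ b x‖ₑ ^ p) hUm
        fun x hx => by simp only [hΨ x hx.2]]
  · rw [setLIntegral_congr_fun (g := fun x => ‖π ∘L fderiv ℝ b x‖ₑ ^ p) hUm
      fun x hx => by simp only [hΨ x hx.2]]
    convert key π 2 2 hπn zero_le_two fun y u => ?_ using 3
    · norm_num
    · have h1 : π (fderiv ℝ Lam y u) = π u := by
        rw [(hLd y).fderiv]
        simp [hπ v, hv]
      rw [h1]
      exact π.le_of_opNorm_le hπn u

end Pool.Agent.P.MP_667fa2_an
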