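import Pool.Agent.P.MP_667fa2_an.Push2

/-! Choosing the centre of a push by averaging. -/

namespace Pool.Agent.P.MP_667fa2_an

open Set Filter Topology MeasureTheory Metric
open scoped ENNReal NNReal

variable {n : ℕ}

/-- Uniform distribution on the middle third. -/
noncomputable def m1 : Measure ℝ := (3 : ℝ≥0∞) • volume.restrict (Icc (1 / 3 : ℝ) (2 / 3))

instance : IsProbabilityMeasure m1 := ⟨by
  simp only [m1, Measure.smul_apply, Measure.restrict_apply_univ, Real.volume_Icc, smul_eq_mul]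
  rw [show (2 / 3 - 1 / 3 : ℝ) = 3⁻¹ by norm_num, ENNReal.ofReal_inv_of_pos (by norm_num)]
  simpa using ENNReal.mul_inv_cancel (a := 3) (by norm_num) (by norm_num)⟩

theorem m1_closedBall (x : ℝ) {r : ℝ} (_hr : 0 ≤ r) :
    m1 (closedBall x r) ≤ ENNReal.ofReal (6 * r) := by
  simp only [m1, Measure.smul_apply, smul_eq_mul]
  calc 3 * volume.restrict (Icc (1 / 3 : ℝ) (2 / 3)) (closedBall x r)
      ≤ 3 * volume (closedBall x r) := by gcongr; exact Measure.restrict_le_self
    _ = _ := by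
      rw [Real.volume_closedBall, show (6 * r) = 3 * (2 * r) by ring,
        ENNReal.ofReal_mul (by norm_num)]
      simp

/-- Uniform distribution of the centre. -/
noncomputable def pb (n : ℕ) : Measure (E n) := Measure.pi fun _ : Fin n => m1

instance : IsProbabilityMeasure (pb n) := by unfold pb; infer_instance

theorem ae_pb : ∀ᵐ a ∂(pb n), ∀ i, 1 / 3 ≤ a i ∧ a i ≤ 2 / 3 := by
  rw [ae_all_iff]
  intro i
  have h1 : ∀ᵐ t ∂m1, 1 / 3 ≤ t ∧ t ≤ 2 / 3 :=
    Measure.ae_smul_measure (ae_restrict_mem measurableSet_Icc) _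
  exact (Measure.quasiMeasurePreserving_eval (fun _ : Fin n => m1) i).ae h1

theorem pb_slice {S : Set (E n)} (hS : MeasurableSet S) (i : Fin n) {δ : ℝ≥0∞}
    (h : ∀ a : E n, m1 {t | Function.update a i t ∈ S} ≤ δ) : pb n S ≤ δ := by
  have h1 : ∫⁻ a, S.indicator 1 a ∂(pb n) ≤ ∫⁻ _, δ ∂(pb n) := by
    refine lintegral_le_of_lmarginal_le {i} (measurable_one.indicator hS) measurable_const ?_
    intro a
    simp only [lmarginal_singleton, lintegral_const, measure_univ, mul_one]
    have hm : MeasurableSet {t | Function.update a i t ∈ S} := measurable_update a hS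
    refine le_trans (le_of_eq ?_) (h a)
    rw [← lintegral_indicator_one hm]
    rfl
  simpa [lintegral_indicator_one hS] using h1

theorem pb_box (I : Finset (Fin n)) (u : E n) {r : ℝ} (hr : 0 ≤ r) :
    pb n {a | ∀ i ∈ I, a i ∈ closedBall (u i) r} ≤ ENNReal.ofReal ((6 * r) ^ I.card) := by
  have h1 : {a : E n | ∀ i ∈ I, a i ∈ closedBall (u i) r} =
      Set.pi univ fun i => if i ∈ I then closedBall (u i) r else univ := by
    ext a
    simp only [mem_ofPred_eq, Set.mem_pi, mem_univ, true_implies]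
    refine forall_congr' fun i => ?_
    by_cases hi : i ∈ I <;> simp [hi]
  rw [h1, pb, Measure.pi_pi, ENNReal.ofReal_pow (by positivity), ← Finset.prod_const,
    ← Finset.prod_ite_mem_eq I]
  refine Finset.prod_le_prod' fun i _ => ?_
  by_cases hi : i ∈ I
  · simpa [hi] using m1_closedBall (u i) hr
  · simp [hi]

theorem exists_le_three {Ω : Type*} [MeasurableSpace Ω] (P : Measure Ω) [IsProbabilityMeasure P]
    {f g : Ω → ℝ≥0∞} (hf : Measurable f) (hg : Measurable g) {p : Ω → Prop} (hp : ∀ᵐ a ∂P, p a) :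
    ∃ a, p a ∧ f a ≤ 3 * ∫⁻ a, f a ∂P ∧ g a ≤ 3 * ∫⁻ a, g a ∂P := by
  have aux : ∀ {f : Ω → ℝ≥0∞}, Measurable f → 3 * P {a | 3 * ∫⁻ a, f a ∂P < f a} ≤ 1 := by
    intro f hf
    set c := ∫⁻ a, f a ∂P with hc
    by_cases h0 : c = 0
    · have h1 : ∀ᵐ a ∂P, f a = 0 := (lintegral_eq_zero_iff hf).1 h0
      have h2 : P {a | 3 * c < f a} = 0 := by
        refine measure_mono_null (fun a ha => ?_) (ae_iff.1 h1)
        exact (lt_of_le_of_lt (by simp) ha).ne'
      simp [h2]
    by_cases ht : c = ⊤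
    · simp [ht]
    have h1 := mul_meas_ge_le_lintegral (μ := P) hf (3 * c)
    have h2 : c * (3 * P {a | 3 * c < f a}) ≤ c * 1 := by
      calc c * (3 * P {a | 3 * c < f a}) = 3 * c * P {a | 3 * c < f a} := by ring
        _ ≤ 3 * c * P {a | 3 * c ≤ f a} := 
          mul_le_mul_right (measure_mono fun a (ha : 3 * c < f a) => ha.le) _
        _ ≤ c * 1 := by rw [mul_one]; exact h1
    exact (ENNReal.mul_le_mul_iff_right h0 ht).1 h2
  by_contra hc
  push Not at hc
  have h1 : (univ : Set Ω) ⊆ ({a | ¬p a} ∪ {a | 3 * ∫⁻ a, f a ∂P < f a}) ∪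
      {a | 3 * ∫⁻ a, g a ∂P < g a} := by
    intro a _
    by_cases h2 : p a
    · by_cases h3 : f a ≤ 3 * ∫⁻ a, f a ∂P
      · exact Or.inr (hc a h2 h3)
      · exact Or.inl (Or.inr (not_le.1 h3))
    · exact Or.inl (Or.inl h2)
  have h2 := (measure_mono (μ := P) h1).trans ((measure_union_le _ _).trans
    (add_le_add (measure_union_le _ _) le_rfl))
  rw [measure_univ, ae_iff.1 hp, zero_add] at h2
  have h3 : (3 : ℝ≥0∞) * 1 ≤ 1 + 1 := by
    refine (mul_le_mul_right h2 3).trans ?_
    rw [mul_add]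
    exact add_le_add (aux hf) (aux hg)
  norm_num at h3

theorem measurable_gz (c : E n) (s l : ℝ) (i : Fin n) :
    Measurable fun p : E n × E n => gz c s l p.2 i p.1 := by
  unfold gz; fun_prop

theorem measurable_rad (I : Finset (Fin n)) (c : E n) (s l : ℝ) :
    Measurable fun p : E n × E n => rad I c s l p.2 p.1 := by
  unfold rad
  refine (measurable_pi_lambda _ fun i => ?_).norm
  by_cases hi : i ∈ I
  · simpa [hi] using measurable_gz c s l i
  · simp [hi]

/-- The averaging constant. -/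
noncomputable def Cq (n m : ℕ) (q : ℝ) : ℝ≥0∞ :=
  ENNReal.ofReal (11 + bumpK n) ^ q *
    (1 + ∑' j : ℕ, ENNReal.ofReal ((2 : ℝ) ^ q * 6 ^ n * ((2 : ℝ) ^ q / 2 ^ m) ^ j))

theorem Cq_ne_top (n : ℕ) {m : ℕ} {q : ℝ} (hq : 0 < q) (hqm : q < m) : Cq n m q ≠ ⊤ := by
  refine ENNReal.mul_ne_top (ENNReal.rpow_ne_top_of_nonneg hq.le ENNReal.ofReal_ne_top)
    (ENNReal.add_ne_top.2 ⟨ENNReal.one_ne_top, ?_⟩)
  have h1 : (2 : ℝ) ^ q / 2 ^ m < 1 := by
    rw [div_lt_one (by positivity), ← Real.rpow_natCast]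
    exact Real.rpow_lt_rpow_of_exponent_lt one_lt_two hqm
  rw [← ENNReal.ofReal_tsum_of_nonneg (fun j => by positivity)
    ((summable_geometric_of_lt_one (by positivity) h1).mul_left _)]
  exact ENNReal.ofReal_ne_top

theorem one_le_Cq (n m : ℕ) {q : ℝ} (hq : 0 < q) : 1 ≤ Cq n m q := by
  have h1 : (1 : ℝ≥0∞) ≤ ENNReal.ofReal (11 + bumpK n) :=
    ENNReal.one_le_ofReal.2 (by linarith [(bumpK n).2])
  exact one_le_mul (ENNReal.one_le_rpow h1 hq) le_self_add

variable {I : Finset (Fin n)} {c : E n} {s l e : ℝ}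

theorem mem_closedBall_of_rad {a y : E n} (h : Par s l e a) {r : ℝ} (hr : rad I c s l a y ≤ r)
    {i : Fin n} (hi : i ∈ I) : a i ∈ closedBall ((y i - c i) / s) r := by
  have h1 := (abs_le_gz h c i y).trans
    (mul_le_mul_of_nonneg_left ((gz_le_rad hi y).trans hr) h.s_pos.le)
  have hs := h.s_pos
  have h2 : a i - (y i - c i) / s = -(y i - (c i + s * a i)) / s := by field_simp; ring
  rw [mem_closedBall, Real.dist_eq, h2, abs_div, abs_neg, abs_of_pos hs, div_le_iff₀ hs]
  linarith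

theorem kernel_le {m : ℕ} (hm : m ≤ I.card) {q : ℝ} (hq : 0 < q)
    (h : ∀ a : E n, (∀ i, 1 / 3 ≤ a i ∧ a i ≤ 2 / 3) → Par s l e a) (c y : E n) :
    ∫⁻ a, ENNReal.ofReal ((11 + bumpK n) / clp e (rad I c s l a y)) ^ q ∂(pb n) ≤ Cq n m q := by
  set T : ℕ → Set (E n) := fun j => {a | ∀ i ∈ I, a i ∈ closedBall ((y i - c i) / s) ((1 / 2) ^ j)}
  have hT : ∀ j, MeasurableSet (T j) := fun j => by
    have : T j = ⋂ i ∈ I, (fun a : E n => a i) ⁻¹' closedBall ((y i - c i) / s) ((1 / 2) ^ j) := by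
      ext a; simp [T]
    rw [this]
    exact Finset.measurableSet_biInter _ fun i _ =>
      measurable_pi_apply i measurableSet_closedBall
  have hK : (0 : ℝ) ≤ 11 + bumpK n := by linarith [(bumpK n).2]
  have h1 : ∀ᵐ a ∂(pb n), ENNReal.ofReal ((11 + bumpK n) / clp e (rad I c s l a y)) ^ q ≤
      ENNReal.ofReal (11 + bumpK n) ^ q *
        (1 + ∑' j : ℕ, (T j).indicator (fun _ => ENNReal.ofReal (((2 : ℝ) ^ q) ^ (j + 1))) a) := by
    filter_upwards [ae_pb] with a ha
    have hP := h a ha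
    have hc0 := clp_pos hP.e_pos (rad I c s l a y)
    rw [div_eq_mul_inv, ENNReal.ofReal_mul hK, ENNReal.mul_rpow_of_nonneg _ _ hq.le]
    gcongr
    rcases le_total 1 (rad I c s l a y) with hr | hr
    · rw [clp_of_one_le hP.e_lt hr]; simp
    obtain ⟨j, hj1, hj2⟩ := exists_nat_pow_near_of_lt_one hc0 (clp_le_one hP.e_lt _)
      (by norm_num : (0 : ℝ) < 1 / 2) (by norm_num)
    refine le_add_left (le_trans ?_ (ENNReal.le_tsum j))
    have hmem : a ∈ T j := fun i hi => mem_closedBall_of_rad hP ((self_le_clp hr).trans hj2) hi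
    rw [indicator_of_mem hmem, ENNReal.ofReal_rpow_of_nonneg (by positivity) hq.le,
      ← Real.rpow_natCast, ← Real.rpow_mul (by norm_num), mul_comm q, Real.rpow_mul (by norm_num),
      Real.rpow_natCast]
    refine ENNReal.ofReal_le_ofReal (Real.rpow_le_rpow (by positivity) ?_ hq.le)
    rw [inv_le_comm₀ hc0 (by positivity), ← inv_pow]
    simpa using hj1.le
  refine (lintegral_mono_ae h1).trans ?_
  rw [lintegral_const_mul' _ _ (ENNReal.rpow_ne_top_of_nonneg hq.le ENNReal.ofReal_ne_top),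
    lintegral_add_left measurable_const,
    lintegral_tsum fun j => (measurable_const.indicator (hT j)).aemeasurable]
  simp only [lintegral_const, measure_univ, mul_one, Cq]
  gcongr with j
  rw [lintegral_indicator_const (hT j)]
  refine (mul_le_mul_right (pb_box I _ (by positivity)) _).trans ?_
  rw [← ENNReal.ofReal_mul (by positivity)]
  refine ENNReal.ofReal_le_ofReal ?_
  have h2 : (6 * (1 / 2 : ℝ) ^ j) ^ I.card ≤ 6 ^ n * ((1 / 2 : ℝ) ^ j) ^ m := by
    rw [mul_pow]
    refine mul_le_mul (pow_le_pow_right₀ (by norm_num) (by simpa using I.card_le_univ))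
      (pow_le_pow_of_le_one (by positivity) (pow_le_one₀ (by norm_num) (by norm_num)) hm)
      (by positivity) (by positivity)
  refine (mul_le_mul_of_nonneg_left h2 (by positivity)).trans (le_of_eq ?_)
  simp only [div_pow, one_pow]
  rw [← pow_mul (2 : ℝ) m j, ← pow_mul (2 : ℝ) j m, mul_comm m j]
  field_simp
  ring

/-- The bad event for a push. -/
def Bad (I : Finset (Fin n)) (c : E n) (s l e σi σo : ℝ) (a y : E n) : Prop :=
  rad I c s l a y ≤ e ∨ ∃ i ∈ I, ∃ j ∈ I, ∃ κ : Fin 3, i ≠ j ∧ 0 < gz c s l a j y ∧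
    gz c s l a j y ≤ 1 - σi ∧ |c i + s * a i + (l + (1 - l) / gz c s l a j y) *
      (y i - (c i + s * a i)) - (c i + s * ((κ : ℝ) / 2))| ≤ σo * s

theorem measurableSet_bad_aux (c : E n) (s l σi σo : ℝ) (i j : Fin n) (κ : Fin 3) :
    MeasurableSet {p : E n × E n | i ≠ j ∧ 0 < gz c s l p.2 j p.1 ∧
      gz c s l p.2 j p.1 ≤ 1 - σi ∧ |c i + s * p.2 i + (l + (1 - l) / gz c s l p.2 j p.1) *
      (p.1 i - (c i + s * p.2 i)) - (c i + s * ((κ : ℝ) / 2))| ≤ σo * s} := by
  have hg := measurable_gz c s l j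
  have hf : Measurable fun p : E n × E n => |c i + s * p.2 i + (l + (1 - l) / gz c s l p.2 j p.1) *
      (p.1 i - (c i + s * p.2 i)) - (c i + s * ((κ : ℝ) / 2))| := by fun_prop
  exact (MeasurableSet.const _).inter ((measurableSet_lt measurable_const hg).inter
    ((measurableSet_le hg measurable_const).inter (measurableSet_le hf measurable_const)))

theorem measurableSet_bad (I : Finset (Fin n)) (c : E n) (s l e σi σo : ℝ) :
    MeasurableSet {p : E n × E n | Bad I c s l e σi σo p.2 p.1} := by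
  have : {p : E n × E n | Bad I c s l e σi σo p.2 p.1} =
      {p | rad I c s l p.2 p.1 ≤ e} ∪ ⋃ i ∈ I, ⋃ j ∈ I, ⋃ κ : Fin 3,
      {p : E n × E n | i ≠ j ∧ 0 < gz c s l p.2 j p.1 ∧
      gz c s l p.2 j p.1 ≤ 1 - σi ∧ |c i + s * p.2 i + (l + (1 - l) / gz c s l p.2 j p.1) *
      (p.1 i - (c i + s * p.2 i)) - (c i + s * ((κ : ℝ) / 2))| ≤ σo * s} := by
    ext p; simp only [Bad, mem_ofPred_eq, mem_union, mem_iUnion, exists_prop]
  rw [this]
  exact (measurableSet_le (measurable_rad I c s l) measurable_const).union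
    (Finset.measurableSet_biUnion _ fun i _ => Finset.measurableSet_biUnion _ fun j _ =>
      MeasurableSet.iUnion fun κ => measurableSet_bad_aux c s l σi σo i j κ)

theorem pb_bad (hI : I.Nonempty) {σi σo : ℝ} (hσi : 0 < σi) (hσo : 0 < σo)
    (h : ∀ a : E n, (∀ i, 1 / 3 ≤ a i ∧ a i ≤ 2 / 3) → Par s l e a) (c y : E n) :
    pb n {a | Bad I c s l e σi σo a y} ≤ ENNReal.ofReal (6 * e + 36 * n ^ 2 * (σo / σi)) := by
  have hP0 := h (fun _ => 1 / 2) (fun _ => by norm_num)
  have hs := hP0.s_pos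
  have hl := hP0.l_lt
  obtain ⟨i0, hi0⟩ := hI
  set S : Fin n × Fin n × Fin 3 → Set (E n) := fun w => {a | w.1 ≠ w.2.1 ∧
    0 < gz c s l a w.2.1 y ∧ gz c s l a w.2.1 y ≤ 1 - σi ∧
    |c w.1 + s * a w.1 + (l + (1 - l) / gz c s l a w.2.1 y) *
      (y w.1 - (c w.1 + s * a w.1)) - (c w.1 + s * ((w.2.2 : ℝ) / 2))| ≤ σo * s} with hS
  have h1 : {a | Bad I c s l e σi σo a y} ≤ᵐ[pb n]
      ({a : E n | ∀ i ∈ ({i0} : Finset (Fin n)), a i ∈ closedBall ((y i - c i) / s) e} ∪
        ⋃ w, S w : Set (E n)) := by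
    filter_upwards [ae_pb] with a ha hb
    rcases hb with hb | ⟨i, -, j, -, κ, hb⟩
    · left
      intro i hi
      rw [Finset.mem_singleton.1 hi]
      exact mem_closedBall_of_rad (h a ha) hb hi0
    · right
      exact mem_iUnion.2 ⟨(i, j, κ), hb⟩
  have h2 : ∀ w, pb n (S w) ≤ ENNReal.ofReal (12 * (σo / σi)) := by
    rintro ⟨i, j, κ⟩
    refine pb_slice ((measurable_const.prodMk measurable_id)
      (measurableSet_bad_aux c s l σi σo i j κ)) i fun a => ?_
    by_cases hij : i = j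
    · simp [hij]
    set g := gz c s l a j y with hg
    have hgu : ∀ t, gz c s l (Function.update a i t) j y = g := fun t => by
      simp [hg, gz, Function.update_of_ne (Ne.symm hij)]
    set lam := l + (1 - l) / g with hlam
    refine le_trans (measure_mono (t := closedBall ((lam * (y i - c i) - s * ((κ : ℝ) / 2)) /
      (s * (lam - 1))) (2 * (σo / σi))) ?_) ((m1_closedBall _ (by positivity)).trans
        (le_of_eq (by congr 1; ring)))
    intro t ht
    simp only [mem_ofPred_eq, mem_preimage, id, hgu, Function.update_self] at ht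
    obtain ⟨-, g0, g1, g2⟩ := ht
    have k1 : σi / 2 ≤ lam - 1 := by
      have k2 : lam - 1 = (1 - l) * ((1 - g) / g) := by rw [hlam]; field_simp; ring
      have k3 : σi ≤ (1 - g) / g := by
        rw [le_div_iff₀ g0]; nlinarith
      rw [k2]; nlinarith
    have k0 : 0 < lam - 1 := by linarith
    have k4 : t - (lam * (y i - c i) - s * ((κ : ℝ) / 2)) / (s * (lam - 1)) =
        -(c i + s * t + lam * (y i - (c i + s * t)) - (c i + s * ((κ : ℝ) / 2))) /
          (s * (lam - 1)) := by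
      field_simp; ring
    rw [mem_closedBall, Real.dist_eq, k4, abs_div, abs_neg, abs_of_pos (mul_pos hs k0),
      div_le_iff₀ (mul_pos hs k0)]
    refine g2.trans ?_
    have k5 : σo / σi * σi = σo := div_mul_cancel₀ _ hσi.ne'
    have k6 : 0 < σo / σi * s := by positivity
    nlinarith
  refine (measure_mono_ae h1).trans ((measure_union_le _ _).trans ?_)
  rw [ENNReal.ofReal_add (by have := hP0.e_pos; positivity) (by positivity)]
  refine add_le_add (by simpa using pb_box {i0} (fun i => (y i - c i) / s) hP0.e_pos.le)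
    ((measure_iUnion_fintype_le _ _).trans ((Finset.sum_le_sum fun w _ => h2 w).trans ?_))
  simp only [Finset.sum_const, Finset.card_univ, Fintype.card_prod, Fintype.card_fin, nsmul_eq_mul]
  rw [← ENNReal.ofReal_natCast, ← ENNReal.ofReal_mul (by positivity)]
  refine le_of_eq ?_
  congr 1
  push_cast
  ring

theorem exists_centre {m : ℕ} (hm1 : 1 ≤ m) (hm : m ≤ I.card) {q : ℝ} (hq : 0 < q) {σi σo : ℝ}
    (hσi : 0 < σi) (hσo : 0 < σo)
    (h : ∀ a : E n, (∀ i, 1 / 3 ≤ a i ∧ a i ≤ 2 / 3) → Par s l e a) (c : E n)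
    (ν ν' : Measure (E n)) [IsFiniteMeasure ν] [IsFiniteMeasure ν'] :
    ∃ a, Par s l e a ∧
      ∫⁻ y, ENNReal.ofReal ((11 + bumpK n) / clp e (rad I c s l a y)) ^ q ∂ν ≤
        3 * Cq n m q * ν univ ∧
      ν' {y | Bad I c s l e σi σo a y} ≤
        3 * ENNReal.ofReal (6 * e + 36 * n ^ 2 * (σo / σi)) * ν' univ := by
  have hI : I.Nonempty := Finset.card_pos.1 (by omega)
  have hk : Measurable fun p : E n × E n =>
      ENNReal.ofReal ((11 + bumpK n) / clp e (rad I c s l p.2 p.1)) ^ q :=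
    ((measurable_const.div ((continuous_clp e).measurable.comp
      (measurable_rad I c s l))).ennreal_ofReal).pow_const q
  have hb := measurableSet_bad I c s l e σi σo
  have hb' : Measurable fun p : E n × E n =>
      {p : E n × E n | Bad I c s l e σi σo p.2 p.1}.indicator (1 : E n × E n → ℝ≥0∞) p :=
    measurable_one.indicator hb
  obtain ⟨a, ha, h1, h2⟩ := exists_le_three (pb n) (hk.lintegral_prod_left' (μ := ν))
    (hb'.lintegral_prod_left' (μ := ν')) ae_pb
  refine ⟨a, h a ha, h1.trans ?_, le_trans (le_of_eq ?_) (h2.trans ?_)⟩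
  · rw [mul_assoc, ← lintegral_lintegral_swap hk.aemeasurable]
    gcongr
    exact (lintegral_mono fun y => kernel_le hm hq h c y).trans (by simp)
  · have hm : MeasurableSet {y | Bad I c s l e σi σo a y} :=
      (measurable_id.prodMk measurable_const) hb
    rw [← lintegral_indicator_one hm]
    rfl
  · rw [mul_assoc, ← lintegral_lintegral_swap hb'.aemeasurable]
    gcongr
    refine (lintegral_mono fun y => le_trans (le_of_eq ?_) (pb_bad hI hσi hσo h c y)).trans
      (by simp)
    have hm : MeasurableSet {a | Bad I c s l e σi σo a y} :=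
      (measurable_const.prodMk measurable_id) hb
    rw [← lintegral_indicator_one hm]
    rfl

end Pool.Agent.P.MP_667fa2_an
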