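import Pool.Agent.P.MP_667fa2_an.Defs

/-! General lemmas. -/

namespace Pool.Agent.P.MP_667fa2_an

open Set Filter Topology MeasureTheory Metric
open scoped ENNReal NNReal

variable {n : ℕ}

/-! ### Homeomorphisms -/

theorem homeo_of_bij (f : E n → E n) (hc : Continuous f) (hi : Function.Injective f)
    (hs : Function.Surjective f) (M : ℝ) (hM : ∀ x, dist (f x) x ≤ M) :
    ∃ F : E n ≃ₜ E n, ∀ x, F x = f x := by
  have hp : IsProperMap f := by
    rw [isProperMap_iff_tendsto_cocompact]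
    refine ⟨hc, tendsto_cocompact_of_tendsto_dist_comp_atTop (0 : E n) ?_⟩
    have h1 : Tendsto (fun x : E n => dist x 0 + -M) (cocompact (E n)) atTop :=
      tendsto_atTop_add_const_right _ _ (tendsto_dist_right_cocompact_atTop 0)
    refine tendsto_atTop_mono (fun x => ?_) h1
    have := dist_triangle x (f x) 0
    have h2 := hM x
    rw [dist_comm] at h2
    linarith
  exact ⟨(Equiv.ofBijective f ⟨hi, hs⟩).toHomeomorphOfContinuousClosed hc hp.isClosedMap,
    fun _ => rfl⟩

theorem exists_unif_limit (f : ℕ → E n → E n) (hc : ∀ k, Continuous (f k)) (δ : ℕ → ℝ)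
    (hδ : Summable δ) (h : ∀ k x, dist (f (k + 1) x) (f k x) ≤ δ k) :
    ∃ F : E n → E n, Continuous F ∧ TendstoUniformly f F atTop := by
  have hs : TendstoUniformly
      (fun N x => ∑ k ∈ Finset.range N, (f (k + 1) x - f k x))
      (fun x => ∑' k, (f (k + 1) x - f k x)) atTop :=
    tendstoUniformly_tsum_nat hδ (fun k x => by rw [← dist_eq_norm]; exact h k x)
  have hT : TendstoUniformly f (fun x => f 0 x + ∑' k, (f (k + 1) x - f k x)) atTop := by
    rw [Metric.tendstoUniformly_iff] at hs ⊢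
    intro ε hε
    filter_upwards [hs ε hε] with N hN x
    have h1 := hN x
    rw [Finset.sum_range_sub (fun k => f k x)] at h1
    rw [dist_eq_norm] at h1 ⊢
    convert h1 using 2
    abel
  exact ⟨_, hT.continuous (Frequently.of_forall hc), hT⟩

theorem limit_homeo (f : ℕ → E n ≃ₜ E n) (δ : ℕ → ℝ) (hδ : Summable δ)
    (h1 : ∀ k x, dist (f (k + 1) x) (f k x) ≤ δ k)
    (h2 : ∀ k x, dist ((f (k + 1)).symm x) ((f k).symm x) ≤ δ k) :
    ∃ F : E n ≃ₜ E n, TendstoUniformly (fun k x => f k x) F atTop ∧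
      TendstoUniformly (fun k x => (f k).symm x) F.symm atTop := by
  obtain ⟨F, hFc, hF⟩ := exists_unif_limit (fun k x => f k x) (fun k => (f k).continuous) δ hδ h1
  obtain ⟨G, hGc, hG⟩ :=
    exists_unif_limit (fun k x => (f k).symm x) (fun k => (f k).symm.continuous) δ hδ h2
  have hl : ∀ x, G (F x) = x := fun x => by
    have := hG.tendsto_comp hGc.continuousAt (hF.tendsto_at x)
    simp only [Homeomorph.symm_apply_apply] at this
    exact tendsto_nhds_unique this tendsto_const_nhds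
  have hr : ∀ x, F (G x) = x := fun x => by
    have := hF.tendsto_comp hFc.continuousAt (hG.tendsto_at x)
    simp only [Homeomorph.apply_symm_apply] at this
    exact tendsto_nhds_unique this tendsto_const_nhds
  exact ⟨⟨⟨F, G, hl, hr⟩, hFc, hGc⟩, hF, hG⟩

/-! ### Pointwise Lipschitz bounds -/

section PLip

variable {F : Type*} [NormedAddCommGroup F]

theorem PLip.mono {f : E n → F} {x : E n} {B B' : ℝ} (h : PLip f x B) (hB : B ≤ B') :
    PLip f x B' :=
  Filter.Eventually.mono h fun _ hy => hy.trans (mul_le_mul_of_nonneg_right hB (norm_nonneg _))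

theorem PLip.continuousAt {f : E n → F} {x : E n} {B : ℝ} (h : PLip f x B) :
    ContinuousAt f x := by
  rw [ContinuousAt, tendsto_iff_norm_sub_tendsto_zero]
  have h1 : Tendsto (fun y : E n => B * ‖y - x‖) (𝓝 x) (𝓝 0) := by
    have : Continuous fun y : E n => B * ‖y - x‖ := by fun_prop
    simpa using this.tendsto x
  exact squeeze_zero' (Eventually.of_forall fun _ => norm_nonneg _) h h1

theorem PLip.congr {f g : E n → F} {x : E n} {B : ℝ} (h : PLip f x B) (hfg : f =ᶠ[𝓝 x] g) :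
    PLip g x B := by
  have h0 : f x = g x := hfg.eq_of_nhds
  filter_upwards [h, hfg] with y hy hy'
  rw [← hy', ← h0]; exact hy

theorem PLip.comp {g : E n → F} {f : E n → E n} {x : E n} {A B : ℝ} (hg : PLip g (f x) A)
    (hf : PLip f x B) (hA : 0 ≤ A) : PLip (fun y => g (f y)) x (A * B) := by
  filter_upwards [hf.continuousAt.eventually hg, hf] with y h1 h2
  calc ‖g (f y) - g (f x)‖ ≤ A * ‖f y - f x‖ := h1
    _ ≤ A * (B * ‖y - x‖) := mul_le_mul_of_nonneg_left h2 hA
    _ = A * B * ‖y - x‖ := by ring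

theorem PLip.norm_fderiv_le [NormedSpace ℝ F] {f : E n → F} {x : E n} {B : ℝ} (h : PLip f x B)
    (hB : 0 ≤ B) : ‖fderiv ℝ f x‖ ≤ B :=
  norm_fderiv_le_of_lip' ℝ hB h

theorem PLip.id (x : E n) : PLip (fun y : E n => y) x 1 :=
  Eventually.of_forall fun y => by simp

theorem PLip.of_lipschitzOn {f : E n → F} {x : E n} {K : ℝ≥0} {t : Set (E n)} (ht : t ∈ 𝓝 x)
    (h : LipschitzOnWith K f t) : PLip f x K := by
  filter_upwards [ht] with y hy
  have := h.dist_le_mul y hy x (mem_of_mem_nhds ht)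
  simpa [dist_eq_norm] using this

theorem PLip.of_differentiableAt [NormedSpace ℝ F] {f : E n → F} {x : E n}
    (h : DifferentiableAt ℝ f x) : PLip f x (‖fderiv ℝ f x‖ + 1) := by
  have h1 := h.hasFDerivAt.isLittleO.def (by norm_num : (0 : ℝ) < 1)
  filter_upwards [h1] with y hy
  have h2 := (fderiv ℝ f x).le_opNorm (y - x)
  have h3 : f y - f x = (f y - f x - fderiv ℝ f x (y - x)) + fderiv ℝ f x (y - x) := by abel
  calc ‖f y - f x‖ ≤ ‖f y - f x - fderiv ℝ f x (y - x)‖ + ‖fderiv ℝ f x (y - x)‖ := by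
        rw [h3]; exact (norm_add_le _ _).trans (by rw [← h3])
    _ ≤ _ := by linarith

theorem lipschitzOn_of_PLip {f : E n → F} {s : Set (E n)} (hs : Convex ℝ s) {L : ℝ≥0}
    (h : ∀ x ∈ s, PLip f x L) : LipschitzOnWith L f s := by
  refine LipschitzOnWith.of_dist_le_mul fun y hy x hx => ?_
  set g : ℝ → E n := fun t => x + t • (y - x) with hg
  have hgc : Continuous g := by fun_prop
  have hgs : ∀ t ∈ Icc (0 : ℝ) 1, g t ∈ s := fun t ht => hs.add_smul_sub_mem hx hy ht
  have hφc : ContinuousOn (fun t => ‖f (g t) - f x‖) (Icc (0 : ℝ) 1) := fun t ht =>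
    (((h _ (hgs t ht)).continuousAt.comp hgc.continuousAt).sub
      continuousAt_const).norm.continuousWithinAt
  have key := image_le_of_liminf_slope_right_le_deriv_boundary (f := fun t => ‖f (g t) - f x‖)
    (a := 0) (b := 1) hφc (B := fun t => t * (L * ‖y - x‖)) (B' := fun _ => L * ‖y - x‖)
    (by simp [hg]) (by fun_prop)
    (fun t _ => by simpa using (hasDerivAt_mul_const (L * ‖y - x‖ : ℝ)).hasDerivWithinAt)
    (fun t ht r hr => by
      have h1 := hgc.continuousAt.eventually (h _ (hgs t ⟨ht.1, ht.2.le⟩))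
      have h2 : ∀ᶠ z in 𝓝[>] t, slope (fun t => ‖f (g t) - f x‖) t z < r := by
        filter_upwards [nhdsWithin_le_nhds h1, self_mem_nhdsWithin] with z hz hzt
        have hzt' : 0 < z - t := sub_pos.2 hzt
        rw [slope_def_field, div_lt_iff₀ hzt']
        have h3 : g z - g t = (z - t) • (y - x) := by simp only [hg, sub_smul]; abel
        rw [h3, norm_smul, Real.norm_eq_abs, abs_of_pos hzt'] at hz
        have h4 := norm_sub_norm_le (f (g z) - f x) (f (g t) - f x)
        rw [sub_sub_sub_cancel_right] at h4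
        nlinarith
      exact h2.frequently)
  have := key (right_mem_Icc.2 zero_le_one)
  simpa [hg, dist_eq_norm] using this

theorem LL.of_PLip {f : E n → F} {U : Set (E n)}
    (h : ∀ x ∈ U, ∃ L : ℝ, ∀ᶠ y in 𝓝 x, PLip f y L) : LL U f := by
  intro x hx
  obtain ⟨L, hL⟩ := h x hx
  obtain ⟨r, hr, hb⟩ := Metric.eventually_nhds_iff_ball.1 hL
  refine ⟨L.toNNReal, ball x r, ball_mem_nhds x hr, lipschitzOn_of_PLip (convex_ball x r) ?_⟩
  exact fun y hy => (hb y hy).mono (Real.le_coe_toNNReal L)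

theorem LL.mono {f : E n → F} {U V : Set (E n)} (h : LL U f) (hV : V ⊆ U) : LL V f :=
  fun x hx => h x (hV hx)

theorem LL.comp {g : E n → F} {f : E n → E n} {U V : Set (E n)} (hg : LL V g) (hf : LL U f)
    (hm : MapsTo f U V) : LL U (fun y => g (f y)) := by
  intro x hx
  obtain ⟨K, t, ht, hK⟩ := hf x hx
  obtain ⟨K', t', ht', hK'⟩ := hg (f x) (hm hx)
  have hc : ContinuousAt f x := hK.continuousOn.continuousAt ht
  refine ⟨K' * K, t ∩ f ⁻¹' t', inter_mem ht (hc ht'), ?_⟩
  exact hK'.comp (hK.mono inter_subset_left) fun y hy => hy.2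

theorem LL.of_contDiffAt [NormedSpace ℝ F] {f : E n → F} {U : Set (E n)}
    (h : ∀ x ∈ U, ContDiffAt ℝ 1 f x) : LL U f := fun x hx => (h x hx).exists_lipschitzOnWith

theorem LL.lipschitzOn_compact {f : E n → F} {U T : Set (E n)} (h : LL U f) (hT : IsCompact T)
    (hTU : T ⊆ U) : ∃ K, LipschitzOnWith K f T := by
  refine LocallyLipschitzOn.exists_lipschitzOnWith_of_compact hT fun x hx => ?_
  obtain ⟨K, t, ht, hK⟩ := h x (hTU hx)
  exact ⟨K, t, mem_nhdsWithin_of_mem_nhds ht, hK⟩

theorem LL.norm_fderiv_le [NormedSpace ℝ F] {f : E n → F} {U T : Set (E n)} (h : LL U f)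
    (hT : IsCompact T) (hTU : T ⊆ U) : ∃ L : ℝ, ∀ x ∈ T, ‖fderiv ℝ f x‖ ≤ L := by
  refine hT.induction_on (p := fun S => ∃ L : ℝ, ∀ x ∈ S, ‖fderiv ℝ f x‖ ≤ L) ⟨0, by simp⟩
    (fun s t hst ⟨L, hL⟩ => ⟨L, fun x hx => hL x (hst hx)⟩)
    (fun s t ⟨L, hL⟩ ⟨L', hL'⟩ => ⟨max L L', fun x hx => hx.elim
      (fun h => (hL x h).trans (le_max_left _ _)) fun h => (hL' x h).trans (le_max_right _ _)⟩)
    fun x hx => ?_
  obtain ⟨K, t, ht, hK⟩ := h x (hTU hx)
  refine ⟨interior t, mem_nhdsWithin_of_mem_nhds (interior_mem_nhds.2 ht), K, fun y hy => ?_⟩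
  exact norm_fderiv_le_of_lipschitzOn ℝ (mem_interior_iff_mem_nhds.1 hy) hK

/-- A locally Lipschitz map which vanishes outside the unit cube is Lipschitz. -/
theorem LL.lipschitz_of_support {f : E n → F} (h : LL univ f) (c : E n) (R : ℝ)
    (h0 : ∀ x, x ∉ ball c R → f x = 0) : ∃ K, LipschitzWith K f := by
  obtain ⟨K, hK⟩ := h.lipschitzOn_compact (isCompact_closedBall c (R + 1)) (subset_univ _)
  obtain ⟨M, hM⟩ := (isCompact_closedBall c (R + 1)).exists_bound_of_continuousOn hK.continuousOn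
  have aux : ∀ x y, y ∉ closedBall c (R + 1) → dist (f x) (f y) ≤ max (K : ℝ) M * dist x y := by
    intro x y hy
    have hy' : y ∉ ball c R := fun h => hy (ball_subset_closedBall (ball_subset_ball (by linarith) h))
    by_cases hx : x ∈ ball c R
    · rw [h0 y hy', dist_zero_right]
      have h1 := hM x (ball_subset_closedBall (ball_subset_ball (by linarith) hx))
      rw [mem_closedBall, not_le] at hy
      rw [mem_ball] at hx
      have h2 := dist_triangle y x c
      rw [dist_comm y x] at h2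
      have h3 : 0 ≤ max (K : ℝ) M := le_max_of_le_left K.2
      have h4 : M ≤ max (K : ℝ) M := le_max_right _ _
      nlinarith
    · rw [h0 x hx, h0 y hy', dist_self]
      exact mul_nonneg (le_max_of_le_left K.2) dist_nonneg
  refine ⟨⟨max (K : ℝ) M, le_max_of_le_left K.2⟩, LipschitzWith.of_dist_le_mul fun x y => ?_⟩
  by_cases hy : y ∈ closedBall c (R + 1)
  · by_cases hx : x ∈ closedBall c (R + 1)
    · exact (hK.dist_le_mul x hx y hy).trans
        (mul_le_mul_of_nonneg_right (le_max_left _ _) dist_nonneg)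
    · rw [dist_comm, dist_comm x]; exact aux y x hx
  · exact aux x y hy

end PLip

/-! ### Nice points -/

theorem Nice.congr {f g : E n → E n} {x : E n} (h : Nice f x) (hfg : f =ᶠ[𝓝 x] g) :
    Nice g x :=
  ⟨h.1.congr_of_eventuallyEq hfg.symm, by rw [← hfg.fderiv_eq]; exact h.2⟩

theorem Nice.differentiableAt {f : E n → E n} {x : E n} (h : Nice f x) :
    DifferentiableAt ℝ f x := h.1.differentiableAt one_ne_zero

theorem Nice.comp {f g : E n → E n} {x : E n} (hg : Nice g (f x)) (hf : Nice f x) :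
    Nice (fun y => g (f y)) x := by
  refine ⟨hg.1.comp x hf.1, ?_⟩
  have := fderiv_comp x hg.differentiableAt hf.differentiableAt
  change Function.Injective (fderiv ℝ (g ∘ f) x)
  rw [this]
  exact hg.2.comp hf.2

theorem Nice.id (x : E n) : Nice (fun y : E n => y) x :=
  ⟨contDiffAt_id, by rw [fderiv_fun_id]; exact Function.injective_id⟩

theorem det_ne_zero_iff_injective (A : E n →L[ℝ] E n) : A.det ≠ 0 ↔ Function.Injective A := by
  rw [ContinuousLinearMap.det, ← isUnit_iff_ne_zero, ← LinearMap.isUnit_iff_isUnit_det,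
    LinearMap.isUnit_iff_ker_eq_bot, LinearMap.ker_eq_bot]
  rfl

theorem Nice.det_ne_zero {f : E n → E n} {x : E n} (h : Nice f x) : (fderiv ℝ f x).det ≠ 0 :=
  (det_ne_zero_iff_injective _).2 h.2

theorem Nice.eventually {f : E n → E n} {x : E n} (h : Nice f x) : ∀ᶠ y in 𝓝 x, Nice f y := by
  have h1 : ContinuousAt (fun y => (fderiv ℝ f y).det) x :=
    ContinuousLinearMap.continuous_det.continuousAt.comp (h.1.continuousAt_fderiv one_ne_zero)
  filter_upwards [h.1.eventually (by simp), h1.eventually_ne h.det_ne_zero] with y hy hy'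
  exact ⟨hy, (det_ne_zero_iff_injective _).1 hy'⟩

theorem isOpen_nice (f : E n → E n) : IsOpen {x | Nice f x} :=
  isOpen_iff_mem_nhds.2 fun _ hx => hx.eventually

theorem Nice.symm {f : E n ≃ₜ E n} {x : E n} (h : Nice f x) : Nice f.symm (f x) := by
  set A : E n ≃L[ℝ] E n := (fderiv ℝ f x).toContinuousLinearEquivOfDetNeZero h.det_ne_zero
  have hA : HasFDerivAt f (A : E n →L[ℝ] E n) x := h.differentiableAt.hasFDerivAt
  have h1 : ContDiffAt ℝ 1 f.symm (f x) :=
    f.toOpenPartialHomeomorph.contDiffAt_symm (f₀' := A) (mem_univ _) (by simpa using hA)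
      (by simpa using h.1)
  refine ⟨h1, ?_⟩
  have h2 : HasFDerivAt f.symm (A.symm : E n →L[ℝ] E n) (f x) :=
    HasFDerivAt.of_local_left_inverse f.symm.continuous.continuousAt (by simpa using hA)
      (Eventually.of_forall fun y => f.apply_symm_apply y)
  rw [h2.fderiv]
  exact A.symm.injective

theorem Nice.of_linear (A : E n ≃L[ℝ] E n) (c x : E n) : Nice (fun y => c + A y) x := by
  refine ⟨contDiffAt_const.add A.contDiff.contDiffAt, ?_⟩
  rw [(A.hasFDerivAt.const_add c).fderiv]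
  exact A.injective

theorem null_preimage_nice (f : E n ≃ₜ E n) {N : Set (E n)} (hN : volume N = 0) :
    volume ({x | Nice f x} ∩ f ⁻¹' N) = 0 := by
  have h1 : {x | Nice f x} ∩ f ⁻¹' N = f.symm '' (N ∩ f '' {x | Nice f x}) := by
    ext x
    constructor
    · rintro ⟨h1, h2⟩
      exact ⟨f x, ⟨h2, x, h1, rfl⟩, f.symm_apply_apply x⟩
    · rintro ⟨_, ⟨h1, y, hy, rfl⟩, rfl⟩
      simpa using ⟨hy, h1⟩
  rw [h1]
  refine addHaar_image_eq_zero_of_differentiableOn_of_addHaar_eq_zero volume ?_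
    (measure_mono_null inter_subset_left hN)
  rintro _ ⟨-, y, hy, rfl⟩
  exact (Nice.symm hy).differentiableAt.differentiableWithinAt

theorem AENice.ae_comp {f : E n ≃ₜ E n} {U : Set (E n)} (hf : AENice U f) {P : E n → Prop}
    (hP : ∀ᵐ y, P y) : ∀ᵐ x, x ∈ U → Nice f x ∧ P (f x) := by
  have h1 := null_preimage_nice f (ae_iff.1 hP)
  have h2 : ∀ᵐ x, x ∉ {x | Nice f x} ∩ f ⁻¹' {y | ¬P y} := measure_eq_zero_iff_ae_notMem.1 h1
  filter_upwards [hf, h2] with x hx hx' hU
  refine ⟨hx hU, ?_⟩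
  by_contra hc
  exact hx' ⟨hx hU, hc⟩

theorem AENice.comp {g : E n → E n} {f : E n ≃ₜ E n} {U V : Set (E n)} (hg : AENice V g)
    (hf : AENice U f) (hm : MapsTo f U V) : AENice U (fun y => g (f y)) := by
  filter_upwards [hf.ae_comp hg] with x hx hU
  exact ((hx hU).2 (hm hU)).comp (hx hU).1

theorem null_hyperplane (l : E n →L[ℝ] ℝ) (hl : l ≠ 0) (b : ℝ) : volume {y | l y = b} = 0 := by
  by_cases hb : ∃ y, l y = b
  · obtain ⟨y0, hy0⟩ := hb
    have h1 : {y | l y = b} = (fun y => y - y0) ⁻¹' (LinearMap.ker (l : E n →ₗ[ℝ] ℝ) : Set (E n)) := by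
      ext y
      simp [sub_eq_zero, hy0]
    rw [h1]
    simp_rw [sub_eq_add_neg]
    rw [measure_preimage_add_right]
    refine Measure.addHaar_submodule _ _ fun h => hl ?_
    ext1 y
    have : y ∈ LinearMap.ker (l : E n →ₗ[ℝ] ℝ) := h ▸ Submodule.mem_top
    simpa using this
  · have : {y | l y = b} = ∅ := by
      ext y; simpa using fun h => hb ⟨y, h⟩
    simp [this]

/-- If the derivative kills `u ≠ 0` then the map does not expand along `u`. -/
theorem injective_of_line {f : E n → E n} {x u : E n} {A : E n →L[ℝ] E n}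
    (hf : HasFDerivAt f A x) {b : ℝ} (hb : 0 < b)
    (hexp : ∀ᶠ s in 𝓝[>] (0 : ℝ), b * s * ‖u‖ ≤ ‖f (x + s • u) - f x‖) (hu : A u = 0) :
    u = 0 := by
  by_contra hne
  have hpos : 0 < ‖u‖ := norm_pos_iff.2 hne
  have h1 : HasDerivAt (fun s : ℝ => f (x + s • u)) (A u) 0 := by
    have h2 : HasDerivAt (fun s : ℝ => x + s • u) u 0 := by
      simpa using ((hasDerivAt_id (0 : ℝ)).smul_const u).const_add x
    have h3 : HasFDerivAt f A (x + (0 : ℝ) • u) := by simpa using hf
    exact h3.comp_hasDerivAt (0 : ℝ) h2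
  rw [hu] at h1
  have h4 := (h1.isLittleO.def (half_pos (mul_pos hb hpos))).filter_mono
    (nhdsWithin_le_nhds (s := Ioi (0 : ℝ)))
  obtain ⟨s, ⟨hs1, hs2⟩, hs3⟩ := ((hexp.and h4).and self_mem_nhdsWithin).exists
  have hs : 0 < s := hs3
  simp only [zero_smul, add_zero, smul_zero, sub_zero, Real.norm_eq_abs, abs_of_pos hs] at hs2
  nlinarith [mul_pos (mul_pos hb hpos) hs]

end Pool.Agent.P.MP_667fa2_an
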