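import Pool.Agent.P.MP_667fa2_an.Cantor1

/-! A fat Cantor set and a homeomorphism that squeezes it onto a very thin one. -/

namespace Pool.Agent.P.MP_667fa2_an

open Set Filter Topology MeasureTheory Metric
open scoped ENNReal NNReal

variable {n : ℕ}

theorem can_min (F : Finset (E n × ℝ)) (hF : ∀ a ∈ F, 0 < a.2) :
    ∃ m : ℝ, 0 < m ∧ m ≤ 1 ∧ ∀ a ∈ F, m ≤ a.2 := by
  rcases F.eq_empty_or_nonempty with rfl | hne
  · exact ⟨1, one_pos, le_rfl, by simp⟩
  · obtain ⟨b, hb, h⟩ := F.exists_min_image (fun a => a.2) hne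
    exact ⟨min b.2 1, lt_min (hF b hb) one_pos, min_le_right _ _,
      fun a ha => (min_le_left _ _).trans (h a ha)⟩

theorem can_image {G H : E n ≃ₜ E n} {O : Set (E n)} (h : ∀ x, x ∉ O → G x = H x) :
    G '' O = H '' O := by
  rw [← compl_inj_iff, ← G.image_compl, ← H.image_compl]
  exact image_congr h

/-- T3. A fat Cantor set `C` and a homeomorphism `G` that squeezes it onto a very thin one. -/
theorem cantor (Ω : Set (E n)) (hΩ : IsOpen Ω) (hΩb : Bornology.IsBounded Ω) {ε : ℝ} (hε : 0 < ε)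
    (Λ : ℝ) (hΛ : 10 ≤ Λ) :
    ∃ (C X0 : Set (E n)) (G : E n ≃ₜ E n) (A : Set (E n)) (cen : ℕ → Finset (E n))
      (ρ R : ℕ → ℝ),
      IsCompact C ∧ IsCompact X0 ∧ C ⊆ X0 ∧ X0 ⊆ Ω ∧ volume (Ω \ C) ≤ ENNReal.ofReal ε ∧
      (∀ x, x ∉ X0 → G x = x) ∧ (∀ x, x ∉ C → Nice G x) ∧ A.Countable ∧
      (∀ x, x ∉ C → ∃ c ∈ A, ∃ c' : E n, ∀ᶠ y in 𝓝 x, ∃ s : ℝ, G y - c' = s • (y - c)) ∧
      (∃ (T : Set ℝ) (γ : ℝ → E n) (K : ℝ≥0), LipschitzOnWith K γ T ∧ G '' C ⊆ γ '' T) ∧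
      (∀ k, 0 < ρ k ∧ Λ * 2 ^ k * ((cen k).card + 1) * ρ k ≤ R k ∧ R k ≤ 1) ∧
      (∀ k, (cen k : Set (E n)).PairwiseDisjoint fun c => closedBall c (R k)) ∧
      (∀ c ∈ cen 0, closedBall c (R 0) ⊆ X0) ∧
      (∀ k, ∀ c ∈ cen (k + 1), ∃ c' ∈ cen k, closedBall c (R (k + 1)) ⊆ closedBall c' (ρ k)) ∧
      G '' C = ⋂ k, ⋃ c ∈ cen k, closedBall c (ρ k) := by
  classical
  obtain ⟨F, θ, hθ, hF, hdis, hF0, hnest, hvol⟩ := can_levels Ω hΩ hΩb hε
  choose m hm0 hm1 hm2 using fun k => can_min (F k) fun a ha => (hF k a ha).1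
  have hΛ0 : 0 < Λ := by linarith
  obtain ⟨κ, hκ0, hκa, hκb⟩ : ∃ κ : ℕ → ℝ, (∀ k, 0 < κ k) ∧
      (∀ k, Λ * 2 ^ k * ((F k).card + 1) * κ k ≤ m k) ∧
      ∀ k, κ k * ((F (k + 1)).card + 1) ≤ 1 / 4 := by
    refine ⟨fun k => min (m k / (Λ * 2 ^ k * ((F k).card + 1)))
      (1 / 4 / ((F (k + 1)).card + 1)), fun k => ?_, fun k => ?_, fun k => ?_⟩
    · have := hm0 k
      positivity
    · rw [mul_comm, ← le_div_iff₀ (by positivity)]
      exact min_le_left _ _
    · rw [← le_div_iff₀ (by positivity)]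
      exact min_le_right _ _
  have hκ1 : ∀ k, κ k ≤ 1 := fun k => by
    have h1 := hκb k
    have h2 := hκ0 k
    have h3 : (0 : ℝ) ≤ (F (k + 1)).card := Nat.cast_nonneg _
    nlinarith
  have hκm : ∀ k, κ k ≤ m k := fun k => by
    have h1 : (1 : ℝ) ≤ 2 ^ k := one_le_pow₀ one_le_two
    have h2 : (1 : ℝ) ≤ (F k).card + 1 := by linarith [(Nat.cast_nonneg _ : (0 : ℝ) ≤ (F k).card)]
    have h3 : (1 : ℝ) ≤ Λ * 2 ^ k * ((F k).card + 1) :=
      one_le_mul_of_one_le_of_one_le (one_le_mul_of_one_le_of_one_le (by linarith) h1) h2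
    have h4 := hκa k
    have h5 := hκ0 k
    nlinarith
  choose Γ hΓ1 hΓ2 hΓ3 hΓ4 hΓ5 using fun k => can_level (F k) (hθ k).1 (hθ k).2 (hκ0 k) (hκ1 k)
    (fun a ha => (hF k a ha).1) (hdis k)
  obtain ⟨H, hH0, hHs⟩ : ∃ H : ℕ → E n ≃ₜ E n, H 0 = Homeomorph.refl _ ∧
      ∀ k, H (k + 1) = (Γ k).trans (H k) :=
    ⟨fun k => Nat.rec (Homeomorph.refl _) (fun k h => (Γ k).trans h) k, rfl, fun _ => rfl⟩
  have hH : ∀ k x, H (k + 1) x = H k (Γ k x) := fun k x => by rw [hHs]; rfl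
  have hH0' : ∀ x, H 0 x = x := fun x => by rw [hH0]; rfl
  obtain ⟨t, ht0, hts⟩ : ∃ t : ℕ → ℝ, t 0 = 1 ∧ ∀ k, t (k + 1) = t k * κ k :=
    ⟨fun k => ∏ j ∈ Finset.range k, κ j, by simp, fun k => Finset.prod_range_succ _ _⟩
  have ht : ∀ k, 0 < t k ∧ t k ≤ 1 := fun k => by
    induction k with
    | zero => simp [ht0]
    | succ k ih => exact hts k ▸ ⟨mul_pos ih.1 (hκ0 k), mul_le_one₀ ih.2 (hκ0 k).le (hκ1 k)⟩
  have hin : ∀ k, ∀ a ∈ F k, θ k * a.2 ≤ a.2 := fun k a ha => by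
    have h1 := (hF k a ha).1
    have h2 := (hθ k).2
    nlinarith
  have hle1 : ∀ k, ∀ a ∈ F k, a.2 ≤ 1 := fun k a ha =>
    (hF k a ha).2.trans (pow_le_one₀ (by norm_num) (by norm_num))
  -- the maps are affine near the cubes
  have step : ∀ k, ∀ b ∈ F k, (∀ z ∈ closedBall b.1 b.2, H k z = H k b.1 + t k • (z - b.1)) →
      ∀ z ∈ closedBall b.1 (θ k * b.2), H (k + 1) z = H k b.1 + t (k + 1) • (z - b.1) := by
    intro k b hb h z hz
    rw [hH, h _ (hΓ2 k b hb z (closedBall_subset_closedBall (hin k b hb) hz)), hΓ3 k b hb z hz,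
      hts, add_sub_cancel_left, smul_smul]
  have aff : ∀ k, ∀ a ∈ F k, ∃ U : Set (E n), IsOpen U ∧ closedBall a.1 a.2 ⊆ U ∧
      ∀ z ∈ U, H k z = H k a.1 + t k • (z - a.1) := by
    intro k
    induction k with
    | zero => exact fun a _ => ⟨univ, isOpen_univ, subset_univ _, fun z _ => by simp [hH0', ht0]⟩
    | succ k ih =>
      intro a ha
      obtain ⟨b, hb, hab⟩ := hnest k a ha
      obtain ⟨U, -, hU, hU'⟩ := ih b hb
      have h1 := step k b hb fun z hz => hU' z (hU hz)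
      refine ⟨_, isOpen_ball, hab, fun z hz => ?_⟩
      rw [h1 z (ball_subset_closedBall hz), h1 a.1 (ball_subset_closedBall
        (hab (mem_closedBall_self (hF _ a ha).1.le)))]
      module
  have aff1 : ∀ k, ∀ a ∈ F k, ∀ z ∈ closedBall a.1 a.2, H k z = H k a.1 + t k • (z - a.1) :=
    fun k a ha z hz => by
      obtain ⟨U, -, hU, hU'⟩ := aff k a ha
      exact hU' z (hU hz)
  have aff2 := fun k b hb => step k b hb (aff1 k b hb)
  have img : ∀ k, ∀ a ∈ F k, closedBall (H k a.1) (t k * m k) ⊆ H k '' closedBall a.1 a.2 := by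
    intro k a ha w hw
    have h1 := (ht k).1
    have h2 : a.1 + (t k)⁻¹ • (w - H k a.1) ∈ closedBall a.1 a.2 := by
      rw [mem_closedBall, dist_eq_norm] at hw ⊢
      rw [add_sub_cancel_left, norm_smul, norm_inv, Real.norm_of_nonneg h1.le,
        inv_mul_le_iff₀ h1]
      exact hw.trans (mul_le_mul_of_nonneg_left (hm2 k a ha) h1.le)
    refine ⟨_, h2, ?_⟩
    rw [aff1 k a ha _ h2, add_sub_cancel_left, smul_smul, mul_inv_cancel₀ h1.ne', one_smul,
      add_sub_cancel]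
  have img2 : ∀ k, ∀ a ∈ F (k + 1), ∃ b ∈ F k, ∀ z ∈ closedBall a.1 a.2,
      H (k + 1) z ∈ closedBall (H k b.1) (t (k + 1)) := by
    intro k a ha
    obtain ⟨b, hb, hab⟩ := hnest k a ha
    refine ⟨b, hb, fun z hz => ?_⟩
    have h1 := ball_subset_closedBall (hab hz)
    rw [aff2 k b hb z h1, mem_closedBall, dist_eq_norm, add_sub_cancel_left, norm_smul,
      Real.norm_of_nonneg (ht _).1.le]
    rw [mem_closedBall, dist_eq_norm] at h1
    exact mul_le_of_le_one_right (ht _).1.le (h1.trans ((hin k b hb).trans (hle1 k b hb)))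
  -- the limit
  have hmove : ∀ k x, (∃ a ∈ F k, x ∈ closedBall a.1 a.2 ∧ Γ k x ∈ closedBall a.1 a.2) ∨
      Γ k x = x := fun k x => by
    by_cases hx : ∃ a ∈ F k, x ∈ closedBall a.1 a.2
    · obtain ⟨a, ha, hx⟩ := hx
      exact Or.inl ⟨a, ha, hx, hΓ2 k a ha x hx⟩
    · push Not at hx
      exact Or.inr (hΓ1 k x hx)
  have hΓd : ∀ k x, dist (Γ k x) x ≤ 2 * (1 / 2) ^ k := fun k x => by
    rcases hmove k x with ⟨a, ha, h1, h2⟩ | h
    · have h3 := dist_triangle_right (Γ k x) x a.1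
      rw [mem_closedBall] at h1 h2
      linarith [(hF k a ha).2]
    · rw [h, dist_self]
      positivity
  obtain ⟨G, hG, -⟩ := limit_homeo H (fun k => 2 * (1 / 2) ^ k)
    (summable_geometric_two.mul_left 2) (fun k x => by
      rw [hH]
      rcases hmove k x with ⟨a, ha, h1, h2⟩ | h
      · rw [aff1 k a ha _ h1, aff1 k a ha _ h2, dist_add_left, dist_smul₀, dist_sub_right,
          Real.norm_of_nonneg (ht k).1.le]
        exact (mul_le_of_le_one_left dist_nonneg (ht k).2).trans (hΓd k x)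
      · rw [h, dist_self]
        positivity) fun k x => by
      have h1 : (H k).symm x = Γ k ((H (k + 1)).symm x) := by
        rw [Homeomorph.symm_apply_eq, ← hH, Homeomorph.apply_symm_apply]
      rw [h1, dist_comm]
      exact hΓd k _
  set O : ℕ → Set (E n) := fun k => ⋃ a ∈ F k, closedBall a.1 a.2 with hO
  have hOc : ∀ k, IsCompact (O k) := fun k =>
    (F k).isCompact_biUnion fun _ _ => isCompact_closedBall _ _
  have hOanti : Antitone O := antitone_nat_of_succ_le fun k x hx => by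
    obtain ⟨a, ha, hx⟩ := mem_iUnion₂.1 hx
    obtain ⟨b, hb, hab⟩ := hnest k a ha
    exact mem_iUnion₂.2 ⟨b, hb, ball_subset_closedBall (ball_subset_ball (hin k b hb) (hab hx))⟩
  have hoff : ∀ k x, x ∉ O k → Γ k x = x := fun k x hx =>
    hΓ1 k x fun a ha h => hx (mem_iUnion₂.2 ⟨a, ha, h⟩)
  have hGH : ∀ k x, x ∉ O k → G x = H k x := fun k x hx => by
    have h1 : ∀ j, k ≤ j → H j x = H k x := fun j hj => by
      induction j, hj using Nat.le_induction with
      | base => rfl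
      | succ j hj ih => rw [hH, hoff j x fun h => hx (hOanti hj h), ih]
    refine tendsto_nhds_unique (hG.tendsto_at x) (tendsto_const_nhds.congr' ?_)
    filter_upwards [eventually_ge_atTop k] with j hj
    exact (h1 j hj).symm
  have hnear : ∀ x, x ∉ ⋂ k, O k → ∃ k, (G : E n → E n) =ᶠ[𝓝 x] H k := fun x hx => by
    rw [mem_iInter, not_forall] at hx
    obtain ⟨k, hk⟩ := hx
    exact ⟨k, mem_of_superset ((hOc k).isClosed.isOpen_compl.mem_nhds hk) fun y hy => hGH k y hy⟩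
  have hNice : ∀ k x, Nice (H k) x := fun k => by
    induction k with
    | zero => exact fun x => (Nice.id x).congr (Eventually.of_forall fun y => (hH0' y).symm)
    | succ k ih =>
      exact fun x => ((ih _).comp (hΓ4 k x)).congr (Eventually.of_forall fun y => (hH k y).symm)
  have hrad : ∀ k x, ∃ c ∈ insert (0 : E n) (⋃ k, Prod.fst '' (F k : Set (E n × ℝ))),
      ∃ c' : E n, ∀ᶠ y in 𝓝 x, ∃ s : ℝ, H k y - c' = s • (y - c) := fun k x => by
    induction k with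
    | zero => exact ⟨0, mem_insert _ _, 0, Eventually.of_forall fun y => ⟨1, by simp [hH0']⟩⟩
    | succ k ih =>
      by_cases hx : x ∈ O k
      · obtain ⟨a, ha, hx⟩ := mem_iUnion₂.1 hx
        obtain ⟨U, hU, hU1, hU2⟩ := aff k a ha
        refine ⟨a.1, mem_insert_of_mem _ (mem_iUnion.2 ⟨k, a, ha, rfl⟩), H k a.1, ?_⟩
        filter_upwards [hΓ5 k a ha x hx, (Γ k).continuous.continuousAt.eventually
          (hU.mem_nhds (hU1 (hΓ2 k a ha x hx)))] with y ⟨s, hs⟩ hy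
        exact ⟨t k * s, by rw [hH, hU2 _ hy, hs, add_sub_cancel_left, smul_smul]⟩
      · obtain ⟨c, hc, c', h⟩ := ih
        refine ⟨c, hc, c', ?_⟩
        filter_upwards [h, (hOc k).isClosed.isOpen_compl.mem_nhds hx] with y hy hy'
        rwa [hH, hoff k y hy']
  have hC : IsCompact (⋂ k, O k) :=
    (hOc 0).of_isClosed_subset (isClosed_iInter fun k => (hOc k).isClosed) (iInter_subset _ 0)
  let cen : ℕ → Finset (E n) := fun k => (F k).image fun a => H k a.1
  have hcard : ∀ k, ((cen k).card : ℝ) ≤ (F k).card := fun k => by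
    exact_mod_cast Finset.card_image_le
  have hsub : ∀ y ∈ G '' ⋂ k, O k, ∀ k, ∃ c ∈ cen k, y ∈ closedBall c (t (k + 1)) := by
    intro y hy k
    have h1 := image_mono (iInter_subset O (k + 1)) hy
    rw [can_image (hGH (k + 1))] at h1
    obtain ⟨z, hz, rfl⟩ := h1
    obtain ⟨a, ha, hz⟩ := mem_iUnion₂.1 hz
    obtain ⟨b, hb, h⟩ := img2 k a ha
    exact ⟨_, Finset.mem_image_of_mem _ hb, h z hz⟩
  refine ⟨⋂ k, O k, O 0, G, insert (0 : E n) (⋃ k, Prod.fst '' (F k : Set (E n × ℝ))), cen,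
    fun k => t (k + 1), fun k => t k * m k, hC, hOc 0, iInter_subset _ 0,
    iUnion₂_subset hF0, hvol, fun x hx => (hGH 0 x hx).trans (hH0' x), fun x hx => ?_,
    (countable_iUnion fun k => (F k).countable_toSet.image _).insert _, fun x hx => ?_,
    can_curve _ (hC.image G.continuous).isBounded cen t (fun k => (ht k).1) (fun k => ?_) hsub,
    fun k => ⟨(ht _).1, ?_, mul_le_one₀ (ht k).2 (hm0 k).le (hm1 k)⟩, fun k => ?_, ?_,
    fun k => ?_, subset_antisymm (fun y hy => mem_iInter.2 fun k => ?_) fun y hy => ?_⟩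
  · obtain ⟨k, hk⟩ := hnear x hx
    exact (hNice k x).congr hk.symm
  · obtain ⟨k, hk⟩ := hnear x hx
    obtain ⟨c, hc, c', h⟩ := hrad k x
    refine ⟨c, hc, c', ?_⟩
    filter_upwards [h, hk] with y hy hy'
    rwa [hy']
  · have h1 := hκb k
    have h2 := hcard (k + 1)
    have h3 := (ht k).1
    have h4 := hκ0 k
    rw [hts, mul_assoc]
    calc t k * (κ k * ((cen (k + 1)).card + 1)) ≤ t k * (1 / 4) := by
          refine mul_le_mul_of_nonneg_left (le_trans ?_ h1) h3.le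
          gcongr
      _ = t k / 4 := by ring
  · have h1 := hκa k
    have h2 := hcard k
    have h3 := (ht k).1
    have h4 := hκ0 k
    calc Λ * 2 ^ k * ((cen k).card + 1) * t (k + 1)
        = t k * (Λ * 2 ^ k * ((cen k).card + 1) * κ k) := by rw [hts]; ring
      _ ≤ t k * m k := by
          refine mul_le_mul_of_nonneg_left (le_trans ?_ h1) h3.le
          gcongr
  · intro c hc c' hc' hne
    obtain ⟨a, ha, rfl⟩ := Finset.mem_image.1 hc
    obtain ⟨a', ha', rfl⟩ := Finset.mem_image.1 hc'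
    exact (disjoint_image_of_injective (H k).injective
      (hdis k ha ha' fun h => hne (by rw [h]))).mono (img k a ha) (img k a' ha')
  · intro c hc y hy
    obtain ⟨a, ha, rfl⟩ := Finset.mem_image.1 hc
    obtain ⟨z, hz, rfl⟩ := img 0 a ha hy
    exact mem_iUnion₂.2 ⟨a, ha, by rwa [hH0']⟩
  · intro c hc
    obtain ⟨a, ha, rfl⟩ := Finset.mem_image.1 hc
    obtain ⟨b, hb, h⟩ := img2 k a ha
    refine ⟨_, Finset.mem_image_of_mem _ hb, fun y hy => ?_⟩
    obtain ⟨z, hz, rfl⟩ := img (k + 1) a ha hy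
    exact h z hz
  · obtain ⟨c, hc, h⟩ := hsub y hy k
    exact mem_iUnion₂.2 ⟨c, hc, h⟩
  · rw [image_iInter G.bijective]
    refine mem_iInter.2 fun k => ?_
    obtain ⟨c, hc, h⟩ := mem_iUnion₂.1 (mem_iInter.1 hy k)
    obtain ⟨a, ha, rfl⟩ := Finset.mem_image.1 hc
    rw [can_image (hGH k)]
    refine image_mono (subset_biUnion_of_mem (u := fun a : E n × ℝ => closedBall a.1 a.2) ha)
      (img k a ha (closedBall_subset_closedBall ?_ h))
    exact (hts k).trans_le (mul_le_mul_of_nonneg_left (hκm k) (ht k).1.le)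

end Pool.Agent.P.MP_667fa2_an
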