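import Pool.Agent.P.MP_667fa2_an.Step

/-! The collapse onto the skeleton of the Whitney complex. -/

namespace Pool.Agent.P.MP_667fa2_an

open Set Filter Topology MeasureTheory Metric
open scoped ENNReal NNReal

variable {n : ℕ} {ϱ : E n → ℝ} {μ : ℝ} {X : Set (E n)}

/-- The analytic properties that are carried along the construction. -/
structure Pack (ϱ : E n → ℝ) (μ : ℝ) (X : Set (E n)) (Λ : ℝ) (h : E n ≃ₜ E n) (B : E n → ℝ) :
    Prop where
  fix0 : ∀ x, ϱ x = 0 → h x = x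
  fixX : ∀ x, (∀ y ∈ X, 3 * μ ≤ dist x y) → h x = x
  disp : ∀ x, dist (h x) x ≤ Λ * μ
  ratio : ∀ x, ϱ (h x) ≤ Λ * ϱ x ∧ ϱ x ≤ Λ * ϱ (h x)
  meas : Measurable B
  one_le : ∀ x, 1 ≤ B x
  plip : ∀ x, 0 < ϱ x → PLip h x (B x)
  bdd : ∀ s : ℝ, 0 < s → ∃ L : ℝ, ∀ x, s ≤ ϱ x → B x ≤ L
  nice : AENice {x | 0 < ϱ x} h

theorem Pack.pos {Λ : ℝ} {h : E n ≃ₜ E n} {B : E n → ℝ} (hp : Pack ϱ μ X Λ h B) (hΛ : 1 ≤ Λ)
    {x : E n} (hx : 0 < ϱ x) : 0 < ϱ (h x) :=
  (mul_pos_iff_of_pos_left (show (0 : ℝ) < Λ by linarith)).1 (hx.trans_le (hp.ratio x).2)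

theorem inner_stage (h : Setup ϱ μ X) {m j : ℕ} (hm1 : 1 ≤ m) (hmj : m ≤ j) {q : ℝ} (hq : 0 < q)
    (ν ν' : Measure (E n)) [IsFiniteMeasure ν] (hν' : ∀ s : ℝ, 0 < s → ν' {x | s ≤ ϱ x} < ⊤)
    {ς η l σo ς' η' e : ℕ → ℝ} (hp : Params μ ς η l σo ς' η') (he : ∀ k, 0 < e k ∧ e k < 1)
    {Λ Λ' : ℝ} (hΛ : 1 ≤ Λ) {M : ℝ≥0∞} (hM : M ≠ ⊤) (hC : Cq n m q ≠ ⊤) {h0 : E n ≃ₜ E n}
    {B0 : E n → ℝ} {bad0 : Set (E n)} (hP : Pack ϱ μ X Λ h0 B0)
    (hE : ∫⁻ x, ENNReal.ofReal (B0 x) ^ q ∂ν ≤ M * ν univ)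
    (hG : ∀ x ∈ D ϱ μ X 0, 0 < ϱ x → x ∉ bad0 → Good ϱ μ X ς η j h0 B0 x)
    (T : Finset (Finset (Fin n))) (hT : ∀ I ∈ T, I.card = j) (hΛ' : 2 ^ T.card * Λ ≤ Λ') :
    ∃ (f : E n ≃ₜ E n) (B : E n → ℝ) (bad : Set (E n)), Pack ϱ μ X (2 ^ T.card * Λ) f B ∧
      ∫⁻ x, ENNReal.ofReal (B x) ^ q ∂ν ≤ (3 * Cq n m q + 1) ^ T.card * M * ν univ ∧
      ν' bad ≤ ν' bad0 + T.card * ∑' k, 3 * ENNReal.ofReal (6 * e k + 36 * n ^ 2 *
        (σo k / (ς k / (2 * mesh μ k)))) * ν' {y | mesh μ k / Λ' ≤ ϱ y} ∧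
      ∀ x ∈ D ϱ μ X 0, 0 < ϱ x → x ∉ bad → Mid ϱ μ X ς η ς' η' j T f B x := by
  have hs := mesh_pos h.pos
  have hς : ∀ k, 0 < ς k := fun k => by linarith [hp.l_ς k, hp.l_pos k]
  induction T using Finset.induction_on with
  | empty =>
    refine ⟨h0, B0, bad0, by simpa using hP, by simpa using hE, by simp, fun x hx hϱ hb => ?_⟩
    obtain ⟨k, I, z, h1, h2, h3, h4⟩ := hG x hx hϱ hb
    exact ⟨k, I, z, h1, h2, fun i hi => by
      constructor <;> linarith [(h3 i hi).1, (h3 i hi).2, hς k], fun i hi => (h4 i hi).1,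
      Or.inl ⟨by simp, h3, fun i hi => (h4 i hi).2⟩⟩
  | insert I T hIT ih =>
    rw [Finset.card_insert_of_notMem hIT] at hΛ' ⊢
    set L := 2 ^ T.card * Λ with hL
    have hL1 : 1 ≤ L := one_le_mul_of_one_le_of_one_le (one_le_pow₀ one_le_two) hΛ
    have hL2 : 2 ^ (T.card + 1) * Λ = 2 * L := by rw [hL]; ring
    rw [hL2] at hΛ' ⊢
    obtain ⟨f, B, bad, p, hE', hb', hG'⟩ :=
      ih (fun I hI => hT I (Finset.mem_insert_of_mem hI)) (by linarith)
    have hIj := hT I (Finset.mem_insert_self _ _)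
    have hBq : Measurable fun x => ENNReal.ofReal (B x) ^ q := p.meas.ennreal_ofReal.pow_const q
    set ν1 := (ν.withDensity fun x => ENNReal.ofReal (B x) ^ q).map f with hν1
    have hν1u : ν1 univ = ∫⁻ x, ENNReal.ofReal (B x) ^ q ∂ν := by
      rw [hν1, Measure.map_apply f.continuous.measurable MeasurableSet.univ, preimage_univ,
        withDensity_apply _ MeasurableSet.univ, Measure.restrict_univ]
    have : IsFiniteMeasure ν1 := ⟨by
      rw [hν1u]
      refine hE'.trans_lt (ENNReal.mul_lt_top (ENNReal.mul_lt_top (ENNReal.pow_lt_top ?_)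
        hM.lt_top) (measure_lt_top _ _))
      exact ENNReal.add_lt_top.2 ⟨ENNReal.mul_lt_top (by simp) hC.lt_top, by simp⟩⟩
    have hms : ∀ s : ℝ, MeasurableSet {x | s ≤ ϱ x} := fun s =>
      measurableSet_le measurable_const h.lip.continuous.measurable
    have hpre : ∀ s : ℝ, 0 < s → ν'.map f {x | s ≤ ϱ x} ≤ ν' {x | s / Λ' ≤ ϱ x} := fun s hs0 => by
      rw [Measure.map_apply f.continuous.measurable (hms s)]
      refine measure_mono fun x hx => ?_
      have h1 : s ≤ ϱ (f x) := hx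
      have h2 := (p.ratio x).1
      have h3 := h.nonneg x
      rw [mem_ofPred_eq, div_le_iff₀ (by linarith)]
      nlinarith
    obtain ⟨P, β, badP, q1, q2, q3, q4, q5, q6, q7, q8, q9, q10, q11, q12, q13, q14, q15⟩ :=
      pushI h hm1 I (hIj ▸ hmj) hq ν1 (ν'.map f)
        (fun s hs0 => (hpre s hs0).trans_lt (hν' _ (div_pos hs0 (by linarith)))) l e
        (fun k => ς k / (2 * mesh μ k)) σo (fun k => ⟨hp.l_pos k, hp.l_mesh k⟩) he
        (fun k => div_pos (hς k) (by linarith [hs k]))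
        (fun k => (mul_pos_iff_of_pos_right (hs k)).1 (by linarith [hp.l_σ k, hp.l_pos k]))
    refine ⟨f.trans P, fun x => β (f x) * B x, bad ∪ f ⁻¹' badP, ⟨?_, ?_, ?_, ?_, ?_, ?_, ?_, ?_,
      ?_⟩, ?_, ?_, ?_⟩
    · intro x hx
      rw [Homeomorph.trans_apply, p.fix0 x hx, q1 x hx]
    · intro x hx
      rw [Homeomorph.trans_apply, p.fixX x hx, q2 x hx]
    · intro x
      have := dist_triangle (P (f x)) (f x) x
      have h1 := mul_le_mul_of_nonneg_right hL1 h.pos.le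
      rw [Homeomorph.trans_apply]
      linarith [q3 (f x), p.disp x]
    · intro x
      rw [Homeomorph.trans_apply]
      have h1 := q4 (f x)
      have h2 := p.ratio x
      constructor <;> nlinarith [h1.1, h1.2, h2.1, h2.2]
    · exact (q6.comp f.continuous.measurable).mul p.meas
    · exact fun x => one_le_mul_of_one_le_of_one_le (q7 _) (p.one_le x)
    · exact fun x hx => (q8 _ (p.pos hL1 hx)).comp (p.plip x hx) (by linarith [q7 (f x)])
    · intro s hs0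
      obtain ⟨L1, hL1'⟩ := p.bdd s hs0
      obtain ⟨L2, hL2'⟩ := q9 (s / L) (div_pos hs0 (by linarith))
      refine ⟨L2 * L1, fun x hx => mul_le_mul (hL2' _ ?_) (hL1' x hx) (by linarith [p.one_le x])
        ((by linarith [q7 (f x)] : (0 : ℝ) ≤ β (f x)).trans (hL2' _ ?_))⟩ <;>
      · rw [div_le_iff₀ (by linarith)]
        linarith [(p.ratio x).2]
    · exact q10.comp p.nice fun x hx => p.pos hL1 hx
    · have hβq : Measurable fun y => ENNReal.ofReal (β y) ^ q := q6.ennreal_ofReal.pow_const q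
      calc ∫⁻ x, ENNReal.ofReal (β (f x) * B x) ^ q ∂ν
          = ∫⁻ y, ENNReal.ofReal (β y) ^ q ∂ν1 := by
            rw [hν1, lintegral_map hβq f.continuous.measurable,
              lintegral_withDensity_eq_lintegral_mul _ hBq
                (g := fun a => ENNReal.ofReal (β (f a)) ^ q) (hβq.comp f.continuous.measurable)]
            refine lintegral_congr fun x => ?_
            rw [ENNReal.ofReal_mul (by linarith [q7 (f x)]), ENNReal.mul_rpow_of_nonneg _ _ hq.le,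
              mul_comm]
            rfl
        _ ≤ (3 * Cq n m q + 1) * ((3 * Cq n m q + 1) ^ T.card * M * ν univ) := by
            refine q11.trans ?_
            rw [hν1u]
            gcongr
        _ = _ := by ring
    · refine (measure_union_le _ _).trans ?_
      rw [← Measure.map_apply f.continuous.measurable q12]
      push_cast
      rw [add_mul, one_mul, ← add_assoc]
      refine add_le_add hb' (q13.trans (ENNReal.tsum_le_tsum fun k => ?_))
      exact mul_le_mul_right (hpre _ (hs k)) _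
    · intro x hx hϱ hb
      rw [mem_union, not_or] at hb
      refine mid_step (e := e) h hp (hm1.trans hmj) hIj hIT (q7 (f x)) (p.one_le x) (p.plip x hϱ)
        q5 (q14 _ (p.pos hL1 hϱ)) (fun k z ha => ?_) rfl (hG' x hx hϱ hb.1)
      obtain ⟨a, ha1, ha2⟩ := q15 k z ha
      exact ⟨a, ha1, fun hy => ⟨(ha2 _ hy).1, (ha2 _ hy).2 hb.2⟩⟩

theorem exists_small_mul (w : ℕ → ℝ≥0∞) (hw : ∀ k, w k ≠ ⊤) {ε : ℝ≥0∞} (hε : 0 < ε) :
    ∃ p : ℕ → ℝ, (∀ k, 0 < p k ∧ p k < 1) ∧ ∑' k, ENNReal.ofReal (p k) * w k ≤ ε := by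
  obtain ⟨δ, hδ, hs⟩ := ENNReal.exists_pos_sum_of_countable hε.ne' ℕ
  have : ∀ k, ∃ p : ℝ, (0 < p ∧ p < 1) ∧ ENNReal.ofReal p * w k ≤ δ k := by
    intro k
    have h1 : Tendsto (fun p : ℝ => ENNReal.ofReal p * w k) (𝓝[>] 0) (𝓝 0) := by
      have h2 : Tendsto (fun p : ℝ => ENNReal.ofReal p) (𝓝[>] 0) (𝓝 0) := by
        simpa using (ENNReal.continuous_ofReal.tendsto 0).mono_left nhdsWithin_le_nhds
      simpa using ENNReal.Tendsto.mul_const h2 (Or.inr (hw k))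
    have h3 := h1.eventually (ge_mem_nhds (show (0 : ℝ≥0∞) < δ k by exact_mod_cast hδ k))
    obtain ⟨p, hp1, hp2⟩ := (h3.and (Ioo_mem_nhdsGT (zero_lt_one' ℝ))).exists
    exact ⟨p, hp2, hp1⟩
  choose p hp1 hp2 using this
  exact ⟨p, hp1, (ENNReal.tsum_le_tsum hp2).trans hs.le⟩

theorem collapse_step {m j : ℕ} (hm1 : 1 ≤ m) (hmj : m ≤ j) {q : ℝ} (hq : 0 < q) (hqm : q < m)
    {M : ℝ≥0∞} {Λ : ℝ} (hM : M ≠ ⊤) (hΛ : 1 ≤ Λ) (hc : CollapseAt n j q M Λ) :
    ∃ (M' : ℝ≥0∞) (Λ' : ℝ), M' ≠ ⊤ ∧ 1 ≤ Λ' ∧ CollapseAt n (j - 1) q M' Λ' := by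
  set T := Finset.powersetCard j (Finset.univ : Finset (Fin n)) with hT
  have hC := Cq_ne_top n hq hqm
  set Λ' := 2 ^ T.card * Λ with hΛ'
  have hΛ1 : 1 ≤ Λ' := one_le_mul_of_one_le_of_one_le (one_le_pow₀ one_le_two) hΛ
  refine ⟨(3 * Cq n m q + 1) ^ T.card * M, Λ', ENNReal.mul_ne_top (ENNReal.pow_ne_top
    (ENNReal.add_ne_top.2 ⟨ENNReal.mul_ne_top (by simp) hC, by simp⟩)) hM, hΛ1, ?_⟩
  intro ϱ μ X ν ν' ε h1 h2 h3 h4 h5 h6 hν hν0 hac hν' hε
  have h : Setup ϱ μ X := ⟨h1, h2, h3, h4, h5, h6⟩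
  have hs := mesh_pos h.pos
  have hε2 : 0 < ε / 2 := ENNReal.half_pos hε.ne'
  obtain ⟨ς, hς, hc'⟩ := hc ϱ μ X ν ν' (ε / 2) h1 h2 h3 h4 h5 h6 hν hν0 hac hν' hε2
  obtain ⟨p, hp, hps⟩ := exists_small_mul
    (fun k => T.card * (3 * ν' {y | mesh μ k / Λ' ≤ ϱ y}))
    (fun k => ENNReal.mul_ne_top (by simp) (ENNReal.mul_ne_top (by simp)
      (hν' _ (div_pos (hs k) (by linarith))).ne)) hε2
  set σo : ℕ → ℝ := fun k => p k * (ς k / (2 * mesh μ k)) / (72 * (n ^ 2 + 1)) with hσo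
  have hσ : ∀ k, 0 < σo k * mesh μ k := fun k => by
    have := (hp k).1; have := hς k; have := hs k
    simp only [hσo]; positivity
  refine ⟨fun k => min (σo k * mesh μ k) (σo (k - 1) * mesh μ (k - 1)),
    fun k => lt_min (hσ _) (hσ _), fun η' hη' => ?_⟩
  set l : ℕ → ℝ := fun k => min (min (min (η' k) (η' (k + 1))) (min (ς k) (σo k * mesh μ k)))
    (mesh μ k / 6) / 2 with hl
  have hl0 : ∀ k, 0 < l k := fun k => by
    have := hη' k; have := hη' (k + 1); have := hς k; have := hσ k; have := hs k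
    simp only [hl]; positivity
  have hl1 : ∀ k, 2 * l k = min (min (min (η' k) (η' (k + 1))) (min (ς k) (σo k * mesh μ k)))
      (mesh μ k / 6) := fun k => by simp only [hl]; ring
  set η : ℕ → ℝ := fun k => (Finset.range (k + 3)).inf' ⟨0, by simp⟩ l / 2 with hη
  have hη0 : ∀ k, 0 < η k := fun k =>
    half_pos ((Finset.lt_inf'_iff _).2 fun k' _ => hl0 k')
  have hpar : Params μ ς η l σo
      (fun k => min (σo k * mesh μ k) (σo (k - 1) * mesh μ (k - 1))) η' := by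
    refine ⟨hη0, hl0, fun k => ?_, fun k => ?_, fun k => ⟨min_le_left _ _, min_le_right _ _⟩,
      fun k => ⟨?_, ?_⟩, fun k => ?_, fun k k' hk => ?_⟩
    · rw [hl1]; exact (min_le_left _ _).trans ((min_le_right _ _).trans (min_le_left _ _))
    · rw [hl1]; exact (min_le_left _ _).trans ((min_le_right _ _).trans (min_le_right _ _))
    · rw [hl1]; exact (min_le_left _ _).trans ((min_le_left _ _).trans (min_le_left _ _))
    · rw [hl1]; exact (min_le_left _ _).trans ((min_le_left _ _).trans (min_le_right _ _))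
    · have := (hl1 k).trans_le (min_le_right _ _)
      linarith
    · have h7 : (Finset.range (k + 3)).inf' ⟨0, by simp⟩ l ≤ l k' :=
        Finset.inf'_le _ (Finset.mem_range.2 (by omega))
      have h8 := hl0 k'
      simp only [hη]
      linarith
  obtain ⟨h0, B0, bad0, a1, a2, a3, a4, a5, a6, a7, a8, a9, a10, a11, a12⟩ := hc' η hη0
  obtain ⟨f, B, bad, pk, b1, b2, b3⟩ := inner_stage (e := fun k => p k / 12) h hm1 hmj hq ν ν' hν'
    hpar (fun k => ⟨by linarith [(hp k).1], by linarith [(hp k).2]⟩) hΛ hM hC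
    ⟨a1, a2, a3, a4, a5, a6, a7, a8, a9⟩ a10 a12 T
    (fun I hI => (Finset.mem_powersetCard.1 hI).2) le_rfl
  refine ⟨f, B, bad, pk.fix0, pk.fixX, pk.disp, pk.ratio, pk.meas, pk.one_le, pk.plip, pk.bdd,
    pk.nice, b1, b2.trans ?_, fun x hx hϱ hb => ?_⟩
  · rw [← ENNReal.add_halves ε]
    refine add_le_add a11 (le_trans ?_ hps)
    rw [← ENNReal.tsum_mul_left]
    refine ENNReal.tsum_le_tsum fun k => ?_
    have h7 : 6 * (p k / 12) + 36 * n ^ 2 * (σo k / (ς k / (2 * mesh μ k))) ≤ p k := by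
      have := (hp k).1; have := hς k; have := hs k
      have h8 : σo k / (ς k / (2 * mesh μ k)) = p k / (72 * (n ^ 2 + 1)) := by
        simp only [hσo]; field_simp
      have h9 : 36 * (n : ℝ) ^ 2 * (p k / (72 * (n ^ 2 + 1))) ≤ p k / 2 := by
        rw [mul_div_assoc', div_le_iff₀ (by positivity)]
        nlinarith [sq_nonneg (n : ℝ)]
      rw [h8]
      linarith
    calc _ ≤ (T.card : ℝ≥0∞) * (3 * ENNReal.ofReal (p k) * ν' {y | mesh μ k / Λ' ≤ ϱ y}) := by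
          gcongr
      _ = _ := by ring
  · obtain ⟨k, I, z, c1, -, -, -, c2⟩ := b3 x hx hϱ hb
    exact (c2.resolve_left fun c3 => c3.1
      (Finset.mem_powersetCard.2 ⟨Finset.subset_univ _, c1⟩)).2

theorem collapse_base (q : ℝ) : CollapseAt n n q 1 1 := by
  intro ϱ μ X ν ν' ε h1 h2 h3 h4 h5 h6 hν hν0 hac hν' hε
  have h : Setup ϱ μ X := ⟨h1, h2, h3, h4, h5, h6⟩
  have hs := mesh_pos h.pos
  obtain ⟨δ, hδ, hsum⟩ := ENNReal.exists_pos_sum_of_countable hε.ne' ℕ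
  set T : ℕ → ℝ → Set (E n) := fun k r =>
    {x | mesh μ k ≤ ϱ x} ∩ ⋃ i, ⋃ w : ℤ, {x | |x i - mesh μ k * w| < r} with hT
  have hex : ∀ k, ∃ r : ℝ, 0 < r ∧ ν' (T k r) ≤ δ k := by
    intro k
    have hlim : Tendsto (fun t : ℕ => ν' (T k (1 / ((t : ℝ) + 1)))) atTop
        (𝓝 (ν' (⋂ t : ℕ, T k (1 / ((t : ℝ) + 1))))) := by
      refine tendsto_measure_iInter_atTop (fun t => ?_) (fun t t' htt => ?_) ⟨0, ?_⟩
      · refine ((measurableSet_le measurable_const h1.continuous.measurable).inter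
          (MeasurableSet.iUnion fun i => MeasurableSet.iUnion fun w => ?_)).nullMeasurableSet
        exact measurableSet_lt (by fun_prop) measurable_const
      · refine inter_subset_inter_right _ (iUnion_mono fun i => iUnion_mono fun w x hx => ?_)
        exact lt_of_lt_of_le (show |x i - mesh μ k * w| < _ from hx) (Nat.one_div_le_one_div htt)
      · exact ((measure_mono inter_subset_left).trans_lt (hν' _ (hs k))).ne
    have h0 : ν' (⋂ t : ℕ, T k (1 / ((t : ℝ) + 1))) = 0 := by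
      have hnull : ∀ᵐ x : E n, ∀ i, ∀ w : ℤ, 1 * x i ≠ mesh μ k * w :=
        ae_all_iff.2 fun i => ae_all_iff.2 fun w => null_one i one_ne_zero _
      refine hac (measure_mono_null (fun x hx => ?_) (ae_iff.1 hnull))
      rw [mem_ofPred_eq]
      intro hx'
      obtain ⟨I, z, hz⟩ := exists_oface (hs k) x
      have hz' : ∀ i, mesh μ k * z i < x i ∧ x i < mesh μ k * (z i + 1) := fun i =>
        hz.1 i (by by_contra hi; exact hx' i (z i) (by rw [one_mul]; exact hz.2 i hi))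
      have hev : ∀ᶠ t : ℕ in atTop, ∀ i, 1 / ((t : ℝ) + 1) < x i - mesh μ k * z i ∧
          1 / ((t : ℝ) + 1) < mesh μ k * (z i + 1) - x i :=
        eventually_all.2 fun i =>
          (tendsto_one_div_add_atTop_nhds_zero_nat.eventually
            (gt_mem_nhds (sub_pos.2 (hz' i).1))).and
          (tendsto_one_div_add_atTop_nhds_zero_nat.eventually (gt_mem_nhds (sub_pos.2 (hz' i).2)))
      obtain ⟨t, ht⟩ := hev.exists
      obtain ⟨i, w, hw⟩ : ∃ i, ∃ w : ℤ, |x i - mesh μ k * w| < 1 / ((t : ℝ) + 1) := by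
        simpa using (mem_iInter.1 hx t).2
      have h7 := abs_lt.1 hw
      have h8 : z i < w := ilt (hs k) (by linarith [(ht i).1])
      have h9 : w < z i + 1 := ilt (hs k) (by push_cast; linarith [(ht i).2])
      omega
    rw [h0] at hlim
    obtain ⟨t, ht⟩ :=
      (hlim.eventually (ge_mem_nhds (show (0 : ℝ≥0∞) < δ k by exact_mod_cast hδ k))).exists
    exact ⟨_, by positivity, ht⟩
  choose ς hς hς' using hex
  refine ⟨ς, hς, fun η hη => ⟨Homeomorph.refl _, fun _ => 1, ⋃ k, T k (ς k), fun _ _ => rfl,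
    fun _ _ => rfl, fun x => by simpa using h3.le, fun x => by simp, measurable_const,
    fun _ => le_rfl, fun x _ => PLip.id x, fun _ _ => ⟨1, fun _ _ => le_rfl⟩,
    Eventually.of_forall fun x _ => Nice.id x, by simp,
    (measure_iUnion_le _).trans ((ENNReal.tsum_le_tsum hς').trans hsum.le), ?_⟩⟩
  intro x hx hϱ hb
  obtain ⟨k, hk1, hk2⟩ := h.exists_level hx hϱ
  obtain ⟨I, z, hz⟩ := exists_oface (hs k) x
  have ha : Active ϱ μ X k I z := ⟨x, hz, hk1, hk2⟩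
  have hfar : ∀ i, ∀ w : ℤ, ς k ≤ |x i - mesh μ k * w| := fun i w => by
    by_contra hc
    refine hb (mem_iUnion.2 ⟨k, ?_, mem_iUnion₂.2 ⟨i, w, not_le.1 hc⟩⟩)
    have := ha.lt_rho h (oface_subset_face hz)
    simp only [mem_ofPred_eq]
    linarith [hs k]
  have hI : ∀ i, i ∈ I := fun i => by
    by_contra hi
    have := hfar i (z i)
    rw [hz.2 i hi, sub_self, abs_zero] at this
    linarith [hς k]
  refine ⟨k, I, z, by rw [Finset.eq_univ_of_forall hI]; simp, ha, fun i hi => ?_,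
    fun i hi => absurd (hI i) hi⟩
  have a1 := hfar i (z i)
  have a2 := hfar i (z i + 1)
  push_cast at a2
  rw [abs_of_pos (sub_pos.2 (hz.1 i hi).1)] at a1
  rw [abs_of_neg (sub_neg.2 (hz.1 i hi).2)] at a2
  simp only [Homeomorph.refl_apply, id]
  constructor <;> linarith

theorem collapse {m : ℕ} (hm : 1 ≤ m) (hmn : m ≤ n) {q : ℝ} (hq : 0 < q) (hqm : q < m) :
    ∃ (M : ℝ≥0∞) (Λ : ℝ), M ≠ ⊤ ∧ 1 ≤ Λ ∧ CollapseAt n (m - 1) q M Λ := by
  have key : ∀ d, d + m ≤ n + 1 →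
      ∃ (M : ℝ≥0∞) (Λ : ℝ), M ≠ ⊤ ∧ 1 ≤ Λ ∧ CollapseAt n (n - d) q M Λ := by
    intro d
    induction d with
    | zero => exact fun _ => ⟨1, 1, by simp, le_rfl, collapse_base q⟩
    | succ d ih =>
      intro hd
      obtain ⟨M, Λ, h1, h2, h3⟩ := ih (by omega)
      exact collapse_step (j := n - d) hm (by omega) hq hqm h1 h2 h3
  have := key (n + 1 - m) (by omega)
  rwa [show n - (n + 1 - m) = m - 1 by omega] at this

end Pool.Agent.P.MP_667fa2_an
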