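import Pool.Agent.P.MP_667fa2_an.Lines

/-! A generic direction. -/

namespace Pool.Agent.P.MP_667fa2_an

open Set Filter Topology MeasureTheory Metric
open scoped ENNReal NNReal

variable {n : ℕ}

theorem gen_null {s : Set (E n)} {m : ℕ} (hm : m < n) (h : dimH s ≤ m) : volume s = 0 := by
  refine measure_zero_of_dimH_lt (d := n) ?_ (h.trans_lt (by exact_mod_cast hm))
  have h1 := hausdorffMeasure_pi_real (ι := Fin n)
  rw [Fintype.card_fin] at h1
  rw [NNReal.coe_natCast, h1]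

theorem gen_null_image {P Q : Type*} [NormedAddCommGroup P] [NormedSpace ℝ P]
    [FiniteDimensional ℝ P] [NormedAddCommGroup Q] [NormedSpace ℝ Q] [FiniteDimensional ℝ Q]
    (hP : Module.finrank ℝ P < n) {S : Set P} {Ψ : P → Q} {K : ℝ≥0} (hΨ : LipschitzOnWith K Ψ S)
    {F : Q → E n} (hF : ContDiff ℝ 1 F) : volume (F '' (Ψ '' S)) = 0 := by
  refine gen_null hP ?_
  refine (hF.contDiffOn.dimH_image_le convex_univ (subset_univ _)).trans ?_
  refine hΨ.dimH_image_le.trans ((dimH_mono (subset_univ _)).trans ?_)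
  rw [Real.dimH_univ_eq_finrank]

theorem gen_lip_fst {P Q R : Type*} [PseudoEMetricSpace P] [PseudoEMetricSpace Q]
    [PseudoEMetricSpace R] {γ : P → R} {A : Set P} {K : ℝ≥0} (h : LipschitzOnWith K γ A)
    (B : Set Q) : LipschitzOnWith (K * 1) (fun p : P × Q => γ p.1) (A ×ˢ B) :=
  h.comp LipschitzWith.prod_fst.lipschitzOnWith fun _ hp => hp.1

theorem gen_lip_snd {P Q R : Type*} [PseudoEMetricSpace P] [PseudoEMetricSpace Q]
    [PseudoEMetricSpace R] {γ : Q → R} {B : Set Q} {K : ℝ≥0} (h : LipschitzOnWith K γ B)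
    (A : Set P) : LipschitzOnWith (K * 1) (fun p : P × Q => γ p.2) (A ×ˢ B) :=
  h.comp LipschitzWith.prod_snd.lipschitzOnWith fun _ hp => hp.2

/-- T2b. Generic direction. -/
theorem generic_dir {d : ℕ} (hd : 2 * d + 2 ≤ n) {Z : Set (E n)} (hZ : Thin d Z)
    {A : Set (E n)} (hA : A.Countable) (i0 : Fin n) {ω : ℝ} (hω : 0 < ω) :
    ∃ v : E n, v i0 = 1 ∧ (∀ i, i ≠ i0 → |v i| ≤ ω) ∧
      (∀ y ∈ Z, ∀ y' ∈ Z, ∀ s : ℝ, y - y' = s • v → y = y') ∧
      (∀ I : Finset (Fin n), I.card ≤ 2 * d → ∀ a ∈ A, ∃ ν : E n →L[ℝ] ℝ,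
        ν v = 1 ∧ ν a = 0 ∧ ∀ i ∈ I, ν (Pi.single i 1) = 0) ∧
      volume {y | ∃ s : ℝ, y + s • v ∈ Z} = 0 := by
  classical
  obtain ⟨T, γ, K, hK, hZ⟩ := hZ
  have h1 : ∀ᵐ w : E n, ∀ j l : ℕ, ∀ a ∈ T j, ∀ b ∈ T l, ∀ s : ℝ, w ≠ s • (γ j a - γ l b) := by
    refine ae_all_iff.2 fun j => ae_all_iff.2 fun l => ?_
    have h2 := gen_null_image (n := n) (P := ℝ × E d × E d) (Q := ℝ × E n × E n)
      (by simp; omega) (S := univ ×ˢ T j ×ˢ T l)
      (Ψ := fun p => (p.1, γ j p.2.1, γ l p.2.2))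
      (LipschitzWith.prod_fst.lipschitzOnWith.prodMk
        (gen_lip_snd ((gen_lip_fst (hK j) (T l)).prodMk (gen_lip_snd (hK l) (T j))) univ))
      (F := fun q => q.1 • (q.2.1 - q.2.2)) (by fun_prop)
    filter_upwards [measure_eq_zero_iff_ae_notMem.1 h2] with w hw a ha b hb s hs
    exact hw ⟨_, ⟨(s, a, b), ⟨mem_univ _, ha, hb⟩, rfl⟩, hs.symm⟩
  have h2 : ∀ᵐ w : E n, ∀ I : Finset (Fin n), ∀ a ∈ A, I.card ≤ 2 * d →
      w ∉ Submodule.span ℝ ((insert a (I.image fun i => Pi.single i (1 : ℝ)) : Finset (E n)) :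
        Set (E n)) := by
    refine ae_all_iff.2 fun I => (ae_ball_iff hA).2 fun a _ => ?_
    by_cases hI : I.card ≤ 2 * d
    · have h3 : Submodule.span ℝ ((insert a (I.image fun i => Pi.single i (1 : ℝ)) :
          Finset (E n)) : Set (E n)) ≠ ⊤ := by
        intro h
        have h4 := finrank_span_finset_le_card (R := ℝ)
          (insert a (I.image fun i => Pi.single i (1 : ℝ)) : Finset (E n))
        have h5 := Finset.card_insert_le a (I.image fun i => (Pi.single i (1 : ℝ) : E n))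
        have h6 := Finset.card_image_le (s := I) (f := fun i => (Pi.single i (1 : ℝ) : E n))
        rw [Set.finrank, h, finrank_top] at h4
        simp only [Module.finrank_pi, Fintype.card_fin] at h4
        omega
      filter_upwards [measure_eq_zero_iff_ae_notMem.1 (Measure.addHaar_submodule volume _ h3)]
        with w hw _
      exact hw
    · exact Eventually.of_forall fun _ h => absurd h hI
  have hδ : 0 < min (1 / 2) (ω / 2) := lt_min (by norm_num) (half_pos hω)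
  obtain ⟨w, ⟨hw1, hw2⟩, hw⟩ := (Measure.dense_of_ae (h1.and h2)).exists_mem_open isOpen_ball
    (nonempty_ball.2 hδ : (ball (Pi.single i0 (1 : ℝ) : E n) _).Nonempty)
  rw [mem_ball, dist_pi_lt_iff hδ] at hw
  have hw0 : 1 / 2 < w i0 := by
    have := hw i0
    rw [Pi.single_eq_same, Real.dist_eq, lt_min_iff, abs_lt] at this
    linarith [this.1.1]
  have hw0' : w i0 ≠ 0 := by linarith
  have hwv : w = w i0 • (w i0)⁻¹ • w := by rw [smul_smul, mul_inv_cancel₀ hw0', one_smul]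
  refine ⟨(w i0)⁻¹ • w, by simp [hw0'], fun i hi => ?_, fun y hy y' hy' s hs => ?_,
    fun I hI a ha => ?_, ?_⟩
  · have := hw i
    rw [Pi.single_eq_of_ne hi, Real.dist_eq, sub_zero, lt_min_iff] at this
    rw [Pi.smul_apply, smul_eq_mul, abs_mul, abs_inv, abs_of_pos (by linarith : 0 < w i0),
      inv_mul_le_iff₀ (by linarith)]
    nlinarith [this.2]
  · by_contra hne
    have hs0 : s ≠ 0 := by
      rintro rfl
      exact hne (by simpa [sub_eq_zero] using hs)
    obtain ⟨j, a, ha, rfl⟩ := mem_iUnion.1 (hZ hy)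
    obtain ⟨l, b, hb, rfl⟩ := mem_iUnion.1 (hZ hy')
    refine hw1 j l a ha b hb (w i0 * s⁻¹) ?_
    rw [hs, mul_smul, smul_smul s⁻¹, inv_mul_cancel₀ hs0, one_smul]
    exact hwv
  · obtain ⟨f, hf, hker⟩ := Submodule.exists_le_ker_of_notMem (hw2 I a ha hI)
    have hf0 : ∀ x ∈ (insert a (I.image fun i => Pi.single i (1 : ℝ)) : Finset (E n)), f x = 0 :=
      fun x hx => hker (Submodule.subset_span hx)
    refine ⟨(w i0 * (f w)⁻¹) • LinearMap.toContinuousLinearMap f, ?_, ?_, fun i hi => ?_⟩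
    · simp only [smul_apply, LinearMap.coe_toContinuousLinearMap', map_smul, smul_eq_mul]
      field_simp
    · simp [hf0 a (Finset.mem_insert_self _ _)]
    · simp [hf0 _ (Finset.mem_insert_of_mem (Finset.mem_image_of_mem _ hi))]
  · refine measure_mono_null (t := ⋃ j, (fun q : ℝ × E n => q.2 - q.1 • ((w i0)⁻¹ • w)) ''
      ((fun p : ℝ × E d => (p.1, γ j p.2)) '' (univ ×ˢ T j))) ?_ (measure_iUnion_null fun j => ?_)
    · rintro y ⟨s, hs⟩
      obtain ⟨j, a, ha, e⟩ := mem_iUnion.1 (hZ hs)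
      refine mem_iUnion.2 ⟨j, _, ⟨(s, a), ⟨mem_univ _, ha⟩, rfl⟩, ?_⟩
      simp only [e, add_sub_cancel_right]
    · exact gen_null_image (by simp; omega)
        (LipschitzWith.prod_fst.lipschitzOnWith.prodMk (gen_lip_snd (hK j) univ)) (by fun_prop)

end Pool.Agent.P.MP_667fa2_an
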