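import Pool.Agent.P.MP_667fa2_an.Lines

/-! Squeezing maps of cubes, gluing, nested families of cubes, Lipschitz curves. -/

namespace Pool.Agent.P.MP_667fa2_an

open Set Filter Topology MeasureTheory Metric
open scoped ENNReal NNReal

variable {n : ℕ}

/-- A smooth cut-off of the cube of radius `R`, equal to one on the cube of radius `r`. -/
noncomputable def canChi (r R : ℝ) (u : E n) : ℝ :=
  ∏ i, Real.smoothTransition ((R ^ 2 - u i ^ 2) / (R ^ 2 - r ^ 2))

theorem can_chi_contDiff (r R : ℝ) : ContDiff ℝ 1 (canChi r R : E n → ℝ) := by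
  unfold canChi
  refine contDiff_prod fun i _ => Real.smoothTransition.contDiff.comp ?_
  fun_prop

theorem can_chi_nonneg (r R : ℝ) (u : E n) : 0 ≤ canChi r R u :=
  Finset.prod_nonneg fun _ _ => Real.smoothTransition.nonneg _

theorem can_chi_le_one (r R : ℝ) (u : E n) : canChi r R u ≤ 1 :=
  Finset.prod_le_one (fun _ _ => Real.smoothTransition.nonneg _)
    fun _ _ => Real.smoothTransition.le_one _

theorem can_chi_one {r R : ℝ} (hr : 0 ≤ r) (hR : r < R) {u : E n} (hu : ‖u‖ ≤ r) :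
    canChi r R u = 1 := by
  refine Finset.prod_eq_one fun i _ => Real.smoothTransition.one_of_one_le ?_
  have h1 : |u i| ≤ r := (norm_le_pi_norm u i).trans hu
  have h2 : u i ^ 2 ≤ r ^ 2 := sq_le_sq' (abs_le.1 h1).1 (abs_le.1 h1).2
  rw [le_div_iff₀ (by nlinarith)]
  linarith

theorem can_chi_zero {r R : ℝ} (hr : 0 ≤ r) (hR : r < R) {u : E n} (hu : R ≤ ‖u‖) :
    canChi r R u = 0 := by
  obtain ⟨i, hi⟩ : ∃ i, R ≤ |u i| := by
    by_contra h
    push Not at h
    exact absurd ((pi_norm_lt_iff (hr.trans_lt hR)).2 h) (not_lt.2 hu)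
  refine Finset.prod_eq_zero (Finset.mem_univ i) (Real.smoothTransition.zero_of_nonpos ?_)
  have h2 : R ^ 2 ≤ u i ^ 2 := by
    rw [← sq_abs (u i)]
    exact pow_le_pow_left₀ (hr.trans hR.le) hi 2
  exact div_nonpos_of_nonpos_of_nonneg (by linarith) (by nlinarith)

theorem can_chi_anti {r R : ℝ} (hr : 0 ≤ r) (hR : r < R) (u : E n) {s s' : ℝ} (h0 : 0 ≤ s')
    (h : s' ≤ s) : canChi r R (s • u) ≤ canChi r R (s' • u) := by
  refine Finset.prod_le_prod (fun _ _ => Real.smoothTransition.nonneg _) fun i _ =>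
    Real.smoothTransition.monotone ?_
  have h1 : (s' * u i) ^ 2 ≤ (s * u i) ^ 2 := by
    rw [mul_pow, mul_pow]
    exact mul_le_mul_of_nonneg_right (pow_le_pow_left₀ h0 h 2) (sq_nonneg _)
  refine div_le_div_of_nonneg_right ?_ (by nlinarith)
  simp only [Pi.smul_apply, smul_eq_mul]
  linarith

/-- The squeezing map of one cube. -/
theorem can_squeeze (c : E n) {r R κ : ℝ} (hr : 0 ≤ r) (hR : r < R) (hκ : 0 < κ) (hκ1 : κ ≤ 1) :
    ∃ g : E n ≃ₜ E n, (∀ y, y ∉ closedBall c R → g y = y) ∧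
      (∀ y ∈ closedBall c r, g y = c + κ • (y - c)) ∧ (∀ y, Nice g y) ∧
      ∀ y, ∃ s : ℝ, g y - c = s • (y - c) := by
  set D : E n → ℝ := fun y => -(1 - κ) * canChi r R (y - c) with hD
  have hDc : ContDiff ℝ 1 D :=
    contDiff_const.mul ((can_chi_contDiff r R).comp (contDiff_id.sub contDiff_const))
  have hm : RayMono (ContinuousLinearMap.id ℝ (E n)) c D κ := by
    intro y s s' h0 h
    have h1 : ∀ t : ℝ, y + (t - 1) • (ContinuousLinearMap.id ℝ (E n)) (y - c) - c = t • (y - c) :=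
      fun t => by
        rw [ContinuousLinearMap.id_apply]
        module
    simp only [hD, h1]
    have h2 := can_chi_anti hr hR (y - c) h0 h
    have h3 := can_chi_le_one r R (s • (y - c))
    have h4 : 0 ≤ s' * ((1 - κ) * (canChi r R (s' • (y - c)) - canChi r R (s • (y - c)))) :=
      mul_nonneg h0 (mul_nonneg (by linarith) (by linarith))
    have h5 : 0 ≤ (s - s') * ((1 - κ) * (1 - canChi r R (s • (y - c)))) :=
      mul_nonneg (by linarith) (mul_nonneg (by linarith) (by linarith))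
    nlinarith
  obtain ⟨g, hg⟩ := radial_homeo (ContinuousLinearMap.id ℝ (E n)) (fun _ => rfl) c D
    hDc.continuous hκ hm R fun y => by
      rw [ContinuousLinearMap.id_apply, norm_smul]
      rcases le_total R ‖y - c‖ with h | h
      · simp only [hD, can_chi_zero hr hR h, mul_zero, norm_zero, zero_mul]
        linarith
      · have h1 : ‖D y‖ ≤ 1 := by
          simp only [hD, norm_mul, norm_neg, Real.norm_eq_abs]
          rw [abs_of_nonneg (by linarith), abs_of_nonneg (can_chi_nonneg _ _ _)]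
          exact mul_le_one₀ (by linarith) (can_chi_nonneg _ _ _) (can_chi_le_one _ _ _)
        calc ‖D y‖ * ‖y - c‖ ≤ 1 * R := mul_le_mul h1 h (norm_nonneg _) zero_le_one
          _ = R := one_mul R
  refine ⟨g, fun y hy => ?_, fun y hy => ?_, fun y => ?_, fun y => ⟨1 + D y, ?_⟩⟩
  · rw [mem_closedBall, dist_eq_norm, not_le] at hy
    simp [hg, hD, can_chi_zero hr hR hy.le]
  · rw [mem_closedBall, dist_eq_norm] at hy
    simp only [hg, hD, can_chi_one hr hR hy, ContinuousLinearMap.id_apply]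
    module
  · have h1 : (g : E n → E n) = fun y => y + D y • (ContinuousLinearMap.id ℝ (E n)) (y - c) :=
      funext hg
    rw [h1]
    refine ⟨?_, radial_injective _ (fun _ => rfl) c D hκ hm (hDc.differentiable one_ne_zero y)⟩
    exact (contDiff_id.add (hDc.smul (contDiff_id.sub contDiff_const))).contDiffAt
  · rw [hg, ContinuousLinearMap.id_apply]
    module

theorem can_maps {g : E n ≃ₜ E n} {B : Set (E n)} (h : ∀ y, y ∉ B → g y = y) {y : E n}
    (hy : y ∈ B) : g y ∈ B := by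
  by_contra hc
  have := g.injective (h _ hc)
  exact hc (by rw [this]; exact hy)

/-- Gluing of homeomorphisms with disjoint supports. -/
theorem can_glue {ι : Type*} (F : Finset ι) (B : ι → Set (E n)) (g : ι → E n ≃ₜ E n)
    (hB : (F : Set ι).PairwiseDisjoint B) (hg : ∀ a ∈ F, ∀ y, y ∉ B a → g a y = y) :
    ∃ Γ : E n ≃ₜ E n, (∀ y, (∀ b ∈ F, y ∉ B b) → Γ y = y) ∧ ∀ a ∈ F, ∀ y ∈ B a, Γ y = g a y := by
  classical
  induction F using Finset.induction_on with
  | empty => exact ⟨Homeomorph.refl _, fun _ _ => rfl, by simp⟩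
  | insert a F ha ih =>
    obtain ⟨Γ, h1, h2⟩ := ih (hB.subset (by simp))
      fun b hb => hg b (Finset.mem_insert_of_mem hb)
    have hd : ∀ b ∈ F, Disjoint (B a) (B b) := fun b hb =>
      hB (by simp) (by simp [hb]) fun h => ha (h ▸ hb)
    have hga := hg a (Finset.mem_insert_self _ _)
    refine ⟨(g a).trans Γ, fun y hy => ?_, fun b hb y hy => ?_⟩
    · rw [Homeomorph.trans_apply, hga y (hy a (Finset.mem_insert_self _ _))]
      exact h1 y fun b hb => hy b (Finset.mem_insert_of_mem hb)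
    · rw [Homeomorph.trans_apply]
      rcases Finset.mem_insert.1 hb with rfl | hb
      · exact h1 _ fun b' hb' => Set.disjoint_left.1 (hd b' hb') (can_maps hga hy)
      · rw [hga y (Set.disjoint_right.1 (hd b hb) hy)]
        exact h2 b hb y hy

/-- The squeezing map of one generation of cubes. -/
theorem can_level (F : Finset (E n × ℝ)) {θ κ : ℝ} (hθ : 0 < θ) (hθ1 : θ < 1) (hκ : 0 < κ)
    (hκ1 : κ ≤ 1) (hF : ∀ a ∈ F, 0 < a.2)
    (hd : (F : Set (E n × ℝ)).PairwiseDisjoint fun a => closedBall a.1 a.2) :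
    ∃ Γ : E n ≃ₜ E n, (∀ y, (∀ a ∈ F, y ∉ closedBall a.1 a.2) → Γ y = y) ∧
      (∀ a ∈ F, ∀ y ∈ closedBall a.1 a.2, Γ y ∈ closedBall a.1 a.2) ∧
      (∀ a ∈ F, ∀ y ∈ closedBall a.1 (θ * a.2), Γ y = a.1 + κ • (y - a.1)) ∧ (∀ y, Nice Γ y) ∧
      ∀ a ∈ F, ∀ x ∈ closedBall a.1 a.2, ∀ᶠ y in 𝓝 x, ∃ s : ℝ, Γ y - a.1 = s • (y - a.1) := by
  have h : ∀ a : E n × ℝ, ∃ g : E n ≃ₜ E n, a ∈ F → (∀ y, y ∉ closedBall a.1 a.2 → g y = y) ∧
      (∀ y ∈ closedBall a.1 (θ * a.2), g y = a.1 + κ • (y - a.1)) ∧ (∀ y, Nice g y) ∧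
      ∀ y, ∃ s : ℝ, g y - a.1 = s • (y - a.1) := fun a => by
    by_cases ha : a ∈ F
    · have h0 := hF a ha
      obtain ⟨g, hg⟩ := can_squeeze a.1 (r := θ * a.2) (R := a.2) (by positivity)
        (by nlinarith) hκ hκ1
      exact ⟨g, fun _ => hg⟩
    · exact ⟨Homeomorph.refl _, fun h => absurd h ha⟩
  choose g hg using h
  obtain ⟨Γ, h1, h2⟩ := can_glue F (fun a => closedBall a.1 a.2) g hd fun a ha => (hg a ha).1
  have hoff : ∀ (S : Finset (E n × ℝ)) (x : E n), (∀ a ∈ S, x ∉ closedBall a.1 a.2) →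
      ∀ᶠ y in 𝓝 x, ∀ a ∈ S, y ∉ closedBall a.1 a.2 := fun S x hx =>
    (eventually_all_finset S).2 fun a ha => isClosed_closedBall.isOpen_compl.mem_nhds (hx a ha)
  have hloc : ∀ a ∈ F, ∀ x ∈ closedBall a.1 a.2, (Γ : E n → E n) =ᶠ[𝓝 x] g a := by
    classical
    intro a ha x hx
    filter_upwards [hoff (F.erase a) x fun b hb => Set.disjoint_left.1
      (hd ha (Finset.mem_of_mem_erase hb) (Finset.ne_of_mem_erase hb).symm) hx] with y hy
    by_cases hya : y ∈ closedBall a.1 a.2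
    · exact h2 a ha y hya
    · rw [(hg a ha).1 y hya]
      refine h1 y fun b hb => ?_
      by_cases hba : b = a
      · exact hba ▸ hya
      · exact hy b (Finset.mem_erase.2 ⟨hba, hb⟩)
  refine ⟨Γ, h1, fun a ha y hy => ?_, fun a ha y hy => ?_, fun x => ?_, fun a ha x hx => ?_⟩
  · rw [h2 a ha y hy]
    exact can_maps (hg a ha).1 hy
  · have h0 := hF a ha
    rw [h2 a ha y (closedBall_subset_closedBall (by nlinarith) hy)]
    exact (hg a ha).2.1 y hy
  · by_cases hx : ∃ a ∈ F, x ∈ closedBall a.1 a.2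
    · obtain ⟨a, ha, hx⟩ := hx
      exact ((hg a ha).2.2.1 x).congr (hloc a ha x hx).symm
    · push Not at hx
      exact (Nice.id x).congr ((hoff F x hx).mono fun y hy => (h1 y hy).symm)
  · filter_upwards [hloc a ha x hx] with y hy
    rw [hy]
    exact (hg a ha).2.2.2 y

/-- One generation of cubes inside the members of an open family. -/
theorem can_step (𝒰 : Set (Set (E n))) (hU : ∀ U ∈ 𝒰, IsOpen U) (hfin : volume (⋃₀ 𝒰) ≠ ⊤)
    {δ : ℝ} (hδ : 0 < δ) {η : ℝ≥0∞} (hη : 0 < η) :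
    ∃ (F : Finset (E n × ℝ)) (θ : ℝ), 0 < θ ∧ θ < 1 ∧
      (∀ a ∈ F, 0 < a.2 ∧ a.2 ≤ δ ∧ ∃ U ∈ 𝒰, closedBall a.1 a.2 ⊆ U) ∧
      ((F : Set (E n × ℝ)).PairwiseDisjoint fun a => closedBall a.1 a.2) ∧
      volume (⋃₀ 𝒰 \ ⋃ a ∈ F, ball a.1 (θ * a.2)) ≤ η := by
  have h : ∀ x : E n, ∃ d : ℝ, x ∈ ⋃₀ 𝒰 → 0 < d ∧ d ≤ δ ∧ ∃ U ∈ 𝒰, ball x d ⊆ U := fun x => by
    by_cases hx : x ∈ ⋃₀ 𝒰
    · obtain ⟨U, hUU, hxU⟩ := hx
      obtain ⟨d, hd, hdU⟩ := Metric.isOpen_iff.1 (hU U hUU) x hxU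
      exact ⟨min d δ, fun _ => ⟨lt_min hd hδ, min_le_right _ _, U, hUU,
        (ball_subset_ball (min_le_left _ _)).trans hdU⟩⟩
    · exact ⟨0, fun h => absurd h hx⟩
  choose d hd using h
  obtain ⟨η', hη'0, hη'⟩ := exists_between hη
  obtain ⟨F, h1, h2, h3⟩ := fill (⋃₀ 𝒰) (isOpen_sUnion hU) volume Measure.AbsolutelyContinuous.rfl
    hfin (fun _ => ContinuousLinearEquiv.refl ℝ (E n)) 1 le_rfl
    (fun _ _ => ⟨ContinuousLinearMap.norm_id_le, ContinuousLinearMap.norm_id_le⟩) d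
    (fun x hx => (hd x hx).1) η' hη'0
  have hp : ∀ a ∈ F, patch (ContinuousLinearEquiv.refl ℝ (E n)) a.1 a.2 = closedBall a.1 a.2 :=
    fun a ha => by
      ext x
      rw [mem_patch (h1 a ha).2.1, mem_closedBall, dist_eq_norm]
      rfl
  let θ : ℕ → ℝ := fun m => 1 - 1 / ((m : ℝ) + 2)
  have hθ0 : ∀ m, 0 < θ m := fun m => by
    have : 1 / ((m : ℝ) + 2) < 1 := by
      rw [div_lt_one (by positivity)]
      linarith [(Nat.cast_nonneg m : (0 : ℝ) ≤ m)]
    simp only [θ]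
    linarith
  have hθ1 : ∀ m, θ m < 1 := fun m => sub_lt_self _ (by positivity)
  have hlim : Tendsto (fun m => volume (⋃₀ 𝒰 \ ⋃ a ∈ F, ball a.1 (θ m * a.2))) atTop
      (𝓝 (volume (⋂ m, ⋃₀ 𝒰 \ ⋃ a ∈ F, ball a.1 (θ m * a.2)))) := by
    refine tendsto_measure_iInter_atTop (fun m => ?_) (fun m m' h => ?_) ⟨0, ?_⟩
    · exact ((isOpen_sUnion hU).measurableSet.diff
        (Finset.measurableSet_biUnion _ fun _ _ => measurableSet_ball)).nullMeasurableSet
    · refine sdiff_subset_sdiff_right (iUnion₂_mono fun a ha => ball_subset_ball ?_)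
      refine mul_le_mul_of_nonneg_right ?_ (h1 a ha).2.1.le
      have : (m : ℝ) ≤ m' := by exact_mod_cast h
      simp only [θ]
      gcongr
    · exact ne_top_of_le_ne_top hfin (measure_mono sdiff_subset)
  have hle : volume (⋂ m, ⋃₀ 𝒰 \ ⋃ a ∈ F, ball a.1 (θ m * a.2)) ≤ η' := by
    have h4 : volume (⋃ a ∈ F, sphere a.1 a.2) = 0 :=
      (measure_biUnion_null_iff F.countable_toSet).2 fun a ha =>
        Measure.addHaar_sphere_of_ne_zero volume _ (h1 a ha).2.1.ne'
    refine le_trans (measure_mono (t := (⋃₀ 𝒰 \ ⋃ a ∈ F,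
      patch (ContinuousLinearEquiv.refl ℝ (E n)) a.1 a.2) ∪ ⋃ a ∈ F, sphere a.1 a.2) ?_) ?_
    · intro x hx
      rw [mem_iInter] at hx
      by_cases hxF : x ∈ ⋃ a ∈ F, patch (ContinuousLinearEquiv.refl ℝ (E n)) a.1 a.2
      · obtain ⟨a, ha, hxa⟩ := mem_iUnion₂.1 hxF
        rw [hp a ha] at hxa
        refine Or.inr (mem_iUnion₂.2 ⟨a, ha, le_antisymm hxa ?_⟩)
        have h5 : Tendsto (fun m => θ m * a.2) atTop (𝓝 ((1 - 0) * a.2)) := by
          refine Tendsto.mul_const _ (tendsto_const_nhds.sub ?_)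
          exact tendsto_const_nhds.div_atTop
            (tendsto_atTop_add_const_right _ _ tendsto_natCast_atTop_atTop)
        rw [sub_zero, one_mul] at h5
        exact le_of_tendsto' h5 fun m => not_lt.1 fun h => (hx m).2 (mem_iUnion₂.2 ⟨a, ha, h⟩)
      · exact Or.inl ⟨(hx 0).1, hxF⟩
    · refine (measure_union_le _ _).trans ?_
      rw [h4, add_zero]
      exact h3
  obtain ⟨m, hm⟩ := (hlim.eventually (ge_mem_nhds (hle.trans_lt hη'))).exists
  refine ⟨F, θ m, hθ0 m, hθ1 m, fun a ha => ?_, fun a ha b hb hab => ?_, hm⟩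
  · obtain ⟨h4, h5, h6, h7⟩ := h1 a ha
    obtain ⟨-, h8, U, hUU, h9⟩ := hd a.1 h4
    rw [hp a ha] at h7
    exact ⟨h5, h6.trans h8, U, hUU, fun x hx => h9 (h7 hx).2⟩
  · have := h2 ha hb hab
    simp only [Function.onFun] at this ⊢
    rwa [hp a ha, hp b hb] at this

/-- The nested generations of cubes. -/
theorem can_levels (Ω : Set (E n)) (hΩ : IsOpen Ω) (hΩb : Bornology.IsBounded Ω) {ε : ℝ}
    (hε : 0 < ε) : ∃ (F : ℕ → Finset (E n × ℝ)) (θ : ℕ → ℝ), (∀ k, 0 < θ k ∧ θ k < 1) ∧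
      (∀ k, ∀ a ∈ F k, 0 < a.2 ∧ a.2 ≤ (1 / 2) ^ k) ∧
      (∀ k, (F k : Set (E n × ℝ)).PairwiseDisjoint fun a => closedBall a.1 a.2) ∧
      (∀ a ∈ F 0, closedBall a.1 a.2 ⊆ Ω) ∧
      (∀ k, ∀ a ∈ F (k + 1), ∃ b ∈ F k, closedBall a.1 a.2 ⊆ ball b.1 (θ k * b.2)) ∧
      volume (Ω \ ⋂ k, ⋃ a ∈ F k, closedBall a.1 a.2) ≤ ENNReal.ofReal ε := by
  obtain ⟨η, hη0, hη⟩ := ENNReal.exists_pos_sum_of_countable' (ENNReal.ofReal_pos.2 hε).ne' ℕ
  let S := {𝒰 : Set (Set (E n)) // (∀ U ∈ 𝒰, IsOpen U) ∧ volume (⋃₀ 𝒰) ≠ ⊤}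
  choose Ff θf h0 h1 h2 h3 h4 using fun (k : ℕ) (𝒰 : S) =>
    can_step 𝒰.1 𝒰.2.1 𝒰.2.2 (δ := (1 / 2) ^ k) (by positivity) (hη0 k)
  have hsU : ∀ (F : Finset (E n × ℝ)) (θ : ℝ),
      ⋃₀ ((fun a : E n × ℝ => ball a.1 (θ * a.2)) '' F) = ⋃ a ∈ F, ball a.1 (θ * a.2) :=
    fun F θ => sUnion_image _ _
  let nx : ℕ → S → S := fun k 𝒰 => ⟨(fun a : E n × ℝ => ball a.1 (θf k 𝒰 * a.2)) '' Ff k 𝒰,
    forall_mem_image.2 fun _ _ => isOpen_ball, by
      rw [hsU]
      exact ((Bornology.isBounded_biUnion_finset _).2 fun _ _ =>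
        isBounded_ball).measure_lt_top.ne⟩
  let V : ℕ → S := fun k => Nat.rec ⟨{Ω}, by simpa using hΩ,
    by simpa using hΩb.measure_lt_top.ne⟩ nx k
  have hV : ∀ k, (V (k + 1)).1 = (fun a : E n × ℝ => ball a.1 (θf k (V k) * a.2)) '' Ff k (V k) :=
    fun k => rfl
  have hV0 : (V 0).1 = {Ω} := rfl
  refine ⟨fun k => Ff k (V k), fun k => θf k (V k), fun k => ⟨h0 _ _, h1 _ _⟩,
    fun k a ha => ⟨(h2 _ _ a ha).1, (h2 _ _ a ha).2.1⟩, fun k => h3 _ _, fun a ha => ?_,
    fun k a ha => ?_, ?_⟩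
  · obtain ⟨-, -, U, hU, h⟩ := h2 _ _ a ha
    rw [hV0, mem_singleton_iff] at hU
    exact hU ▸ h
  · obtain ⟨-, -, U, hU, h⟩ := h2 _ _ a ha
    rw [hV] at hU
    obtain ⟨b, hb, rfl⟩ := hU
    exact ⟨b, hb, h⟩
  · refine le_trans (measure_mono (t := ⋃ k, ⋃₀ (V k).1 \ ⋃₀ (V (k + 1)).1) ?_)
      ((measure_iUnion_le _).trans (le_trans (ENNReal.tsum_le_tsum fun k => ?_) hη.le))
    · rintro x ⟨hx, hx'⟩
      by_contra hc
      simp only [mem_iUnion, not_exists, Set.mem_sdiff, not_and, not_not] at hc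
      have h5 : ∀ k, x ∈ ⋃₀ (V k).1 := fun k => by
        induction k with
        | zero => simpa [hV0] using hx
        | succ k ih => exact hc k ih
      refine hx' (mem_iInter.2 fun k => ?_)
      have h6 := h5 (k + 1)
      rw [hV, hsU] at h6
      obtain ⟨a, ha, hxa⟩ := mem_iUnion₂.1 h6
      have h7 := (h2 _ _ a ha).1
      have h8 := h1 k (V k)
      exact mem_iUnion₂.2 ⟨a, ha, ball_subset_closedBall (ball_subset_ball (by nlinarith) hxa)⟩
    · rw [hV, hsU]
      exact h4 k (V k)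

/-- A very thin Cantor set lies on a Lipschitz curve. -/
theorem can_curve (Y : Set (E n)) (hY : Bornology.IsBounded Y) (cen : ℕ → Finset (E n))
    (a : ℕ → ℝ) (ha : ∀ k, 0 < a k) (ha' : ∀ k, a (k + 1) * ((cen (k + 1)).card + 1) ≤ a k / 4)
    (hc : ∀ y ∈ Y, ∀ k, ∃ c ∈ cen k, y ∈ closedBall c (a (k + 1))) :
    ∃ (T : Set ℝ) (γ : ℝ → E n) (K : ℝ≥0), LipschitzOnWith K γ T ∧ Y ⊆ γ '' T := by
  classical
  choose! c hc1 hc2 using hc
  let ix : ℕ → E n → ℕ := fun k z => if h : z ∈ cen k then ((cen k).equivFin ⟨z, h⟩ : ℕ) else 0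
  have hix : ∀ k z, ix k z ≤ (cen k).card := fun k z => by
    simp only [ix]
    split_ifs with h
    · exact ((cen k).equivFin ⟨z, h⟩).2.le
    · exact Nat.zero_le _
  have hinj : ∀ k, ∀ z ∈ cen k, ∀ z' ∈ cen k, ix k z = ix k z' → z = z' := fun k z hz z' hz' h => by
    simp only [ix, hz, hz', dif_pos] at h
    exact congrArg Subtype.val ((cen k).equivFin.injective (Fin.ext h))
  have hdec : ∀ k i, a (i + k) ≤ a k * (1 / 4) ^ i := fun k i => by
    induction i with
    | zero => simp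
    | succ i ih =>
      have h1 := ha' (i + k)
      have h2 := ha (i + k + 1)
      have h3 : (0 : ℝ) ≤ (cen (i + k + 1)).card := Nat.cast_nonneg _
      rw [show i + 1 + k = i + k + 1 by ring, pow_succ]
      nlinarith
  have hgeo : ∀ k, HasSum (fun i : ℕ => a k / 4 * (1 / 4) ^ i) (a k / 4 * (1 - 1 / 4)⁻¹) :=
    fun k => (hasSum_geometric_of_lt_one (by norm_num) (by norm_num)).mul_left _
  have hbd : ∀ (d : ℕ → ℝ), (∀ k, |d k| ≤ (cen k).card) → ∀ k i,
      ‖a (i + (k + 1)) * d (i + (k + 1))‖ ≤ a k / 4 * (1 / 4) ^ i := fun d hd k i => by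
    have h1 := ha' (i + k)
    have h2 := ha (i + k + 1)
    have h3 := hd (i + k + 1)
    have h4 := hdec k i
    rw [← add_assoc, norm_mul, Real.norm_of_nonneg h2.le, Real.norm_eq_abs]
    nlinarith
  have hsum : ∀ (d : ℕ → ℝ), (∀ k, |d k| ≤ (cen k).card) → Summable fun k => a k * d k :=
    fun d hd => (summable_nat_add_iff 1).1 (Summable.of_norm_bounded (hgeo 0).summable (hbd d hd 0))
  have habs : ∀ y k, |(ix k (c y k) : ℝ)| ≤ (cen k).card := fun y k => by
    rw [Nat.abs_cast]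
    exact_mod_cast hix k _
  let g : E n → ℝ := fun y => ∑' k, a k * ix k (c y k)
  obtain ⟨B, hB⟩ := Metric.isBounded_iff.1 hY
  have key : ∀ y ∈ Y, ∀ y' ∈ Y, dist y y' ≤ (4 + 2 * |B| / a 0) * dist (g y) (g y') := by
    intro y hy y' hy'
    have hB0 : 0 ≤ 2 * |B| / a 0 := by
      have := ha 0
      positivity
    have hcl : ∀ k, c y k = c y' k → dist y y' ≤ 2 * a (k + 1) := fun k h => by
      have h1 := hc2 y hy k
      have h2 := hc2 y' hy' k
      rw [← h] at h2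
      have h3 := dist_triangle_right y y' (c y k)
      rw [mem_closedBall] at h1 h2
      linarith
    by_cases hex : ∃ k, c y k ≠ c y' k
    · set k := Nat.find hex with hk
      let d : ℕ → ℝ := fun j => ix j (c y j) - ix j (c y' j)
      have hd : ∀ j, |d j| ≤ (cen j).card := fun j => by
        have h1 : (ix j (c y j) : ℝ) ≤ (cen j).card := by exact_mod_cast hix j _
        have h2 : (ix j (c y' j) : ℝ) ≤ (cen j).card := by exact_mod_cast hix j _
        have h3 : (0 : ℝ) ≤ ix j (c y j) := Nat.cast_nonneg _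
        have h4 : (0 : ℝ) ≤ ix j (c y' j) := Nat.cast_nonneg _
        simp only [d]
        rw [abs_le]
        constructor <;> linarith
      have h1 : g y - g y' = ∑' j, a j * d j := by
        simp only [g, d, mul_sub]
        exact ((hsum _ (habs y)).tsum_sub (hsum _ (habs y'))).symm
      have h2 : ∑ j ∈ Finset.range (k + 1), a j * d j = a k * d k := by
        rw [Finset.sum_range_succ, Finset.sum_eq_zero, zero_add]
        intro j hj
        have h3 : c y j = c y' j := not_not.1 (Nat.find_min hex (Finset.mem_range.1 hj))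
        simp [d, h3]
      have h3 : 1 ≤ |d k| := by
        have h4 : (ix k (c y k) : ℤ) - ix k (c y' k) ≠ 0 := fun h => by
          have h5 : ix k (c y k) = ix k (c y' k) := by omega
          exact Nat.find_spec hex (hinj k _ (hc1 y hy k) _ (hc1 y' hy' k) h5)
        have h5 := Int.one_le_abs h4
        simp only [d]
        exact_mod_cast h5
      have h4 := tsum_of_norm_bounded (hgeo k) (hbd d hd k)
      have h5 := (hsum d hd).sum_add_tsum_nat_add (k + 1)
      have h6 : a k / 2 ≤ dist (g y) (g y') := by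
        rw [Real.dist_eq, h1, ← h5, h2]
        have h7 := abs_sub_abs_le_abs_add (a k * d k) (∑' i, a (i + (k + 1)) * d (i + (k + 1)))
        rw [abs_mul, abs_of_pos (ha k)] at h7
        rw [Real.norm_eq_abs] at h4
        have h8 := ha k
        nlinarith
      rcases Nat.eq_zero_or_eq_succ_pred k with h0 | h0
      · rw [h0] at h6
        have h7 := (hB hy hy').trans (le_abs_self B)
        have h8 := ha 0
        calc dist y y' ≤ 2 * |B| / a 0 * (a 0 / 2) := by
              rw [show 2 * |B| / a 0 * (a 0 / 2) = |B| by field_simp]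
              exact h7
          _ ≤ _ := mul_le_mul (by linarith) h6 (by positivity) (by positivity)
      · have h7 := hcl k.pred (not_not.1 (Nat.find_min hex (by omega)))
        rw [show k.pred + 1 = k by omega] at h7
        have h8 := ha k
        nlinarith [dist_nonneg (x := g y) (y := g y')]
    · push Not at hex
      have h1 : Tendsto (fun k : ℕ => 2 * (a 0 * (1 / 4) ^ (k + 1))) atTop (𝓝 (2 * (a 0 * 0))) :=
        (((tendsto_pow_atTop_nhds_zero_of_lt_one (by norm_num) (by norm_num)).comp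
          (tendsto_add_atTop_nat 1)).const_mul _).const_mul _
      have h2 : dist y y' ≤ 2 * (a 0 * 0) := ge_of_tendsto' h1 fun k =>
        (hcl k (hex k)).trans (by linarith [hdec 0 (k + 1)])
      refine h2.trans ?_
      rw [mul_zero, mul_zero]
      positivity
  have hinjOn : InjOn g Y := fun y hy y' hy' h => by
    have := key y hy y' hy'
    rw [h, dist_self, mul_zero] at this
    exact dist_le_zero.1 this
  have hl := hinjOn.leftInvOn_invFunOn
  refine ⟨g '' Y, Function.invFunOn g Y, (4 + 2 * |B| / a 0).toNNReal,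
    LipschitzOnWith.of_dist_le' ?_, fun y hy => ⟨g y, mem_image_of_mem _ hy, hl hy⟩⟩
  rintro _ ⟨y, hy, rfl⟩ _ ⟨y', hy', rfl⟩
  rw [hl hy, hl hy']
  exact key y hy y' hy'

end Pool.Agent.P.MP_667fa2_an
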