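import Pool.Agent.P.MP_667fa2_an.Phi
import Pool.Agent.P.MP_667fa2_an.Cantor1

/-! A shear that reflects a thin set. -/

namespace Pool.Agent.P.MP_667fa2_an

open Set Filter Topology MeasureTheory Metric
open scoped ENNReal NNReal

variable {n : ℕ}

theorem sh_sum (v : E n) (U : Set (E n)) (ψ κ : ℕ → E n → ℝ) (a l : ℕ → ℝ)
    (hψ : ∀ k, LL univ (ψ k)) (hψv : ∀ k y (s : ℝ), ψ k (y + s • v) = ψ k y)
    (ha : ∀ k y, |ψ k y| ≤ a k) (hκ : ∀ k, ContDiff ℝ 1 (κ k)) (hb : ∀ k y, |κ k y| ≤ 1)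
    (hl : ∀ k y (s s' : ℝ), |κ k (y + s • v) - κ k (y + s' • v)| ≤ l k * |s - s'|)
    (hab : ∀ k, a k ≤ 16 * (1 / 2) ^ k) (hal : ∀ k, a k * l k ≤ 1 / 4 * (1 / 2) ^ k)
    (hU : ∀ y ∈ U, ∃ N, ∀ᶠ y' in 𝓝 y, ∀ k, N ≤ k → κ k y' = 0) :
    ∃ S : E n ≃ₜ E n, (∀ y, Summable fun k => ψ k y * κ k y) ∧
      (∀ y, S y = y + (∑' k, ψ k y * κ k y) • v) ∧ LL U S ∧
      ∀ y ∈ U, (∀ k, ContDiffAt ℝ 1 (ψ k) y) → Nice S y := by
  have hψL : ∀ k, LocallyLipschitz (ψ k) := fun k x => hψ k x (mem_univ _)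
  have ha0 : ∀ k, 0 ≤ a k := fun k => (abs_nonneg _).trans (ha k 0)
  have h1 : ∀ k y, ‖ψ k y * κ k y‖ ≤ 16 * (1 / 2) ^ k := fun k y => by
    rw [Real.norm_eq_abs, abs_mul]
    exact (mul_le_of_le_one_right (abs_nonneg _) (hb k y)).trans ((ha k y).trans (hab k))
  have hg := hasSum_geometric_two.mul_left 16
  have hs : ∀ y, Summable fun k => ψ k y * κ k y := fun y =>
    Summable.of_norm_bounded hg.summable fun k => h1 k y
  set Ψ : E n → ℝ := fun y => ∑' k, ψ k y * κ k y with hΨ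
  have hc : Continuous Ψ :=
    continuous_tsum (fun k => (hψL k).continuous.mul (hκ k).continuous) hg.summable h1
  have hm : LineMono v Ψ (1 / 2) := fun y s s' h => by
    have h2 : ‖Ψ (y + s • v) - Ψ (y + s' • v)‖ ≤ (s - s') * (1 / 4 * 2) := by
      rw [hΨ, ← (hs _).tsum_sub (hs _)]
      refine tsum_of_norm_bounded ((hasSum_geometric_two.mul_left _).mul_left _) fun k => ?_
      rw [hψv, hψv, ← mul_sub, Real.norm_eq_abs, abs_mul]
      have h3 := hl k y s s'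
      rw [abs_of_nonneg (sub_nonneg.2 h)] at h3
      calc _ ≤ a k * (l k * (s - s')) := mul_le_mul (ha k y) h3 (abs_nonneg _) (ha0 k)
        _ = (s - s') * (a k * l k) := by ring
        _ ≤ _ := mul_le_mul_of_nonneg_left (hal k) (sub_nonneg.2 h)
    linarith [(abs_le.1 h2).1]
  obtain ⟨S, hS⟩ := shear_homeo v Ψ hc one_half_pos hm _ fun y => tsum_of_norm_bounded hg (h1 · y)
  have hloc : ∀ y ∈ U, ∃ N, Ψ =ᶠ[𝓝 y] fun y => ∑ k ∈ Finset.range N, ψ k y * κ k y := by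
    intro y hy
    obtain ⟨N, hN⟩ := hU y hy
    refine ⟨N, hN.mono fun y' h => tsum_eq_sum fun k hk => ?_⟩
    rw [h k (by simpa using hk), mul_zero]
  refine ⟨S, hs, hS, fun y hy => ?_, fun y hy h => ?_⟩
  · obtain ⟨N, hN⟩ := hloc y hy
    have h2 : LocallyLipschitz fun y => ∑ k ∈ Finset.range N, ψ k y * κ k y := by
      clear hN
      induction N with
      | zero => simpa using LocallyLipschitz.const 0
      | succ N ih =>
        simp only [Finset.sum_range_succ]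
        exact ih.add ((contDiff_mul (𝕜 := ℝ) (n := 1)).locallyLipschitz.comp
          ((hψL N).prodMk (hκ N).locallyLipschitz))
    have h3 : ContDiff ℝ 1 fun p : E n × ℝ => p.1 + p.2 • v := by fun_prop
    obtain ⟨K, t, ht, hK⟩ := h3.locallyLipschitz.comp (LocallyLipschitz.id.prodMk h2) y
    refine ⟨K, _, inter_mem ht hN, fun x hx x' hx' => ?_⟩
    rw [hS, hS, show Ψ x = _ from hx.2, show Ψ x' = _ from hx'.2]
    exact hK hx.1 hx'.1
  · obtain ⟨N, hN⟩ := hloc y hy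
    have h2 : ContDiffAt ℝ 1 Ψ y :=
      (ContDiffAt.sum fun k _ => (h k).mul (hκ k).contDiffAt).congr_of_eventuallyEq hN
    rw [show (S : E n → E n) = _ from funext hS]
    exact ⟨contDiffAt_id.add (h2.smul contDiffAt_const),
      shear_injective v Ψ one_half_pos hm (h2.differentiableAt one_ne_zero)⟩

theorem sh_seq {α : Type*} (a : α) (b : ℕ → α) : ∃ f : ℕ → α, f 0 = a ∧ ∀ k, f (k + 1) = b k :=
  ⟨fun k => Nat.casesOn k a b, rfl, fun _ => rfl⟩

theorem sh_single {s : Finset (E n)} {r : ℝ}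
    (hs : (s : Set (E n)).PairwiseDisjoint fun c => closedBall c r) (f : E n → ℝ) {y c : E n}
    (hf : ∀ c, r < ‖y - c‖ → f c = 0) (hc : c ∈ s) (hy : ‖y - c‖ ≤ r) : ∑ c ∈ s, f c = f c := by
  refine Finset.sum_eq_single_of_mem c hc fun c' hc' h => hf c' (not_le.1 fun h' => ?_)
  exact disjoint_left.1 (hs hc' hc h) (mem_closedBall_iff_norm.2 h') (mem_closedBall_iff_norm.2 hy)

theorem sh_bound {s : Finset (E n)} {r : ℝ}
    (hs : (s : Set (E n)).PairwiseDisjoint fun c => closedBall c r) (f : E n → ℝ) {y : E n}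
    (hf : ∀ c, r < ‖y - c‖ → f c = 0) {M : ℝ} (hM : 0 ≤ M) (h : ∀ c ∈ s, |f c| ≤ M) :
    |∑ c ∈ s, f c| ≤ M := by
  by_cases hc : ∃ c ∈ s, ‖y - c‖ ≤ r
  · obtain ⟨c, hc, hy⟩ := hc
    rw [sh_single hs f hf hc hy]
    exact h c hc
  · push Not at hc
    rwa [Finset.sum_eq_zero fun c h' => hf c (hc c h'), abs_zero]

theorem sh_stretch (v : E n) (i0 : Fin n) (hv : v i0 = 1) {a b N : ℝ} (ha : 0 ≤ a) (hab : a < b)
    (hN : 0 ≤ N) : ∃ (Θ : E n ≃ₜ E n) (t : E n → ℝ), (∀ y, Θ y = y + t y • v) ∧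
      (∀ y, Nice Θ y) ∧ (∀ y, |y i0| ≤ a → Θ y = y) ∧ (∀ y, |y i0| ≤ |Θ y i0|) ∧
      ∀ y, b ≤ |y i0| → N ≤ |Θ y i0| := by
  set η : ℝ → ℝ := fun t => Real.smoothTransition ((t - a) / (b - a)) -
    Real.smoothTransition ((-t - a) / (b - a)) with hη
  have hba := sub_pos.2 hab
  have h1 : Monotone η := fun t t' h => sub_le_sub
    (Real.smoothTransition.monotone (by gcongr)) (Real.smoothTransition.monotone (by gcongr))
  have h0 : ∀ t, t ≤ a → Real.smoothTransition ((t - a) / (b - a)) = 0 := fun t h =>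
    Real.smoothTransition.zero_of_nonpos (div_nonpos_of_nonpos_of_nonneg (by linarith) hba.le)
  have h0' : ∀ t, b ≤ t → Real.smoothTransition ((t - a) / (b - a)) = 1 := fun t h =>
    Real.smoothTransition.one_of_one_le (by rw [le_div_iff₀ hba]; linarith)
  have h2 : ∀ t, |t| ≤ a → η t = 0 := fun t h => by
    simp only [hη]
    rw [h0 t (abs_le.1 h).2, h0 (-t) (by linarith [(abs_le.1 h).1]), sub_self]
  have hc : ContDiff ℝ 1 fun y : E n => N * η (y i0) :=
    contDiff_const.mul ((Real.smoothTransition.contDiff.comp (by fun_prop)).sub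
      (Real.smoothTransition.contDiff.comp (by fun_prop)))
  have hm : LineMono v (fun y : E n => N * η (y i0)) 1 := fun y s s' h => by
    have := mul_le_mul_of_nonneg_left (h1 (show (y + s' • v) i0 ≤ (y + s • v) i0 by
      simpa [hv] using h)) hN
    linarith
  obtain ⟨Θ, hΘ⟩ := shear_homeo v _ hc.continuous one_pos hm N fun y => by
    rw [abs_mul, abs_of_nonneg hN]
    refine mul_le_of_le_one_right hN (abs_le.2 ⟨?_, ?_⟩) <;> simp only [hη] <;>
      linarith [Real.smoothTransition.nonneg ((y i0 - a) / (b - a)),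
        Real.smoothTransition.le_one ((y i0 - a) / (b - a)),
        Real.smoothTransition.nonneg ((-y i0 - a) / (b - a)),
        Real.smoothTransition.le_one ((-y i0 - a) / (b - a))]
  have h3 : ∀ y, Θ y i0 = y i0 + N * η (y i0) := fun y => by simp [hΘ, hv]
  refine ⟨Θ, _, hΘ, fun y => ?_, fun y h => by rw [hΘ, h2 _ h]; simp, fun y => ?_, fun y h => ?_⟩
  · rw [show (Θ : E n → E n) = _ from funext hΘ]
    exact ⟨contDiffAt_id.add (hc.contDiffAt.smul contDiffAt_const),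
      shear_injective v _ one_pos hm (hc.differentiable one_ne_zero y)⟩
  · rw [h3]
    have h4 := h2 0 (by simpa using ha)
    rcases le_total 0 (y i0) with h | h
    · have := mul_nonneg hN (h4.ge.trans (h1 h))
      rw [abs_of_nonneg h]
      exact le_trans (by linarith) (le_abs_self _)
    · have := mul_nonpos_of_nonneg_of_nonpos hN ((h1 h).trans h4.le)
      rw [abs_of_nonpos h]
      exact le_trans (by linarith) (neg_le_abs _)
  · rw [h3]
    simp only [hη]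
    rcases le_abs.1 h with h | h
    · rw [h0' _ h, h0 _ (by linarith)]
      exact le_trans (by linarith) (le_abs_self _)
    · rw [h0' _ h, h0 _ (by linarith)]
      exact le_trans (by linarith) (neg_le_abs _)

/-- A shear along `v` that reflects the points of `CB ∪ ⋃ a, τ a`. -/
theorem shear_lemma (n : ℕ) : ∃ Λ : ℝ, 10 ≤ Λ ∧ ∀ {ι : Type} (CB : Set (E n))
    (τ : ι → Set (E n)) (v : E n) (i0 : Fin n) (ε : ℝ) (θ : E n → ℝ) (cen : ℕ → Finset (E n))
    (ρ R : ℕ → ℝ), 0 < ε → ε ≤ 1 / 8 → v i0 = 1 → (∀ i, i ≠ i0 → |v i| ≤ ε / 8) →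
    IsCompact CB → (∀ a, IsCompact (τ a)) → Bornology.IsBounded (⋃ a, τ a) →
    (∀ a, Disjoint (τ a) CB) → (∀ y, y ∉ CB → ∃ t ∈ 𝓝 y, {a | (τ a ∩ t).Nonempty}.Finite) →
    (∀ y ∈ CB ∪ ⋃ a, τ a, ∀ y' ∈ CB ∪ ⋃ a, τ a, ∀ s : ℝ, y - y' = s • v → y = y') →
    (∀ a b, (τ a ∩ τ b).Nonempty → ∃ ν : E n →L[ℝ] ℝ, ν v = 1 ∧
      ∀ y ∈ τ a ∪ τ b, ∀ y' ∈ τ a ∪ τ b, ν y = ν y') →
    ContDiff ℝ 1 θ → (∀ y, 0 ≤ θ y ∧ θ y ≤ 1) → (∀ y, ‖y‖ ≤ 1 - 3 * ε → θ y = 1) →
    (∀ y, 1 - 5 / 2 * ε ≤ ‖y‖ → θ y = 0) →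
    (∀ k, 0 < ρ k ∧ Λ * 2 ^ k * ((cen k).card + 1) * ρ k ≤ R k ∧ R k ≤ 1) →
    (∀ k, (cen k : Set (E n)).PairwiseDisjoint fun c => closedBall c (R k)) →
    (∀ c ∈ cen 0, closedBall c (R 0) ⊆ ball 0 (1 - 4 * ε)) →
    (∀ k, ∀ c ∈ cen (k + 1), ∃ c' ∈ cen k, closedBall c (R (k + 1)) ⊆ closedBall c' (ρ k)) →
    (CB = ⋂ k, ⋃ c ∈ cen k, closedBall c (ρ k)) →
    ∃ S : E n ≃ₜ E n, (∀ y, 1 - ε < ‖y‖ → S y = y) ∧
      (∀ y ∈ CB ∪ ⋃ a, τ a, S y = y - (2 * θ y * y i0) • v) ∧ LL CBᶜ S ∧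
      (∀ y, (∀ s : ℝ, y + s • v ∉ CB ∪ ⋃ a, τ a) → Nice S y) ∧
      ∀ a, ∀ y ∈ τ a, (∀ b, y ∈ τ b → b = a) → ContDiffAt ℝ 1 S y := by
  set χ : E n → ℝ := canChi 2 3 with hχ
  have χ1 : ∀ u, ‖u‖ ≤ 2 → χ u = 1 := fun u => can_chi_one (by norm_num) (by norm_num)
  have χ0 : ∀ u, 3 ≤ ‖u‖ → χ u = 0 := fun u => can_chi_zero (by norm_num) (by norm_num)
  have χb : ∀ r R (u : E n), |canChi r R u| ≤ 1 := fun r R u =>
    abs_le.2 ⟨by linarith [can_chi_nonneg r R u], can_chi_le_one r R u⟩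
  have χc : ContDiff ℝ 1 χ := can_chi_contDiff _ _
  obtain ⟨L, hL⟩ := χc.lipschitzWith_of_hasCompactSupport
    (HasCompactSupport.intro (isCompact_closedBall 0 3) fun u hu =>
      χ0 u (not_le.1 (mt mem_closedBall_zero_iff.2 hu)).le) one_ne_zero
  have hL0 := L.coe_nonneg
  have hL1 : ∀ u u', |χ u - χ u'| ≤ L * ‖u - u'‖ := fun u u' => by
    simpa [Real.dist_eq, dist_eq_norm] using hL.dist_le_mul u u'
  refine ⟨10 + 576 * L, by linarith, ?_⟩
  intro ι CB τ v i0 ε θ cen ρ R hε hε1 hv hω hCB hτ hbd hdisj hlf hinj hν hθ hθb hθ1 hθ0 hρ hd h0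
    hnest hCBe
  have hv1 : ‖v‖ = 1 := by
    refine le_antisymm ((pi_norm_le_iff_of_nonneg zero_le_one).2 fun i => ?_) ?_
    · by_cases h : i = i0
      · simp [h, hv]
      · linarith [hω i h, Real.norm_eq_abs (v i)]
    · simpa [hv] using norm_le_pi_norm v i0
  have hρ0 : ∀ k, 0 < ρ k := fun k => (hρ k).1
  have hρ1 : ∀ k, (10 + 576 * L) * 2 ^ k * ρ k ≤ R k := fun k => le_trans (by
    refine mul_le_mul_of_nonneg_right ?_ (hρ0 k).le
    exact le_mul_of_one_le_right (by positivity) (by simp)) (hρ k).2.1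
  have hρ2 : ∀ k, 10 * 2 ^ k * ρ k ≤ R k := fun k => le_trans (by
    have := hρ0 k
    gcongr
    linarith) (hρ1 k)
  have hρ3 : ∀ k, 10 * ρ k ≤ R k := fun k => le_trans (by
    have := hρ0 k
    gcongr
    exact le_mul_of_one_le_right (by norm_num) (one_le_pow₀ one_le_two)) (hρ2 k)
  have hρ4 : ∀ k, 10 * ρ k ≤ (1 / 2) ^ k := fun k => by
    rw [one_div_pow, le_div_iff₀ (by positivity)]
    linarith [hρ2 k, (hρ k).2.2]
  have hR0 : ∀ k, 0 < R k := fun k => by linarith [hρ3 k, hρ0 k]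
  set O : ℕ → Set (E n) := fun k => ⋃ c ∈ cen k, closedBall c (R k) with hO
  have hO1 : ∀ k, O (k + 1) ⊆ ⋃ c ∈ cen k, closedBall c (ρ k) := fun k =>
    iUnion₂_subset fun c hc => by
      obtain ⟨c', hc', h⟩ := hnest k c hc
      exact h.trans (subset_biUnion_of_mem (u := fun c => closedBall c (ρ k)) hc')
  have hO2 : Antitone O := antitone_nat_of_succ_le fun k => (hO1 k).trans
    (iUnion₂_mono fun c _ => closedBall_subset_closedBall (by linarith [hρ3 k, hρ0 k]))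
  have hO3 : ∀ k, ∀ c ∈ cen k, ∀ y, ‖y - c‖ ≤ R k → ‖y‖ < 1 - 4 * ε := fun k c hc y hy =>
    mem_ball_zero_iff.1 (iUnion₂_subset h0 (hO2 (Nat.zero_le k)
      (mem_biUnion hc (mem_closedBall_iff_norm.2 hy))))
  have hCB1 : ∀ y ∈ CB, ∀ k, ∃ c ∈ cen k, ‖y - c‖ ≤ ρ k := fun y hy k => by
    obtain ⟨c, hc, h⟩ := mem_iUnion₂.1 (mem_iInter.1 (hCBe.subset hy) k)
    exact ⟨c, hc, mem_closedBall_iff_norm.1 h⟩
  have hCB2 : ∀ y ∈ CB, ‖y‖ < 1 - 4 * ε := fun y hy => by
    obtain ⟨c, hc, h⟩ := hCB1 y hy 0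
    exact hO3 0 c hc y (by linarith [hρ3 0, hρ0 0])
  obtain ⟨T, hT0, hT1⟩ : ∃ T : ℕ → E n → ℝ, (T 0 = fun y => θ y * y i0) ∧
      ∀ k, T (k + 1) = fun y => ∑ c ∈ cen k, χ ((ρ k)⁻¹ • (y - c)) * (y i0 - c i0) :=
    sh_seq _ _
  set N : ℝ := 64 * L + 1 with hN
  have hN0 : 0 < N := by positivity
  obtain ⟨κ, hκ0, hκ1⟩ : ∃ κ : ℕ → E n → ℝ,
      (κ 0 = fun y => canChi (1 - 2 * ε) (1 - 3 / 2 * ε) (y - y i0 • v) * χ ((y i0 / N) • v)) ∧
      ∀ k, κ (k + 1) = fun y => ∑ c ∈ cen k, χ ((3 / R k) • (y - c)) :=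
    sh_seq _ _
  have z1 : ∀ k (u : E n), 3 * ρ k ≤ ‖u‖ → χ ((ρ k)⁻¹ • u) = 0 := fun k u h => χ0 _ (by
    rwa [norm_smul, Real.norm_of_nonneg (inv_pos.2 (hρ0 k)).le, le_inv_mul_iff₀ (hρ0 k), mul_comm])
  have z1' : ∀ k y c, R k < ‖y - c‖ → χ ((ρ k)⁻¹ • (y - c)) * (y i0 - c i0) = 0 :=
    fun k y c h => by rw [z1 k _ (by linarith [hρ3 k, hρ0 k]), zero_mul]
  have z2 : ∀ k (y c : E n), R k < ‖y - c‖ → χ ((3 / R k) • (y - c)) = 0 := fun k y c h => χ0 _ (by
    have := hR0 k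
    rw [norm_smul, Real.norm_of_nonneg (by positivity), div_mul_eq_mul_div, le_div_iff₀ this]
    linarith)
  have hTc : ∀ k, ContDiff ℝ 1 (T k) := by
    rintro (_ | k)
    · rw [hT0]; fun_prop
    · rw [hT1]; fun_prop
  have hTb : ∀ k y M, 0 ≤ M → (∀ c ∈ cen k, ‖y - c‖ ≤ 3 * ρ k → ‖y - c‖ ≤ M) →
      |T (k + 1) y| ≤ M := fun k y M hM h => by
    rw [hT1]
    refine sh_bound (hd k) _ (z1' k y) hM fun c hc => ?_
    by_cases h1 : ‖y - c‖ ≤ 3 * ρ k
    · rw [abs_mul]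
      exact (mul_le_of_le_one_left (abs_nonneg _) (χb _ _ _)).trans
        ((norm_le_pi_norm (y - c) i0).trans (h c hc h1))
    · rwa [z1 k _ (not_le.1 h1).le, zero_mul, abs_zero]
  have hTb1 : ∀ k y, |T (k + 1) y| ≤ 3 * ρ k := fun k y =>
    hTb k y _ (by linarith [hρ0 k]) fun _ _ h => h
  have hTz : ∀ k y, T (k + 1) y ≠ 0 → ∃ c ∈ cen k, ‖y - c‖ ≤ 3 * ρ k := fun k y h => by
    by_contra hc
    exact h (abs_nonpos_iff.1 (hTb k y 0 le_rfl fun c h1 h2 => absurd ⟨c, h1, h2⟩ hc))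
  have hnest' : ∀ k, ∀ c ∈ cen (k + 1), ∃ c' ∈ cen k, ∀ y, ‖y - c‖ ≤ 3 * ρ (k + 1) →
      ‖y - c'‖ ≤ ρ k := fun k c hc => by
    obtain ⟨c', hc', h⟩ := hnest k c hc
    exact ⟨c', hc', fun y hy => mem_closedBall_iff_norm.1 (h (mem_closedBall_iff_norm.2
      (by linarith [hρ3 (k + 1), hρ0 (k + 1)])))⟩
  have hTout : ∀ k y, 1 - 5 / 2 * ε ≤ ‖y‖ → T k y = 0 := by
    rintro (_ | k) y hy
    · simp [hT0, hθ0 y hy]
    · by_contra h
      obtain ⟨c, hc, h1⟩ := hTz k y h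
      linarith [hO3 k c hc y (by linarith [hρ3 k, hρ0 k])]
  set σ : ℕ → E n → ℝ := fun k y => -2 * (T k y - T (k + 1) y) with hσ
  have hσc : ∀ k, ContDiff ℝ 1 (σ k) := fun k => contDiff_const.mul ((hTc k).sub (hTc _))
  have hσout : ∀ k y, 1 - 5 / 2 * ε ≤ ‖y‖ → σ k y = 0 := fun k y hy => by
    simp [hσ, hTout _ y hy]
  obtain ⟨A, hA0, hA1⟩ : ∃ A : ℕ → ℝ, A 0 = 8 ∧ ∀ k, A (k + 1) = 12 * ρ k :=
    sh_seq _ _
  have hσA : ∀ k y, |σ k y| ≤ A k := by
    intro k y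
    simp only [hσ, abs_mul, abs_neg, abs_two]
    have h1 := abs_sub (T k y) (T (k + 1) y)
    rcases k with _ | k
    · have h2 : |T 0 y| ≤ 1 := by
        by_cases h : 1 - 5 / 2 * ε ≤ ‖y‖
        · simp [hTout 0 y h]
        · simp only [hT0, abs_mul, abs_of_nonneg (hθb y).1]
          exact mul_le_one₀ (hθb y).2 (abs_nonneg _)
            ((norm_le_pi_norm y i0).trans (by linarith [not_le.1 h]))
      have h3 := hρ4 0
      rw [pow_zero] at h3
      linarith [hTb1 0 y]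
    · have h2 := hTb (k + 1) y (2 * ρ k) (by linarith [hρ0 k]) fun c hc h => by
        obtain ⟨c', -, h3⟩ := hnest' k c hc
        have h4 := h3 c (by simpa using (hρ0 _).le)
        rw [norm_sub_rev] at h4
        linarith [norm_sub_le_norm_sub_add_norm_sub y c' c, h3 y h]
      linarith [hTb1 k y, hA1 k, hρ0 k]
  have hTloc : ∀ y ∈ CB, ∀ k, ∃ c : ℝ, ∀ᶠ y' in 𝓝 y, T k y' = y' i0 - c := by
    rintro y hy (_ | k)
    · refine ⟨0, ?_⟩
      filter_upwards [(isOpen_lt continuous_norm continuous_const).mem_nhds (hCB2 y hy)] with y' h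
      simp [hT0, hθ1 y' (by linarith [show ‖y'‖ < _ from h])]
    · obtain ⟨c, hc, h⟩ := hCB1 y hy k
      refine ⟨c i0, ?_⟩
      filter_upwards [ball_mem_nhds y (hρ0 k)] with y' h'
      have h1 : ‖y' - c‖ ≤ 2 * ρ k := by
        linarith [norm_sub_le_norm_sub_add_norm_sub y' y c, mem_ball_iff_norm.1 h']
      simp only [hT1]
      rw [sh_single (hd k) _ (z1' k y') hc (by linarith [hρ3 k, hρ0 k]), χ1, one_mul]
      rwa [norm_smul, Real.norm_of_nonneg (inv_pos.2 (hρ0 k)).le, inv_mul_le_iff₀ (hρ0 k), mul_comm]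
  have hex := fun k => (hσc k).lipschitzWith_of_hasCompactSupport
    (HasCompactSupport.intro (isCompact_closedBall 0 1) fun u hu =>
      hσout k u (by linarith [not_le.1 (mt mem_closedBall_zero_iff.2 hu)])) one_ne_zero
  choose K hK using hex
  have hex := fun k => phi_lemma CB τ v i0 hv hCB hτ hbd hdisj hlf hinj hν (σ k) (hσc k) (K k) (hK k)
    (fun y hy => by
      obtain ⟨c, h⟩ := hTloc y hy k
      obtain ⟨c', h'⟩ := hTloc y hy (k + 1)
      filter_upwards [h, h'] with y' h1 h2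
      simp only [hσ, h1, h2, h.self_of_nhds, h'.self_of_nhds]
      ring)
    (A k) (by rcases k with _ | k; exacts [by simp [hA0], by linarith [hA1 k, hρ0 k]]) (hσA k)
  choose ψ p1 p2 p3 p4 p5 p6 using hex
  obtain ⟨l, hl0, hl1⟩ : ∃ l : ℕ → ℝ, l 0 = L / N ∧ ∀ k, l (k + 1) = (cen k).card * (L * (3 / R k)) :=
    sh_seq _ _
  have hκz : ∀ k y, y ∉ O k → κ (k + 1) y = 0 := fun k y hy => by
    rw [hκ1]
    exact Finset.sum_eq_zero fun c hc => z2 k y c (not_le.1 fun h =>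
      hy (mem_biUnion hc (mem_closedBall_iff_norm.2 h)))
  obtain ⟨S1, s0, s1, s2, s3⟩ := sh_sum v CBᶜ ψ κ (fun k => 2 * A k) l p1 p2 p3 (by
      rintro (_ | k)
      · rw [hκ0]
        exact ((can_chi_contDiff _ _).comp (by fun_prop)).mul (by fun_prop)
      · rw [hκ1]; fun_prop) (by
      rintro (_ | k) y
      · simp only [hκ0, abs_mul]
        exact mul_le_one₀ (χb _ _ _) (abs_nonneg _) (χb _ _ _)
      · rw [hκ1]
        exact sh_bound (hd k) _ (z2 k y) zero_le_one fun c _ => χb _ _ _) (by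
      rintro (_ | k) y s s'
      · have h1 : ∀ s : ℝ, y + s • v - (y + s • v) i0 • v = y - y i0 • v := fun s => by
          simp only [Pi.add_apply, Pi.smul_apply, hv, smul_eq_mul, mul_one]
          module
        simp only [hκ0, h1]
        rw [← mul_sub, abs_mul]
        refine (mul_le_of_le_one_left (abs_nonneg _) (χb _ _ _)).trans ((hL1 _ _).trans ?_)
        rw [← sub_smul, norm_smul, hv1, ← sub_div, Real.norm_eq_abs, abs_div, abs_of_pos hN0, hl0]
        simp only [Pi.add_apply, Pi.smul_apply, hv, smul_eq_mul, mul_one, add_sub_add_left_eq_sub]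
        exact le_of_eq (by ring)
      · simp only [hκ1, hl1]
        rw [← Finset.sum_sub_distrib, mul_assoc, ← nsmul_eq_mul]
        refine (Finset.abs_sum_le_sum_abs _ _).trans (Finset.sum_le_card_nsmul _ _ _ fun c _ =>
          (hL1 _ _).trans (le_of_eq ?_))
        have := hR0 k
        rw [← smul_sub, sub_sub_sub_cancel_right, add_sub_add_left_eq_sub, ← sub_smul, norm_smul,
          norm_smul, hv1, Real.norm_of_nonneg (by positivity), Real.norm_eq_abs]
        ring) (by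
      rintro (_ | k)
      · norm_num [hA0]
      · rw [hA1, pow_succ]
        linarith [hρ4 k, hρ0 k]) (by
      rintro (_ | k)
      · rw [hA0, hl0, mul_div_assoc', div_le_iff₀ hN0]
        linarith
      · have h1 := hR0 k
        have h2 := hρ0 k
        have h3 : 576 * L * 2 ^ k * (cen k).card * ρ k ≤ R k := le_trans (by
          gcongr <;> linarith) (hρ k).2.1
        rw [hA1, hl1, one_div_pow, pow_succ]
        calc _ = 576 * L * 2 ^ k * (cen k).card * ρ k / R k * (1 / 4 * (1 / (2 ^ k * 2))) := by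
              field_simp; ring
          _ ≤ _ := mul_le_of_le_one_left (by positivity) ((div_le_one h1).2 h3)) (by
      intro y hy
      rw [hCBe, mem_compl_iff, mem_iInter, not_forall] at hy
      obtain ⟨k, hk⟩ := hy
      refine ⟨k + 2, ?_⟩
      filter_upwards [((cen k).finite_toSet.isClosed_biUnion
        fun c _ => isClosed_closedBall).isOpen_compl.mem_nhds hk] with y' h k' hk'
      obtain ⟨k', rfl⟩ : ∃ j, k' = j + 1 := ⟨k' - 1, by omega⟩
      exact hκz k' y' fun h' => h (hO1 k (hO2 (by omega) h')))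
  obtain ⟨Θ, t, t1, t2, t3, t4, t5⟩ := sh_stretch v i0 hv (a := 1 - 5 / 2 * ε) (b := 1 - 2 * ε)
    (N := 3 * N) (by linarith) (by linarith) (by linarith)
  have hΘs : ∀ y, Nice Θ.symm y := fun y => by simpa using (t2 (Θ.symm y)).symm
  have hΘC : ∀ y, y ∉ CB → Θ y ∉ CB := fun y hy h => by
    have h1 := t3 (Θ y) ((norm_le_pi_norm (Θ y) i0).trans (by linarith [hCB2 _ h]))
    rw [Θ.injective h1] at h
    exact hy h
  have hS : ∀ y, ((Θ.trans S1).trans Θ.symm) y = Θ.symm (S1 (Θ y)) := fun y => rfl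
  have hid : ∀ y, (∀ k, ψ k (Θ y) * κ k (Θ y) = 0) → ((Θ.trans S1).trans Θ.symm) y = y :=
    fun y h => by simp [hS, s1, h]
  have hN' : ∀ y, Nice S1 (Θ y) → Nice ((Θ.trans S1).trans Θ.symm) y := fun y h =>
    (hΘs _).comp (f := fun y => S1 (Θ y)) (h.comp (t2 y))
  refine ⟨(Θ.trans S1).trans Θ.symm, fun y hy => hid y fun k => mul_eq_zero_of_right _ ?_,
    fun z hz => ?_, ?_, fun y hy => hN' y (s3 _ (hΘC y fun h => hy 0 (Or.inl (by simpa using h)))
      fun k => p5 k _ fun s => ?_), fun a y hy h => (hN' y (s3 _ (hΘC y fun h' =>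
        disjoint_left.1 (hdisj a) hy h') fun k => ?_)).1⟩
  · rcases k with _ | k
    · simp only [hκ0]
      by_cases h : 1 - 2 * ε ≤ |y i0|
      · rw [χ0, mul_zero]
        rw [norm_smul, hv1, mul_one, Real.norm_eq_abs, abs_div, abs_of_pos hN0, le_div_iff₀ hN0]
        exact t5 y h
      · obtain ⟨i, hi⟩ : ∃ i, 1 - ε < |y i| := by
          by_contra hc
          push Not at hc
          exact hy.not_ge ((pi_norm_le_iff_of_nonneg (by linarith)).2 hc)
        have hi0 : i ≠ i0 := fun h' => h (by rw [← h']; linarith)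
        rw [can_chi_zero (by linarith) (by linarith), zero_mul]
        refine le_trans ?_ (norm_le_pi_norm _ i)
        have h1 : (Θ y - Θ y i0 • v) i = y i - y i0 * v i := by
          simp [t1, hv]
          ring
        have h2 : |y i0 * v i| ≤ 1 * (ε / 8) := by
          rw [abs_mul]
          exact mul_le_mul (by linarith [not_le.1 h]) (hω i hi0) (abs_nonneg _) zero_le_one
        rw [h1, Real.norm_eq_abs]
        linarith [abs_sub_abs_le_abs_sub (y i) (y i0 * v i)]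
    · refine hκz k _ fun h => ?_
      obtain ⟨c, hc, h1⟩ := mem_iUnion₂.1 h
      have h2 := hO3 k c hc _ (mem_closedBall_iff_norm.1 h1)
      have h3 : |Θ y i0| ≤ ‖Θ y‖ := norm_le_pi_norm (Θ y) i0
      rw [t3 y (by linarith [t4 y])] at h2
      linarith
  · by_cases h : 1 - 5 / 2 * ε ≤ ‖z‖
    · rw [hid z fun k => by rw [t1, p2, p4 k z hz, hσout k z h, zero_mul], hθ0 z h]
      simp
    rw [not_le] at h
    have hz0 : |z i0| ≤ 1 - 5 / 2 * ε := (norm_le_pi_norm z i0).trans h.le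
    have h1 : ∀ k, ψ k z * κ k z = σ k z := by
      intro k
      rw [p4 k z hz]
      by_cases h2 : σ k z = 0
      · rw [h2, zero_mul]
      refine mul_right_eq_self₀.2 (Or.inl ?_)
      rcases k with _ | k
      · simp only [hκ0]
        rw [can_chi_one (by linarith) (by linarith), χ1, one_mul]
        · rw [norm_smul, hv1, mul_one, Real.norm_eq_abs, abs_div, abs_of_pos hN0, div_le_iff₀ hN0]
          linarith
        · refine (pi_norm_le_iff_of_nonneg (by linarith)).2 fun i => ?_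
          by_cases hi : i = i0
          · simp only [hi, Pi.sub_apply, Pi.smul_apply, hv, smul_eq_mul, mul_one, sub_self,
              norm_zero]
            linarith
          · have h3 : |z i0 * v i| ≤ 1 * (ε / 8) := by
              rw [abs_mul]
              exact mul_le_mul (by linarith) (hω i hi) (abs_nonneg _) zero_le_one
            have h4 : |z i| ≤ ‖z‖ := norm_le_pi_norm z i
            simp only [Pi.sub_apply, Pi.smul_apply, smul_eq_mul, Real.norm_eq_abs]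
            linarith [abs_sub (z i) (z i0 * v i)]
      · obtain ⟨c, hc, h3⟩ : ∃ c ∈ cen k, ‖z - c‖ ≤ 3 * ρ k := by
          by_cases h4 : T (k + 1) z = 0
          · obtain ⟨c, hc, h5⟩ := hTz (k + 1) z fun h5 => h2 (by simp [hσ, h4, h5])
            obtain ⟨c', hc', h6⟩ := hnest' k c hc
            exact ⟨c', hc', by linarith [h6 z h5, hρ0 k]⟩
          · exact hTz k z h4
        have := hR0 k
        simp only [hκ1]
        rw [sh_single (hd k) _ (z2 k z) hc (by linarith [hρ3 k, hρ0 k]), χ1]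
        rw [norm_smul, Real.norm_of_nonneg (by positivity), div_mul_eq_mul_div, div_le_iff₀ this]
        linarith [hρ3 k, hρ0 k]
    have h2 : ∑' k, ψ k z * κ k z = -(2 * θ z * z i0) := by
      refine tendsto_nhds_unique (s0 z).hasSum.tendsto_sum_nat ?_
      have h3 : Tendsto (fun k => T k z) atTop (𝓝 0) := by
        rw [← tendsto_add_atTop_iff_nat 1]
        exact squeeze_zero_norm (fun k => (hTb1 k z).trans (by linarith [hρ4 k, hρ0 k]))
          (tendsto_pow_atTop_nhds_zero_of_lt_one (r := (1 / 2 : ℝ)) (by norm_num) (by norm_num))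
      simp only [h1, hσ, ← Finset.mul_sum, Finset.sum_range_sub' fun k => T k z]
      convert (h3.const_sub (T 0 z)).const_mul (-2) using 2
      simp only [hT0]
      ring
    rw [hS, t3 z hz0, s1, h2, neg_smul, ← sub_eq_add_neg, Θ.symm_apply_eq, t3]
    have h3 : (z - (2 * θ z * z i0) • v) i0 = (1 - 2 * θ z) * z i0 := by
      simp [hv]
      ring
    rw [h3, abs_mul]
    exact (mul_le_of_le_one_left (abs_nonneg _)
      (abs_le.2 ⟨by linarith [(hθb z).2], by linarith [(hθb z).1]⟩)).trans hz0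
  · exact LL.comp (g := Θ.symm) (V := univ) (LL.of_contDiffAt fun y _ => (hΘs y).1)
      (s2.comp (LL.of_contDiffAt fun y _ => (t2 y).1) hΘC) (mapsTo_univ _ _)
  · rw [t1, add_assoc, ← add_smul]
    exact hy _
  · rw [t1]
    exact p6 k a y hy h _

end Pool.Agent.P.MP_667fa2_an
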