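import Pool.Agent.P.MP_667fa2_an.Block1
import Pool.Agent.P.MP_667fa2_an.Collapse
import Pool.Agent.P.MP_667fa2_an.Generic
import Pool.Agent.P.MP_667fa2_an.Cantor
import Pool.Agent.P.MP_667fa2_an.Shear
import Pool.Agent.P.MP_667fa2_an.Assemble

/-! The building block. -/

namespace Pool.Agent.P.MP_667fa2_an

open Set Filter Topology MeasureTheory Metric
open scoped ENNReal NNReal

variable {n : ℕ}

theorem exists_reflector {m : ℕ} (hm : 2 ≤ m) (hmn : 2 * m ≤ n) (i0 : Fin n) {ε μ η : ℝ}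
    (hε : 0 < ε) (hε1 : ε ≤ 1 / 8) (hμ : 0 < μ) (hμε : 4 * μ ≤ ε) (hη : 0 < η) :
    ∃ (C : Set (E n)) (ϱ : E n → ℝ) (v : E n) (θ : E n → ℝ) (F : E n ≃ₜ E n), IsCompact C ∧
      Setup ϱ μ (closedBall 0 (1 - ε / 2)) ∧ (∀ x, ϱ x = 0 ↔ x ∈ C) ∧ C ⊆ ball 0 (1 - 4 * ε) ∧
      volume (ball (0 : E n) (1 - 4 * ε) \ C) ≤ ENNReal.ofReal η ∧ v i0 = 1 ∧ ‖v‖ = 1 ∧
      ContDiff ℝ 1 θ ∧ (∀ y, ‖y‖ ≤ 1 - 3 * ε → θ y = 1) ∧
      (∀ y, 1 - 5 / 2 * ε ≤ ‖y‖ → θ y = 0) ∧ (∀ y, 1 - ε < ‖y‖ → F y = y) ∧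
      (∀ y ∈ C, F y = y - (2 * θ y * y i0) • v) ∧
      (∀ k I z, Active ϱ μ (closedBall 0 (1 - ε / 2)) k I z → I.card = m - 1 →
        (∀ y ∈ face (mesh μ k) I z, F y = y - (2 * θ y * y i0) • v) ∧
        ∀ y ∈ oface (mesh μ k) I z, ContDiffAt ℝ 1 F y) ∧ LL Cᶜ F ∧ AENice Cᶜ F := by
  obtain ⟨Λ, hΛ, hshear⟩ := shear_lemma n
  set X := closedBall (0 : E n) (1 - ε / 2) with hX
  set Ω := ball (0 : E n) (1 - 4 * ε) ∩ ⋂ i, {x | Real.sin (Real.pi * (x i / μ)) ≠ 0} with hΩ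
  have hΩo : IsOpen Ω := isOpen_ball.inter
    (isOpen_iInter_of_finite fun i => isOpen_ne_fun (by fun_prop) continuous_const)
  obtain ⟨C, X0, G, A, cen, ρ, R, c1, c2, c3, c4, c5, c6, c7, c8, c9, ⟨T, γ, Kγ, c10, c11⟩, c12,
    c13, c14, c15, c16⟩ := cantor Ω hΩo (isBounded_ball.subset inter_subset_left) hη Λ hΛ
  have hX0 : ∀ x ∈ X0, ‖x‖ < 1 - 4 * ε := fun x hx => mem_ball_zero_iff.1 (c4 hx).1
  obtain ⟨d, hd, hdX⟩ := c2.exists_cthickening_subset_open hΩo c4
  set P : Set (E n) → Prop := fun s => s ⊆ Cᶜ ∧ ∃ c ∈ insert 0 A, ∃ c' : E n, ∀ y ∈ s, ∃ t : ℝ,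
    G y - c' = t • (y - c) with hP
  obtain ⟨ϱ, r1, r2, r3, r4⟩ := exists_size P
    (fun s t hs ht => ⟨ht.trans hs.1, hs.2.imp fun c hc => ⟨hc.1, hc.2.imp fun c' h y hy =>
      h y (ht hy)⟩⟩) ⟨empty_subset _, 0, mem_insert _ _, 0, fun y hy => hy.elim⟩
  have hfar : ∀ x, 1 - 3 * ε ≤ ‖x‖ → ε ≤ ϱ x := fun x hx => by
    have h1 : ∀ y ∈ ball x ε, y ∉ X0 := fun y hy h => by
      have h2 := hX0 y h
      have h3 := norm_sub_norm_le x y
      rw [mem_ball, dist_comm, dist_eq_norm] at hy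
      linarith
    exact r4 x ε (by linarith) ⟨fun y hy h => h1 y hy (c3 h), 0, mem_insert _ _, 0,
      fun y hy => ⟨1, by simp [c6 y (h1 y hy)]⟩⟩
  have hC : ∀ x, ϱ x = 0 ↔ x ∈ C := fun x => by
    constructor
    · intro h
      by_contra hx
      obtain ⟨c, hc, c', h1⟩ := c9 x hx
      obtain ⟨r, hr, h2⟩ := Metric.eventually_nhds_iff_ball.1
        (h1.and (c1.isClosed.isOpen_compl.eventually_mem hx))
      have := r4 x (min r 1) (min_le_right _ _)
        ⟨fun y hy => (h2 y (ball_subset_ball (min_le_left _ _) hy)).2, c, mem_insert_of_mem _ hc,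
          c', fun y hy => (h2 y (ball_subset_ball (min_le_left _ _) hy)).1⟩
      linarith [lt_min hr one_pos]
    · intro hx
      by_contra h
      have h1 := (r2 x).lt_of_ne' h
      exact (r3 x _ (half_lt_self h1)).1 (mem_ball_self (half_pos h1)) hx
  have hS : Setup ϱ μ X := ⟨r1, r2, hμ, by linarith, isBounded_closedBall, fun x hx => by
    by_contra h
    rw [hX, mem_closedBall_zero_iff, not_le] at h
    have h1 := hfar x (by linarith)
    have h2 : ϱ x ≤ 2 * μ := hx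
    linarith⟩
  have hs := mesh_pos hμ
  set ι := {w : ℕ × Finset (Fin n) × (Fin n → ℤ) //
    Active ϱ μ X w.1 w.2.1 w.2.2 ∧ w.2.1.card = m - 1} with hι
  set φ : ι → Set (E n) := fun a => face (mesh μ a.1.1) a.1.2.1 a.1.2.2 with hφ
  have hφC : ∀ a, φ a ⊆ Cᶜ := fun a x hx h => by
    have := a.2.1.lt_rho hS hx
    rw [(hC x).2 h] at this
    linarith [hs a.1.1]
  have hφb : ∀ a, ∀ x ∈ φ a, ‖x‖ ≤ 1 := fun a x hx => by
    obtain ⟨y, hy, h⟩ := hS.near_X (a.2.1.face_subset hS hx)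
    rw [hX, mem_closedBall_zero_iff] at hy
    rw [dist_eq_norm] at h
    linarith [norm_sub_norm_le x y]
  have hGL : LL Cᶜ G := LL.of_contDiffAt fun x hx => (c7 x hx).1
  set Z := G '' C ∪ ⋃ a, G '' φ a with hZ
  have hthin : Thin (m - 1) Z := by
    have := thin_iUnion (d := m - 1) (fun o : Option ι => o.elim (G '' C) fun a => G '' φ a) ?_
    · rwa [iUnion_option] at this
    · rintro (_ | a)
      · exact thin_curve (by omega) c10 c11
      · obtain ⟨K, hK⟩ := hGL.lipschitzOn_compact (isCompact_face _ _ _) (hφC a)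
        exact thin_face a.2.2 _ hK
  set ω := min (ε / 8) (d / 2) with hω
  have hω1 : ω ≤ ε / 8 := min_le_left _ _
  have hω2 : ω ≤ d / 2 := min_le_right _ _
  obtain ⟨v, v1, v2, v3, v4, v5⟩ := generic_dir (by omega) hthin
    (A := (fun w : (ℕ × (Fin n → ℤ)) × E n => (fun i => mesh μ w.1.1 * w.1.2 i) - w.2) ''
      (univ ×ˢ insert 0 A)) ((countable_univ.prod (c8.insert 0)).image _) i0
    (lt_min (by linarith) (half_pos hd) : 0 < ω)
  have hv : ‖v‖ = 1 := by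
    refine le_antisymm ((pi_norm_le_iff_of_nonneg zero_le_one).2 fun i => ?_) ?_
    · by_cases h : i = i0
      · simp [h, v1]
      · linarith [v2 i h, Real.norm_eq_abs (v i)]
    · simpa [v1] using norm_le_pi_norm v i0
  set θ : E n → ℝ := canChi (1 - 3 * ε) (1 - 5 / 2 * ε) with hθ
  have hθ1 : ∀ y, ‖y‖ ≤ 1 - 3 * ε → θ y = 1 := fun y =>
    can_chi_one (by linarith) (by linarith)
  have hθ0 : ∀ y, 1 - 5 / 2 * ε ≤ ‖y‖ → θ y = 0 := fun y =>
    can_chi_zero (by linarith) (by linarith)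
  have hν : ∀ a b : ι, a.1.1 ≤ b.1.1 → (G '' φ a ∩ G '' φ b).Nonempty → ∃ ν : E n →L[ℝ] ℝ,
      ν v = 1 ∧ ∀ y ∈ G '' φ a ∪ G '' φ b, ∀ y' ∈ G '' φ a ∪ G '' φ b, ν y = ν y' := by
    rintro ⟨⟨k, I, z⟩, ha, hI⟩ ⟨⟨k', I', z'⟩, ha', hI'⟩ hk hne
    rw [← image_inter G.injective, image_nonempty] at hne
    obtain ⟨x, hx, hx'⟩ := hne
    obtain ⟨-, c, hc, c', h1⟩ := r3 x _ (ha.lt_rho hS hx)
    obtain ⟨ν, n1, n2, n3⟩ := v4 (I ∪ I') ((Finset.card_union_le _ _).trans (by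
      simp only at hI hI'; omega)) _ ⟨((k, z), c), ⟨mem_univ _, hc⟩, rfl⟩
    have h2 : ν (x - c) = 0 := by
      rw [← sub_add_sub_cancel x (fun i => mesh μ k * z i), map_add, n2, add_zero]
      exact nu_face n3 fun i hi => sub_eq_zero.2 (hx.2 i fun h => hi (Finset.mem_union_left _ h))
    have h3 : ∀ y, (∀ i, i ∉ I ∪ I' → y i = x i) → dist y x ≤ mesh μ k → ν (G y) = ν c' := by
      intro y hy hd
      obtain ⟨t, ht⟩ := h1 y (mem_ball.2 (by linarith [hs k]))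
      rw [← sub_eq_zero, ← map_sub, ht, map_smul, ← sub_add_sub_cancel y x, map_add, h2,
        nu_face (u := y - x) n3 fun i hi => sub_eq_zero.2 (hy i hi), add_zero, smul_zero]
    have h4 : ∀ y ∈ G '' face (mesh μ k) I z ∪ G '' face (mesh μ k') I' z', ν y = ν c' := by
      rintro _ (⟨y, hy, rfl⟩ | ⟨y, hy, rfl⟩)
      · refine h3 y (fun i hi => ?_)
          (dist_le_of_mem_box (hs k) (face_subset_box (hs k) hy) (face_subset_box (hs k) hx))
        have := fun h => hi (Finset.mem_union_left _ h)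
        rw [hy.2 i this, hx.2 i this]
      · refine h3 y (fun i hi => ?_) ((dist_le_of_mem_box (hs k') (face_subset_box (hs k') hy)
          (face_subset_box (hs k') hx')).trans (mesh_anti hμ hk))
        have := fun h => hi (Finset.mem_union_right _ h)
        rw [hy.2 i this, hx'.2 i this]
    exact ⟨ν, n1, fun y hy y' hy' => by rw [h4 y hy, h4 y' hy']⟩
  obtain ⟨S, s1, s2, s3, s4, s5⟩ := hshear (G '' C) (fun a : ι => G '' φ a) v i0 ε θ cen ρ R hε hε1
    v1 (fun i hi => (v2 i hi).trans hω1) (c1.image G.continuous)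
    (fun a => (isCompact_face _ _ _).image G.continuous)
    (((isCompact_closedBall (0 : E n) 1).image G.continuous).isBounded.subset
      (iUnion_subset fun a => image_mono fun x hx => mem_closedBall_zero_iff.2 (hφb a x hx)))
    (fun a => (disjoint_image_iff G.injective).2 (disjoint_left.2 fun x hx => hφC a hx))
    (fun y hy => by
      have h1 : 0 < ϱ (G.symm y) := (r2 _).lt_of_ne' fun h =>
        hy ⟨_, (hC _).1 h, G.apply_symm_apply y⟩
      obtain ⟨t, ht, h2⟩ := hS.locFin h1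
      refine ⟨G.symm ⁻¹' t, G.symm.continuous.continuousAt ht,
        (h2.preimage Subtype.val_injective.injOn).subset ?_⟩
      rintro a ⟨_, ⟨x, hx, rfl⟩, hx'⟩
      exact ⟨a.2.1, x, face_subset_near (hs _) hx, by simpa using hx'⟩)
    v3 (fun a b h => (le_total a.1.1 b.1.1).elim (fun hk => hν a b hk h) fun hk => by
      rw [inter_comm] at h
      rw [union_comm]
      exact hν b a hk h)
    (can_chi_contDiff _ _) (fun y => ⟨can_chi_nonneg _ _ _, can_chi_le_one _ _ _⟩) hθ1 hθ0 c12 c13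
    (fun c hc => (c14 c hc).trans (c4.trans inter_subset_left)) c15 c16
  have hin : ∀ x, ‖x‖ ≤ 1 - 3 * ε → G x ∈ Z → S (G x) = refl v i0 v1 (G x) := fun x hx hz => by
    have h1 : ‖G x‖ ≤ 1 - 3 * ε := by
      by_cases h : x ∈ X0
      · linarith [hX0 _ (can_maps c6 h)]
      · rwa [c6 x h]
    rw [s2 _ hz, hθ1 _ h1, refl_apply, mul_one]
  have hCb : ∀ x ∈ C, ‖x‖ ≤ 1 - 3 * ε := fun x hx => by linarith [hX0 x (c3 hx)]
  obtain ⟨F, f1, f2, f3, f4⟩ := conj_shear (C := C) G S (refl v i0 v1) (refl_refl v i0 v1) c7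
    fun x hx => hin x (hCb x hx) (Or.inl (mem_image_of_mem _ hx))
  have hin' : ∀ x, ‖x‖ ≤ 1 - 3 * ε → G x ∈ Z → F x = x - (2 * θ x * x i0) • v := fun x hx hz => by
    rw [f1, hin x hx hz, refl_refl, G.symm_apply_apply, refl_apply, hθ1 x hx, mul_one]
  have hout : ∀ x, x ∉ X0 → refl v i0 v1 (S x) ∉ X0 → F x = S x := fun x hx h => by
    rw [f1, c6 x hx, G.symm_apply_eq.2 (c6 _ h).symm, refl_refl]
  refine ⟨C, ϱ, v, θ, F, c1, hS, hC, c3.trans (c4.trans inter_subset_left), le_trans ?_ c5, v1, hv,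
    can_chi_contDiff _ _, hθ1, hθ0, fun y hy => ?_,
    fun y hy => hin' y (hCb y hy) (Or.inl (mem_image_of_mem _ hy)), fun k I z ha hI =>
    ⟨fun y hy => ?_, fun y hy => ?_⟩, f2 s3, f3 ?_⟩
  · refine measure_mono_ae ?_
    have hnull : ∀ᵐ x : E n, ∀ i, ∀ w : ℤ, 1 * x i ≠ μ * w :=
      ae_all_iff.2 fun i => ae_all_iff.2 fun w => null_one i one_ne_zero _
    filter_upwards [hnull] with x hx hx'
    refine ⟨⟨hx'.1, mem_iInter.2 fun i h => ?_⟩, hx'.2⟩
    obtain ⟨w, hw⟩ := Real.sin_eq_zero_iff.1 h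
    refine hx i w ?_
    rw [mul_comm, mul_right_inj' Real.pi_ne_zero, eq_div_iff hμ.ne'] at hw
    linarith
  · rw [hout y (fun h => by linarith [hX0 y h]) (fun h => ?_), s1 y hy]
    rw [s1 y hy] at h
    have h1 := hX0 _ h
    set u := refl v i0 v1 y
    have h2 : y = u - (2 * u i0) • v := by rw [← refl_apply v i0 v1, refl_refl]
    have h3 : ∀ i, |u i| ≤ 1 - 4 * ε := fun i => (norm_le_pi_norm u i).trans h1.le
    refine hy.not_ge ((pi_norm_le_iff_of_nonneg (by linarith)).2 fun i => ?_)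
    rw [h2, Real.norm_eq_abs]
    by_cases hi : i = i0
    · have := abs_le.1 (h3 i0)
      simp only [hi, Pi.sub_apply, Pi.smul_apply, v1, smul_eq_mul, abs_le]
      constructor <;> linarith
    · have h4 : |2 * u i0 * v i| ≤ 2 * 1 * (ε / 8) := by
        rw [abs_mul, abs_mul, abs_two]
        gcongr
        · linarith [h3 i0]
        · exact (v2 i hi).trans hω1
      simp only [Pi.sub_apply, Pi.smul_apply, smul_eq_mul]
      linarith [abs_sub (u i) (2 * u i0 * v i), h3 i]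
  · have hz : G y ∈ Z := Or.inr (mem_iUnion.2 ⟨⟨(k, I, z), ha, hI⟩, mem_image_of_mem _ hy⟩)
    by_cases h : ‖y‖ ≤ 1 - 3 * ε
    · exact hin' y h hz
    rw [not_le] at h
    have h0 : y ∉ X0 := fun h' => by linarith [hX0 y h']
    rw [c6 y h0] at hz
    rw [hout y h0 fun h' => ?_, s2 y hz]
    obtain rfl : k = 0 := by
      rcases k with _ | k
      · rfl
      · have h1 := hS.rho_le_of_D (ha.face_subset hS hy)
        linarith [hfar y h.le, mesh_le hμ k]
    obtain ⟨i, hi, hi0⟩ : ∃ i, i ∉ I ∧ i ≠ i0 := by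
      by_contra hc
      push Not at hc
      have h1 : Finset.univ ⊆ insert i0 I := fun i _ => by
        by_cases h2 : i ∈ I
        · exact Finset.mem_insert_of_mem h2
        · rw [hc i h2]; exact Finset.mem_insert_self _ _
      have h2 := (Finset.card_le_card h1).trans (Finset.card_insert_le _ _)
      rw [Finset.card_univ, Fintype.card_fin] at h2
      omega
    set u := refl v i0 v1 (S y) with hu
    have h1 : |y i0| ≤ 1 := (norm_le_pi_norm y i0).trans (hφb ⟨(0, I, z), ha, hI⟩ y hy)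
    have h2 : |u i - y i| ≤ d := by
      have h4 : u i - y i = -(2 * (1 - θ y) * y i0 * v i) := by
        rw [hu, refl_apply, s2 y hz]
        simp [v1]
        ring
      have h5 : |1 - θ y| ≤ 1 := by
        rw [abs_le]
        constructor <;> linarith [can_chi_nonneg (1 - 3 * ε) (1 - 5 / 2 * ε) y,
          can_chi_le_one (1 - 3 * ε) (1 - 5 / 2 * ε) y]
      rw [h4, abs_neg, abs_mul, abs_mul, abs_mul, abs_two]
      calc _ ≤ 2 * 1 * 1 * (d / 2) := by gcongr; exact (v2 i hi0).trans hω2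
        _ = d := by ring
    have h3 : Function.update u i (y i) ∈ Ω := hdX (mem_cthickening_of_dist_le _ u _ _ h' (by
      rw [dist_pi_le_iff hd.le]
      intro j
      by_cases hj : j = i
      · rw [hj, Function.update_self, dist_comm]; exact h2
      · simp [hj, hd.le]))
    refine mem_iInter.1 h3.2 i ?_
    rw [Function.update_self, hy.2 i hi, mesh_zero, mul_div_cancel_left₀ _ hμ.ne', mul_comm]
    exact Real.sin_int_mul_pi _
  · refine f4 y (hφC ⟨(k, I, z), ha, hI⟩ (oface_subset_face hy))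
      (s5 ⟨(k, I, z), ha, hI⟩ _ (mem_image_of_mem _ (oface_subset_face hy)) ?_)
    rintro ⟨⟨k', I', z'⟩, ha', hI'⟩ hb
    obtain ⟨rfl, rfl, rfl⟩ := ha.eq_of_mem_face hS ha' (hI.trans hI'.symm) hy
      ((G.injective.mem_set_image).1 hb)
    rfl
  · filter_upwards [measure_eq_zero_iff_ae_notMem.1 v5] with y hy _
    exact s4 y fun s h => hy ⟨s, h⟩

theorem block {m : ℕ} (hm : 2 ≤ m) (hmn : 2 * m ≤ n) {p : ℝ} (hp : 1 ≤ p) (hpm : p < m) :
    BlockStatement n p := by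
  intro η hη
  obtain ⟨q, hpq, hqm⟩ := exists_between hpm
  obtain ⟨M, Λ, hM, hΛ, hc⟩ := collapse (n := n) (by omega) (by omega) (by linarith) hqm
  obtain ⟨δ, hδ, hδ1, hδ2⟩ : ∃ δ : ℝ, 0 < δ ∧ 2 * δ ≤ η ∧
      6 ^ p * (M * ENNReal.ofReal (2 * δ) + ENNReal.ofReal δ) ≤ ENNReal.ofReal η := by
    have h1 : ∀ c : ℝ, Tendsto (fun δ : ℝ => ENNReal.ofReal (c * δ)) (𝓝[>] 0) (𝓝 0) := fun c => by
      have : Continuous fun δ : ℝ => ENNReal.ofReal (c * δ) :=
        ENNReal.continuous_ofReal.comp (by fun_prop)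
      simpa using (this.tendsto 0).mono_left nhdsWithin_le_nhds
    have h2 := ENNReal.Tendsto.const_mul (a := 6 ^ p)
      ((ENNReal.Tendsto.const_mul (h1 2) (Or.inr hM)).add (h1 1))
      (Or.inr (ENNReal.rpow_ne_top_of_nonneg (by linarith) (by simp)))
    simp only [mul_zero, add_zero, one_mul] at h2
    obtain ⟨δ, h3, h4⟩ := ((h2.eventually (ge_mem_nhds (ENNReal.ofReal_pos.2 hη))).and
      (Ioo_mem_nhdsGT (half_pos hη))).exists
    exact ⟨δ, h4.1, by linarith [h4.2], h3⟩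
  have hδ' : 0 < ENNReal.ofReal δ := ENNReal.ofReal_pos.2 hδ
  obtain ⟨K, hK1, hK2, hK3⟩ := MeasurableSet.exists_isCompact_sdiff_lt (μ := volume)
    (measurableSet_ball (x := (0 : E n)) (ε := 1)) measure_ball_lt_top.ne hδ'.ne'
  obtain ⟨r, hr, hKr⟩ := exists_lt_subset_ball hK2.isClosed hK1
  set ε := min (1 / 8) ((1 - r) / 4) with hεd
  have hε : 0 < ε := lt_min (by norm_num) (by linarith)
  have hε1 : ε ≤ 1 / 8 := min_le_left _ _
  have hε2 : ε ≤ (1 - r) / 4 := min_le_right _ _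
  set i0 : Fin n := ⟨0, by omega⟩
  have hμ : 4 * Λ * (ε / (8 * Λ)) = ε / 2 := by field_simp; ring
  have hμ0 : 0 < ε / (8 * Λ) := by positivity
  obtain ⟨C, ϱ, v, θ, F, c1, c2, c3, c4, c5, c6, c7, c8, c9, c10, c11, c12, c13, c14, c15⟩ :=
    exists_reflector hm hmn i0 hε hε1 hμ0 (by nlinarith) hδ
  set π : E n →L[ℝ] E n :=
    ContinuousLinearMap.id ℝ (E n) - (ContinuousLinearMap.proj i0).smulRight v with hπ
  obtain ⟨b, Ψ, W, a1, a2, a3, a4⟩ := assemble hp hpq hM hΛ hc c2 hε hε1 hμ.le c3 c4 v i0 c6 c7 θ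
    c8 c9 c10 F c11 c12 c13 c14 c15 π (fun x => rfl) hδ' ENNReal.ofReal_ne_top
  have hU : volume (ball (0 : E n) 1 \ C) ≤ ENNReal.ofReal (2 * δ) := by
    rw [two_mul, ENNReal.ofReal_add hδ.le hδ.le]
    refine le_trans (measure_mono fun x hx => ?_)
      ((measure_union_le _ _).trans (add_le_add hK3.le c5))
    by_cases h : x ∈ K
    · exact Or.inr ⟨ball_subset_ball (by linarith) (hKr h), hx.2⟩
    · exact Or.inl ⟨hx.1, h⟩
  refine ⟨b, Ψ, W, ball 0 1 \ C, v, π, ContinuousLinearMap.proj i0, a1,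
    measurableSet_ball.diff c1.measurableSet, a2, hU.trans (ENNReal.ofReal_le_ofReal hδ1), c7,
    fun x => by simp [hπ], ContinuousLinearMap.opNorm_le_bound _ zero_le_one fun x => ?_,
    a4.trans (le_trans (by gcongr) hδ2), fun x hx h => a3 x (by_contra fun h' => h ⟨hx, h'⟩)⟩
  rw [one_mul]
  exact norm_le_pi_norm x i0

end Pool.Agent.P.MP_667fa2_an
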