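import Pool.Agent.P.MP_667fa2_an.Cells

/-! The size function, thin sets and the conjugated shear. -/

namespace Pool.Agent.P.MP_667fa2_an

open Set Filter Topology MeasureTheory Metric
open scoped ENNReal NNReal

variable {n : ℕ}

theorem exists_size (P : Set (E n) → Prop) (hP : ∀ s t, P s → t ⊆ s → P t) (h0 : P ∅) :
    ∃ ϱ : E n → ℝ, LipschitzWith 1 ϱ ∧ (∀ x, 0 ≤ ϱ x) ∧ (∀ x r, r < ϱ x → P (ball x r)) ∧
      ∀ x r, r ≤ 1 → P (ball x r) → r ≤ ϱ x := by
  set T : E n → Set ℝ := fun x => {r | r ≤ 1 ∧ P (ball x r)} with hT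
  have hb : ∀ x, BddAbove (T x) := fun x => ⟨1, fun r hr => hr.1⟩
  have hz : ∀ x, (0 : ℝ) ∈ T x := fun x => ⟨zero_le_one, by simpa using h0⟩
  have h4 : ∀ x r, r ≤ 1 → P (ball x r) → r ≤ sSup (T x) := fun x r h1 h2 => le_csSup (hb x) ⟨h1, h2⟩
  refine ⟨fun x => sSup (T x), LipschitzWith.of_le_add fun x y => ?_, fun x => le_csSup (hb x) (hz x),
    fun x r hr => ?_, h4⟩
  · refine csSup_le ⟨0, hz x⟩ fun r hr => ?_
    rw [← sub_le_iff_le_add]
    refine h4 y _ (by linarith [hr.1, dist_nonneg (x := x) (y := y)]) (hP _ _ hr.2 ?_)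
    exact ball_subset_ball' (by rw [dist_comm]; linarith)
  · obtain ⟨r', hr', h⟩ := exists_lt_of_lt_csSup ⟨0, hz x⟩ hr
    exact hP _ _ hr'.2 (ball_subset_ball h.le)

theorem thin_iUnion {ι : Type*} [Countable ι] [Nonempty ι] {d : ℕ} (Z : ι → Set (E n))
    (h : ∀ a, ∃ (A : Set (E d)) (γ : E d → E n) (K : ℝ≥0), LipschitzOnWith K γ A ∧ Z a ⊆ γ '' A) :
    Thin d (⋃ a, Z a) := by
  choose A γ K h1 h2 using h
  obtain ⟨e, he⟩ := exists_surjective_nat ι
  refine ⟨fun j => A (e j), fun j => γ (e j), fun j => K (e j), fun j => h1 _,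
    iUnion_subset fun a => ?_⟩
  obtain ⟨j, rfl⟩ := he a
  exact (h2 _).trans (subset_iUnion (fun j => γ (e j) '' A (e j)) j)

theorem thin_face {d : ℕ} {s : ℝ} {I : Finset (Fin n)} (hI : I.card = d) (z : Fin n → ℤ)
    {G : E n → E n} {K : ℝ≥0} (hG : LipschitzOnWith K G (face s I z)) :
    ∃ (A : Set (E d)) (γ : E d → E n) (K : ℝ≥0), LipschitzOnWith K γ A ∧
      G '' face s I z ⊆ γ '' A := by
  set e := I.equivFinOfCardEq hI
  set ι : E d → E n := fun u i => if h : i ∈ I then u (e ⟨i, h⟩) else s * z i with hι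
  have h1 : LipschitzWith 1 ι := by
    refine LipschitzWith.of_dist_le_mul fun u u' => ?_
    rw [NNReal.coe_one, one_mul, dist_pi_le_iff dist_nonneg]
    intro i
    by_cases h : i ∈ I
    · simp only [hι, dif_pos h]
      exact dist_le_pi_dist u u' _
    · simp [hι, h]
  refine ⟨ι ⁻¹' face s I z, G ∘ ι, K * 1, hG.comp h1.lipschitzOnWith fun u hu => hu, ?_⟩
  rintro _ ⟨x, hx, rfl⟩
  have h2 : ι (fun j => x (e.symm j)) = x := by
    funext i
    by_cases h : i ∈ I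
    · simp [hι, h]
    · simp [hι, h, hx.2 i h]
  exact ⟨fun j => x (e.symm j), by rw [mem_preimage, h2]; exact hx, by simp [h2]⟩

theorem thin_curve {d : ℕ} (hd : 1 ≤ d) {T : Set ℝ} {γ : ℝ → E n} {K : ℝ≥0}
    (h : LipschitzOnWith K γ T) {Y : Set (E n)} (hY : Y ⊆ γ '' T) :
    ∃ (A : Set (E d)) (γ : E d → E n) (K : ℝ≥0), LipschitzOnWith K γ A ∧ Y ⊆ γ '' A := by
  set j : Fin d := ⟨0, hd⟩
  refine ⟨{u | u j ∈ T}, fun u => γ (u j), K * 1,
    h.comp (LipschitzWith.eval (α := fun _ : Fin d => ℝ) j).lipschitzOnWith fun u hu => hu,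
    hY.trans ?_⟩
  rintro _ ⟨t, ht, rfl⟩
  exact ⟨fun _ => t, ht, rfl⟩

theorem nu_face {ν : E n →L[ℝ] ℝ} {I : Finset (Fin n)} (hν : ∀ i ∈ I, ν (Pi.single i 1) = 0)
    {u : E n} (hu : ∀ i, i ∉ I → u i = 0) : ν u = 0 := by
  rw [pi_eq_sum_univ' u, map_sum]
  refine Finset.sum_eq_zero fun i _ => ?_
  by_cases h : i ∈ I
  · rw [map_smul, hν i h, smul_zero]
  · rw [hu i h, zero_smul, map_zero]

/-- The reflection along `v`. -/
noncomputable def refl (v : E n) (i0 : Fin n) (hv : v i0 = 1) : E n ≃L[ℝ] E n :=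
  ContinuousLinearEquiv.equivOfInverse
    (ContinuousLinearMap.id ℝ (E n) - (2 : ℝ) • (ContinuousLinearMap.proj i0).smulRight v)
    (ContinuousLinearMap.id ℝ (E n) - (2 : ℝ) • (ContinuousLinearMap.proj i0).smulRight v)
    (fun x => by ext i; simp [hv]; ring) (fun x => by ext i; simp [hv]; ring)

theorem refl_apply (v : E n) (i0 : Fin n) (hv : v i0 = 1) (x : E n) :
    refl v i0 hv x = x - (2 * x i0) • v := by
  ext i; simp [refl]; ring

theorem refl_refl (v : E n) (i0 : Fin n) (hv : v i0 = 1) (x : E n) :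
    refl v i0 hv (refl v i0 hv x) = x := by
  ext i; simp [refl_apply, hv]; ring

theorem conj_shear {C : Set (E n)} (G S : E n ≃ₜ E n) (R : E n ≃L[ℝ] E n)
    (hR : ∀ x, R (R x) = x) (hG : ∀ x, x ∉ C → Nice G x) (hS : ∀ x ∈ C, S (G x) = R (G x)) :
    ∃ F : E n ≃ₜ E n, (∀ x, F x = R (G.symm (R (S (G x))))) ∧ (LL (G '' C)ᶜ S → LL Cᶜ F) ∧
      (AENice univ S → AENice Cᶜ F) ∧
      ∀ x, x ∉ C → ContDiffAt ℝ 1 S (G x) → ContDiffAt ℝ 1 F x := by
  set H : E n ≃ₜ E n := (R.toHomeomorph.trans G.symm).trans R.toHomeomorph with hH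
  have hRn : ∀ x, Nice R x := fun x => by simpa using Nice.of_linear R 0 x
  have hHn : ∀ x, x ∉ C → Nice H (S (G x)) := fun x hx => by
    have h1 : G.symm (R (S (G x))) ∉ C := fun h => hx <| by
      have h2 := hS _ h
      rw [G.apply_symm_apply, hR] at h2
      have h3 : G.symm (R (S (G x))) = x := by
        apply G.injective
        rw [G.apply_symm_apply]
        exact S.injective h2
      rwa [h3] at h
    have h2 := (hG _ h1).symm
    rw [G.apply_symm_apply] at h2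
    exact (hRn _).comp (f := fun y => G.symm (R y)) (h2.comp (hRn _))
  refine ⟨(G.trans S).trans H, fun x => rfl, fun h => ?_, fun h => ?_, fun x hx h => ?_⟩
  · refine LL.comp (g := H) (V := {y | Nice H y}) (LL.of_contDiffAt fun y hy => hy.1)
      (h.comp (LL.of_contDiffAt fun y hy => (hG y hy).1) fun x hx hx' => hx ?_) hHn
    obtain ⟨y, hy, h1⟩ := hx'
    rwa [← G.injective h1]
  · have h1 : AENice Cᶜ G := Eventually.of_forall hG
    filter_upwards [h.comp h1 (mapsTo_univ _ _)] with x hx hx'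
    exact (hHn x hx').comp (f := fun y => S (G y)) (hx hx')
  · exact ContDiffAt.comp (g := H) (f := fun y => S (G y)) x (hHn x hx).1 (h.comp x (hG x hx).1)

end Pool.Agent.P.MP_667fa2_an
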