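import Pool.Agent.P.MP_667fa2_an.Lines

/-! Combinatorics of the dyadic Whitney complex. -/

namespace Pool.Agent.P.MP_667fa2_an

open Set Filter Topology MeasureTheory Metric
open scoped ENNReal NNReal

variable {n : ℕ}

/-- Standing hypotheses on the size function. -/
structure Setup (ϱ : E n → ℝ) (μ : ℝ) (X : Set (E n)) : Prop where
  lip : LipschitzWith 1 ϱ
  nonneg : ∀ x, 0 ≤ ϱ x
  pos : 0 < μ
  le_one : μ ≤ 1
  bdd : Bornology.IsBounded X
  sub : {x | ϱ x ≤ 2 * μ} ⊆ X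

theorem mesh_pos {μ : ℝ} (h : 0 < μ) (k : ℕ) : 0 < mesh μ k := by unfold mesh; positivity

theorem mesh_zero (μ : ℝ) : mesh μ 0 = μ := by simp [mesh]

theorem mesh_succ (μ : ℝ) (k : ℕ) : mesh μ k = 2 * mesh μ (k + 1) := by
  unfold mesh; rw [pow_succ]; field_simp

theorem mesh_add (μ : ℝ) (k j : ℕ) : mesh μ k = ((2 ^ j : ℕ) : ℝ) * mesh μ (k + j) := by
  unfold mesh; rw [pow_add]; push_cast; field_simp

theorem mesh_anti {μ : ℝ} (h : 0 < μ) {k k' : ℕ} (hk : k ≤ k') : mesh μ k' ≤ mesh μ k := by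
  unfold mesh
  exact div_le_div_of_nonneg_left h.le (by positivity) (pow_le_pow_right₀ one_le_two hk)

theorem mesh_le {μ : ℝ} (h : 0 < μ) (k : ℕ) : mesh μ k ≤ μ := by
  simpa [mesh_zero] using mesh_anti h (Nat.zero_le k)

theorem mesh_tendsto (μ : ℝ) : Tendsto (mesh μ) atTop (𝓝 0) := by
  unfold mesh
  exact tendsto_const_nhds.div_atTop (tendsto_pow_atTop_atTop_of_one_lt one_lt_two)

theorem ilt {s : ℝ} (hs : 0 < s) {a b : ℤ} (h : s * a < s * b) : a < b := by
  exact_mod_cast lt_of_mul_lt_mul_left h hs.le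

theorem ile {s : ℝ} (hs : 0 < s) {a b : ℤ} (h : a ≤ b) : s * a ≤ s * b :=
  mul_le_mul_of_nonneg_left (by exact_mod_cast h) hs.le

/-- Open star of a face. -/
def star (s : ℝ) (I : Finset (Fin n)) (z : Fin n → ℤ) : Set (E n) :=
  {x | (∀ i ∈ I, s * z i < x i ∧ x i < s * (z i + 1)) ∧ ∀ i, i ∉ I → |x i - s * z i| < s}

/-- The region where the push of a face acts. -/
def Sset (s : ℝ) (I : Finset (Fin n)) (z : Fin n → ℤ) : Set (E n) :=
  {x | (∀ i ∈ I, s * z i < x i ∧ x i < s * (z i + 1)) ∧ ∀ i, i ∉ I → |x i - s * z i| < s / 3}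

/-- Points close to a face. -/
def near (s : ℝ) (I : Finset (Fin n)) (z : Fin n → ℤ) : Set (E n) :=
  {y | ∃ x ∈ face s I z, dist y x ≤ s}

/-- Projection onto the affine span of a face. -/
noncomputable def snap (s : ℝ) (I : Finset (Fin n)) (z : Fin n → ℤ) (y : E n) : E n :=
  fun i => if i ∈ I then y i else s * z i

theorem oface_subset_face {s : ℝ} {I : Finset (Fin n)} {z : Fin n → ℤ} :
    oface s I z ⊆ face s I z :=
  fun _ hx => ⟨fun i hi => ⟨(hx.1 i hi).1.le, (hx.1 i hi).2.le⟩, hx.2⟩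

theorem oface_subset_star {s : ℝ} (hs : 0 < s) {I : Finset (Fin n)} {z : Fin n → ℤ} :
    oface s I z ⊆ star s I z :=
  fun _ hx => ⟨hx.1, fun i hi => by rw [hx.2 i hi]; simpa using hs⟩

theorem face_subset_box {s : ℝ} (hs : 0 < s) {I : Finset (Fin n)} {z : Fin n → ℤ} :
    face s I z ⊆ box s z := fun x hx i => by
  by_cases hi : i ∈ I
  · exact hx.1 i hi
  · rw [hx.2 i hi]; constructor <;> nlinarith

theorem face_subset_near {s : ℝ} (hs : 0 < s) {I : Finset (Fin n)} {z : Fin n → ℤ} :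
    face s I z ⊆ near s I z := fun x hx => ⟨x, hx, by simpa using hs.le⟩

theorem dist_snap_le {s η : ℝ} (hη : 0 ≤ η) {I : Finset (Fin n)} {z : Fin n → ℤ} {y : E n}
    (h : ∀ i, i ∉ I → |y i - s * z i| ≤ η) : dist y (snap s I z y) ≤ η := by
  rw [dist_pi_le_iff hη]
  intro i
  by_cases hi : i ∈ I
  · simpa [snap, hi] using hη
  · simpa [snap, hi, Real.dist_eq] using h i hi

theorem snap_mem_oface {s : ℝ} {I : Finset (Fin n)} {z : Fin n → ℤ} {y : E n}
    (h : ∀ i ∈ I, s * z i < y i ∧ y i < s * (z i + 1)) : snap s I z y ∈ oface s I z :=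
  ⟨fun i hi => by simpa [snap, hi] using h i hi, fun i hi => by simp [snap, hi]⟩

theorem Sset_subset_near {s : ℝ} (hs : 0 < s) {I : Finset (Fin n)} {z : Fin n → ℤ} :
    Sset s I z ⊆ near s I z := fun y hy =>
  ⟨_, oface_subset_face (snap_mem_oface hy.1),
    dist_snap_le hs.le fun i hi => by linarith [hy.2 i hi]⟩

theorem isOpen_Sset (s : ℝ) (I : Finset (Fin n)) (z : Fin n → ℤ) : IsOpen (Sset s I z) := by
  have : Sset s I z = (⋂ i ∈ I, ({x : E n | s * z i < x i} ∩ {x | x i < s * (z i + 1)})) ∩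
      ⋂ i ∈ Iᶜ, {x : E n | |x i - s * z i| < s / 3} := by
    ext x; simp [Sset]
  rw [this]
  refine (isOpen_biInter_finset fun i _ => ?_).inter (isOpen_biInter_finset fun i _ => ?_)
  · exact (isOpen_lt (by fun_prop) (by fun_prop)).inter (isOpen_lt (by fun_prop) (by fun_prop))
  · exact isOpen_lt (by fun_prop) (by fun_prop)

theorem isCompact_face (s : ℝ) (I : Finset (Fin n)) (z : Fin n → ℤ) : IsCompact (face s I z) := by
  have : face s I z = Icc (fun i => s * z i) (fun i => if i ∈ I then s * (z i + 1) else s * z i) := by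
    ext x
    simp only [face, mem_ofPred_eq, mem_Icc, Pi.le_def]
    constructor
    · rintro ⟨h1, h2⟩
      refine ⟨fun i => ?_, fun i => ?_⟩ <;> by_cases hi : i ∈ I
      · exact (h1 i hi).1
      · exact (h2 i hi).ge
      · simpa [hi] using (h1 i hi).2
      · simpa [hi] using (h2 i hi).le
    · rintro ⟨h1, h2⟩
      exact ⟨fun i hi => ⟨h1 i, by simpa [hi] using h2 i⟩,
        fun i hi => le_antisymm (by simpa [hi] using h2 i) (h1 i)⟩
  rw [this]; exact isCompact_Icc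

theorem dist_le_of_mem_box {s : ℝ} (hs : 0 < s) {z : Fin n → ℤ} {x y : E n} (hx : x ∈ box s z)
    (hy : y ∈ box s z) : dist x y ≤ s := by
  rw [dist_pi_le_iff hs.le]
  intro i
  rw [Real.dist_eq, abs_le]
  constructor <;> nlinarith [hx i, hy i]

theorem star_sat {s : ℝ} (hs : 0 < s) {I : Finset (Fin n)} {z w : Fin n → ℤ} {x : E n}
    (hx : x ∈ star s I z) (hw : x ∈ box s w) : face s I z ⊆ box s w := by
  intro y hy i
  by_cases hi : i ∈ I
  · have h1 : w i < z i + 1 := ilt hs (by push_cast; linarith [(hw i).1, (hx.1 i hi).2])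
    have h2 : z i < w i + 1 := ilt hs (by push_cast; linarith [(hw i).2, (hx.1 i hi).1])
    have h3 : w i = z i := by omega
    rw [h3]; exact hy.1 i hi
  · have h0 := abs_lt.1 (hx.2 i hi)
    have h1 : w i < z i + 1 := ilt hs (by push_cast; linarith [(hw i).1])
    have h2 : z i - 1 < w i + 1 := ilt hs (by push_cast; linarith [(hw i).2])
    rw [hy.2 i hi]
    refine ⟨ile hs (by omega), ?_⟩
    have := ile hs (show z i ≤ w i + 1 by omega)
    push_cast at this; exact this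

theorem oface_sat {t : ℝ} (ht : 0 < t) (N : ℕ) {I : Finset (Fin n)} {z w : Fin n → ℤ} {x : E n}
    (hx : x ∈ oface t I z) (hw : x ∈ box ((N : ℝ) * t) w) : face t I z ⊆ box ((N : ℝ) * t) w := by
  intro y hy i
  by_cases hi : i ∈ I
  · have h1 : N * w i < z i + 1 := ilt ht (by push_cast; linarith [(hw i).1, (hx.1 i hi).2])
    have h2 : z i < N * (w i + 1) := ilt ht (by push_cast; linarith [(hw i).2, (hx.1 i hi).1])
    have h3 := ile ht (show N * w i ≤ z i by omega)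
    have h4 := ile ht (show z i + 1 ≤ N * (w i + 1) by omega)
    push_cast at h3 h4
    constructor <;> linarith [(hy.1 i hi).1, (hy.1 i hi).2]
  · rw [hy.2 i hi, ← hx.2 i hi]; exact hw i

theorem exists_oface {s : ℝ} (hs : 0 < s) (x : E n) : ∃ I z, x ∈ oface s I z := by
  classical
  refine ⟨Finset.univ.filter fun i => x i ≠ s * ⌊x i / s⌋, fun i => ⌊x i / s⌋, fun i hi => ?_,
    fun i hi => by simpa using hi⟩
  have h1 : s * ⌊x i / s⌋ ≤ x i := by
    have := Int.floor_le (x i / s)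
    rwa [le_div_iff₀ hs, mul_comm] at this
  have h2 : x i < s * (⌊x i / s⌋ + 1) := by
    have := Int.lt_floor_add_one (x i / s)
    rwa [div_lt_iff₀ hs, mul_comm] at this
  exact ⟨lt_of_le_of_ne h1 (Finset.mem_filter.1 hi).2.symm, h2⟩

theorem box_parent {t : ℝ} (ht : 0 < t) (z : Fin n → ℤ) :
    box t z ⊆ box (2 * t) (fun i => z i / 2) := by
  intro x hx i
  have h1 := ile ht (show 2 * (z i / 2) ≤ z i by omega)
  have h2 := ile ht (show z i + 1 ≤ 2 * (z i / 2 + 1) by omega)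
  push_cast at h1 h2
  constructor <;> linarith [(hx i).1, (hx i).2]

variable {ϱ : E n → ℝ} {μ : ℝ} {X : Set (E n)}

theorem Setup.le_add (h : Setup ϱ μ X) (x y : E n) : ϱ x ≤ ϱ y + dist x y := by
  simpa using h.lip.le_add_mul x y

theorem Setup.D_succ (h : Setup ϱ μ X) (k : ℕ) : D ϱ μ X (k + 1) ⊆ D ϱ μ X k := by
  cases k with
  | zero =>
    rintro x ⟨z, hz, y, hy, hy'⟩
    rw [mesh_zero] at hz hy hy'
    exact ⟨z, hz, y, hy, h.sub hy'⟩
  | succ k =>
    rintro x ⟨z, hz, y, hy, hy'⟩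
    have h1 := box_parent (mesh_pos h.pos (k + 1)) z
    rw [← mesh_succ] at h1
    refine ⟨_, h1 hz, y, h1 hy, ?_⟩
    have := mesh_anti h.pos (Nat.le_succ k)
    simp only [mem_ofPred_eq] at hy' ⊢
    linarith

theorem Setup.D_anti (h : Setup ϱ μ X) {k k' : ℕ} (hk : k ≤ k') : D ϱ μ X k' ⊆ D ϱ μ X k :=
  antitone_nat_of_succ_le (f := D ϱ μ X) h.D_succ hk

theorem Setup.sat (h : Setup ϱ μ X) {k k' : ℕ} {I : Finset (Fin n)} {z : Fin n → ℤ} {x : E n}
    (hx : x ∈ oface (mesh μ k) I z) (hk : k' ≤ k + 1) (hD : x ∈ D ϱ μ X k') :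
    face (mesh μ k) I z ⊆ D ϱ μ X k' := by
  cases k' with
  | zero =>
    obtain ⟨w, hw, hw'⟩ := hD
    have h1 : μ = ((2 ^ k : ℕ) : ℝ) * mesh μ k := by
      have := mesh_add μ 0 k
      rwa [mesh_zero, zero_add] at this
    intro y hy
    refine ⟨w, ?_, hw'⟩
    rw [h1] at hw ⊢
    exact oface_sat (mesh_pos h.pos k) _ hx hw (by simpa only [← h1] using hy)
  | succ j =>
    obtain ⟨w, hw, hw'⟩ := hD
    obtain ⟨d, rfl⟩ := Nat.exists_eq_add_of_le (show j ≤ k by omega)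
    intro y hy
    refine ⟨w, ?_, hw'⟩
    rw [mesh_add μ j d] at hw ⊢
    exact oface_sat (mesh_pos h.pos _) _ hx hw hy

theorem Setup.rho_le_of_D (h : Setup ϱ μ X) {k : ℕ} {x : E n} (hx : x ∈ D ϱ μ X (k + 1)) :
    ϱ x ≤ 3 * mesh μ k := by
  obtain ⟨z, hz, y, hy, hy'⟩ := hx
  have h1 := dist_le_of_mem_box (mesh_pos h.pos k) hz hy
  have h2 := h.le_add x y
  simp only [mem_ofPred_eq] at hy'
  linarith

theorem Setup.near_X (h : Setup ϱ μ X) {k : ℕ} {x : E n} (hx : x ∈ D ϱ μ X k) :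
    ∃ y ∈ X, dist x y ≤ μ := by
  obtain ⟨z, hz, y, hy, hy'⟩ := h.D_anti (Nat.zero_le k) hx
  exact ⟨y, hy', dist_le_of_mem_box h.pos hz hy⟩

theorem Setup.subset_D (h : Setup ϱ μ X) : X ⊆ D ϱ μ X 0 := by
  intro x hx
  obtain ⟨I, z, hz⟩ := exists_oface h.pos x
  have := face_subset_box h.pos (oface_subset_face hz)
  exact ⟨z, this, x, this, hx⟩

theorem Setup.exists_level (h : Setup ϱ μ X) {x : E n} (hx : x ∈ D ϱ μ X 0) (hϱ : 0 < ϱ x) :
    ∃ k, x ∈ D ϱ μ X k ∧ x ∉ D ϱ μ X (k + 1) := by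
  by_contra hc
  push Not at hc
  have h1 : ∀ k, x ∈ D ϱ μ X k := fun k => Nat.rec hx hc k
  have h2 : Tendsto (fun k => 3 * mesh μ k) atTop (𝓝 0) := by
    simpa using (mesh_tendsto μ).const_mul 3
  exact absurd (ge_of_tendsto' h2 fun k => h.rho_le_of_D (h1 (k + 1))) (not_le.2 hϱ)

variable {k k' : ℕ} {I I' : Finset (Fin n)} {z z' : Fin n → ℤ}

theorem Active.face_subset (h : Setup ϱ μ X) (ha : Active ϱ μ X k I z) :
    face (mesh μ k) I z ⊆ D ϱ μ X k := by
  obtain ⟨x, hx, h1, -⟩ := ha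
  exact h.sat hx (Nat.le_succ k) h1

theorem Active.not_mem (h : Setup ϱ μ X) (ha : Active ϱ μ X k I z) {y : E n}
    (hy : y ∈ oface (mesh μ k) I z) : y ∉ D ϱ μ X (k + 1) := by
  obtain ⟨x, hx, -, h2⟩ := ha
  exact fun hc => h2 (h.sat hy le_rfl hc (oface_subset_face hx))

theorem Active.lt_rho (h : Setup ϱ μ X) (ha : Active ϱ μ X k I z) {y : E n}
    (hy : y ∈ face (mesh μ k) I z) : 2 * mesh μ k < ϱ y := by
  obtain ⟨x, hx, -, h2⟩ := ha
  by_contra hc
  have hs := mesh_pos h.pos k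
  exact h2 ⟨z, face_subset_box hs (oface_subset_face hx), y, face_subset_box hs hy, not_lt.1 hc⟩

theorem Active.near_lt_rho (h : Setup ϱ μ X) (ha : Active ϱ μ X k I z) {y : E n}
    (hy : y ∈ near (mesh μ k) I z) : mesh μ k < ϱ y := by
  obtain ⟨x, hx, hd⟩ := hy
  have h1 := ha.lt_rho h hx
  have h2 := h.le_add x y
  rw [dist_comm] at h2
  linarith

theorem Active.near_rho_le (h : Setup ϱ μ X) (ha : Active ϱ μ X (k + 1) I z) {y : E n}
    (hy : y ∈ near (mesh μ (k + 1)) I z) : ϱ y ≤ 7 * mesh μ (k + 1) := by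
  obtain ⟨x, hx, hd⟩ := hy
  have h1 := h.rho_le_of_D (ha.face_subset h hx)
  have h2 := h.le_add y x
  rw [mesh_succ μ k] at h1
  linarith

theorem Active.near_X (h : Setup ϱ μ X) (ha : Active ϱ μ X k I z) {y : E n}
    (hy : y ∈ near (mesh μ k) I z) : ∃ x ∈ X, dist y x ≤ 2 * μ := by
  obtain ⟨x, hx, hd⟩ := hy
  obtain ⟨w, hw, hw'⟩ := h.near_X (ha.face_subset h hx)
  refine ⟨w, hw, ?_⟩
  linarith [dist_triangle y x w, mesh_le h.pos k]

theorem Active.eq_of_mem_star (h : Setup ϱ μ X) (ha : Active ϱ μ X k I z)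
    (ha' : Active ϱ μ X k' I' z') (hc : I.card ≤ I'.card) {x : E n}
    (hx : x ∈ oface (mesh μ k) I z) (hx' : x ∈ star (mesh μ k') I' z') :
    k = k' ∧ I = I' ∧ z = z' := by
  rcases lt_or_ge k' k with hk | hk
  · exfalso
    obtain ⟨w, hw, hw'⟩ := h.D_anti (show k' + 1 ≤ k from hk) (ha.face_subset h
      (oface_subset_face hx))
    obtain ⟨y, hy, -, hy2⟩ := ha'
    exact hy2 ⟨w, star_sat (mesh_pos h.pos _) hx' hw (oface_subset_face hy), hw'⟩
  obtain ⟨d, rfl⟩ := Nat.exists_eq_add_of_le hk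
  have hs := mesh_pos h.pos (k + d)
  have hm := mesh_add μ k d
  have hlat : ∀ i, i ∉ I → x i = mesh μ (k + d) * ((2 ^ d : ℕ) * z i : ℤ) := fun i hi => by
    rw [hx.2 i hi, hm]; push_cast; ring
  have hsub : I' ⊆ I := fun i hi => by
    by_contra hI
    have h1 := hx'.1 i hi
    rw [hlat i hI] at h1
    have h2 := ilt hs h1.1
    have h3 : ((2 ^ d : ℕ) * z i : ℤ) < z' i + 1 := ilt hs (by push_cast at h1 ⊢; exact h1.2)
    omega
  have hI : I' = I := Finset.eq_of_subset_of_card_le hsub hc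
  subst hI
  have hz : ∀ i, i ∉ I' → ((2 ^ d : ℕ) * z i : ℤ) = z' i := fun i hi => by
    have h1 := abs_lt.1 (hx'.2 i hi)
    rw [hlat i hi] at h1
    have h2 : ((2 ^ d : ℕ) * z i : ℤ) < z' i + 1 := ilt hs (by push_cast at h1 ⊢; linarith)
    have h3 : z' i - 1 < ((2 ^ d : ℕ) * z i : ℤ) := ilt hs (by push_cast at h1 ⊢; linarith)
    omega
  have hxo : x ∈ oface (mesh μ (k + d)) I' z' :=
    ⟨hx'.1, fun i hi => by rw [hlat i hi, hz i hi]⟩
  cases d with
  | succ d =>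
    exact absurd (h.D_anti (by omega) (ha'.face_subset h (oface_subset_face hxo)))
      (ha.not_mem h hx)
  | zero =>
    refine ⟨rfl, rfl, funext fun i => ?_⟩
    simp only [add_zero] at hs hx'
    by_cases hi : i ∈ I'
    · have h1 : z i < z' i + 1 :=
        ilt hs (by push_cast; linarith [(hx.1 i hi).1, (hx'.1 i hi).2])
      have h2 : z' i < z i + 1 :=
        ilt hs (by push_cast; linarith [(hx.1 i hi).2, (hx'.1 i hi).1])
      omega
    · simpa using hz i hi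

theorem Active.eq_of_mem_Sset (h : Setup ϱ μ X) (ha : Active ϱ μ X k I z)
    (ha' : Active ϱ μ X k' I z') {y : E n} (hy : y ∈ Sset (mesh μ k) I z)
    (hy' : y ∈ Sset (mesh μ k') I z') : k = k' ∧ z = z' := by
  wlog hk : k' ≤ k generalizing k k' z z'
  · have := this ha' ha hy' hy (by omega)
    exact ⟨this.1.symm, this.2.symm⟩
  have h1 := mesh_anti h.pos hk
  have h2 := mesh_pos h.pos k'
  have := ha.eq_of_mem_star h ha' le_rfl (snap_mem_oface hy.1)
    ⟨fun i hi => by simpa [snap, hi] using hy'.1 i hi, fun i hi => by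
      have h3 := abs_lt.1 (hy.2 i hi)
      have h4 := abs_lt.1 (hy'.2 i hi)
      simp only [snap, hi, if_false, abs_lt]
      constructor <;> linarith⟩
  exact ⟨this.1, this.2.2⟩

/-- An interior point of an active face lies on no other active face of the same dimension. -/
theorem Active.eq_of_mem_face (h : Setup ϱ μ X) (ha : Active ϱ μ X k I z)
    (ha' : Active ϱ μ X k' I' z') (hc : I.card = I'.card) {x : E n}
    (hx : x ∈ oface (mesh μ k) I z) (hx' : x ∈ face (mesh μ k') I' z') :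
    k = k' ∧ I = I' ∧ z = z' := by
  rcases lt_or_ge k k' with hk | hk
  · exact absurd (h.D_anti (show k + 1 ≤ k' from hk) (ha'.face_subset h hx')) (ha.not_mem h hx)
  obtain ⟨d, rfl⟩ := Nat.exists_eq_add_of_le hk
  have hs := mesh_pos h.pos (k' + d)
  have hm := mesh_add μ k' d
  have hnl : ∀ i ∈ I, ∀ w : ℤ, x i ≠ mesh μ k' * w := fun i hi w hw => by
    have h1 := hx.1 i hi
    have h0 : x i = mesh μ (k' + d) * ((2 ^ d : ℕ) * w : ℤ) := by rw [hw, hm]; push_cast; ring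
    rw [h0] at h1
    have h2 := ilt hs h1.1
    have h3 : ((2 ^ d : ℕ) * w : ℤ) < z i + 1 := ilt hs (by push_cast at h1 ⊢; exact h1.2)
    omega
  have hsub : I ⊆ I' := fun i hi => by
    by_contra hI
    exact hnl i hi _ (hx'.2 i hI)
  have hI : I = I' := Finset.eq_of_subset_of_card_le hsub hc.ge
  subst hI
  refine ha.eq_of_mem_star h ha' le_rfl hx (oface_subset_star (mesh_pos h.pos _) ⟨fun i hi => ?_,
    hx'.2⟩)
  refine ⟨lt_of_le_of_ne (hx'.1 i hi).1 (hnl i hi _).symm, lt_of_le_of_ne (hx'.1 i hi).2 ?_⟩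
  have := hnl i hi (z' i + 1)
  push_cast at this
  exact this

theorem finite_near {s : ℝ} (hs : 0 < s) (R : ℝ) :
    {w : Finset (Fin n) × (Fin n → ℤ) | (near s w.1 w.2 ∩ closedBall 0 R).Nonempty}.Finite := by
  set N : ℤ := ⌈R / s⌉ + 2
  refine ((Set.finite_univ (α := Finset (Fin n))).prod
    (Set.finite_Icc (fun _ : Fin n => -N) (fun _ => N))).subset ?_
  rintro ⟨I, z⟩ ⟨y, ⟨x, hx, hd⟩, hy⟩
  refine ⟨mem_univ _, fun i => ?_, fun i => ?_⟩ <;>
  · have h1 := face_subset_box hs hx i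
    have h2 := abs_le.1 ((dist_le_pi_dist y x i).trans hd)
    have h3 := abs_le.1 ((norm_le_pi_norm y i).trans (mem_closedBall_zero_iff.1 hy))
    have h4 : R ≤ s * ⌈R / s⌉ := by
      have := Int.le_ceil (R / s)
      rwa [div_le_iff₀ hs, mul_comm] at this
    simp only at h1 ⊢
    refine Int.lt_add_one_iff.1 (ilt hs ?_)
    simp only [N]
    push_cast
    linarith

theorem Setup.locFin (h : Setup ϱ μ X) {y : E n} (hy : 0 < ϱ y) :
    ∃ t ∈ 𝓝 y, {w : ℕ × Finset (Fin n) × (Fin n → ℤ) | Active ϱ μ X w.1 w.2.1 w.2.2 ∧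
      (near (mesh μ w.1) w.2.1 w.2.2 ∩ t).Nonempty}.Finite := by
  have h2 : Tendsto (fun k => 7 * mesh μ k) atTop (𝓝 0) := by
    simpa using (mesh_tendsto μ).const_mul 7
  obtain ⟨N, hN⟩ := eventually_atTop.1 (h2.eventually (gt_mem_nhds (half_pos hy)))
  refine ⟨ball y (ϱ y / 2), ball_mem_nhds _ (half_pos hy), ?_⟩
  refine ((Set.finite_Iic N).biUnion fun k _ =>
    ((finite_near (n := n) (mesh_pos h.pos k) (‖y‖ + ϱ y / 2)).image (fun w => (k, w)))).subset ?_
  rintro ⟨k, I, z⟩ ⟨ha, x, hx, hxy⟩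
  simp only [mem_iUnion, mem_image]
  refine ⟨k, ?_, (I, z), ⟨x, hx, ?_⟩, rfl⟩
  · by_contra hk
    have hk' : N < k := not_le.1 hk
    obtain ⟨j, rfl⟩ : ∃ j, k = j + 1 := ⟨k - 1, by omega⟩
    have h3 := ha.near_rho_le h hx
    have h4 := hN (j + 1) hk'.le
    have h5 := h.le_add y x
    rw [mem_ball, dist_comm] at hxy
    linarith
  · rw [mem_closedBall_zero_iff]
    rw [mem_ball, dist_eq_norm] at hxy
    linarith [norm_le_norm_add_norm_sub' x y]

theorem Setup.finite_level (h : Setup ϱ μ X) (k : ℕ) :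
    {w : Finset (Fin n) × (Fin n → ℤ) | Active ϱ μ X k w.1 w.2}.Finite := by
  obtain ⟨R, hR⟩ := h.bdd.subset_closedBall 0
  refine (finite_near (mesh_pos h.pos k) (R + 2 * μ)).subset ?_
  rintro ⟨I, z⟩ ha
  obtain ⟨x, hx, -⟩ := id ha
  have h1 := face_subset_near (mesh_pos h.pos k) (oface_subset_face hx)
  obtain ⟨w, hw, hw'⟩ := Active.near_X h ha h1
  refine ⟨x, h1, ?_⟩
  have := hR hw
  rw [mem_closedBall] at this ⊢
  linarith [dist_triangle x w 0]

end Pool.Agent.P.MP_667fa2_an
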