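import Mathlib

/-! Working definitions for the construction of Sobolev homeomorphisms with negative Jacobian. -/

namespace Pool.Agent.P.MP_667fa2_an

open Set Filter Topology MeasureTheory Metric
open scoped ENNReal NNReal

/-- The working space, with the sup norm. -/
abbrev E (n : ℕ) := Fin n → ℝ

variable {n : ℕ}

/-- Pointwise Lipschitz bound at one point. -/
def PLip {F : Type*} [NormedAddCommGroup F] (f : E n → F) (x : E n) (B : ℝ) : Prop :=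
  ∀ᶠ y in 𝓝 x, ‖f y - f x‖ ≤ B * ‖y - x‖

/-- Lipschitz near each point of `U`. -/
def LL {F : Type*} [NormedAddCommGroup F] (U : Set (E n)) (f : E n → F) : Prop :=
  ∀ x ∈ U, ∃ K : ℝ≥0, ∃ t ∈ 𝓝 x, LipschitzOnWith K f t

/-- `C^1` near `x` with invertible derivative. -/
def Nice (f : E n → E n) (x : E n) : Prop :=
  ContDiffAt ℝ 1 f x ∧ Function.Injective (fderiv ℝ f x)

/-- `Nice` at almost every point of `U`. -/
def AENice (U : Set (E n)) (f : E n → E n) : Prop :=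
  ∀ᵐ x, x ∈ U → Nice f x

/-- `u` is a uniform limit of Lipschitz maps vanishing off `S` whose derivatives tend to `Δ`
in `L^1`. -/
def Approx0 (S : Set (E n)) (u : E n → E n) (Δ : E n → E n →L[ℝ] E n) : Prop :=
  ∀ ε : ℝ, 0 < ε → ∃ g : E n → E n, (∃ K, LipschitzWith K g) ∧ (∀ x, x ∉ S → g x = 0) ∧
    (∀ x, ‖g x - u x‖ ≤ ε) ∧ ∫⁻ x, ‖fderiv ℝ g x - Δ x‖ₑ ≤ ENNReal.ofReal ε

/-- Admissible triple on the open cube `ball 0 1`: a homeomorphism `f`, its weak derivative `Φ`,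
and the open set `V` where `f` is still `C^1` with positive Jacobian; off `V` the Jacobian is
negative almost everywhere in the cube. -/
structure Adm (p : ℝ) (f : E n ≃ₜ E n) (Φ : E n → E n →L[ℝ] E n) (V : Set (E n)) : Prop where
  out : ∀ x, x ∉ ball (0 : E n) 1 → f x = x
  meas : Measurable Φ
  outD : ∀ x, x ∉ ball (0 : E n) 1 → Φ x = ContinuousLinearMap.id ℝ (E n)
  approx : Approx0 (ball (0 : E n) 1) (fun x => f x - x)
    (fun x => Φ x - ContinuousLinearMap.id ℝ (E n))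
  isOpen : IsOpen V
  sub : V ⊆ ball (0 : E n) 1
  c1 : ∀ x ∈ V, ContDiffAt ℝ 1 f x ∧ Φ x = fderiv ℝ f x ∧ 0 < (Φ x).det
  neg : ∀ᵐ x, x ∈ ball (0 : E n) 1 → x ∉ V → (Φ x).det < 0
  fin : ∫⁻ x in ball (0 : E n) 1, ‖Φ x‖ₑ ^ p < ⊤

/-- The building block: orientation is reversed on most of the cube, and on the rest `U` the
derivative is small in `L^p` modulo the direction `v`. -/
def BlockStatement (n : ℕ) (p : ℝ) : Prop :=
  ∀ η : ℝ, 0 < η → ∃ (b : E n ≃ₜ E n) (Ψ : E n → E n →L[ℝ] E n) (W U : Set (E n)) (v : E n)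
    (π : E n →L[ℝ] E n) (ℓ : E n →L[ℝ] ℝ), Adm p b Ψ W ∧ MeasurableSet U ∧ W ⊆ U ∧
    volume U ≤ ENNReal.ofReal η ∧ ‖v‖ = 1 ∧ (∀ x, x = π x + ℓ x • v) ∧ ‖ℓ‖ ≤ 1 ∧
    ∫⁻ x in U, ‖π ∘L Ψ x‖ₑ ^ p ≤ ENNReal.ofReal η ∧
    ∀ x ∈ ball (0 : E n) 1, x ∉ U → ‖Ψ x‖ ≤ 3

/-- Covered by countably many Lipschitz images of subsets of `ℝ^d`. -/
def Thin (d : ℕ) (Z : Set (E n)) : Prop :=
  ∃ (A : ℕ → Set (E d)) (γ : ℕ → E d → E n) (K : ℕ → ℝ≥0),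
    (∀ j, LipschitzOnWith (K j) (γ j) (A j)) ∧ Z ⊆ ⋃ j, γ j '' A j

/-! ### Dyadic cells -/

/-- Mesh at level `k`. -/
noncomputable def mesh (μ : ℝ) (k : ℕ) : ℝ := μ / 2 ^ k

/-- Closed grid cube. -/
def box (s : ℝ) (z : Fin n → ℤ) : Set (E n) :=
  {x | ∀ i, s * z i ≤ x i ∧ x i ≤ s * (z i + 1)}

/-- Union of the closed grid cubes that meet `X`. -/
def hull (s : ℝ) (X : Set (E n)) : Set (E n) :=
  {x | ∃ z : Fin n → ℤ, x ∈ box s z ∧ (box s z ∩ X).Nonempty}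

/-- The region where level at least `k` is used. -/
def D (ϱ : E n → ℝ) (μ : ℝ) (X : Set (E n)) : ℕ → Set (E n)
  | 0 => hull μ X
  | k + 1 => hull (mesh μ k) {x | ϱ x ≤ 2 * mesh μ k}

/-- Closed grid face with free directions `I`. -/
def face (s : ℝ) (I : Finset (Fin n)) (z : Fin n → ℤ) : Set (E n) :=
  {x | (∀ i ∈ I, s * z i ≤ x i ∧ x i ≤ s * (z i + 1)) ∧ ∀ i, i ∉ I → x i = s * z i}

/-- Relative interior of a grid face. -/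
def oface (s : ℝ) (I : Finset (Fin n)) (z : Fin n → ℤ) : Set (E n) :=
  {x | (∀ i ∈ I, s * z i < x i ∧ x i < s * (z i + 1)) ∧ ∀ i, i ∉ I → x i = s * z i}

/-- The face of level `k` belongs to the Whitney complex. -/
def Active (ϱ : E n → ℝ) (μ : ℝ) (X : Set (E n)) (k : ℕ) (I : Finset (Fin n))
    (z : Fin n → ℤ) : Prop :=
  ∃ x ∈ oface (mesh μ k) I z, x ∈ D ϱ μ X k ∧ x ∉ D ϱ μ X (k + 1)

/-- `h x` lies close to the middle of a `j`-dimensional face of the Whitney complex, and the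
normal coordinates of `h` vary slowly at `x`. -/
def Good (ϱ : E n → ℝ) (μ : ℝ) (X : Set (E n)) (ς η : ℕ → ℝ) (j : ℕ) (h : E n → E n)
    (B : E n → ℝ) (x : E n) : Prop :=
  ∃ (k : ℕ) (I : Finset (Fin n)) (z : Fin n → ℤ), I.card = j ∧ Active ϱ μ X k I z ∧
    (∀ i ∈ I, mesh μ k * z i + ς k ≤ h x i ∧ h x i ≤ mesh μ k * (z i + 1) - ς k) ∧
    ∀ i, i ∉ I → |h x i - mesh μ k * z i| ≤ η k ∧ PLip (fun y => h y i) x (η k * B x)

/-- The collapse onto the `j`-skeleton of the Whitney complex, with constants `M`, `Λ`. -/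
def CollapseAt (n j : ℕ) (q : ℝ) (M : ℝ≥0∞) (Λ : ℝ) : Prop :=
  ∀ (ϱ : E n → ℝ) (μ : ℝ) (X : Set (E n)) (ν ν' : Measure (E n)) (ε : ℝ≥0∞),
    LipschitzWith 1 ϱ → (∀ x, 0 ≤ ϱ x) → 0 < μ → μ ≤ 1 → Bornology.IsBounded X →
    {x | ϱ x ≤ 2 * μ} ⊆ X → IsFiniteMeasure ν → ν {x | ϱ x = 0} = 0 → ν' ≪ volume →
    (∀ s : ℝ, 0 < s → ν' {x | s ≤ ϱ x} < ⊤) → 0 < ε →
    ∃ ς : ℕ → ℝ, (∀ k, 0 < ς k) ∧ ∀ η : ℕ → ℝ, (∀ k, 0 < η k) →
      ∃ (h : E n ≃ₜ E n) (B : E n → ℝ) (bad : Set (E n)),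
        (∀ x, ϱ x = 0 → h x = x) ∧ (∀ x, (∀ y ∈ X, 3 * μ ≤ dist x y) → h x = x) ∧
        (∀ x, dist (h x) x ≤ Λ * μ) ∧ (∀ x, ϱ (h x) ≤ Λ * ϱ x ∧ ϱ x ≤ Λ * ϱ (h x)) ∧
        Measurable B ∧ (∀ x, 1 ≤ B x) ∧ (∀ x, 0 < ϱ x → PLip h x (B x)) ∧
        (∀ s : ℝ, 0 < s → ∃ L : ℝ, ∀ x, s ≤ ϱ x → B x ≤ L) ∧
        AENice {x | 0 < ϱ x} h ∧
        ∫⁻ x, ENNReal.ofReal (B x) ^ q ∂ν ≤ M * ν univ ∧ ν' bad ≤ ε ∧
        ∀ x ∈ D ϱ μ X 0, 0 < ϱ x → x ∉ bad → Good ϱ μ X ς η j h B x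

end Pool.Agent.P.MP_667fa2_an
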