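import Pool.Agent.P.MP_667fa2_an.Lines

/-! A Lipschitz extension which is smooth off the junctions. -/

namespace Pool.Agent.P.MP_667fa2_an

open Set Filter Topology MeasureTheory Metric
open scoped ENNReal NNReal

variable {n : ℕ}

theorem ext_lens {ι : Type*} [Finite ι] (Y : ι → Set (E n)) (hY : ∀ a, IsCompact (Y a))
    (g : ι → E n → ℝ) (K : ℝ≥0) (hgK : ∀ a, LipschitzWith K (g a)) (f : E n → ℝ)
    (hf : LipschitzOnWith K f (⋃ a, Y a)) (hfg : ∀ a, ∀ z ∈ Y a, f z = g a z) (A : ℝ)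
    (hA : 0 < A) (hfA : ∀ z ∈ ⋃ a, Y a, |f z| ≤ A) :
    ∃ F : E n → ℝ, LipschitzWith (3 * K) F ∧ (∀ z, |F z| ≤ 2 * A) ∧
      (∀ z ∈ ⋃ a, Y a, F z = f z) ∧
      ∀ a, ∀ z ∈ Y a, (∀ b, z ∈ Y b → b = a) → F =ᶠ[𝓝 z] g a := by
  classical
  let Q : ι → E n → Prop := fun a z => (Y a).Nonempty ∧
    ∀ b, (Y b).Nonempty → b ≠ a → 3 * infDist z (Y a) ≤ infDist z (Y b)
  have key : ∀ a z a' z', Q a z → Q a' z' → dist (g a z) (g a' z') ≤ 3 * K * dist z z' := by
    intro a z a' z' h h'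
    have hK : (0 : ℝ) ≤ K := K.2
    by_cases haa : a' = a
    · subst haa
      have h1 := (hgK a').dist_le_mul z z'
      nlinarith [mul_nonneg hK (dist_nonneg (x := z) (y := z'))]
    · obtain ⟨y, hy, e⟩ := (hY a).exists_infDist_eq_dist h.1 z
      obtain ⟨y', hy', e'⟩ := (hY a').exists_infDist_eq_dist h'.1 z'
      have h1 := h.2 a' h'.1 haa
      have h2 := h'.2 a h.1 (Ne.symm haa)
      have h3 := infDist_le_infDist_add_dist (s := Y a') (x := z) (y := z')
      have h4 := infDist_le_infDist_add_dist (s := Y a) (x := z') (y := z)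
      rw [e] at h1 h4
      rw [e'] at h2 h3
      rw [dist_comm z' z] at h4
      have h5 := (hgK a).dist_le_mul z y
      have h6 := (hgK a').dist_le_mul y' z'
      have h7 := hf.dist_le_mul y (mem_iUnion.2 ⟨a, hy⟩) y' (mem_iUnion.2 ⟨a', hy'⟩)
      rw [hfg a y hy, hfg a' y' hy'] at h7
      have h8 := dist_triangle4 (g a z) (g a y) (g a' y') (g a' z')
      have h9 := dist_triangle4 y z z' y'
      rw [dist_comm y z] at h9
      rw [dist_comm y' z'] at h6
      have h10 : dist z y + dist y y' + dist z' y' ≤ 3 * dist z z' := by linarith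
      nlinarith [mul_le_mul_of_nonneg_left h10 hK]
  let h : E n → ℝ := fun z => if hz : ∃ a, Q a z then g hz.choose z else 0
  have hh : ∀ a z, Q a z → h z = g a z := by
    intro a z hz
    have hex : ∃ a, Q a z := ⟨a, hz⟩
    have h1 := key _ z a z hex.choose_spec hz
    rw [dist_self, mul_zero, dist_le_zero] at h1
    simp only [h, dif_pos hex, h1]
  have hlip : LipschitzOnWith (3 * K) h {z | ∃ a, Q a z} := by
    refine LipschitzOnWith.of_dist_le_mul ?_
    rintro z ⟨a, ha⟩ z' ⟨a', ha'⟩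
    rw [hh a z ha, hh a' z' ha']
    simpa using key a z a' z' ha ha'
  obtain ⟨F, hF, hFh⟩ := hlip.extend_real
  have hQ : ∀ a, ∀ z ∈ Y a, Q a z := fun a z hz => ⟨⟨z, hz⟩, fun b _ _ => by
    rw [infDist_zero_of_mem hz, mul_zero]
    exact infDist_nonneg⟩
  have hclamp : ∀ t : ℝ, |t| ≤ 2 * A → max (-(2 * A)) (min (2 * A) t) = t := fun t ht => by
    rw [abs_le] at ht
    rw [min_eq_right ht.2, max_eq_right ht.1]
  refine ⟨fun z => max (-(2 * A)) (min (2 * A) (F z)), (hF.const_min _).const_max _,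
    fun z => abs_le.2 ⟨le_max_left _ _, max_le (by linarith) (min_le_left _ _)⟩,
    fun z hz => ?_, fun a z hz huniq => ?_⟩
  · obtain ⟨a, ha⟩ := mem_iUnion.1 hz
    have h1 : F z = f z := by rw [← hFh ⟨a, hQ a z ha⟩, hh a z (hQ a z ha), hfg a z ha]
    simp only [h1]
    exact hclamp _ ((hfA z hz).trans (by linarith))
  · have h1 : ∀ᶠ y in 𝓝 z, ∀ b, (Y b).Nonempty → b ≠ a →
        3 * infDist y (Y a) ≤ infDist y (Y b) := by
      refine eventually_all.2 fun b => ?_
      by_cases hb : (Y b).Nonempty ∧ b ≠ a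
      · have h2 : 3 * infDist z (Y a) < infDist z (Y b) := by
          rw [infDist_zero_of_mem hz, mul_zero]
          exact ((hY b).isClosed.notMem_iff_infDist_pos hb.1).1 fun h => hb.2 (huniq b h)
        filter_upwards [(continuous_const.mul (continuous_infDist_pt (Y a))).continuousAt.eventually_lt
          (continuous_infDist_pt (Y b)).continuousAt h2] with y hy _ _
        exact hy.le
      · exact Eventually.of_forall fun _ h h' => absurd ⟨h, h'⟩ hb
    have h3 : |g a z| < 2 * A := by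
      rw [← hfg a z hz]
      exact (hfA z (mem_iUnion.2 ⟨a, hz⟩)).trans_lt (by linarith)
    filter_upwards [h1, (hgK a).continuous.abs.continuousAt.eventually (gt_mem_nhds h3)]
      with y hy hy'
    have h4 : Q a y := ⟨⟨z, hz⟩, hy⟩
    rw [← hFh ⟨a, h4⟩, hh a y h4]
    exact hclamp _ hy'.le

theorem ext_param {s : Set (E n)} (hs : IsOpen s) {v : E n → E n} (hv : ContDiffOn ℝ 1 v s)
    {f : E n → ℝ} (hf : Continuous f) {G : E n → E n → ℝ}
    (hG0 : ∀ p x, p ∈ s → x ∉ closedBall (0 : E n) 1 → G p x = 0)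
    (hG : ContDiffOn ℝ 1 (fun q : E n × E n => G q.1 q.2) (s ×ˢ univ)) :
    ContDiffOn ℝ 1 (fun p => ∫ t, f t * G p (v p - t)) s :=
  contDiffOn_convolution_right_with_param_comp (n := 1) (μ := volume)
    (ContinuousLinearMap.mul ℝ ℝ) hv hs (isCompact_closedBall 0 1) hG0 hf.locallyIntegrable hG

theorem ext_smooth {F : E n → ℝ} {K : ℝ≥0} (hF : LipschitzWith K F) {B : ℝ}
    (hB : ∀ z, |F z| ≤ B) {C : Set (E n)} (hC : IsClosed C) :
    ∃ φ : E n → ℝ, LL univ φ ∧ (∀ z, |φ z| ≤ B) ∧ (∀ z ∈ C, φ z = F z) ∧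
      (∀ z, z ∉ C → ContDiffAt ℝ 1 φ z) ∧
      ∀ z ∈ C, ∀ g : E n → ℝ, ContDiff ℝ 1 g → F =ᶠ[𝓝 z] g → ContDiffAt ℝ 1 φ z := by
  obtain ⟨d, hds, hd, hdr⟩ := hC.isOpen_compl.exists_contDiff_support_eq (n := 1)
  have hd01 : ∀ z, 0 ≤ d z ∧ d z ≤ 1 := fun z => hdr (mem_range_self z)
  have hdC : ∀ z ∈ C, d z = 0 := fun z hz => by
    by_contra h
    have : z ∈ d.support := h
    rw [hds] at this
    exact this hz
  have hdpos : ∀ z, z ∉ C → 0 < d z := fun z hz => by
    have : z ∈ d.support := hds ▸ hz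
    exact lt_of_le_of_ne (hd01 z).1 (Ne.symm this)
  let b : ContDiffBump (0 : E n) := ⟨1 / 2, 1, by norm_num, by norm_num⟩
  set ρ : E n → ℝ := b.normed volume with hρ
  have hρ0 : ∀ w, 0 ≤ ρ w := b.nonneg_normed
  have hρ1 : ∫ w, ρ w = 1 := b.integral_normed
  have hρi : Integrable ρ := b.integrable_normed
  have hρc : ContDiff ℝ 1 ρ := b.contDiff_normed (n := 1)
  have hρs : ∀ w, 1 ≤ ‖w‖ → ρ w = 0 := fun w hw => by
    by_contra h
    have h1 : w ∈ Function.support ρ := h
    rw [hρ, b.support_normed_eq, mem_ball_zero_iff] at h1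
    exact absurd h1 (not_lt.2 hw)
  have hint : ∀ z, Integrable fun w => ρ w * F (z + d z • w) := fun z =>
    (hρi.mul_const B).mono' (by
      have := hF.continuous
      have := hρc.continuous
      exact Continuous.aestronglyMeasurable (by fun_prop))
      (Eventually.of_forall fun w => by
        rw [norm_mul, Real.norm_of_nonneg (hρ0 w)]
        exact mul_le_mul_of_nonneg_left (hB _) (hρ0 w))
  have hle : ∀ (u : E n → ℝ) (M : ℝ), (∀ w, ‖w‖ < 1 → |u w| ≤ M) → |∫ w, ρ w * u w| ≤ M := by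
    intro u M hu
    have h1 := norm_integral_le_of_norm_le (f := fun w => ρ w * u w) (hρi.mul_const M)
      (Eventually.of_forall fun w => by
        by_cases hw : ‖w‖ < 1
        · rw [norm_mul, Real.norm_of_nonneg (hρ0 w)]
          exact mul_le_mul_of_nonneg_left (hu w hw) (hρ0 w)
        · simp [hρs w (not_lt.1 hw)])
    rwa [integral_mul_const, hρ1, one_mul] at h1
  refine ⟨fun z => ∫ w, ρ w * F (z + d z • w), fun x _ => ?_,
    fun z => hle _ _ fun w _ => hB _, fun z hz => ?_, fun z hz => ?_, fun z hz g hg hFg => ?_⟩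
  · obtain ⟨L, t, ht, hL⟩ := (hd.contDiffAt (x := x)).exists_lipschitzOnWith
    refine ⟨K * (1 + L), t, ht, LipschitzOnWith.of_dist_le_mul fun z hz z' hz' => ?_⟩
    rw [Real.dist_eq, ← integral_sub (hint z) (hint z')]
    simp only [← mul_sub]
    refine hle _ _ fun w hw => ?_
    have h1 := hF.dist_le_mul (z + d z • w) (z' + d z' • w)
    have h2 := dist_add_add_le z (d z • w) z' (d z' • w)
    have h3 : dist (d z • w) (d z' • w) ≤ L * dist z z' := by
      rw [dist_eq_norm, ← sub_smul, norm_smul, ← dist_eq_norm]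
      exact (mul_le_of_le_one_right dist_nonneg hw.le).trans (hL.dist_le_mul z hz z' hz')
    rw [Real.dist_eq] at h1
    refine h1.trans ?_
    rw [NNReal.coe_mul, mul_assoc]
    refine mul_le_mul_of_nonneg_left ?_ K.2
    push_cast
    linarith
  · simp only [hdC z hz, zero_smul, add_zero]
    rw [integral_mul_const, hρ1, one_mul]
  · have h1 : ContDiffOn ℝ 1 (fun p => ∫ t, F t * ρ (-(d p)⁻¹ • (p - t))) Cᶜ := by
      refine ext_param (G := fun p x => ρ (-(d p)⁻¹ • x)) hC.isOpen_compl contDiffOn_id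
        hF.continuous (fun p x hp hx => hρs _ ?_) ?_
      · rw [mem_closedBall_zero_iff, not_le] at hx
        rw [norm_smul, norm_neg, norm_inv, Real.norm_of_nonneg (hd01 p).1,
          le_inv_mul_iff₀ (hdpos p hp)]
        linarith [(hd01 p).2]
      · have h5 : ContDiffOn ℝ 1 (fun q : E n × E n => (d q.1)⁻¹) (Cᶜ ×ˢ univ) :=
          (hd.comp contDiff_fst).contDiffOn.inv fun q hq => (hdpos _ hq.1).ne'
        exact hρc.comp_contDiffOn (h5.neg.smul contDiffOn_snd)
    have h2 : ContDiffOn ℝ 1 (fun p => (d p ^ n)⁻¹ * ∫ t, F t * ρ (-(d p)⁻¹ • (p - t))) Cᶜ :=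
      ((hd.contDiffOn.pow n).inv fun p hp => pow_ne_zero n (hdpos p hp).ne').mul h1
    refine (h2.congr fun p hp => ?_).contDiffAt (hC.isOpen_compl.mem_nhds hz)
    have hp0 := hdpos p hp
    have h3 := Measure.integral_comp_smul (volume : Measure (E n))
      (fun x => F (p + x) * ρ ((d p)⁻¹ • x)) (d p)
    simp only [smul_smul, inv_mul_cancel₀ hp0.ne', one_smul, Module.finrank_pi, Fintype.card_fin,
      smul_eq_mul] at h3
    rw [abs_of_pos (by positivity)] at h3
    have h4 := integral_add_left_eq_self (μ := (volume : Measure (E n)))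
      (fun t => F t * ρ (-(d p)⁻¹ • (p - t))) p
    simp only [sub_add_cancel_left, neg_smul, smul_neg, neg_neg] at h4
    simp only [neg_smul]
    rw [← h4, ← h3]
    simp only [mul_comm]
  · have h1 : ContDiffOn ℝ 1 (fun p => ∫ t, (1 : ℝ) * (ρ (-(0 - t)) * g (p + d p • -(0 - t))))
        univ := by
      refine ext_param (v := fun _ => 0) (G := fun p x => ρ (-x) * g (p + d p • -x)) isOpen_univ
        contDiffOn_const continuous_const (fun p x _ hx => ?_) ?_
      · rw [mem_closedBall_zero_iff, not_le] at hx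
        rw [hρs _ (by rw [norm_neg]; exact hx.le), zero_mul]
      · exact ContDiff.contDiffOn (by fun_prop)
    simp only [zero_sub, neg_neg, one_mul] at h1
    refine (h1.contDiffAt univ_mem).congr_of_eventuallyEq ?_
    obtain ⟨r, hr, hball⟩ := Metric.eventually_nhds_iff_ball.1 hFg
    have h2 : d z < r / 2 := by rw [hdC z hz]; positivity
    filter_upwards [ball_mem_nhds z (half_pos hr),
      hd.continuous.continuousAt.eventually (gt_mem_nhds h2)] with p hp hp'
    refine integral_congr_ae (Eventually.of_forall fun w => ?_)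
    by_cases hw : ‖w‖ < 1
    · have h3 : p + d p • w ∈ ball z r := by
        rw [mem_ball] at hp ⊢
        have h4 := dist_triangle (p + d p • w) p z
        rw [dist_self_add_left, norm_smul, Real.norm_of_nonneg (hd01 p).1] at h4
        have h5 := mul_le_of_le_one_right (hd01 p).1 hw.le
        linarith
      simp only [hball _ h3]
    · simp [hρs w (not_lt.1 hw)]

/-- T2c. Lipschitz extension which is C^1 off the junctions. -/
theorem ext_lemma {ι : Type*} [Finite ι] (Y : ι → Set (E n)) (hY : ∀ a, IsCompact (Y a))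
    (g : ι → E n → ℝ) (K : ℝ≥0) (hg : ∀ a, ContDiff ℝ 1 (g a))
    (hgK : ∀ a, LipschitzWith K (g a)) (f : E n → ℝ) (hf : LipschitzOnWith K f (⋃ a, Y a))
    (hfg : ∀ a, ∀ z ∈ Y a, f z = g a z) (A : ℝ) (hA : 0 < A) (hfA : ∀ z ∈ ⋃ a, Y a, |f z| ≤ A) :
    ∃ φ : E n → ℝ, LL univ φ ∧ (∀ z, |φ z| ≤ 2 * A) ∧ (∀ z ∈ ⋃ a, Y a, φ z = f z) ∧
      ∀ z, (∀ a b, z ∈ Y a → z ∈ Y b → a = b) → ContDiffAt ℝ 1 φ z := by
  obtain ⟨F, hF, hFA, hFf, hFg⟩ := ext_lens Y hY g K hgK f hf hfg A hA hfA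
  obtain ⟨φ, h1, h2, h3, h4, h5⟩ := ext_smooth hF hFA (isCompact_iUnion hY).isClosed
  refine ⟨φ, h1, h2, fun z hz => (h3 z hz).trans (hFf z hz), fun z hz => ?_⟩
  by_cases hzY : z ∈ ⋃ a, Y a
  · obtain ⟨a, ha⟩ := mem_iUnion.1 hzY
    exact h5 z hzY (g a) (hg a) (hFg a z ha fun b hb => hz b a hb ha)
  · exact h4 z hzY

end Pool.Agent.P.MP_667fa2_an
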