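import Pool.Agent.P.MP_667fa2_an.FrameM

/-! The iteration. -/

namespace Pool.Agent.P.MP_667fa2_an

open Set Filter Topology MeasureTheory Metric
open scoped ENNReal NNReal

variable {n : ℕ} {p : ℝ}

theorem fr_iter (hp : 1 ≤ p) {g : E n ≃ₜ E n} {Ψ : E n → E n →L[ℝ] E n} {W : Set (E n)}
    (hg : Adm p g Ψ W) (hW : 4 * ∫⁻ y in W, frEn p Ψ y ≤ 2⁻¹ * 2⁻¹) {f : E n ≃ₜ E n}
    {Φ : E n → E n →L[ℝ] E n} {V : Set (E n)} (hf : Adm p f Φ V) {c : ℝ≥0∞} (hc : c ≠ 0)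
    (he : ∫⁻ x in V, frEn p Φ x ≤ c) {d : ℝ} (hd : 0 < d) :
    ∃ (f' : E n ≃ₜ E n) (Φ' : E n → E n →L[ℝ] E n) (V' : Set (E n)), Adm p f' Φ' V' ∧
      ∫⁻ x in V', frEn p Φ' x ≤ c * 2⁻¹ ∧ V' ⊆ V ∧ (∀ x, x ∉ V → Φ' x = Φ x) ∧
      (∀ x, dist (f' x) (f x) ≤ 2 * d) ∧ (∀ x, dist (f'.symm x) (f.symm x) ≤ 2 * d) ∧
      ∫⁻ x in V, frEn p Φ' x ≤ (1 + 4 * ∫⁻ y in ball 0 1, frEn p Ψ y) * c := by
  obtain ⟨h, Φ', V', H, a1, a2, a3, a4, a5⟩ := fr_step hp hf hg hf.isOpen Subset.rfl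
    (fun _ => ContinuousLinearEquiv.refl ℝ _) 1 le_rfl
    (fun _ _ => ⟨ContinuousLinearMap.norm_id_le, ContinuousLinearMap.norm_id_le⟩)
    (fun c => ball c d ∩ f ⁻¹' ball (f c) d)
    (fun c _ => inter_mem (ball_mem_nhds c hd) (f.continuous.continuousAt (ball_mem_nhds _ hd)))
    (frEn_meas hg.meas) (fun c _ z _ y => by
      calc _ ≤ 1 + ‖Φ z‖ₑ ^ p * ‖Ψ y‖ₑ ^ p := by
            rw [← ENNReal.mul_rpow_of_nonneg _ _ (by linarith)]
            exact add_le_add_right (ENNReal.rpow_le_rpow (fr_enorm_comp _ _) (by linarith)) _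
        _ ≤ _ + (‖Φ z‖ₑ ^ p + ‖Ψ y‖ₑ ^ p) := le_self_add
        _ = _ := by
            simp only [frEn]
            ring)
    (ε := 2⁻¹ * 2⁻¹ * c) (pos_iff_ne_zero.2 (by simp [hc]))
  refine ⟨_, _, _, H, a4.trans ?_, a1, a2, fun x => ?_, fun x => ?_, a5.trans ?_⟩
  · rw [sdiff_self, Measure.restrict_empty, lintegral_zero_measure, add_zero]
    refine (add_le_add_right (mul_le_mul' hW he) _).trans (le_of_eq ?_)
    rw [← add_mul, ← add_mul, ENNReal.inv_two_add_inv_two, one_mul, mul_comm]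
  · rcases a3 x with h1 | ⟨c, -, h1, h2⟩
    · simp [h1, hd.le]
    · linarith [dist_triangle_right (f (h x)) (f x) (f c), mem_ball.1 h1.2, mem_ball.1 h2.2,
        show dist ((h.trans f) x) (f x) = dist (f (h x)) (f x) from rfl]
  · change dist (h.symm (f.symm x)) (f.symm x) ≤ _
    rcases a3 (h.symm (f.symm x)) with h1 | ⟨c, -, h1, h2⟩
    · rw [← h1]
      simp [hd.le]
    · rw [h.apply_symm_apply] at h2
      linarith [dist_triangle_right (h.symm (f.symm x)) (f.symm x) c, mem_ball.1 h1.1,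
        mem_ball.1 h2.1]
  · rw [add_mul, one_mul]
    gcongr

theorem fr_id (hp : 1 ≤ p) :
    Adm p (Homeomorph.refl (E n)) (fun _ => ContinuousLinearMap.id ℝ (E n)) (ball 0 1) := by
  refine ⟨fun _ _ => rfl, measurable_const, fun _ _ => rfl,
    fr_empty (p := p).approx.fr_mono (empty_subset _), isOpen_ball, Subset.rfl,
    fun x _ => ⟨contDiffAt_id, (fderiv_id (x := x)).symm, by simp [fr_det_id]⟩,
    Eventually.of_forall fun _ h1 h2 => absurd h1 h2, ?_⟩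
  rw [setLIntegral_const]
  exact ENNReal.mul_lt_top (ENNReal.rpow_lt_top_of_nonneg (by linarith) enorm_ne_top)
    measure_ball_lt_top

/-- T1a. From the block to a map with negative Jacobian a.e. in the cube. -/
theorem exists_adm_empty {p : ℝ} (hp : 1 ≤ p) (hpn : p < n) (hb : BlockStatement n p) :
    ∃ (f : E n ≃ₜ E n) (Φ : E n → E n →L[ℝ] E n), Adm p f Φ ∅ := by
  classical
  obtain ⟨t, t0, -, ht⟩ := fr_small (a := 16) (η := 2⁻¹ * 2⁻¹) (by simp)
    (pos_iff_ne_zero.2 (by simp))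
  obtain ⟨g, Ψ, W, hg, hW⟩ := fr_model hp hpn hb (ENNReal.ofReal_pos.2 t0)
  have hW' : 4 * ∫⁻ y in W, frEn p Ψ y ≤ 2⁻¹ * 2⁻¹ :=
    (mul_le_mul_right hW 4).trans (le_trans (le_of_eq (by ring)) ht)
  have hB := fr_en_fin Subset.rfl hg.fin
  set B := 1 + 4 * ∫⁻ y in ball 0 1, frEn p Ψ y with hB'
  have hBt : B ≠ ⊤ := by finiteness
  have hc := fr_en_fin Subset.rfl (fr_id (n := n) hp).fin
  set c := 1 + ∫⁻ x in ball (0 : E n) 1, frEn p (fun _ => ContinuousLinearMap.id ℝ (E n)) x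
    with hc'
  have hct : c ≠ ⊤ := by finiteness
  let X : ℕ → Type := fun k => {q : (E n ≃ₜ E n) × (E n → E n →L[ℝ] E n) × Set (E n) //
    Adm p q.1 q.2.1 q.2.2 ∧ ∫⁻ x in q.2.2, frEn p q.2.1 x ≤ c * 2⁻¹ ^ k}
  have step : ∀ k (q : X k), ∃ q' : X (k + 1), q'.1.2.2 ⊆ q.1.2.2 ∧
      (∀ x, x ∉ q.1.2.2 → q'.1.2.1 x = q.1.2.1 x) ∧
      (∀ x, dist (q'.1.1 x) (q.1.1 x) ≤ 2 * (1 / 2) ^ k) ∧
      (∀ x, dist (q'.1.1.symm x) (q.1.1.symm x) ≤ 2 * (1 / 2) ^ k) ∧
      ∫⁻ x in q.1.2.2, frEn p q'.1.2.1 x ≤ B * (c * 2⁻¹ ^ k) := fun k q => by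
    obtain ⟨f', Φ', V', a1, a2, a3⟩ := fr_iter hp hg hW' q.2.1 (by simp [hc']) q.2.2
      (d := (1 / 2) ^ k) (by positivity)
    exact ⟨⟨(f', Φ', V'), a1, by rwa [pow_succ, ← mul_assoc]⟩, a3⟩
  choose F hF using step
  let q : ∀ k, X k := fun k => Nat.rec ⟨(_, _, ball 0 1), fr_id hp, by
    rw [pow_zero, mul_one]; exact le_add_self⟩ F k
  obtain ⟨f, Φ, V, hA, he, h0, h1, h2, h3, h4, h5⟩ : ∃ (f : ℕ → E n ≃ₜ E n)
      (Φ : ℕ → E n → E n →L[ℝ] E n) (V : ℕ → Set (E n)), (∀ k, Adm p (f k) (Φ k) (V k)) ∧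
      (∀ k, ∫⁻ x in V k, frEn p (Φ k) x ≤ c * 2⁻¹ ^ k) ∧ V 0 = ball 0 1 ∧
      (∀ k, V (k + 1) ⊆ V k) ∧ (∀ k x, x ∉ V k → Φ (k + 1) x = Φ k x) ∧
      (∀ k x, dist (f (k + 1) x) (f k x) ≤ 2 * (1 / 2) ^ k) ∧
      (∀ k x, dist ((f (k + 1)).symm x) ((f k).symm x) ≤ 2 * (1 / 2) ^ k) ∧
      ∀ k, ∫⁻ x in V k, frEn p (Φ (k + 1)) x ≤ B * (c * 2⁻¹ ^ k) :=
    ⟨fun k => (q k).1.1, fun k => (q k).1.2.1, fun k => (q k).1.2.2, fun k => (q k).2.1,
      fun k => (q k).2.2, rfl, fun k => (hF k (q k)).1, fun k => (hF k (q k)).2.1,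
      fun k => (hF k (q k)).2.2.1, fun k => (hF k (q k)).2.2.2.1, fun k => (hF k (q k)).2.2.2.2⟩
  obtain ⟨f', hf', -⟩ := limit_homeo f _ (summable_geometric_two.mul_left 2) h3 h4
  have hm : ∀ k, MeasurableSet (V k) := fun k => (hA k).isOpen.measurableSet
  have hex : ∀ x, ∃ k, x ∉ V k ∨ x ∈ ⋂ j, V j := fun x => by
    by_cases hx : x ∈ ⋂ j, V j
    · exact ⟨0, Or.inr hx⟩
    · obtain ⟨k, hk⟩ := not_forall.1 (mem_iInter.not.1 hx)
      exact ⟨k, Or.inl hk⟩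
  set Φ' : E n → E n →L[ℝ] E n := fun x => Φ (Nat.find (hex x)) x with hΦ'
  have hΦm : Measurable Φ' := Measurable.find (p := fun k x => x ∉ V k ∨ x ∈ ⋂ j, V j)
    (fun k => (hA k).meas) (fun k => (hm k).compl.union (MeasurableSet.iInter hm)) hex
  have e1 : ∀ k x, x ∉ V k → Φ' x = Φ k x := fun k x hx => by
    have a1 : x ∉ V (Nat.find (hex x)) :=
      (Nat.find_spec (hex x)).resolve_right fun h => hx (mem_iInter.1 h k)
    have a2 : ∀ j, Nat.find (hex x) ≤ j → x ∉ V j ∧ Φ' x = Φ j x := fun j hj => by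
      induction j, hj using Nat.le_induction with
      | base => exact ⟨a1, rfl⟩
      | succ j _ ih => exact ⟨fun h => ih.1 (h1 j h), by rw [h2 j x ih.1, ih.2]⟩
    exact (a2 k (Nat.find_min' _ (Or.inl hx))).2
  have lim : ∀ a : ℝ≥0∞, a ≠ ⊤ → Tendsto (fun k : ℕ => a * 2⁻¹ ^ k) atTop (𝓝 0) := fun a ha => by
    simpa using ENNReal.Tendsto.const_mul (ENNReal.tendsto_pow_atTop_nhds_zero_of_lt_one
      (r := 2⁻¹) (by simp)) (Or.inr ha)
  have e2 : volume (⋂ j, V j) = 0 := by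
    refine le_antisymm (ge_of_tendsto' (lim c hct) fun k => ?_) zero_le
    refine (measure_mono (iInter_subset _ k)).trans (le_trans ?_ (he k))
    rw [← setLIntegral_one]
    exact lintegral_mono fun _ => le_self_add
  have e3 : ∀ k, ∫⁻ x in V k, frEn p Φ' x ≤ B * c * 2 * 2⁻¹ ^ k := fun k => by
    calc _ ≤ ∫⁻ x in (⋂ j, V j) ∪ ⋃ j, V (k + j) \ V (k + j + 1), frEn p Φ' x := by
          refine lintegral_mono_set fun x hx => or_iff_not_imp_right.2 fun h => ?_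
          simp only [mem_iUnion, not_exists, Set.mem_sdiff, not_and, not_not] at h
          have a1 : ∀ j, x ∈ V (k + j) := fun j => Nat.rec hx h j
          refine mem_iInter.2 fun j => ?_
          exact antitone_nat_of_succ_le h1 (Nat.le_add_left j k) (a1 j)
      _ ≤ 0 + ∑' j, B * (c * 2⁻¹ ^ (k + j)) := by
          refine (lintegral_union_le _ _ _).trans (add_le_add
            (setLIntegral_measure_zero _ _ e2).le
            ((lintegral_iUnion_le _ _).trans (ENNReal.tsum_le_tsum fun j => ?_)))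
          rw [setLIntegral_congr_fun ((hm _).diff (hm _)) (g := frEn p (Φ (k + j + 1)))
            fun x hx => by simp only [frEn, e1 _ x hx.2]]
          exact (lintegral_mono_set sdiff_subset).trans (h5 _)
      _ = _ := by
          simp only [pow_add, ← mul_assoc]
          rw [ENNReal.tsum_mul_left, ENNReal.tsum_geometric, ENNReal.one_sub_inv_two, inv_inv]
          ring
  refine ⟨f', Φ', fun x hx => ?_, hΦm, fun x hx => ?_, fr_approx_limit fun ε hε => ?_,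
    isOpen_empty, empty_subset _, by simp, ?_, ?_⟩
  · refine tendsto_nhds_unique (hf'.tendsto_at x) ?_
    simp only [fun k => (hA k).out x hx, tendsto_const_nhds]
  · rw [e1 0 x (h0 ▸ hx), (hA 0).outD x hx]
  · obtain ⟨k, k1, k2⟩ := ((Metric.tendstoUniformly_iff.1 hf' ε hε).and
      ((lim (c + B * c * 2) (by finiteness)).eventually
        (ge_mem_nhds (ENNReal.ofReal_pos.2 hε)))).exists
    refine ⟨_, _, (hA k).approx, (hA k).meas.sub_const _, fun x => ?_, le_trans ?_ k2⟩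
    · rw [sub_sub_sub_cancel_right, ← dist_eq_norm, dist_comm]
      exact (k1 x).le
    · calc _ ≤ ∫⁻ x, (V k).indicator (fun x => frEn p (Φ k) x + frEn p Φ' x) x := by
            refine lintegral_mono fun x => ?_
            rw [sub_sub_sub_cancel_right]
            by_cases hx : x ∈ V k
            · rw [indicator_of_mem hx, sub_eq_add_neg]
              refine (fr_enorm_add _ _).trans (add_le_add (fr_le_en hp _) ?_)
              rw [enorm_neg]
              exact fr_le_en hp _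
            · simp [e1 k x hx, ← ofReal_norm]
        _ ≤ _ := by
            rw [lintegral_indicator (hm k), lintegral_add_left (frEn_meas (hA k).meas), add_mul]
            exact add_le_add (he k) (e3 k)
  · filter_upwards [ae_all_iff.2 fun k => (hA k).neg, measure_eq_zero_iff_ae_notMem.1 e2]
      with x a1 a2 hx _
    obtain ⟨k, hk⟩ := hex x
    rw [e1 k x (hk.resolve_right a2)]
    exact a1 k hx (hk.resolve_right a2)
  · rw [← h0]
    exact ((lintegral_mono fun x => le_add_self).trans (e3 0)).trans_lt (by finiteness)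

end Pool.Agent.P.MP_667fa2_an
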