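import Pool.Agent.P.MP_667fa2_an.Lines

/-! Approximation by Lipschitz maps; the weak derivative. -/

namespace Pool.Agent.P.MP_667fa2_an

open Set Filter Topology MeasureTheory Metric
open scoped ENNReal NNReal

variable {n : ℕ}

theorem fr_enorm_add (A B : E n →L[ℝ] E n) : ‖A + B‖ₑ ≤ ‖A‖ₑ + ‖B‖ₑ := enorm_add_le A B

theorem Approx0.fr_mono {S S' : Set (E n)} {u : E n → E n} {Δ : E n → E n →L[ℝ] E n}
    (h : Approx0 S u Δ) (hS : S ⊆ S') : Approx0 S' u Δ := fun ε hε => by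
  obtain ⟨g, h1, h2, h3, h4⟩ := h ε hε
  exact ⟨g, h1, fun x hx => h2 x fun h => hx (hS h), h3, h4⟩

theorem Approx0.fr_congr {S : Set (E n)} {u u' : E n → E n} {Δ Δ' : E n → E n →L[ℝ] E n}
    (h : Approx0 S u Δ) (hu : ∀ x, u x = u' x) (hΔ : ∀ x, Δ x = Δ' x) : Approx0 S u' Δ' := by
  rw [← funext hu, ← funext hΔ]
  exact h

theorem Approx0.fr_add {S : Set (E n)} {u u' : E n → E n} {Δ Δ' : E n → E n →L[ℝ] E n}
    (h : Approx0 S u Δ) (h' : Approx0 S u' Δ') (hm : Measurable Δ) :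
    Approx0 S (fun x => u x + u' x) (fun x => Δ x + Δ' x) := fun ε hε => by
  obtain ⟨g, ⟨K, h1⟩, h2, h3, h4⟩ := h (ε / 2) (half_pos hε)
  obtain ⟨g', ⟨K', h1'⟩, h2', h3', h4'⟩ := h' (ε / 2) (half_pos hε)
  refine ⟨fun x => g x + g' x, ⟨_, h1.add h1'⟩, fun x hx => by simp [h2 x hx, h2' x hx],
    fun x => ?_, ?_⟩
  · rw [add_sub_add_comm]
    exact (norm_add_le _ _).trans (by linarith [h3 x, h3' x])
  · calc ∫⁻ x, ‖fderiv ℝ (fun x => g x + g' x) x - (Δ x + Δ' x)‖ₑ
        ≤ ∫⁻ x, ‖fderiv ℝ g x - Δ x‖ₑ + ‖fderiv ℝ g' x - Δ' x‖ₑ := by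
          refine lintegral_mono_ae ?_
          filter_upwards [h1.ae_differentiableAt, h1'.ae_differentiableAt] with x hx hx'
          rw [fderiv_fun_add hx hx', add_sub_add_comm]
          exact fr_enorm_add _ _
      _ ≤ ENNReal.ofReal (ε / 2) + ENNReal.ofReal (ε / 2) := by
          rw [lintegral_add_left ((measurable_fderiv ℝ g).fun_sub hm).enorm]
          exact add_le_add h4 h4'
      _ = ENNReal.ofReal ε := by rw [← ENNReal.ofReal_add (by linarith) (by linarith), add_halves]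

theorem fr_approx_limit {S : Set (E n)} {u : E n → E n} {Δ : E n → E n →L[ℝ] E n}
    (h : ∀ ε : ℝ, 0 < ε → ∃ (u' : E n → E n) (Δ' : E n → E n →L[ℝ] E n), Approx0 S u' Δ' ∧
      Measurable Δ' ∧ (∀ x, ‖u' x - u x‖ ≤ ε) ∧ ∫⁻ x, ‖Δ' x - Δ x‖ₑ ≤ ENNReal.ofReal ε) :
    Approx0 S u Δ := fun ε hε => by
  obtain ⟨u', Δ', a1, a2, a3, a4⟩ := h (ε / 2) (half_pos hε)
  obtain ⟨g, h1, h2, h3, h4⟩ := a1 (ε / 2) (half_pos hε)
  refine ⟨g, h1, h2, fun x => ?_, ?_⟩
  · exact (norm_sub_le_norm_sub_add_norm_sub _ (u' x) _).trans (by linarith [h3 x, a3 x])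
  · calc ∫⁻ x, ‖fderiv ℝ g x - Δ x‖ₑ
        ≤ ∫⁻ x, ‖fderiv ℝ g x - Δ' x‖ₑ + ‖Δ' x - Δ x‖ₑ := by
          refine lintegral_mono fun x => ?_
          rw [← sub_add_sub_cancel _ (Δ' x)]
          exact fr_enorm_add _ _
      _ ≤ ENNReal.ofReal (ε / 2) + ENNReal.ofReal (ε / 2) := by
          rw [lintegral_add_left ((measurable_fderiv ℝ g).fun_sub a2).enorm]
          exact add_le_add h4 a4
      _ = ENNReal.ofReal ε := by rw [← ENNReal.ofReal_add (by linarith) (by linarith), add_halves]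

theorem fr_ibp {g : E n → E n} {K : ℝ≥0} (hg : LipschitzWith K g) (φ : E n → ℝ)
    (hφ : ContDiff ℝ 1 φ) (hφc : HasCompactSupport φ) (i : Fin n) (w : E n) :
    ∫ x, g x i * fderiv ℝ φ x w = - ∫ x, fderiv ℝ g x w i * φ x := by
  obtain ⟨D, hD⟩ := hφ.lipschitzWith_of_hasCompactSupport hφc one_ne_zero
  have h1 : LipschitzWith _ fun x => g x i := (LipschitzWith.eval i).comp hg
  have h2 := h1.integral_lineDeriv_mul_eq (μ := volume) hD hφc w
  have h3 : ∫ x, lineDeriv ℝ (fun x => g x i) x w * φ x = ∫ x, fderiv ℝ g x w i * φ x := by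
    refine integral_congr_ae ?_
    filter_upwards [hg.ae_differentiableAt] with x hx
    have := ((ContinuousLinearMap.proj (R := ℝ) (φ := fun _ : Fin n => ℝ) i).hasFDerivAt.comp x
      hx.hasFDerivAt).hasLineDerivAt w
    rw [show lineDeriv ℝ (fun x => g x i) x w = _ from this.lineDeriv]
    rfl
  rw [← h3, h2, ← integral_neg]
  refine integral_congr_ae (Eventually.of_forall fun x => ?_)
  simp only [(hφ.differentiable one_ne_zero x).lineDeriv_eq_fderiv, map_neg]
  ring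

/-- T1b. Weak derivative. -/
theorem Adm.weak {p : ℝ} (hp : 1 ≤ p) {f : E n ≃ₜ E n} {Φ : E n → E n →L[ℝ] E n} {V : Set (E n)}
    (h : Adm p f Φ V) (φ : E n → ℝ) (hφ : ContDiff ℝ 1 φ) (hφc : HasCompactSupport φ)
    (i : Fin n) (w : E n) :
    ∫ x, f x i * fderiv ℝ φ x w = - ∫ x, Φ x w i * φ x := by
  have hψ : Continuous fun x => fderiv ℝ φ x w :=
    (hφ.continuous_fderiv one_ne_zero).clm_apply continuous_const
  have hψc : HasCompactSupport fun x => fderiv ℝ φ x w := hφc.fderiv_apply ℝ w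
  have hψi := hψ.integrable_of_hasCompactSupport (μ := volume) hψc
  have hφi := hφ.continuous.integrable_of_hasCompactSupport (μ := volume) hφc
  obtain ⟨M, hM⟩ := hφ.continuous.bounded_above_of_compact_support hφc
  have hM0 : 0 ≤ M := (norm_nonneg _).trans (hM 0)
  rw [eq_neg_iff_add_eq_zero, ← abs_nonpos_iff]
  refine le_of_forall_pos_le_add fun ε hε => ?_
  set A := ∫ x, ‖fderiv ℝ φ x w‖
  have hA : 0 ≤ A := integral_nonneg fun _ => norm_nonneg _
  obtain ⟨g, ⟨K, h1⟩, -, h3, h4⟩ := h.approx (ε / (A + ‖w‖ * M + 1)) (by positivity)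
  set η := ε / (A + ‖w‖ * M + 1) with hη
  have hη0 : 0 < η := by positivity
  have hG : LipschitzWith (1 + K) fun x => x + g x := LipschitzWith.id.add h1
  have e0 := fr_ibp hG φ hφ hφc i w
  have i1 : Integrable fun x => f x i * fderiv ℝ φ x w :=
    Continuous.integrable_of_hasCompactSupport (by fun_prop) hψc.mul_left
  have i2 : Integrable fun x => (x + g x) i * fderiv ℝ φ x w :=
    Continuous.integrable_of_hasCompactSupport
      (((continuous_apply i).comp hG.continuous).mul hψ) hψc.mul_left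
  have i3 : Integrable fun x => fderiv ℝ g x - (Φ x - ContinuousLinearMap.id ℝ (E n)) :=
    ⟨((measurable_fderiv ℝ g).sub (h.meas.sub_const _)).aestronglyMeasurable,
      h4.trans_lt ENNReal.ofReal_lt_top⟩
  have ev : Continuous fun B : E n →L[ℝ] E n => B w i := by fun_prop
  have evb : ∀ B : E n →L[ℝ] E n, ‖B w i‖ ≤ ‖B‖ * ‖w‖ := fun B =>
    (norm_le_pi_norm _ i).trans (B.le_opNorm w)
  have i4 : Integrable fun x => fderiv ℝ (fun x => x + g x) x w i * φ x := by
    refine hφi.bdd_mul (c := (1 + K) * ‖w‖)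
      (ev.measurable.comp (measurable_fderiv ℝ _)).aestronglyMeasurable
      (Eventually.of_forall fun x => (evb _).trans ?_)
    exact mul_le_mul_of_nonneg_right (norm_fderiv_le_of_lipschitz ℝ hG) (norm_nonneg _)
  have b5 : ∀ x, ‖(fderiv ℝ g x - (Φ x - ContinuousLinearMap.id ℝ (E n))) w i * φ x‖ ≤
      ‖fderiv ℝ g x - (Φ x - ContinuousLinearMap.id ℝ (E n))‖ * (‖w‖ * M) := fun x => by
    rw [norm_mul, ← mul_assoc]
    exact mul_le_mul (evb _) (hM x) (norm_nonneg _) (by positivity)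
  have i5 : Integrable fun x =>
      (fderiv ℝ g x - (Φ x - ContinuousLinearMap.id ℝ (E n))) w i * φ x :=
    (i3.norm.mul_const (‖w‖ * M)).mono' ((ev.comp_aestronglyMeasurable i3.1).mul hφi.1)
      (Eventually.of_forall b5)
  have e1 : ∫ x, Φ x w i * φ x = (∫ x, fderiv ℝ (fun x => x + g x) x w i * φ x) -
      ∫ x, (fderiv ℝ g x - (Φ x - ContinuousLinearMap.id ℝ (E n))) w i * φ x := by
    rw [← integral_sub i4 i5]
    refine integral_congr_ae ?_
    filter_upwards [h1.ae_differentiableAt] with x hx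
    rw [fderiv_fun_add differentiableAt_fun_id hx, fderiv_fun_id]
    simp
    ring
  have e2 : |(∫ x, f x i * fderiv ℝ φ x w) - ∫ x, (x + g x) i * fderiv ℝ φ x w| ≤ η * A := by
    rw [← integral_sub i1 i2, ← Real.norm_eq_abs, ← integral_const_mul]
    refine norm_integral_le_of_norm_le (hψi.norm.const_mul η) (Eventually.of_forall fun x => ?_)
    rw [← sub_mul, norm_mul]
    refine mul_le_mul_of_nonneg_right (le_trans ?_ (h3 x)) (norm_nonneg _)
    refine le_trans (le_of_eq ?_) (norm_le_pi_norm _ i)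
    rw [← norm_neg]
    congr 1
    simp
    ring
  have e3 : |∫ x, (fderiv ℝ g x - (Φ x - ContinuousLinearMap.id ℝ (E n))) w i * φ x| ≤
      η * (‖w‖ * M) := by
    rw [← Real.norm_eq_abs]
    refine (norm_integral_le_of_norm_le (i3.norm.mul_const (‖w‖ * M))
      (Eventually.of_forall b5)).trans ?_
    rw [integral_mul_const, integral_norm_eq_lintegral_enorm i3.1]
    exact mul_le_mul_of_nonneg_right (ENNReal.toReal_le_of_le_ofReal hη0.le h4) (by positivity)
  have e4 : η * (A + ‖w‖ * M + 1) = ε := by rw [hη]; field_simp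
  rw [e1]
  rw [e0] at e2
  rw [abs_le] at e2 e3 ⊢
  constructor <;> nlinarith [e2.1, e2.2, e3.1, e3.2]

end Pool.Agent.P.MP_667fa2_an
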