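import Pool.Agent.P.MP_667fa2_an.FrameA

/-! Localised admissible triples: conjugation, disjoint unions, composition. -/

namespace Pool.Agent.P.MP_667fa2_an

open Set Filter Topology MeasureTheory Metric
open scoped ENNReal NNReal

variable {n : ℕ} {p : ℝ}

/-- Admissible triple supported in `S`. -/
structure FrLoc (p : ℝ) (S : Set (E n)) (h : E n ≃ₜ E n) (Θ : E n → E n →L[ℝ] E n)
    (W : Set (E n)) : Prop where
  out : ∀ x, x ∉ S → h x = x
  meas : Measurable Θ
  outD : ∀ x, x ∉ S → Θ x = ContinuousLinearMap.id ℝ (E n)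
  approx : Approx0 S (fun x => h x - x) (fun x => Θ x - ContinuousLinearMap.id ℝ (E n))
  isOpen : IsOpen W
  sub : W ⊆ S
  c1 : ∀ x ∈ W, ContDiffAt ℝ 1 h x ∧ Θ x = fderiv ℝ h x ∧ 0 < (Θ x).det
  neg : ∀ᵐ x, x ∈ S → x ∉ W → (Θ x).det < 0
  fin : ∫⁻ x in S, ‖Θ x‖ₑ ^ p < ⊤

theorem fr_maps {S : Set (E n)} {h : E n ≃ₜ E n} (H : ∀ x, x ∉ S → h x = x) {x : E n}
    (hx : x ∈ S) : h x ∈ S := by
  by_contra hc
  have := h.injective (H _ hc)
  rw [this] at hc
  exact hc hx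

theorem fr_det_comp (A B : E n →L[ℝ] E n) : (A ∘L B).det = A.det * B.det :=
  LinearMap.det_comp (A : E n →ₗ[ℝ] E n) (B : E n →ₗ[ℝ] E n)

theorem fr_det_id : (ContinuousLinearMap.id ℝ (E n)).det = 1 := by
  simp [ContinuousLinearMap.det]

theorem fr_enorm_comp (A B : E n →L[ℝ] E n) : ‖A ∘L B‖ₑ ≤ ‖A‖ₑ * ‖B‖ₑ := by
  simp only [← ofReal_norm]
  rw [← ENNReal.ofReal_mul (norm_nonneg _)]
  exact ENNReal.ofReal_le_ofReal (A.opNorm_comp_le B)

theorem fr_meas_comp {A B : E n → E n →L[ℝ] E n} (hA : Measurable A) (hB : Measurable B) :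
    Measurable fun x => A x ∘L B x :=
  (by fun_prop : Continuous fun q : (E n →L[ℝ] E n) × (E n →L[ℝ] E n) =>
    q.1 ∘L q.2).measurable.comp (hA.prodMk hB)

/-- The affine map `y ↦ c + A y`. -/
noncomputable def frAff (A : E n ≃L[ℝ] E n) (c : E n) : E n ≃ₜ E n :=
  A.toHomeomorph.trans (Homeomorph.addLeft c)

theorem frAff_apply (A : E n ≃L[ℝ] E n) (c y : E n) : frAff A c y = c + A y := rfl

theorem frAff_symm_apply (A : E n ≃L[ℝ] E n) (c x : E n) :
    (frAff A c).symm x = A.symm (x - c) := by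
  rw [Homeomorph.symm_apply_eq, frAff_apply]
  simp

theorem fr_change (A : E n ≃L[ℝ] E n) (c : E n) : ∃ J : ℝ≥0∞, J ≠ 0 ∧ J ≠ ⊤ ∧
    ∀ (F : E n → ℝ≥0∞) (B : Set (E n)),
      ∫⁻ x in frAff A c '' B, F ((frAff A c).symm x) = J * ∫⁻ y in B, F y := by
  have hd : LinearMap.det ((A.symm : E n →L[ℝ] E n) : E n →ₗ[ℝ] E n) ≠ 0 :=
    (det_ne_zero_iff_injective (A.symm : E n →L[ℝ] E n)).2 A.symm.injective
  have h1 : Measure.map (frAff A c).symm.toMeasurableEquiv volume =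
      ENNReal.ofReal |(LinearMap.det ((A.symm : E n →L[ℝ] E n) : E n →ₗ[ℝ] E n))⁻¹| •
        (volume : Measure (E n)) := by
    rw [← Measure.map_linearMap_addHaar_eq_smul_addHaar volume hd]
    conv_rhs => rw [← map_sub_right_eq_self volume c]
    rw [Measure.map_map (by exact A.symm.continuous.measurable) (measurable_sub_const c)]
    congr 1
    funext x
    exact frAff_symm_apply A c x
  refine ⟨_, (ENNReal.ofReal_pos.2 (abs_pos.2 (inv_ne_zero hd))).ne', ENNReal.ofReal_ne_top,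
    fun F B => ?_⟩
  rw [← smul_eq_mul, ← lintegral_smul_measure, ← Measure.restrict_smul, ← h1,
    MeasurableEquiv.restrict_map, lintegral_map_equiv, ← Homeomorph.preimage_symm]
  rfl

theorem fr_qmp (A : E n ≃L[ℝ] E n) (c : E n) {P : E n → Prop} (h : ∀ᵐ y, P y) :
    ∀ᵐ x, P ((frAff A c).symm x) := by
  obtain ⟨J, -, -, hJ⟩ := fr_change A c
  have := hJ (fun _ => 1) {y | ¬P y}
  rw [setLIntegral_one, setLIntegral_one, ae_iff.1 h, mul_zero, ← Homeomorph.preimage_symm] at this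
  exact this

theorem fr_fderiv_conj (A : E n ≃L[ℝ] E n) (c d : E n) (g : E n → E n) (x : E n) :
    fderiv ℝ (fun x => d + A (g ((frAff A c).symm x))) x =
      (A : E n →L[ℝ] E n) ∘L fderiv ℝ g ((frAff A c).symm x) ∘L (A.symm : E n →L[ℝ] E n) := by
  simp only [frAff_symm_apply]
  rw [fderiv_const_add, show (fun x => A (g (A.symm (x - c)))) =
    fun x => (A ∘ g ∘ A.symm) (x - c) from rfl, fderiv_comp_sub, A.comp_fderiv,
    A.symm.comp_right_fderiv]

theorem fr_enorm_conj (A : E n ≃L[ℝ] E n) (B : E n →L[ℝ] E n) :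
    ‖(A : E n →L[ℝ] E n) ∘L B ∘L (A.symm : E n →L[ℝ] E n)‖ₑ ≤
      (‖(A : E n →L[ℝ] E n)‖ₑ * ‖(A.symm : E n →L[ℝ] E n)‖ₑ) * ‖B‖ₑ := by
  refine (fr_enorm_comp _ _).trans ((mul_le_mul_right (fr_enorm_comp _ _) _).trans (le_of_eq ?_))
  ring

theorem fr_conj (hp : 1 ≤ p) {g : E n ≃ₜ E n} {Ψ : E n → E n →L[ℝ] E n} {W : Set (E n)}
    (hg : Adm p g Ψ W) (A : E n ≃L[ℝ] E n) (c : E n) :
    FrLoc p (frAff A c '' ball 0 1) (((frAff A c).symm.trans g).trans (frAff A c))
      (fun x => (A : E n →L[ℝ] E n) ∘L Ψ ((frAff A c).symm x) ∘L (A.symm : E n →L[ℝ] E n))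
      (frAff A c '' W) := by
  set T := frAff A c with hT
  have hmem : ∀ (B : Set (E n)) x, x ∈ T '' B ↔ T.symm x ∈ B := fun B x => by
    rw [← Homeomorph.preimage_symm]; rfl
  obtain ⟨J, -, hJ, hc⟩ := fr_change A c
  set C := ‖(A : E n →L[ℝ] E n)‖ₑ * ‖(A.symm : E n →L[ℝ] E n)‖ₑ with hC
  have hC' : C ≠ ⊤ := ENNReal.mul_ne_top enorm_ne_top enorm_ne_top
  have hdet : ∀ B : E n →L[ℝ] E n,
      ((A : E n →L[ℝ] E n) ∘L B ∘L (A.symm : E n →L[ℝ] E n)).det = B.det := fun B => by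
    rw [fr_det_comp, fr_det_comp, mul_left_comm, ← fr_det_comp]
    simp [fr_det_id]
  have hTs : ContDiff ℝ 1 T.symm := by
    rw [show (T.symm : E n → E n) = fun x => A.symm (x - c) from funext (frAff_symm_apply A c)]
    fun_prop
  refine ⟨fun x hx => ?_, ?_, fun x hx => ?_, fun ε hε => ?_, T.isOpenMap _ hg.isOpen,
    image_mono hg.sub, fun x hx => ?_, ?_, ?_⟩
  · simp [hg.out _ ((hmem _ _).not.1 hx)]
  · exact fr_meas_comp measurable_const
      (fr_meas_comp (hg.meas.comp T.symm.continuous.measurable) measurable_const)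
  · simp [hg.outD _ ((hmem _ _).not.1 hx)]
  · set D := ‖(A : E n →L[ℝ] E n)‖ + (C * J).toReal + 1 with hD
    have hD0 : 0 < D := by positivity
    obtain ⟨u, ⟨K, h1⟩, h2, h3, h4⟩ := hg.approx (ε / D) (by positivity)
    have hε' : D * (ε / D) = ε := by field_simp
    have hη : 0 < ε / D := by positivity
    refine ⟨fun x => 0 + A (u (T.symm x)), ?_, fun x hx => by simp [h2 _ ((hmem _ _).not.1 hx)],
      fun x => ?_, ?_⟩
    · simp only [zero_add, hT, frAff_symm_apply]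
      exact ⟨_, (A : E n →L[ℝ] E n).lipschitz.comp (h1.comp
        ((A.symm : E n →L[ℝ] E n).lipschitz.comp (LipschitzWith.id.sub (LipschitzWith.const c))))⟩
    · have e1 : 0 + A (u (T.symm x)) - (((T.symm.trans g).trans T) x - x) =
          A (u (T.symm x) - (g (T.symm x) - T.symm x)) := by
        simp [hT, frAff_apply, frAff_symm_apply]
        abel
      rw [e1]
      refine ((A : E n →L[ℝ] E n).le_of_opNorm_le_of_le le_rfl (h3 _)).trans ?_
      refine le_trans (mul_le_mul_of_nonneg_right ?_ hη.le) hε'.le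
      have := ENNReal.toReal_nonneg (a := C * J)
      linarith
    · calc _ ≤ ∫⁻ x, C * ‖fderiv ℝ u (T.symm x) -
            (Ψ (T.symm x) - ContinuousLinearMap.id ℝ (E n))‖ₑ := by
            refine lintegral_mono fun x => le_trans (le_of_eq ?_) (fr_enorm_conj A _)
            rw [fr_fderiv_conj]
            congr 1
            ext1 y
            simp [hT]
        _ = C * J * ∫⁻ y, ‖fderiv ℝ u y - (Ψ y - ContinuousLinearMap.id ℝ (E n))‖ₑ := by
            have := hc (fun y => ‖fderiv ℝ u y - (Ψ y - ContinuousLinearMap.id ℝ (E n))‖ₑ) univ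
            rw [image_univ, (frAff A c).surjective.range_eq, Measure.restrict_univ] at this
            rw [lintegral_const_mul' _ _ hC', this, mul_assoc C]
        _ ≤ ENNReal.ofReal D * ENNReal.ofReal (ε / D) := by
            refine mul_le_mul' ?_ h4
            rw [← ENNReal.ofReal_toReal (ENNReal.mul_ne_top hC' hJ)]
            exact ENNReal.ofReal_le_ofReal (by linarith [norm_nonneg (A : E n →L[ℝ] E n)])
        _ = ENNReal.ofReal ε := by rw [← ENNReal.ofReal_mul hD0.le, hε']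
  · obtain ⟨a1, a2, a3⟩ := hg.c1 _ ((hmem _ _).1 hx)
    refine ⟨?_, ?_, by rwa [hdet]⟩
    · exact contDiffAt_const.add (A.contDiff.contDiffAt.comp x (a1.comp x hTs.contDiffAt))
    · rw [a2]
      exact (fr_fderiv_conj A c c g x).symm
  · filter_upwards [fr_qmp A c hg.neg] with x hx h1 h2
    rw [hdet]
    exact hx ((hmem _ _).1 h1) ((hmem _ _).not.1 h2)
  · calc _ ≤ ∫⁻ x in T '' ball 0 1, C ^ p * ‖Ψ (T.symm x)‖ₑ ^ p := lintegral_mono fun x => by
            rw [← ENNReal.mul_rpow_of_nonneg _ _ (by linarith)]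
            exact ENNReal.rpow_le_rpow (fr_enorm_conj A _) (by linarith)
      _ < ⊤ := by
            have h1 : C ^ p ≠ ⊤ := ENNReal.rpow_ne_top_of_nonneg (by linarith) hC'
            rw [lintegral_const_mul' _ _ h1, hc (fun y => ‖Ψ y‖ₑ ^ p)]
            exact ENNReal.mul_lt_top h1.lt_top (ENNReal.mul_lt_top hJ.lt_top hg.fin)

theorem fr_empty : FrLoc p (∅ : Set (E n)) (Homeomorph.refl _)
    (fun _ => ContinuousLinearMap.id ℝ (E n)) ∅ := by
  refine ⟨fun _ _ => rfl, measurable_const, fun _ _ => rfl, fun ε hε => ?_, isOpen_empty,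
    Subset.rfl, by simp, by simp, by simp⟩
  exact ⟨fun _ => 0, ⟨_, LipschitzWith.const 0⟩, fun _ _ => rfl, by simp [hε.le],
    by simp [← ofReal_norm]⟩

theorem fr_union {S S' W W' : Set (E n)} {h h' : E n ≃ₜ E n} {Θ Θ' : E n → E n →L[ℝ] E n}
    (H : FrLoc p S h Θ W) (H' : FrLoc p S' h' Θ' W') (hd : Disjoint S S') (hS : MeasurableSet S)
    (hS' : MeasurableSet S') :
    ∃ (k : E n ≃ₜ E n) (Ξ : E n → E n →L[ℝ] E n), FrLoc p (S ∪ S') k Ξ (W ∪ W') ∧
      (∀ x ∈ S, k x = h x ∧ Ξ x = Θ x) ∧ ∀ x ∈ S', k x = h' x ∧ Ξ x = Θ' x := by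
  have e1 : ∀ x ∈ S, (h.trans h') x = h x ∧
      Θ x + (Θ' x - ContinuousLinearMap.id ℝ (E n)) = Θ x := fun x hx =>
    ⟨H'.out _ (disjoint_left.1 hd (fr_maps H.out hx)),
      by simp [H'.outD _ (disjoint_left.1 hd hx)]⟩
  have e2 : ∀ x, x ∉ S → (h.trans h') x = h' x ∧
      Θ x + (Θ' x - ContinuousLinearMap.id ℝ (E n)) = Θ' x := fun x hx => by
    simp [H.out _ hx, H.outD _ hx]
  have e3 := fun x (hx : x ∈ S') => e2 x (disjoint_right.1 hd hx)
  refine ⟨h.trans h', fun x => Θ x + (Θ' x - ContinuousLinearMap.id ℝ (E n)),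
    ⟨fun x hx => ?_, H.meas.add (H'.meas.sub_const _), fun x hx => ?_, ?_,
      H.isOpen.union H'.isOpen, union_subset_union H.sub H'.sub, ?_, ?_, ?_⟩, e1, e3⟩
  · rw [(e2 x fun h => hx (Or.inl h)).1, H'.out x fun h => hx (Or.inr h)]
  · rw [(e2 x fun h => hx (Or.inl h)).2, H'.outD x fun h => hx (Or.inr h)]
  · refine ((H.approx.fr_mono subset_union_left).fr_add (H'.approx.fr_mono subset_union_right)
      (H.meas.sub_const _)).fr_congr (fun x => ?_) fun x => by abel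
    by_cases hx : x ∈ S
    · simp only [(e1 x hx).1, H'.out _ (disjoint_left.1 hd hx), sub_self, add_zero]
    · simp only [(e2 x hx).1, H.out _ hx, sub_self, zero_add]
  · rintro x (hx | hx)
    · have : (h.trans h' : E n → E n) =ᶠ[𝓝 x] h :=
        mem_of_superset (H.isOpen.mem_nhds hx) fun y hy => (e1 y (H.sub hy)).1
      obtain ⟨a1, a2⟩ := H.c1 x hx
      exact ⟨a1.congr_of_eventuallyEq this, by rwa [this.fderiv_eq, (e1 x (H.sub hx)).2]⟩
    · have : (h.trans h' : E n → E n) =ᶠ[𝓝 x] h' :=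
        mem_of_superset (H'.isOpen.mem_nhds hx) fun y hy => (e3 y (H'.sub hy)).1
      obtain ⟨a1, a2⟩ := H'.c1 x hx
      exact ⟨a1.congr_of_eventuallyEq this, by rwa [this.fderiv_eq, (e3 x (H'.sub hx)).2]⟩
  · filter_upwards [H.neg, H'.neg] with x a1 a2 hx hW
    rcases hx with hx | hx
    · rw [(e1 x hx).2]; exact a1 hx fun h => hW (Or.inl h)
    · rw [(e3 x hx).2]; exact a2 hx fun h => hW (Or.inr h)
  · refine (lintegral_union_le _ _ _).trans_lt (ENNReal.add_lt_top.2 ⟨?_, ?_⟩)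
    · rw [setLIntegral_congr_fun hS fun x hx => by rw [(e1 x hx).2]]
      exact H.fin
    · rw [setLIntegral_congr_fun hS' fun x hx => by rw [(e3 x hx).2]]
      exact H'.fin

theorem fr_finite {ι : Type*} (s : Finset ι) {S W : ι → Set (E n)} {h : ι → E n ≃ₜ E n}
    {Θ : ι → E n → E n →L[ℝ] E n} (H : ∀ a ∈ s, FrLoc p (S a) (h a) (Θ a) (W a))
    (hd : (s : Set ι).PairwiseDisjoint S) (hS : ∀ a, MeasurableSet (S a)) :
    ∃ (k : E n ≃ₜ E n) (Ξ : E n → E n →L[ℝ] E n), FrLoc p (⋃ a ∈ s, S a) k Ξ (⋃ a ∈ s, W a) ∧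
      ∀ a ∈ s, ∀ x ∈ S a, k x = h a x ∧ Ξ x = Θ a x := by
  classical
  induction s using Finset.induction_on with
  | empty => exact ⟨_, _, by simpa using fr_empty, by simp⟩
  | insert b s hb ih =>
    obtain ⟨k, Ξ, a1, a2⟩ := ih (fun a ha => H a (Finset.mem_insert_of_mem ha))
      (hd.subset (by simp))
    obtain ⟨k', Ξ', b1, b2, b3⟩ := fr_union (H b (Finset.mem_insert_self _ _)) a1
      (disjoint_iUnion₂_right.2 fun a ha => hd (by simp) (by simp [ha]) fun e => hb (e ▸ ha))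
      (hS b) (Finset.measurableSet_biUnion _ fun a _ => hS a)
    refine ⟨k', Ξ', by simpa only [Finset.set_biUnion_insert] using b1, fun a ha x hx => ?_⟩
    rcases Finset.mem_insert.1 ha with rfl | ha
    · exact b2 x hx
    · rw [← (a2 a ha x hx).1, ← (a2 a ha x hx).2]
      exact b3 x (mem_biUnion ha hx)

end Pool.Agent.P.MP_667fa2_an
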