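import Pool.Agent.P.MP_667fa2_an.FrameC

/-! One refinement step, with energy bounds. -/

namespace Pool.Agent.P.MP_667fa2_an

open Set Filter Topology MeasureTheory Metric
open scoped ENNReal NNReal

variable {n : ℕ} {p : ℝ}

/-- The linear map `r • L`. -/
noncomputable def frSc (L : E n ≃L[ℝ] E n) (r : ℝ) : E n ≃L[ℝ] E n :=
  if h : r = 0 then L else
    ContinuousLinearEquiv.equivOfInverse (r • (L : E n →L[ℝ] E n))
      (r⁻¹ • (L.symm : E n →L[ℝ] E n)) (fun x => by simp [smul_smul, h])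
      fun x => by simp [smul_smul, h]

theorem frSc_apply (L : E n ≃L[ℝ] E n) {r : ℝ} (hr : r ≠ 0) (y : E n) : frSc L r y = r • L y := by
  simp [frSc, hr]

theorem frSc_conj (L : E n ≃L[ℝ] E n) {r : ℝ} (hr : r ≠ 0) (B : E n →L[ℝ] E n) :
    (frSc L r : E n →L[ℝ] E n) ∘L B ∘L ((frSc L r).symm : E n →L[ℝ] E n) =
      (L : E n →L[ℝ] E n) ∘L B ∘L (L.symm : E n →L[ℝ] E n) := by
  ext1 y
  simp [frSc, hr, smul_smul]

theorem fr_patch (L : E n ≃L[ℝ] E n) (c : E n) {r : ℝ} (hr : r ≠ 0) :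
    patch L c r = frAff (frSc L r) c '' closedBall 0 1 := by
  simp only [patch, frAff_apply, frSc_apply L hr]

theorem fr_one (A : E n ≃L[ℝ] E n) (c : E n) {B : Set (E n)} (hB : MeasurableSet B)
    {F ω G : E n → ℝ≥0∞} (hω : Measurable ω) (hG : Measurable G)
    (h : ∀ y ∈ B, ∀ x ∈ frAff A c '' closedBall 0 1, F (frAff A c y) ≤ ω x * G y) :
    ∫⁻ x in frAff A c '' B, F x ≤ (∫⁻ y in B, G y) * ∫⁻ x in frAff A c '' closedBall 0 1, ω x := by
  obtain ⟨J, -, -, hJ⟩ := fr_change A c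
  have e1 := hJ (fun y => F (frAff A c y)) B
  have e2 := hJ (fun y => ω (frAff A c y)) (closedBall 0 1)
  simp only [Homeomorph.apply_symm_apply] at e1 e2
  rw [e1, e2, mul_left_comm]
  refine mul_le_mul_right ?_ _
  have h1 : 1 ≤ volume (closedBall (0 : E n) 1) := by
    rw [Real.volume_pi_closedBall _ zero_le_one, ENNReal.one_le_ofReal]
    exact one_le_pow₀ (by norm_num)
  calc _ ≤ (∫⁻ y in B, F (frAff A c y)) * volume (closedBall (0 : E n) 1) :=
        le_mul_of_one_le_right' h1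
    _ = ∫⁻ _ in closedBall (0 : E n) 1, ∫⁻ y in B, F (frAff A c y) := by rw [setLIntegral_const]
    _ ≤ ∫⁻ x in closedBall (0 : E n) 1, (∫⁻ y in B, G y) * ω (frAff A c x) := by
        refine setLIntegral_mono' measurableSet_closedBall fun x hx => ?_
        rw [mul_comm, ← lintegral_const_mul _ hG]
        exact setLIntegral_mono' hB fun y hy => h y hy _ (mem_image_of_mem _ hx)
    _ = _ := lintegral_const_mul _ (hω.comp (frAff A c).continuous.measurable)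

theorem fr_osc {ω : E n → ℝ≥0∞} {c : E n} (h : ContinuousAt ω c) (h0 : ω c ≠ 0) (h1 : ω c ≠ ⊤) :
    ∀ᶠ z in 𝓝 c, ω z ≤ 2 * ω c ∧ ω c ≤ 2 * ω z := by
  have h2 : ω c < 2 * ω c := by
    rw [two_mul]
    exact ENNReal.lt_add_right h1 h0
  exact (h.eventually (ge_mem_nhds h2)).and
    ((ENNReal.Tendsto.const_mul h (Or.inl h0)).eventually (le_mem_nhds h2))

theorem fr_step (hp : 1 ≤ p) {f : E n ≃ₜ E n} {Φ : E n → E n →L[ℝ] E n} {V : Set (E n)}
    (hf : Adm p f Φ V) {g : E n ≃ₜ E n} {Ψ : E n → E n →L[ℝ] E n} {W : Set (E n)}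
    (hg : Adm p g Ψ W) {V1 : Set (E n)} (hV1 : IsOpen V1) (hV : V1 ⊆ V)
    (L : E n → E n ≃L[ℝ] E n) (Λ : ℝ) (hΛ : 1 ≤ Λ)
    (hL : ∀ x ∈ V1, ‖(L x : E n →L[ℝ] E n)‖ ≤ Λ ∧ ‖((L x).symm : E n →L[ℝ] E n)‖ ≤ Λ)
    (N : E n → Set (E n)) (hN : ∀ c ∈ V1, N c ∈ 𝓝 c) {G : E n → ℝ≥0∞} (hGm : Measurable G)
    (hG : ∀ c ∈ V1, ∀ z ∈ N c, ∀ y, 1 + ‖Φ z ∘L (L c : E n →L[ℝ] E n) ∘L Ψ y ∘L
      ((L c).symm : E n →L[ℝ] E n)‖ₑ ^ p ≤ frEn p Φ z * G y) {ε : ℝ≥0∞} (hε : 0 < ε) :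
    ∃ (h : E n ≃ₜ E n) (Φ' : E n → E n →L[ℝ] E n) (V' : Set (E n)), Adm p (h.trans f) Φ' V' ∧
      V' ⊆ V ∧ (∀ x, x ∉ V → Φ' x = Φ x) ∧ (∀ x, h x = x ∨ ∃ c ∈ V1, x ∈ N c ∧ h x ∈ N c) ∧
      ∫⁻ x in V', frEn p Φ' x ≤ ε + (∫⁻ x in V \ V1, frEn p Φ x) +
        4 * (∫⁻ y in W, G y) * ∫⁻ x in V1, frEn p Φ x ∧
      ∫⁻ x in V, frEn p Φ' x ≤ (∫⁻ x in V, frEn p Φ x) +
        4 * (∫⁻ y in ball 0 1, G y) * ∫⁻ x in V1, frEn p Φ x := by
  have hδ : ∀ c, ∃ δ : ℝ, c ∈ V1 → 0 < δ ∧ ∀ z ∈ ball c δ, z ∈ N c ∧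
      frEn p Φ z ≤ 2 * frEn p Φ c ∧ frEn p Φ c ≤ 2 * frEn p Φ z := fun c => by
    by_cases hc : c ∈ V1
    · have h1 : ContinuousAt (frEn p Φ) c := continuousAt_const.add
        (ENNReal.continuous_rpow_const.continuousAt.comp (hf.fr_cont (hV hc)).enorm)
      obtain ⟨δ, h2, h3⟩ := Metric.eventually_nhds_iff_ball.1 (Filter.Eventually.and (hN c hc)
        (fr_osc h1 (by simp [frEn]) (ENNReal.add_ne_top.2 ⟨ENNReal.one_ne_top,
          ENNReal.rpow_ne_top_of_nonneg (by linarith) enorm_ne_top⟩)))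
      exact ⟨δ, fun _ => ⟨h2, h3⟩⟩
    · exact ⟨1, fun h => absurd h hc⟩
  choose δ hδ using hδ
  have hfin : ∫⁻ x in V1, frEn p Φ x < ⊤ :=
    (lintegral_mono_set (hV.trans hf.sub)).trans_lt (fr_en_fin Subset.rfl hf.fin)
  obtain ⟨s, s1, s2, s3⟩ := fill V1 hV1 (volume.withDensity (frEn p Φ))
    (withDensity_absolutelyContinuous _ _) (by rw [withDensity_apply']; exact hfin.ne) L Λ hΛ hL δ
    (fun c hc => (hδ c hc).1) ε hε
  rw [withDensity_apply'] at s3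
  set T : E n × ℝ → E n ≃ₜ E n := fun a => frAff (frSc (L a.1) a.2) a.1 with hT
  have hP : ∀ a ∈ s, patch (L a.1) a.1 a.2 = T a '' closedBall 0 1 := fun a ha =>
    fr_patch _ _ (s1 a ha).2.1.ne'
  have hdis : ∀ B : Set (E n), B ⊆ closedBall 0 1 →
      (s : Set (E n × ℝ)).PairwiseDisjoint fun a => T a '' B := fun B hB a ha b hb hab => by
    have := s2 ha hb hab
    simp only [Function.onFun, hP a ha, hP b hb] at this
    exact this.mono (image_mono hB) (image_mono hB)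
  have hmeas : ∀ a (B : Set (E n)), MeasurableSet B → MeasurableSet (T a '' B) := fun a B hB =>
    (T a).measurableEmbedding.measurableSet_image.2 hB
  obtain ⟨h, Θ, H, hH⟩ := fr_finite s (fun a _ => fr_conj hp hg (frSc (L a.1) a.2) a.1)
    (hdis _ ball_subset_closedBall) fun a => hmeas a _ measurableSet_ball
  have hK : (⋃ a ∈ s, patch (L a.1) a.1 a.2) = ⋃ a ∈ s, T a '' closedBall 0 1 :=
    iUnion₂_congr hP
  rw [hK] at s3
  set K := ⋃ a ∈ s, T a '' closedBall 0 1 with hK'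
  have hKc : IsCompact K :=
    s.isCompact_biUnion fun a _ => (isCompact_closedBall _ _).image (T a).continuous
  have hKV : K ⊆ V1 := iUnion₂_subset fun a ha => by
    rw [← hP a ha]
    exact (s1 a ha).2.2.2.trans inter_subset_left
  have hSK : (⋃ a ∈ s, T a '' ball 0 1) ⊆ K :=
    iUnion₂_mono fun a _ => image_mono ball_subset_closedBall
  have h0 : volume (K \ ⋃ a ∈ s, T a '' ball 0 1) = 0 := by
    refine measure_mono_null (t := ⋃ a ∈ s, T a '' sphere 0 1) (fun x hx => ?_)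
      ((measure_biUnion_null_iff s.countable_toSet).2 fun a _ => ?_)
    · obtain ⟨a, ha, y, hy, rfl⟩ := mem_iUnion₂.1 hx.1
      refine mem_biUnion ha (mem_image_of_mem _ ?_)
      rw [← closedBall_sdiff_ball]
      exact ⟨hy, fun h => hx.2 (mem_biUnion ha (mem_image_of_mem _ h))⟩
    · obtain ⟨J, -, -, hJ⟩ := fr_change (frSc (L a.1) a.2) a.1
      have := hJ (fun _ => 1) (sphere 0 1)
      rwa [setLIntegral_one, setLIntegral_one, Measure.addHaar_sphere_of_ne_zero _ _ one_ne_zero,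
        mul_zero] at this
  have hA := fr_compose hp hf H hKc hSK (hKV.trans hV) h0
  have hN' : ∀ a ∈ s, ∀ x ∈ T a '' closedBall 0 1, x ∈ N a.1 ∧
      frEn p Φ x ≤ 2 * frEn p Φ a.1 ∧ frEn p Φ a.1 ≤ 2 * frEn p Φ x := fun a ha x hx =>
    (hδ _ (s1 a ha).1).2 x ((s1 a ha).2.2.2 (hP a ha ▸ hx)).2
  have hh : ∀ a ∈ s, ∀ y ∈ ball (0 : E n) 1, h (T a y) ∈ T a '' closedBall 0 1 :=
    fun a ha y hy => by
      rw [(hH a ha _ (mem_image_of_mem _ hy)).1]
      refine mem_image_of_mem _ ?_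
      simpa [hT] using (fr_maps hg.out hy).out.le
  have e1 : ∀ x, x ∉ (⋃ a ∈ s, T a '' ball 0 1) → Φ (h x) ∘L Θ x = Φ x := fun x hx => by
    rw [H.out x hx, H.outD x hx, ContinuousLinearMap.comp_id]
  have key : ∀ B : Set (E n), MeasurableSet B → B ⊆ ball 0 1 →
      ∫⁻ x in ⋃ a ∈ s, T a '' B, frEn p (fun x => Φ (h x) ∘L Θ x) x ≤
        4 * (∫⁻ y in B, G y) * ∫⁻ x in V1, frEn p Φ x := fun B hB hBQ => by
    rw [lintegral_biUnion_finset (hdis B (hBQ.trans ball_subset_closedBall)) fun a _ => hmeas a B hB]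
    refine le_trans ?_ (mul_le_mul_right (lintegral_mono_set hKV) _)
    rw [hK', lintegral_biUnion_finset (hdis _ Subset.rfl)
      fun a _ => hmeas a _ measurableSet_closedBall, Finset.mul_sum, ← lintegral_const_mul _ hGm]
    refine Finset.sum_le_sum fun a ha => fr_one _ _ hB (frEn_meas hf.meas) (hGm.const_mul 4)
      fun y hy x hx => ?_
    have b1 := hN' a ha _ (hh a ha y (hBQ hy))
    have b2 := hG _ (s1 a ha).1 _ b1.1 y
    have b3 : Θ (T a y) = _ := (hH a ha _ (mem_image_of_mem _ (hBQ hy))).2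
    rw [frSc_conj _ (s1 a ha).2.1.ne', Homeomorph.symm_apply_apply] at b3
    change 1 + ‖Φ (h (T a y)) ∘L Θ (T a y)‖ₑ ^ p ≤ _
    rw [b3]
    refine b2.trans ((mul_le_mul_left
      (b1.2.1.trans (mul_le_mul_right (hN' a ha x hx).2.2 2)) _).trans (le_of_eq ?_))
    ring
  have out : ∀ B : Set (E n), MeasurableSet B → Disjoint B (⋃ a ∈ s, T a '' ball 0 1) →
      ∫⁻ x in B, frEn p (fun x => Φ (h x) ∘L Θ x) x = ∫⁻ x in B, frEn p Φ x := fun B hB hd =>
    setLIntegral_congr_fun hB fun x hx => by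
      simp only [frEn, e1 x (disjoint_left.1 hd hx)]
  refine ⟨h, _, _, hA, union_subset sdiff_subset (H.sub.trans (hSK.trans (hKV.trans hV))),
    fun x hx => e1 x fun h => hx (hV (hKV (hSK h))), fun x => ?_, ?_, ?_⟩
  · by_cases hx : x ∈ ⋃ a ∈ s, T a '' ball 0 1
    · obtain ⟨a, ha, y, hy, rfl⟩ := mem_iUnion₂.1 hx
      exact Or.inr ⟨a.1, (s1 a ha).1, (hN' a ha _ (mem_image_of_mem _
        (ball_subset_closedBall hy))).1, (hN' a ha _ (hh a ha y hy)).1⟩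
    · exact Or.inl (H.out x hx)
  · refine (lintegral_union_le _ _ _).trans
      (add_le_add ?_ (key W hg.isOpen.measurableSet hg.sub))
    rw [out _ (hf.isOpen.measurableSet.diff hKc.measurableSet)
      (disjoint_sdiff_left.mono_right hSK)]
    refine le_trans (lintegral_mono_set (t := (V1 \ K) ∪ (V \ V1)) fun x hx => ?_)
      ((lintegral_union_le _ _ _).trans (add_le_add_left s3 _))
    by_cases h : x ∈ V1
    exacts [Or.inl ⟨h, hx.2⟩, Or.inr ⟨hx.1, h⟩]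
  · refine (lintegral_mono_set (subset_sdiff_union V (⋃ a ∈ s, T a '' ball 0 1))).trans
      ((lintegral_union_le _ _ _).trans (add_le_add ?_ (key _ measurableSet_ball Subset.rfl)))
    rw [out _ (hf.isOpen.measurableSet.diff (Finset.measurableSet_biUnion _
      fun a _ => hmeas a _ measurableSet_ball)) disjoint_sdiff_left]
    exact lintegral_mono_set sdiff_subset

end Pool.Agent.P.MP_667fa2_an
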