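import Pool.Agent.P.MP_667fa2_an.FrameR

/-! The model map: small energy on the part with positive Jacobian. -/

namespace Pool.Agent.P.MP_667fa2_an

open Set Filter Topology MeasureTheory Metric
open scoped ENNReal NNReal

variable {n : ℕ} {p : ℝ}

theorem fr_small {a η : ℝ≥0∞} (ha : a ≠ ⊤) (hη : 0 < η) :
    ∃ t : ℝ, 0 < t ∧ t < 1 ∧ a * ENNReal.ofReal t ≤ η := by
  have h1 : Tendsto (fun t : ℝ => a * ENNReal.ofReal t) (𝓝[>] 0) (𝓝 0) := by
    have := ENNReal.Tendsto.const_mul (a := a)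
      ((ENNReal.continuous_ofReal.tendsto 0).mono_left (nhdsWithin_le_nhds (s := Ioi 0)))
      (Or.inr ha)
    simpa using this
  obtain ⟨t, h2, h3⟩ := ((h1.eventually (ge_mem_nhds hη)).and (Ioo_mem_nhdsGT one_pos)).exists
  exact ⟨t, h3.1, h3.2, h2⟩

theorem fr_omega (hp : 1 ≤ p) (hpn : p < n) :
    ∫⁻ y in ball (0 : E n) 1, 1 + ENNReal.ofReal (2 / ‖y‖) ^ p < ⊤ := by
  have h1 : IntegrableOn (fun y : E n => (2 / ‖y‖) ^ p) (ball 0 1) :=
    integrableOn_ball_of_norm_le_rpow (C := 2 ^ p) (α := p)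
      (by rw [Module.finrank_fin_fun]; exact_mod_cast hp.trans hpn.le)
      (by rwa [Module.finrank_fin_fun]) (Eventually.of_forall fun y => by
        rw [Real.norm_of_nonneg (by positivity), Real.div_rpow zero_le_two (norm_nonneg _),
          Real.rpow_neg (norm_nonneg _), div_eq_mul_inv])
      ((measurable_const.div measurable_norm).pow_const p).aestronglyMeasurable
  rw [lintegral_add_left measurable_const, setLIntegral_one]
  refine ENNReal.add_lt_top.2 ⟨measure_ball_lt_top, lt_of_le_of_lt (lintegral_mono fun y => ?_) h1.2⟩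
  rw [ENNReal.ofReal_rpow_of_nonneg (by positivity) (by linarith), Real.enorm_eq_ofReal_abs]
  exact ENNReal.ofReal_le_ofReal (le_abs_self _)

theorem fr_model_norm {A B L L' π : E n →L[ℝ] E n} {ℓ : E n →L[ℝ] ℝ} {v : E n} {δ : ℝ}
    (hδ : 0 < δ) (hL : ‖L‖ ≤ 7) (hL' : ‖L'‖ ≤ 7) (hv : ∀ x, x = π x + ℓ x • v) (hl : ‖ℓ‖ ≤ 1)
    (h : ‖A (L v)‖ ≤ 8 * δ) : ‖A ∘L L ∘L B ∘L L'‖ ≤ 56 * (‖A‖ * ‖π ∘L B‖ + δ * ‖B‖) := by
  have e : A ∘L L ∘L B ∘L L' =
      (A ∘L L ∘L (π ∘L B) + (ℓ ∘L B).smulRight (A (L v))) ∘L L' := by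
    ext1 x
    simp only [ContinuousLinearMap.comp_apply, add_apply, ContinuousLinearMap.smulRight_apply,
      ← map_smul, ← map_add, ← hv]
  have a1 : ‖A ∘L L ∘L (π ∘L B)‖ ≤ ‖A‖ * (7 * ‖π ∘L B‖) :=
    (A.opNorm_comp_le _).trans (mul_le_mul_of_nonneg_left ((L.opNorm_comp_le _).trans
      (mul_le_mul_of_nonneg_right hL (norm_nonneg _))) (norm_nonneg _))
  have a2 : ‖(ℓ ∘L B).smulRight (A (L v))‖ ≤ 1 * ‖B‖ * (8 * δ) := by
    rw [ContinuousLinearMap.norm_smulRight_apply]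
    exact mul_le_mul ((ℓ.opNorm_comp_le _).trans (mul_le_mul_of_nonneg_right hl (norm_nonneg _))) h
      (norm_nonneg _) (by positivity)
  rw [e]
  refine (ContinuousLinearMap.opNorm_comp_le _ _).trans ((mul_le_mul
    ((norm_add_le _ _).trans (add_le_add a1 a2)) hL' (norm_nonneg _) (by positivity)).trans ?_)
  nlinarith [mul_nonneg (norm_nonneg A) (norm_nonneg (π ∘L B))]

theorem fr_model (hp : 1 ≤ p) (hpn : p < n) (hb : BlockStatement n p) {η : ℝ≥0∞} (hη : 0 < η) :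
    ∃ (g : E n ≃ₜ E n) (Ψ : E n → E n →L[ℝ] E n) (W : Set (E n)), Adm p g Ψ W ∧
      ∫⁻ y in W, frEn p Ψ y ≤ 4 * η := by
  have hp0 : 0 ≤ p := by linarith
  have hM := fr_omega hp hpn
  set ω : E n → ℝ≥0∞ := fun y => 1 + ENNReal.ofReal (2 / ‖y‖) ^ p with hω
  set M := ∫⁻ y in ball (0 : E n) 1, ω y with hM'
  set C : ℝ≥0∞ := 56 ^ p * 2 ^ (p - 1) with hC
  have hC' : C ≠ ⊤ := ENNReal.mul_ne_top (ENNReal.rpow_ne_top_of_nonneg hp0 (by simp))
    (ENNReal.rpow_ne_top_of_nonneg (by linarith) (by simp))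
  obtain ⟨t, t0, -, ht⟩ := fr_small (a := 4 * M * (1 + C)) (by finiteness) hη
  obtain ⟨b, Ψ, W, U, v, π, ℓ, b1, b2, b3, b4, b5, b6, b7, b8, -⟩ := hb t t0
  have hMb := b1.fin
  set Mb := ∫⁻ x in ball (0 : E n) 1, ‖Ψ x‖ₑ ^ p with hMb'
  obtain ⟨δ, δ0, δ1, hδ⟩ := fr_small (a := 4 * M * C * Mb) (by finiteness) hη
  obtain ⟨e, e0, e1, he⟩ : ∃ e : ℝ, 0 < e ∧ e < 1 ∧
      ∫⁻ y in closedBall (0 : E n) e, ω y ∂(volume.restrict (ball 0 1)) ≤ η := by
    obtain ⟨d, d0, hd⟩ := exists_pos_setLIntegral_lt_of_measure_lt hM.ne hη.ne'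
    have hn : n ≠ 0 := by
      rintro rfl
      simp at hpn
      linarith
    have h1 : Tendsto (fun e : ℝ => ENNReal.ofReal ((2 * e) ^ n)) (𝓝[>] 0) (𝓝 0) := by
      have : Continuous fun e : ℝ => ENNReal.ofReal ((2 * e) ^ n) :=
        ENNReal.continuous_ofReal.comp (by fun_prop)
      simpa [hn] using (this.tendsto 0).mono_left (nhdsWithin_le_nhds (s := Ioi 0))
    obtain ⟨e, h2, h3⟩ := ((h1.eventually (gt_mem_nhds d0)).and (Ioo_mem_nhdsGT one_pos)).exists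
    refine ⟨e, h3.1, h3.2, (hd _ ((Measure.restrict_apply_le _ _).trans_lt ?_)).le⟩
    rwa [Real.volume_pi_closedBall _ h3.1.le, Fintype.card_fin]
  obtain ⟨g, g1, ⟨K, g2⟩, g3, g4, g5⟩ := fr_radial (n := n) e0 e1 δ0 δ1
  obtain ⟨Φ, V, hA, hΦ⟩ := fr_lip_adm hp g2 g1 g3
  have hle : ∀ B : Set (E n), MeasurableSet B → B ⊆ ball 0 1 →
      ∫⁻ y in B, frEn p Φ y ≤ ∫⁻ y in B, ω y := fun B hB hBQ => by
    have : Nontrivial (E n) := Module.nontrivial_of_finrank_pos (R := ℝ) (by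
      rw [Module.finrank_fin_fun]; exact_mod_cast (show (0 : ℝ) < n by linarith))
    refine setLIntegral_mono_ae' hB ?_
    filter_upwards [Measure.ae_ne volume (0 : E n)] with y hy hyB
    refine add_le_add_right (ENNReal.rpow_le_rpow ?_ hp0) _
    rw [hΦ y (hBQ hyB), ← ofReal_norm]
    exact ENNReal.ofReal_le_ofReal (g4 y (hBQ hyB) hy)
  choose L L1 L2 L3 using fun u => fr_dir v u b5
  have hV1 : IsOpen (V \ closedBall 0 e) := hA.isOpen.sdiff isClosed_closedBall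
  have hπ : Measurable fun y => ‖π ∘L Ψ y‖ₑ ^ p :=
    (fr_meas_comp measurable_const b1.meas).enorm.pow_const p
  have hΨ : Measurable fun y => ‖Ψ y‖ₑ ^ p := b1.meas.enorm.pow_const p
  refine Exists.elim (fr_step hp hA b1 hV1 sdiff_subset L 7 (by norm_num)
    (fun x _ => ⟨L1 x, L2 x⟩) (fun c => {z | ‖Φ z (L c v)‖ ≤ 8 * δ}) (fun c hc => ?_)
    (G := fun y => 1 + C * ‖π ∘L Ψ y‖ₑ ^ p + C * ENNReal.ofReal δ * ‖Ψ y‖ₑ ^ p)
    (((hπ.const_mul _).const_add 1).add (hΨ.const_mul _)) (fun c _ z hz y => ?_) hη) ?_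
  rotate_right
  · rintro h ⟨Φ', V', H, -, -, -, hE, -⟩
    refine ⟨_, _, _, H, hE.trans ?_⟩
    have a1 : ∫⁻ x in V \ (V \ closedBall 0 e), frEn p Φ x ≤ η := by
      rw [Measure.restrict_restrict measurableSet_closedBall] at he
      refine le_trans (lintegral_mono_set fun x hx => ?_) ((hle _
        (measurableSet_closedBall.inter measurableSet_ball) inter_subset_right).trans he)
      exact ⟨by_contra fun h => hx.2 ⟨hx.1, h⟩, hA.sub hx.1⟩
    have a2 : ∫⁻ x in V \ closedBall 0 e, frEn p Φ x ≤ M :=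
      (lintegral_mono_set (sdiff_subset.trans hA.sub)).trans (hle _ measurableSet_ball Subset.rfl)
    have a3 : ∫⁻ y in W, (1 + C * ‖π ∘L Ψ y‖ₑ ^ p + C * ENNReal.ofReal δ * ‖Ψ y‖ₑ ^ p) ≤
        ENNReal.ofReal t + C * ENNReal.ofReal t + C * ENNReal.ofReal δ * Mb := by
      rw [lintegral_add_left ((hπ.const_mul _).const_add 1), lintegral_add_left measurable_const,
        setLIntegral_one, lintegral_const_mul _ hπ, lintegral_const_mul _ hΨ]
      exact add_le_add (add_le_add ((measure_mono b3).trans b4)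
        (mul_le_mul_right ((lintegral_mono_set b3).trans b8) _))
        (mul_le_mul_right (lintegral_mono_set b1.sub) _)
    calc _ ≤ η + η + 4 * (ENNReal.ofReal t + C * ENNReal.ofReal t +
          C * ENNReal.ofReal δ * Mb) * M := by gcongr
      _ = η + η + (4 * M * (1 + C) * ENNReal.ofReal t + 4 * M * C * Mb * ENNReal.ofReal δ) := by
          ring
      _ ≤ η + η + (η + η) := by gcongr
      _ = 4 * η := by ring
  · have c1 : e < ‖c‖ := by simpa using hc.2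
    obtain ⟨s, hs⟩ := L3 c (norm_pos_iff.1 (e0.trans c1))
    have c2 : Φ c (L c v) = δ • L c v := by
      rw [hs, map_smul, hΦ c (hA.sub hc.1), g5 c c1 (mem_ball_zero_iff.1 (hA.sub hc.1))
        ((hA.c1 c hc.1).1.differentiableAt one_ne_zero), smul_comm]
    have c3 : ‖L c v‖ ≤ 7 := by simpa [b5] using (L c : E n →L[ℝ] E n).le_of_opNorm_le (L1 c) v
    refine ((hA.fr_cont hc.1).clm_apply continuousAt_const).norm.eventually (ge_mem_nhds ?_)
    change ‖Φ c (L c v)‖ < 8 * δ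
    rw [c2, norm_smul, Real.norm_of_nonneg δ0.le]
    nlinarith
  · have a1 : ‖Φ z ∘L (L c : E n →L[ℝ] E n) ∘L Ψ y ∘L ((L c).symm : E n →L[ℝ] E n)‖ₑ ≤
        56 * (‖Φ z‖ₑ * ‖π ∘L Ψ y‖ₑ + ENNReal.ofReal δ * ‖Ψ y‖ₑ) := by
      simp only [← ofReal_norm]
      rw [← ENNReal.ofReal_mul (norm_nonneg _), ← ENNReal.ofReal_mul δ0.le,
        ← ENNReal.ofReal_add (by positivity) (by positivity), ← ENNReal.ofReal_ofNat,
        ← ENNReal.ofReal_mul (by norm_num)]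
      exact ENNReal.ofReal_le_ofReal (fr_model_norm δ0 (L1 c) (L2 c) b6 b7 hz)
    have a2 := ((ENNReal.rpow_le_rpow a1 hp0).trans_eq (ENNReal.mul_rpow_of_nonneg _ _ hp0)).trans
      (mul_le_mul_right (ENNReal.rpow_add_le_mul_rpow_add_rpow _ _ hp) _)
    rw [← mul_assoc, ← hC, ENNReal.mul_rpow_of_nonneg _ _ hp0,
      ENNReal.mul_rpow_of_nonneg _ _ hp0] at a2
    have a3 := ENNReal.rpow_le_self_of_le_one (ENNReal.ofReal_le_one.2 δ1.le) hp
    calc _ ≤ 1 + C * (‖Φ z‖ₑ ^ p * ‖π ∘L Ψ y‖ₑ ^ p + ENNReal.ofReal δ * ‖Ψ y‖ₑ ^ p) := by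
          refine add_le_add_right (a2.trans ?_) _
          gcongr
      _ ≤ _ + (C * ‖π ∘L Ψ y‖ₑ ^ p +
          ‖Φ z‖ₑ ^ p * (1 + C * ENNReal.ofReal δ * ‖Ψ y‖ₑ ^ p)) := le_self_add
      _ = _ := by
          simp only [frEn]
          ring

end Pool.Agent.P.MP_667fa2_an
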