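import Pool.Agent.P.MP_667fa2_an.FrameD

/-! The radial starting map. -/

namespace Pool.Agent.P.MP_667fa2_an

open Set Filter Topology MeasureTheory Metric
open scoped ENNReal NNReal

variable {n : ℕ} {p : ℝ}

theorem fr_lip_adm (hp : 1 ≤ p) {g : E n ≃ₜ E n} {K : ℝ≥0} (hK : LipschitzWith K g)
    (hout : ∀ x, x ∉ ball (0 : E n) 1 → g x = x) (hn : AENice (ball 0 1) g) :
    ∃ (Φ : E n → E n →L[ℝ] E n) (V : Set (E n)), Adm p g Φ V ∧
      ∀ x ∈ ball (0 : E n) 1, Φ x = fderiv ℝ g x := by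
  classical
  set Φ : E n → E n →L[ℝ] E n :=
    (ball (0 : E n) 1).piecewise (fderiv ℝ g) fun _ => ContinuousLinearMap.id ℝ (E n) with hΦ
  have h1 : ∀ x ∈ ball (0 : E n) 1, Φ x = fderiv ℝ g x := fun x hx => piecewise_eq_of_mem _ _ _ hx
  have h2 : ∀ x, x ∉ ball (0 : E n) 1 → Φ x = ContinuousLinearMap.id ℝ (E n) :=
    fun x hx => piecewise_eq_of_notMem _ _ _ hx
  refine ⟨Φ, {x | x ∈ ball (0 : E n) 1 ∧ Nice g x ∧ 0 < (fderiv ℝ g x).det},
    ⟨hout, (measurable_fderiv ℝ g).piecewise measurableSet_ball measurable_const, h2,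
      fun ε hε => ⟨_, ⟨_, hK.sub LipschitzWith.id⟩, fun x hx => by simp [hout x hx],
        by simp [hε.le], ?_⟩, ?_, fun x hx => hx.1,
      fun x hx => ⟨hx.2.1.1, h1 x hx.1, h1 x hx.1 ▸ hx.2.2⟩, ?_, ?_⟩, h1⟩
  · refine le_trans (le_of_eq ((lintegral_congr_ae ?_).trans lintegral_zero)) zero_le
    filter_upwards [hK.ae_differentiableAt, measure_eq_zero_iff_ae_notMem.1
      (Measure.addHaar_sphere_of_ne_zero volume (0 : E n) one_ne_zero)] with x hx hs
    have e : fderiv ℝ (fun x => g x - id x) x = fderiv ℝ g x - ContinuousLinearMap.id ℝ (E n) :=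
      (hx.hasFDerivAt.sub (hasFDerivAt_id x)).fderiv
    rw [e]
    by_cases hb : x ∈ ball (0 : E n) 1
    · simp [h1 x hb, ← ofReal_norm]
    · have : (g : E n → E n) =ᶠ[𝓝 x] id := by
        refine mem_of_superset (isClosed_closedBall.isOpen_compl.mem_nhds
          (show x ∈ (closedBall (0 : E n) 1)ᶜ from fun h => ?_))
          fun y hy => hout y fun h => hy (ball_subset_closedBall h)
        exact hs (by rw [← closedBall_sdiff_ball]; exact ⟨h, hb⟩)
      simp [h2 x hb, this.fderiv_eq, ← ofReal_norm]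
  · refine isOpen_iff_mem_nhds.2 fun x hx => ?_
    exact Filter.Eventually.and (isOpen_ball.mem_nhds hx.1) (hx.2.1.eventually.and
      ((ContinuousLinearMap.continuous_det.continuousAt.comp
        (hx.2.1.1.continuousAt_fderiv one_ne_zero)).eventually (lt_mem_nhds hx.2.2)))
  · filter_upwards [hn] with x hx hb hV
    rw [h1 x hb]
    exact lt_of_le_of_ne (not_lt.1 fun h => hV ⟨hb, hx hb, h⟩) (hx hb).det_ne_zero
  · refine (setLIntegral_mono' (g := fun _ => (K : ℝ≥0∞) ^ p) measurableSet_ball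
      fun x hx => ?_).trans_lt ?_
    · rw [h1 x hx, ← ofReal_norm, ← ENNReal.ofReal_coe_nnreal]
      exact ENNReal.rpow_le_rpow (ENNReal.ofReal_le_ofReal (norm_fderiv_le_of_lipschitz ℝ hK))
        (by linarith)
    · rw [setLIntegral_const]
      exact ENNReal.mul_lt_top (ENNReal.rpow_lt_top_of_nonneg (by linarith) ENNReal.coe_ne_top)
        measure_ball_lt_top

theorem fr_ae_norm : ∀ᵐ y : E n, y ≠ 0 → ContDiffAt ℝ 1 (fun z : E n => ‖z‖) y := by
  have h1 : ∀ᵐ y : E n, ∀ i j : Fin n, ∀ σ ∈ ({1, -1} : Set ℝ), i ≠ j → y i ≠ σ * y j := by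
    simp only [ae_all_iff, ae_ball_iff (toFinite ({1, -1} : Set ℝ)).countable]
    intro i j σ _ hij
    have := null_hyperplane (ContinuousLinearMap.proj (R := ℝ) (φ := fun _ : Fin n => ℝ) i -
      σ • ContinuousLinearMap.proj (R := ℝ) (φ := fun _ : Fin n => ℝ) j) (fun h => by
        simpa [hij.symm] using congrArg (fun l : E n →L[ℝ] ℝ => l (Pi.single i 1)) h) 0
    filter_upwards [measure_eq_zero_iff_ae_notMem.1 this] with y hy
    simpa [sub_eq_zero] using hy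
  filter_upwards [h1] with y hy h0
  obtain ⟨i0, hi0⟩ := Function.ne_iff.1 h0
  have : Nonempty (Fin n) := ⟨i0⟩
  obtain ⟨i, hi⟩ := Finite.exists_max fun i => |y i|
  have h2 : ∀ᶠ z : E n in 𝓝 y, ∀ j, |z j| ≤ |z i| := by
    refine eventually_all.2 fun j => ?_
    rcases eq_or_ne j i with rfl | hj
    · exact Eventually.of_forall fun _ => le_rfl
    · refine (ContinuousAt.eventually_lt (f := fun z : E n => |z j|) (g := fun z : E n => |z i|)
        (continuous_apply j).abs.continuousAt (continuous_apply i).abs.continuousAt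
        (lt_of_le_of_ne (hi j) fun h => ?_)).mono fun _ h => h.le
      rcases abs_eq_abs.1 h with h | h
      · exact hy j i 1 (by simp) hj (by simpa using h)
      · exact hy j i (-1) (by simp) hj (by simpa using h)
  refine ((contDiffAt_apply ℝ ℝ i y).abs
    (abs_pos.1 ((abs_pos.2 hi0).trans_le (hi i0)))).congr_of_eventuallyEq (h2.mono fun z hz => ?_)
  exact le_antisymm ((pi_norm_le_iff_of_nonneg (abs_nonneg _)).2 hz) (norm_le_pi_norm z i)

theorem fr_radial {e δ : ℝ} (he : 0 < e) (he1 : e < 1) (hδ : 0 < δ) (hδ1 : δ < 1) :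
    ∃ g : E n ≃ₜ E n, (∀ x, x ∉ ball (0 : E n) 1 → g x = x) ∧ (∃ K, LipschitzWith K g) ∧
      AENice (ball 0 1) g ∧ (∀ y ∈ ball (0 : E n) 1, y ≠ 0 → ‖fderiv ℝ g y‖ ≤ 2 / ‖y‖) ∧
      ∀ y : E n, e < ‖y‖ → ‖y‖ < 1 → DifferentiableAt ℝ g y → fderiv ℝ g y y = δ • y := by
  set c : ℝ → ℝ := fun t => max e (min t 1) with hc
  have c0 : ∀ t, 0 < c t := fun t => he.trans_le (le_max_left _ _)
  have c1 : ∀ t, c t ≤ 1 := fun t => max_le he1.le (min_le_right _ _)
  have c2 : ∀ t, t ≤ 1 → t ≤ c t := fun t ht => le_max_of_le_right (le_min le_rfl ht)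
  have c3 : ∀ t, 1 ≤ t → c t = 1 := fun t ht => by simp [hc, ht, he1.le]
  have c4 : ∀ t t', |c t - c t'| ≤ |t - t'| := fun t t' => by
    simpa [hc, Real.dist_eq] using ((LipschitzWith.id.min_const 1).const_max e).dist_le_mul t t'
  have cc : Continuous c := by fun_prop
  set D : E n → ℝ := fun y => (1 - δ) * ((c ‖y‖)⁻¹ - 1) with hD
  have hm : RayMono (ContinuousLinearMap.id ℝ (E n)) 0 D δ := fun y s s' h0 h1 => by
    have e1 : ∀ s : ℝ, 0 ≤ s → ‖y + (s - 1) • ContinuousLinearMap.id ℝ (E n) (y - 0)‖ = s * ‖y‖ :=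
      fun s hs => by simp [sub_smul, norm_smul, abs_of_nonneg hs]
    simp only [hD, e1 s' h0, e1 s (h0.trans h1)]
    have e2 : s' / c (s' * ‖y‖) ≤ s / c (s * ‖y‖) := by
      rw [div_le_div_iff₀ (c0 _) (c0 _)]
      simp only [hc, mul_max_of_nonneg _ _ h0, mul_max_of_nonneg _ _ (h0.trans h1),
        mul_min_of_nonneg _ _ h0, mul_min_of_nonneg _ _ (h0.trans h1)]
      exact max_le_max (by nlinarith) (min_le_min (le_of_eq (by ring)) (by linarith))
    rw [div_eq_mul_inv, div_eq_mul_inv] at e2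
    nlinarith
  obtain ⟨g, hg⟩ := radial_homeo (ContinuousLinearMap.id ℝ (E n)) (fun _ => rfl) 0 D
    (continuous_const.mul (((cc.comp continuous_norm).inv₀ fun _ => (c0 _).ne').sub
      continuous_const)) hδ hm 1 fun y => by
      rcases le_total ‖y‖ 1 with h | h
      · have h1 : 1 ≤ (c ‖y‖)⁻¹ := (one_le_inv₀ (c0 _)).2 (c1 _)
        have h2 : (c ‖y‖)⁻¹ * ‖y‖ ≤ 1 := by
          rw [inv_mul_le_iff₀ (c0 _)]
          simpa using c2 _ h
        simp only [hD, sub_zero, ContinuousLinearMap.id_apply, norm_smul, Real.norm_eq_abs]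
        rw [abs_of_nonneg (by nlinarith)]
        nlinarith [norm_nonneg y, mul_nonneg hδ.le (mul_nonneg (sub_nonneg.2 h1) (norm_nonneg y))]
      · simp [hD, c3 _ h]
  have hg' : ∀ y, g y = δ • y + (1 - δ) • (c ‖y‖)⁻¹ • y := fun y => by
    rw [hg]
    simp only [hD, sub_zero, ContinuousLinearMap.id_apply]
    module
  have lip : ∀ y y' : E n, ‖y'‖ ≤ 1 → ‖g y' - g y‖ ≤ 2 / c ‖y‖ * ‖y' - y‖ := fun y y' h => by
    have a1 := c0 ‖y‖
    have a2 := c0 ‖y'‖
    have e1 : g y' - g y = δ • (y' - y) + (1 - δ) • ((c ‖y‖)⁻¹ • (y' - y) +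
        ((c ‖y'‖)⁻¹ - (c ‖y‖)⁻¹) • y') := by
      rw [hg', hg']
      module
    have e2 : ‖((c ‖y'‖)⁻¹ - (c ‖y‖)⁻¹) • y'‖ ≤ (c ‖y‖)⁻¹ * ‖y' - y‖ := by
      rw [norm_smul, Real.norm_eq_abs, inv_sub_inv a2.ne' a1.ne', abs_div,
        abs_of_pos (mul_pos a2 a1), div_mul_eq_mul_div, div_le_iff₀ (mul_pos a2 a1)]
      refine (mul_le_mul ((c4 _ _).trans (abs_norm_sub_norm_le _ _)) (c2 _ h) (norm_nonneg _)
        (norm_nonneg _)).trans (le_of_eq ?_)
      rw [norm_sub_rev]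
      field_simp
    have e3 := (norm_add_le ((c ‖y‖)⁻¹ • (y' - y)) _).trans (add_le_add_right e2 _)
    rw [norm_smul, Real.norm_of_nonneg (inv_nonneg.2 a1.le)] at e3
    have h1 : 1 ≤ (c ‖y‖)⁻¹ := (one_le_inv₀ (c0 _)).2 (c1 _)
    rw [e1, div_eq_mul_inv]
    refine (norm_add_le _ _).trans ?_
    rw [norm_smul, norm_smul, Real.norm_of_nonneg hδ.le, Real.norm_of_nonneg (by linarith)]
    nlinarith [mul_le_mul_of_nonneg_left e3 (sub_nonneg.2 hδ1.le), norm_nonneg (y' - y),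
      mul_nonneg hδ.le (mul_nonneg (sub_nonneg.2 h1) (norm_nonneg (y' - y)))]
  have hout : ∀ x : E n, 1 ≤ ‖x‖ → g x = x := fun x hx => by simp [hg, hD, c3 _ hx]
  have cl : ∀ y : E n, e < ‖y‖ → ‖y‖ < 1 → ∀ᶠ z : E n in 𝓝 y, c ‖z‖ = ‖z‖ := fun y h1 h2 => by
    filter_upwards [continuous_norm.continuousAt.eventually (Ioo_mem_nhds h1 h2)] with z hz
    simp [hc, hz.1.le, hz.2.le]
  refine ⟨g, fun x hx => hout x (by simpa using hx), ⟨⟨2 / e, by positivity⟩,
    LipschitzWith.of_dist_le_mul fun y y' => ?_⟩, ?_, fun y hy h0 => ?_, fun y h1 h2 hd => ?_⟩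
  · have aux : ∀ y y' : E n, ‖y'‖ ≤ 1 → dist (g y') (g y) ≤ 2 / e * dist y' y := fun y y' h => by
      rw [dist_eq_norm, dist_eq_norm]
      exact (lip y y' h).trans (mul_le_mul_of_nonneg_right
        (div_le_div_of_nonneg_left zero_le_two he (le_max_left _ _)) (norm_nonneg _))
    rcases le_total ‖y‖ 1 with h | h
    · exact aux y' y h
    rcases le_total ‖y'‖ 1 with h' | h'
    · rw [dist_comm, dist_comm y]
      exact aux y y' h'
    · rw [hout y h, hout y' h']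
      exact le_mul_of_one_le_left dist_nonneg ((one_le_div he).2 (by linarith))
  · filter_upwards [fr_ae_norm, measure_eq_zero_iff_ae_notMem.1
      (Measure.addHaar_sphere_of_ne_zero volume (0 : E n) he.ne')] with y h1 h2 h3
    have hcd : ContDiffAt ℝ 1 (fun z : E n => c ‖z‖) y := by
      rcases lt_or_gt_of_ne (show ‖y‖ ≠ e by simpa using h2) with h | h
      · refine (contDiffAt_const (c := e)).congr_of_eventuallyEq ?_
        filter_upwards [continuous_norm.continuousAt.eventually (gt_mem_nhds h)] with z hz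
        simp [hc, hz.le]
      · exact (h1 (norm_pos_iff.1 (he.trans h))).congr_of_eventuallyEq
          (cl y h (by simpa using h3))
    have hDd : ContDiffAt ℝ 1 D y :=
      contDiffAt_const.mul ((hcd.inv (c0 _).ne').sub contDiffAt_const)
    rw [funext hg]
    exact ⟨contDiffAt_id.add (hDd.smul (by fun_prop)),
      radial_injective _ (fun _ => rfl) 0 D hδ hm (hDd.differentiableAt one_ne_zero)⟩
  · have h1 : PLip g y (2 / c ‖y‖) := by
      filter_upwards [isOpen_ball.mem_nhds hy] with y' hy'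
      exact lip y y' (mem_ball_zero_iff.1 hy').le
    exact (h1.norm_fderiv_le (div_pos two_pos (c0 _)).le).trans (div_le_div_of_nonneg_left
      zero_le_two (norm_pos_iff.2 h0) (c2 _ (mem_ball_zero_iff.1 hy).le))
  · have d0 : HasDerivAt (fun s : ℝ => s • y) y 1 := by simpa using (hasDerivAt_id (1 : ℝ)).smul_const y
    have d1 : HasDerivAt (fun s : ℝ => g (s • y)) (fderiv ℝ g y y) 1 :=
      hd.hasFDerivAt.comp_hasDerivAt_of_eq 1 d0 (by simp)
    have d2 : HasDerivAt (fun s : ℝ => δ • s • y + (1 - δ) • ‖y‖⁻¹ • y) (δ • y) 1 :=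
      (d0.const_smul δ).add_const _
    refine d1.unique (d2.congr_of_eventuallyEq ?_)
    have t : Tendsto (fun s : ℝ => s • y) (𝓝 1) (𝓝 y) := by simpa using d0.continuousAt.tendsto
    filter_upwards [t.eventually (cl y h1 h2), lt_mem_nhds one_pos] with s a1 a2
    rw [hg', a1, norm_smul, Real.norm_of_nonneg a2.le, smul_smul (_⁻¹) s, mul_inv,
      mul_right_comm, inv_mul_cancel₀ a2.ne', one_mul]

theorem fr_dir (v u : E n) (hv : ‖v‖ = 1) : ∃ L : E n ≃L[ℝ] E n,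
    ‖(L : E n →L[ℝ] E n)‖ ≤ 7 ∧ ‖(L.symm : E n →L[ℝ] E n)‖ ≤ 7 ∧ (u ≠ 0 → ∃ t : ℝ, L v = t • u) := by
  by_cases hu : u = 0
  · exact ⟨ContinuousLinearEquiv.refl ℝ _, ContinuousLinearMap.norm_id_le.trans (by norm_num),
      ContinuousLinearMap.norm_id_le.trans (by norm_num), fun h => absurd hu h⟩
  have hu' : ‖‖u‖⁻¹ • u‖ = 1 := norm_smul_inv_norm (𝕜 := ℝ) hu
  set u' := ‖u‖⁻¹ • u with hu''
  obtain ⟨a, a1, a2⟩ := exists_dual_vector'' ℝ v
  obtain ⟨b, b1, b2⟩ := exists_dual_vector'' ℝ u'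
  obtain ⟨ψ, h1, h2, h3⟩ : ∃ ψ : E n →L[ℝ] ℝ, ‖ψ‖ ≤ 3 ∧ 1 ≤ |ψ v| ∧ 1 ≤ |ψ u'| := by
    have := abs_le.1 (show |a u'| ≤ 1 by simpa [hu'] using a.le_of_opNorm_le a1 u')
    have h2 : ‖(2 : ℝ) • b‖ ≤ 2 := by rw [norm_smul]; norm_num; linarith
    rcases le_total 0 (b v) with h | h
    · refine ⟨a + (2 : ℝ) • b, (norm_add_le _ _).trans (by linarith), le_abs.2 (Or.inl ?_),
        le_abs.2 (Or.inl ?_)⟩ <;> simp [a2, b2, hv, hu'] <;> linarith
    · refine ⟨a - (2 : ℝ) • b, (norm_sub_le _ _).trans (by linarith), le_abs.2 (Or.inl ?_),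
        le_abs.2 (Or.inr ?_)⟩ <;> simp [a2, b2, hv, hu'] <;> linarith
  have h4 : ψ v ≠ 0 := abs_pos.1 (by linarith)
  have h5 : ψ u' ≠ 0 := abs_pos.1 (by linarith)
  set w := (ψ u')⁻¹ • u' - (ψ v)⁻¹ • v with hw
  have h6 : ψ w = 0 := by simp [hw, h4, h5]
  have h7 : ‖ψ.smulRight w‖ ≤ 6 := by
    have : ‖w‖ ≤ 2 := (norm_sub_le _ _).trans (by
      rw [norm_smul, norm_smul _ v, hu', hv, norm_inv, norm_inv, Real.norm_eq_abs, Real.norm_eq_abs]
      linarith [inv_le_one_of_one_le₀ h2, inv_le_one_of_one_le₀ h3])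
    rw [ContinuousLinearMap.norm_smulRight_apply]
    nlinarith [norm_nonneg ψ, norm_nonneg w]
  have h8 := ContinuousLinearMap.norm_id_le (𝕜 := ℝ) (E := E n)
  refine ⟨ContinuousLinearEquiv.equivOfInverse (ContinuousLinearMap.id ℝ _ + ψ.smulRight w)
    (ContinuousLinearMap.id ℝ _ - ψ.smulRight w) (fun x => by simp [h6]) (fun x => by simp [h6]),
    (norm_add_le _ _).trans (by linarith), (norm_sub_le _ _).trans (by linarith),
    fun _ => ⟨ψ v * (ψ u')⁻¹ * ‖u‖⁻¹, ?_⟩⟩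
  rw [mul_smul, ← hu'']
  simp [hw, smul_sub, smul_smul _ _ u', smul_smul _ _ v, h4]

end Pool.Agent.P.MP_667fa2_an
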