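import Pool.Agent.P.MP_667fa2_an.Basic

/-! Homeomorphisms that preserve a family of rays or lines; the Vitali filling lemma. -/

namespace Pool.Agent.P.MP_667fa2_an

open Set Filter Topology MeasureTheory Metric
open scoped ENNReal NNReal

variable {n : ℕ}

/-- Monotonicity along the rays of the radial map `y ↦ y + D y • P (y - a)`. -/
def RayMono (P : E n →L[ℝ] E n) (a : E n) (D : E n → ℝ) (b : ℝ) : Prop :=
  ∀ (y : E n) (s s' : ℝ), 0 ≤ s' → s' ≤ s → b * (s - s') ≤
    s * (1 + D (y + (s - 1) • P (y - a))) - s' * (1 + D (y + (s' - 1) • P (y - a)))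

theorem RayMono.le {P : E n →L[ℝ] E n} {a : E n} {D : E n → ℝ} {b : ℝ} (h : RayMono P a D b)
    (y : E n) : b ≤ 1 + D y := by
  simpa using h y 1 0 le_rfl zero_le_one

theorem ray_P {P : E n →L[ℝ] E n} (hP : ∀ y, P (P y) = P y) (a y : E n) (t : ℝ) :
    P (y + t • P (y - a) - a) = (1 + t) • P (y - a) := by
  have : y + t • P (y - a) - a = (y - a) + t • P (y - a) := by abel
  rw [this, map_add, map_smul, hP, add_smul, one_smul]

theorem radial_homeo (P : E n →L[ℝ] E n) (hP : ∀ y, P (P y) = P y) (a : E n) (D : E n → ℝ)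
    (hD : Continuous D) {b : ℝ} (hb : 0 < b) (hm : RayMono P a D b) (M : ℝ)
    (hM : ∀ y, ‖D y • P (y - a)‖ ≤ M) : ∃ F : E n ≃ₜ E n, ∀ y, F y = y + D y • P (y - a) := by
  refine homeo_of_bij _ (by fun_prop) ?_ ?_ M (fun y => by simpa [dist_eq_norm] using hM y)
  · intro y y' h
    simp only at h
    have hy := hb.trans_le (hm.le y)
    have hy' := hb.trans_le (hm.le y')
    have h1 : (1 + D y) • P (y - a) = (1 + D y') • P (y' - a) := by
      rw [← ray_P hP, ← ray_P hP, h]
    set s := (1 + D y) / (1 + D y') with hs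
    have h2 : P (y' - a) = s • P (y - a) := by
      rw [hs, div_eq_inv_mul, mul_smul, h1, smul_smul, inv_mul_cancel₀ hy'.ne', one_smul]
    have hs' : s * (1 + D y') = 1 + D y := by rw [hs]; field_simp
    have h3 : y' = y + (s - 1) • P (y - a) := by
      have h4 : y' = y + D y • P (y - a) - D y' • P (y' - a) := by rw [h]; abel
      rw [h4, h2, smul_smul, add_sub_assoc, ← sub_smul]
      congr 2
      linarith
    have hs0 : 0 < s := div_pos hy hy'
    have h5 : s = 1 := by
      rcases le_total s 1 with h6 | h6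
      · have := hm y 1 s hs0.le h6
        rw [← h3] at this
        simp only [sub_self, zero_smul, add_zero, one_mul] at this
        nlinarith
      · have := hm y s 1 zero_le_one h6
        rw [← h3] at this
        simp only [sub_self, zero_smul, add_zero, one_mul] at this
        nlinarith
    rw [h3, h5]; simp
  · intro w
    have hc : Continuous fun s : ℝ => s * (1 + D (w + (s - 1) • P (w - a))) := by fun_prop
    have h1 : (1 : ℝ) ∈ Icc ((0 : ℝ) * (1 + D (w + ((0 : ℝ) - 1) • P (w - a))))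
        (b⁻¹ * (1 + D (w + (b⁻¹ - 1) • P (w - a)))) := by
      have := hm w b⁻¹ 0 le_rfl (inv_nonneg.2 hb.le)
      rw [sub_zero, mul_inv_cancel₀ hb.ne'] at this
      constructor <;> linarith
    obtain ⟨s, -, hs⟩ := intermediate_value_Icc (inv_nonneg.2 hb.le) hc.continuousOn h1
    refine ⟨w + (s - 1) • P (w - a), ?_⟩
    simp only at hs ⊢
    rw [ray_P hP, smul_smul, add_assoc, ← add_smul]
    have : s - 1 + D (w + (s - 1) • P (w - a)) * (1 + (s - 1)) = 0 := by linarith
    rw [this]; simp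

theorem radial_injective (P : E n →L[ℝ] E n) (hP : ∀ y, P (P y) = P y) (a : E n) (D : E n → ℝ)
    {b : ℝ} (hb : 0 < b) (hm : RayMono P a D b) {y : E n} (hD : DifferentiableAt ℝ D y) :
    Function.Injective (fderiv ℝ (fun y => y + D y • P (y - a)) y) := by
  have h0 : HasFDerivAt (fun y => P (y - a)) P y := by
    simpa using P.hasFDerivAt.comp y ((hasFDerivAt_id y).sub_const a)
  have h1 := (hasFDerivAt_id y).add (hD.hasFDerivAt.smul h0)
  have h1' : HasFDerivAt (fun y => y + D y • P (y - a)) _ y := h1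
  rw [h1'.fderiv, injective_iff_map_eq_zero]
  intro ξ hξ
  set u := P (y - a) with hu
  have hξ' : ξ + (D y • P ξ + fderiv ℝ D y ξ • u) = 0 := by simpa using hξ
  have hy := hb.trans_le (hm.le y)
  have hPu : P u = u := hP _
  have h2 : P ξ = ξ := by
    have h3 : ξ = -(D y • P ξ + fderiv ℝ D y ξ • u) := eq_neg_of_add_eq_zero_left hξ'
    have h4 : P ξ = -(D y • P ξ + fderiv ℝ D y ξ • u) := by
      conv_lhs => rw [h3]
      rw [map_neg, map_add, map_smul, map_smul, hP, hPu]
    rw [h4, ← h3]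
  rw [h2] at hξ'
  have h5 : ξ = (-(fderiv ℝ D y ξ) / (1 + D y)) • u := by
    have h6 : (1 + D y) • ξ = (-(fderiv ℝ D y ξ)) • u := by
      rw [add_smul, one_smul, neg_smul]
      exact eq_neg_of_add_eq_zero_left (by rw [add_assoc]; exact hξ')
    rw [div_eq_inv_mul, mul_smul, ← h6, smul_smul, inv_mul_cancel₀ hy.ne', one_smul]
  by_cases hc : (-(fderiv ℝ D y ξ) / (1 + D y)) = 0
  · rw [h5, hc, zero_smul]
  have h7 : u = 0 := by
    refine injective_of_line h1' hb ?_ ?_
    · filter_upwards [self_mem_nhdsWithin] with s hs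
      have hs : 0 < s := hs
      have h8 := hm y (1 + s) 1 zero_le_one (by linarith)
      simp only [add_sub_cancel_left, sub_self, zero_smul, add_zero, one_mul] at h8
      have h9 : y + s • u + D (y + s • u) • P (y + s • u - a) - (y + D y • u) =
          ((1 + s) * (1 + D (y + s • u)) - (1 + D y)) • u := by
        rw [hu, ray_P hP, smul_smul]
        module
      rw [h9, norm_smul, Real.norm_eq_abs]
      exact mul_le_mul_of_nonneg_right (h8.trans (le_abs_self _)) (norm_nonneg _)
    · rw [h5, map_smul] at hξ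
      exact (smul_eq_zero.1 hξ).resolve_left hc
  rw [h5, h7, smul_zero]

/-- Monotonicity along the lines of the shear `y ↦ y + ψ y • v`. -/
def LineMono (v : E n) (ψ : E n → ℝ) (b : ℝ) : Prop :=
  ∀ (y : E n) (s s' : ℝ), s' ≤ s → b * (s - s') ≤ (s + ψ (y + s • v)) - (s' + ψ (y + s' • v))

theorem shear_homeo (v : E n) (ψ : E n → ℝ) (hψ : Continuous ψ) {b : ℝ} (hb : 0 < b)
    (hm : LineMono v ψ b) (M : ℝ) (hM : ∀ y, |ψ y| ≤ M) :
    ∃ F : E n ≃ₜ E n, ∀ y, F y = y + ψ y • v := by
  refine homeo_of_bij _ (by fun_prop) ?_ ?_ (M * ‖v‖) (fun y => ?_)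
  · intro y y' h
    simp only at h
    set s := ψ y - ψ y' with hs
    have h3 : y' = y + s • v := by
      have h4 : y' = y + ψ y • v - ψ y' • v := by rw [h]; abel
      rw [h4, hs, sub_smul]; abel
    have h5 : s = 0 := by
      rcases le_total s 0 with h6 | h6
      · have := hm y 0 s h6
        rw [← h3] at this
        simp only [zero_smul, add_zero] at this
        nlinarith
      · have := hm y s 0 h6
        rw [← h3] at this
        simp only [zero_smul, add_zero] at this
        nlinarith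
    rw [h3, h5]; simp
  · intro w
    have hc : Continuous fun s : ℝ => s + ψ (w + s • v) := by fun_prop
    have hM0 : 0 ≤ M := (abs_nonneg _).trans (hM 0)
    have h1 : (0 : ℝ) ∈ Icc (-M + ψ (w + (-M) • v)) (M + ψ (w + M • v)) := by
      have h2 := abs_le.1 (hM (w + (-M) • v))
      have h3 := abs_le.1 (hM (w + M • v))
      constructor <;> linarith
    obtain ⟨s, -, hs⟩ := intermediate_value_Icc (by linarith) hc.continuousOn h1
    refine ⟨w + s • v, ?_⟩
    simp only at hs ⊢
    rw [add_assoc, ← add_smul, hs]; simp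
  · rw [dist_eq_norm, add_sub_cancel_left, norm_smul]
    exact mul_le_mul_of_nonneg_right (hM y) (norm_nonneg _)

theorem shear_injective (v : E n) (ψ : E n → ℝ) {b : ℝ} (hb : 0 < b) (hm : LineMono v ψ b)
    {y : E n} (hψ : DifferentiableAt ℝ ψ y) :
    Function.Injective (fderiv ℝ (fun y => y + ψ y • v) y) := by
  have h1 : HasFDerivAt (fun y => y + ψ y • v) _ y :=
    (hasFDerivAt_id y).add (hψ.hasFDerivAt.smul_const v)
  rw [h1.fderiv, injective_iff_map_eq_zero]
  intro ξ hξ
  have hξ' : ξ + fderiv ℝ ψ y ξ • v = 0 := by simpa using hξ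
  have h5 : ξ = (-(fderiv ℝ ψ y ξ)) • v := by
    rw [neg_smul]; exact eq_neg_of_add_eq_zero_left hξ'
  by_cases hc : -(fderiv ℝ ψ y ξ) = 0
  · rw [h5, hc, zero_smul]
  have h7 : v = 0 := by
    refine injective_of_line h1 hb ?_ ?_
    · filter_upwards [self_mem_nhdsWithin] with s hs
      have hs : 0 < s := hs
      have h8 := hm y s 0 hs.le
      simp only [sub_zero, zero_smul, add_zero, zero_add] at h8
      have h9 : y + s • v + ψ (y + s • v) • v - (y + ψ y • v) =
          (s + ψ (y + s • v) - ψ y) • v := by module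
      rw [h9, norm_smul, Real.norm_eq_abs]
      exact mul_le_mul_of_nonneg_right (h8.trans (le_abs_self _)) (norm_nonneg _)
    · rw [h5, map_smul] at hξ
      exact (smul_eq_zero.1 hξ).resolve_left hc
  rw [h5, h7, smul_zero]

/-- The parallelepiped `c + r • L (closedBall 0 1)`. -/
def patch (L : E n ≃L[ℝ] E n) (c : E n) (r : ℝ) : Set (E n) :=
  (fun y => c + r • L y) '' closedBall (0 : E n) 1

theorem mem_patch {L : E n ≃L[ℝ] E n} {c : E n} {r : ℝ} (hr : 0 < r) {x : E n} :
    x ∈ patch L c r ↔ ‖L.symm (x - c)‖ ≤ r := by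
  constructor
  · rintro ⟨y, hy, rfl⟩
    simp only [add_sub_cancel_left, map_smul, ContinuousLinearEquiv.symm_apply_apply, norm_smul,
      Real.norm_eq_abs, abs_of_pos hr]
    rw [mem_closedBall_zero_iff] at hy
    nlinarith
  · intro h
    refine ⟨r⁻¹ • L.symm (x - c), ?_, ?_⟩
    · rw [mem_closedBall_zero_iff, norm_smul, norm_inv, Real.norm_eq_abs, abs_of_pos hr,
        inv_mul_le_iff₀ hr]
      simpa using h
    · simp [smul_smul, mul_inv_cancel₀ hr.ne']

/-- Vitali filling of an open set by finitely many disjoint small parallelepipeds of bounded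
eccentricity; the shape `L x` and the size bound `δ x` may depend on the centre `x`. -/
theorem fill (V : Set (E n)) (hV : IsOpen V) (ν : Measure (E n)) (hν : ν ≪ volume)
    (hfin : ν V ≠ ⊤) (L : E n → E n ≃L[ℝ] E n) (Λ : ℝ) (hΛ : 1 ≤ Λ)
    (hL : ∀ x ∈ V, ‖(L x : E n →L[ℝ] E n)‖ ≤ Λ ∧ ‖((L x).symm : E n →L[ℝ] E n)‖ ≤ Λ)
    (δ : E n → ℝ) (hδ : ∀ x ∈ V, 0 < δ x) (ε : ℝ≥0∞) (hε : 0 < ε) :
    ∃ s : Finset (E n × ℝ), (∀ a ∈ s, a.1 ∈ V ∧ 0 < a.2 ∧ a.2 ≤ δ a.1 ∧
        patch (L a.1) a.1 a.2 ⊆ V ∩ ball a.1 (δ a.1)) ∧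
      (s : Set (E n × ℝ)).PairwiseDisjoint (fun a => patch (L a.1) a.1 a.2) ∧
      ν (V \ ⋃ a ∈ s, patch (L a.1) a.1 a.2) ≤ ε := by
  have hΛ0 : 0 < Λ := by linarith
  set t : Set (E n × ℝ) := {a | a.1 ∈ V ∧ 0 < a.2 ∧ a.2 ≤ δ a.1 ∧
    patch (L a.1) a.1 a.2 ⊆ V ∩ ball a.1 (δ a.1)} with ht
  have hsub : ∀ x ∈ V, ∀ r, 0 < r → patch (L x) x r ⊆ closedBall x (Λ * r) := by
    intro x hx r hr y hy
    rw [mem_patch hr] at hy
    rw [mem_closedBall, dist_eq_norm]
    have h1 := (L x : E n →L[ℝ] E n).le_opNorm ((L x).symm (y - x))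
    simp only [ContinuousLinearEquiv.coe_coe, ContinuousLinearEquiv.apply_symm_apply] at h1
    exact h1.trans (mul_le_mul (hL x hx).1 hy (norm_nonneg _) hΛ0.le)
  have hsup : ∀ x ∈ V, ∀ r, 0 < r → closedBall x (r / Λ) ⊆ patch (L x) x r := by
    intro x hx r hr y hy
    rw [mem_patch hr]
    rw [mem_closedBall, dist_eq_norm, le_div_iff₀ hΛ0] at hy
    have h1 := ((L x).symm : E n →L[ℝ] E n).le_opNorm (y - x)
    simp only [ContinuousLinearEquiv.coe_coe] at h1
    nlinarith [mul_le_mul_of_nonneg_right (hL x hx).2 (norm_nonneg (y - x))]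
  have hcl : ∀ x r, IsClosed (patch (L x) x r) := fun x r =>
    ((isCompact_closedBall _ _).image (by fun_prop)).isClosed
  obtain ⟨u, hut, huc, hud, hu0⟩ := Vitali.exists_disjoint_covering_ae (volume : Measure (E n)) V t
    ((3 * Λ ^ 2) ^ n).toNNReal (fun a => Λ * a.2) (fun a => a.1)
    (fun a => patch (L a.1) a.1 a.2) (fun a ha => hsub _ ha.1 _ ha.2.1)
    (fun a ha => by
      have hr := ha.2.1
      refine le_trans ?_ (mul_le_mul_right (measure_mono (hsup _ ha.1 _ hr)) _)
      rw [Real.volume_pi_closedBall _ (by positivity), Real.volume_pi_closedBall _ (by positivity)]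
      change _ ≤ ENNReal.ofReal _ * _
      rw [← ENNReal.ofReal_mul (by positivity), Fintype.card_fin, ← mul_pow]
      apply le_of_eq
      congr 2
      field_simp)
    (fun a ha => ⟨a.1, mem_interior_iff_mem_nhds.2 (mem_of_superset
      (closedBall_mem_nhds _ (div_pos ha.2.1 hΛ0)) (hsup _ ha.1 _ ha.2.1))⟩)
    (fun a _ => hcl _ _)
    (fun x hx e he => by
      obtain ⟨ρ, hρ, hρV⟩ := Metric.isOpen_iff.1 (hV.inter (isOpen_ball (x := x) (ε := δ x))) x
        ⟨hx, mem_ball_self (hδ x hx)⟩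
      have hδx := hδ x hx
      set r := min (min e (ρ / 2)) (δ x) / Λ with hr
      have hr0 : 0 < r := by positivity
      have hr1 : Λ * r = min (min e (ρ / 2)) (δ x) := by rw [hr]; field_simp
      refine ⟨(x, r), ⟨hx, hr0, ?_, ?_⟩, ?_, rfl⟩
      · have := min_le_right (min e (ρ / 2)) (δ x)
        nlinarith
      · refine (hsub x hx r hr0).trans (Subset.trans (closedBall_subset_ball ?_) hρV)
        rw [hr1]
        exact ((min_le_left _ _).trans (min_le_right _ _)).trans_lt (by linarith)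
      · simp only [hr1]
        exact (min_le_left _ _).trans (min_le_left _ _))
  have hmeas : ∀ a : E n × ℝ, MeasurableSet (patch (L a.1) a.1 a.2) :=
    fun a => (hcl _ _).measurableSet
  by_cases hu : u = ∅
  · refine ⟨∅, by simp, by simp, ?_⟩
    have : ν (V \ ⋃ a ∈ u, patch (L a.1) a.1 a.2) = 0 := hν hu0
    rw [hu] at this
    simp only [mem_empty_iff_false, iUnion_of_empty, iUnion_empty, sdiff_empty] at this
    simp [this]
  obtain ⟨e, he⟩ := huc.exists_eq_range (nonempty_iff_ne_empty.2 hu)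
  have hlim : Tendsto (fun N => ν (V \ ⋃ k ∈ Finset.range N, patch (L (e k).1) (e k).1 (e k).2))
      atTop (𝓝 (ν (⋂ N, V \ ⋃ k ∈ Finset.range N, patch (L (e k).1) (e k).1 (e k).2))) := by
    refine tendsto_measure_iInter_atTop (fun N => ?_) (fun N N' h => ?_) ⟨0, ?_⟩
    · exact (hV.measurableSet.diff
        (Finset.measurableSet_biUnion _ fun k _ => hmeas _)).nullMeasurableSet
    · refine sdiff_subset_sdiff_right ?_
      exact biUnion_subset_biUnion_left (Finset.coe_subset.2 (Finset.range_mono h))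
    · exact ne_top_of_le_ne_top hfin (measure_mono sdiff_subset)
  have h0 : ν (⋂ N, V \ ⋃ k ∈ Finset.range N, patch (L (e k).1) (e k).1 (e k).2) = 0 := by
    refine hν (measure_mono_null ?_ hu0)
    intro x hx
    rw [mem_iInter] at hx
    refine ⟨(hx 0).1, fun h => ?_⟩
    rw [he] at h
    simp only [mem_range, iUnion_exists, iUnion_iUnion_eq', mem_iUnion] at h
    obtain ⟨k, hk⟩ := h
    exact (hx (k + 1)).2 (mem_iUnion₂.2 ⟨k, Finset.self_mem_range_succ k, hk⟩)
  rw [h0] at hlim
  obtain ⟨N, hN⟩ := (hlim.eventually (ge_mem_nhds hε)).exists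
  classical
  have hsu : (((Finset.range N).image e : Finset (E n × ℝ)) : Set (E n × ℝ)) ⊆ u := by
    rw [he]; intro a ha
    simp only [Finset.coe_image, mem_image] at ha
    obtain ⟨k, -, rfl⟩ := ha
    exact mem_range_self k
  refine ⟨(Finset.range N).image e, fun a ha => hut (hsu ha), hud.subset hsu, ?_⟩
  rw [Finset.set_biUnion_finset_image]
  exact hN

end Pool.Agent.P.MP_667fa2_an
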