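import Pool.Agent.P.MP_667fa2_an.Block
import Pool.Agent.P.MP_667fa2_an.Frame

/-! Transfer to Euclidean space and the unit cube. -/

namespace Pool.Agent.P.MP_667fa2_an

open Set Filter Topology MeasureTheory Metric
open scoped ENNReal ContDiff

theorem exists_map (n : ℕ) (hn : 4 ≤ n) (p : ℝ) (hp : 1 ≤ p) (hpn : p < ((n / 2 : ℕ) : ℝ)) (R : ℝ)
    (hR : {x : EuclideanSpace ℝ (Fin n) | ∀ i, 0 ≤ x i ∧ x i ≤ 1} ⊆ ball 0 R) :
    ∃ (f : closedBall (0 : EuclideanSpace ℝ (Fin n)) R ≃ₜ
        closedBall (0 : EuclideanSpace ℝ (Fin n)) R)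
      (F : EuclideanSpace ℝ (Fin n) → EuclideanSpace ℝ (Fin n))
      (D : EuclideanSpace ℝ (Fin n) → Matrix (Fin n) (Fin n) ℝ),
      (∀ x, (f x : EuclideanSpace ℝ (Fin n)) = F x) ∧ (∀ x ∈ sphere 0 R, F x = x) ∧
      (∀ i, MemLp (fun x => F x i) (ENNReal.ofReal p) (volume.restrict (ball 0 R))) ∧
      (∀ i j, MemLp (fun x => D x i j) (ENNReal.ofReal p) (volume.restrict (ball 0 R))) ∧
      (∀ (i j : Fin n) (φ : EuclideanSpace ℝ (Fin n) → ℝ), ContDiff ℝ ∞ φ →
        HasCompactSupport φ → tsupport φ ⊆ ball 0 R →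
        ∫ x in ball 0 R, F x i * fderiv ℝ φ x (EuclideanSpace.single j 1) =
          -∫ x in ball 0 R, D x i j * φ x) ∧
      ∀ᵐ x : EuclideanSpace ℝ (Fin n), (∀ i, 0 ≤ x i ∧ x i ≤ 1) → (D x).det < 0 := by
  obtain ⟨g, Φ, h⟩ := exists_adm_empty (n := n) hp
    (hpn.trans_le (by exact_mod_cast Nat.div_le_self n 2))
    (block (m := n / 2) (by omega) (by omega) hp hpn)
  set e := EuclideanSpace.equiv (Fin n) ℝ with he
  obtain ⟨a, ha1, c, hc, hmap⟩ : ∃ a : EuclideanSpace ℝ (Fin n) ≃ₜ E n,
      (∀ x i, a x i = 2 * x i - 1) ∧ ∃ c : ℝ≥0∞, c ≠ ⊤ ∧ Measure.map a volume = c • volume := by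
    set a : EuclideanSpace ℝ (Fin n) ≃ₜ E n := e.toHomeomorph.trans
      ((Homeomorph.smulOfNeZero (2 : ℝ) two_ne_zero).trans (Homeomorph.subRight 1))
    refine ⟨a, fun x i => rfl, _,
      ENNReal.ofReal_ne_top (r := |((2 : ℝ) ^ Module.finrank ℝ (E n))⁻¹|), ?_⟩
    have h1 : (a : EuclideanSpace ℝ (Fin n) → E n) =
        (fun y => y - 1) ∘ (fun y => (2 : ℝ) • y) ∘ WithLp.ofLp := rfl
    rw [h1, ← Measure.map_map (by fun_prop) (by fun_prop),
      ← Measure.map_map (by fun_prop) (by fun_prop), (PiLp.volume_preserving_ofLp _).map_eq,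
      Measure.map_addHaar_smul _ two_ne_zero, Measure.map_smul, map_sub_right_eq_self]
  have ha2 : ∀ y, a.symm y = e.symm ((2 : ℝ)⁻¹ • (y + 1)) := fun y => by
    rw [Homeomorph.symm_apply_eq]
    ext i
    rw [ha1]
    simp [he]
    ring
  have hint : ∀ u : E n → ℝ, ∫ x, u (a x) = c.toReal * ∫ y, u y := fun u => by
    rw [← a.measurableEmbedding.integral_map, hmap, integral_smul_measure, smul_eq_mul]
  set F := a.trans (g.trans a.symm) with hF
  have hF0 : ∀ x, x ∉ ball 0 R → F x = x := fun x hx => by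
    have h1 : a x ∉ ball 0 1 := fun h1 => hx (hR fun i => by
      have h2 := (norm_le_pi_norm (a x) i).trans_lt (mem_ball_zero_iff.1 h1)
      rw [ha1, Real.norm_eq_abs, abs_lt] at h2
      constructor <;> linarith [h2.1, h2.2])
    simp [hF, h.out _ h1]
  have hF1 : closedBall 0 R = F ⁻¹' closedBall 0 R := by
    ext x
    refine ⟨fun hx => by_contra fun h1 => h1 ?_, fun hx => by_contra fun h1 => h1 ?_⟩
    · have h3 := hF0 (F x) fun h2 => h1 (mem_preimage.2 (ball_subset_closedBall h2))
      rwa [mem_preimage, F.injective h3]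
    · rwa [mem_preimage, hF0 x fun h2 => h1 (ball_subset_closedBall h2)] at hx
  have hFi : ∀ x i, F x i = 2⁻¹ * (g (a x) i + 1) := fun x i => by
    rw [hF, Homeomorph.trans_apply, Homeomorph.trans_apply, ha2]
    simp [he]
    ring
  have hfin : IsFiniteMeasure (volume.restrict (ball (0 : EuclideanSpace ℝ (Fin n)) R)) :=
    isFiniteMeasure_restrict.2 measure_ball_lt_top.ne
  have hp0 : 0 < p := by linarith
  refine ⟨F.sets hF1, F, fun x => LinearMap.toMatrix' (Φ (a x) : E n →ₗ[ℝ] E n), fun x => rfl,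
    fun x hx => hF0 x fun h1 => (mem_ball.1 h1).ne (mem_sphere.1 hx), fun i => ?_,
    fun i j => ?_, fun i j φ hφ hφc hφs => ?_, ?_⟩
  · refine MemLp.of_bound (Continuous.aestronglyMeasurable (by fun_prop)) R ?_
    filter_upwards [ae_restrict_mem measurableSet_ball] with x hx
    refine (PiLp.norm_apply_le _ i).trans (mem_closedBall_zero_iff.1 ?_)
    exact hF1.subset (ball_subset_closedBall hx)
  · simp only [LinearMap.toMatrix'_apply, ContinuousLinearMap.coe_coe]
    have hm : Measurable fun x => Φ (a x) := h.meas.comp a.continuous.measurable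
    refine ⟨((by fun_prop : Continuous fun B : E n →L[ℝ] E n =>
      B (Pi.single j 1) i).measurable.comp hm).aestronglyMeasurable, ?_⟩
    rw [eLpNorm_lt_top_iff_lintegral_rpow_enorm_lt_top (by simpa using hp0) ENNReal.ofReal_ne_top,
      ENNReal.toReal_ofReal hp0.le]
    have hm' : Measurable ((ball (0 : E n) 1).indicator fun y => ‖Φ y‖ₑ ^ p) :=
      (h.meas.enorm.pow_const p).indicator measurableSet_ball
    calc _ ≤ ∫⁻ x in ball 0 R, 1 + (ball (0 : E n) 1).indicator (fun y => ‖Φ y‖ₑ ^ p) (a x) := by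
          refine lintegral_mono fun x => ?_
          have h1 : ‖Φ (a x) (Pi.single j 1) i‖ ≤ ‖Φ (a x)‖ :=
            (norm_le_pi_norm _ i).trans (((Φ (a x)).le_opNorm _).trans (by simp [Pi.norm_single]))
          have h2 : ‖Φ (a x) (Pi.single j 1) i‖ₑ ^ p ≤ ‖Φ (a x)‖ₑ ^ p := by
            gcongr
            simp only [← ofReal_norm]
            exact ENNReal.ofReal_le_ofReal h1
          refine h2.trans ?_
          by_cases hx : a x ∈ ball 0 1
          · rw [indicator_of_mem hx]
            exact le_add_self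
          · rw [h.outD _ hx]
            refine le_trans (ENNReal.rpow_le_one ?_ hp0.le) le_self_add
            rw [← ofReal_norm]
            exact ENNReal.ofReal_le_one.2 ContinuousLinearMap.norm_id_le
      _ < ⊤ := by
          rw [lintegral_add_left measurable_const, lintegral_one]
          refine ENNReal.add_lt_top.2 ⟨measure_lt_top _ _,
            (setLIntegral_le_lintegral _ _).trans_lt ?_⟩
          rw [← lintegral_map hm' a.continuous.measurable, hmap, lintegral_smul_measure,
            lintegral_indicator measurableSet_ball, smul_eq_mul]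
          exact ENNReal.mul_lt_top hc.lt_top h.fin
  · simp only [LinearMap.toMatrix'_apply, ContinuousLinearMap.coe_coe]
    have hφ1 : ContDiff ℝ 1 φ := hφ.of_le (by exact_mod_cast le_top)
    set ψ : E n → ℝ := fun y => φ (a.symm y) with hψ
    have hd : ∀ y, HasFDerivAt a.symm
        ((2 : ℝ)⁻¹ • (e.symm : E n →L[ℝ] EuclideanSpace ℝ (Fin n))) y := fun y => by
      rw [show (a.symm : E n → EuclideanSpace ℝ (Fin n)) = _ from funext ha2]
      simp only [map_smul]
      exact (e.symm.hasFDerivAt.comp y ((hasFDerivAt_id y).add_const 1)).const_smul (2 : ℝ)⁻¹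
    have hψ1 : ContDiff ℝ 1 ψ := hφ1.comp (by
      rw [show (a.symm : E n → EuclideanSpace ℝ (Fin n)) = _ from funext ha2]
      fun_prop)
    have hψc : HasCompactSupport ψ := hφc.comp_homeomorph a.symm
    have hψd : ∀ x, fderiv ℝ φ x (EuclideanSpace.single j 1) =
        2 * fderiv ℝ ψ (a x) (Pi.single j 1) := fun x => by
      have h1 := ((hφ1.differentiable one_ne_zero (a.symm (a x))).hasFDerivAt.comp _
        (hd (a x))).fderiv
      rw [show fderiv ℝ ψ (a x) = _ from h1]
      simp [he]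
    have hc1 : Continuous fun y => fderiv ℝ ψ y (Pi.single j 1) :=
      (hψ1.continuous_fderiv one_ne_zero).clm_apply continuous_const
    have hc2 : HasCompactSupport fun y => fderiv ℝ ψ y (Pi.single j 1) := hψc.fderiv_apply ℝ _
    have h0 := fr_ibp (LipschitzWith.const (1 : E n)) ψ hψ1 hψc i (Pi.single j 1)
    rw [setIntegral_eq_integral_of_forall_compl_eq_zero fun x hx => by
        rw [Function.notMem_support.1 fun h1 => hx (hφs (support_fderiv_subset ℝ h1))]; simp,
      setIntegral_eq_integral_of_forall_compl_eq_zero fun x hx => by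
        rw [image_eq_zero_of_notMem_tsupport fun h1 => hx (hφs h1), mul_zero]]
    have e1 := hint fun y => g y i * fderiv ℝ ψ y (Pi.single j 1) + fderiv ℝ ψ y (Pi.single j 1)
    have e2 := hint fun y => Φ y (Pi.single j 1) i * ψ y
    simp only [Pi.one_apply, one_mul] at h0
    have i1 : Integrable fun y => g y i * fderiv ℝ ψ y (Pi.single j 1) :=
      Continuous.integrable_of_hasCompactSupport (by fun_prop) hc2.mul_left
    rw [integral_add i1 (hc1.integrable_of_hasCompactSupport hc2), h.weak hp ψ hψ1 hψc, h0] at e1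
    simp only [hψ, a.symm_apply_apply] at e2
    rw [e2]
    refine Eq.trans (integral_congr_ae (Eventually.of_forall fun x => ?_)) (e1.trans (by simp [hψ]))
    simp only [hFi, hψd]
    ring
  · have : Nonempty (Fin n) := ⟨⟨0, by omega⟩⟩
    have h1 : ∀ᵐ y : E n, y ∉ sphere 0 1 :=
      measure_eq_zero_iff_ae_notMem.1 (Measure.addHaar_sphere _ _ _)
    have h2 : ∀ᵐ y ∂(Measure.map a volume), (y ∈ ball (0 : E n) 1 → y ∉ (∅ : Set (E n)) →
        (Φ y).det < 0) ∧ y ∉ sphere 0 1 := by
      rw [hmap]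
      exact Measure.ae_smul_measure (h.neg.and h1) c
    filter_upwards [ae_of_ae_map a.continuous.measurable.aemeasurable h2] with x hx hx'
    rw [LinearMap.det_toMatrix']
    refine hx.1 (mem_ball_zero_iff.2 (lt_of_le_of_ne ?_ fun h3 => hx.2 (by simpa using h3)))
      (notMem_empty _)
    refine (pi_norm_le_iff_of_nonneg zero_le_one).2 fun i => ?_
    rw [ha1, Real.norm_eq_abs, abs_le]
    constructor <;> linarith [(hx' i).1, (hx' i).2]

end Pool.Agent.P.MP_667fa2_an
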