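import Pool.Agent.P.MP_667fa2_an.Ext

/-! A function constant along a direction with prescribed values on a union of faces. -/

namespace Pool.Agent.P.MP_667fa2_an

open Set Filter Topology MeasureTheory Metric
open scoped ENNReal NNReal

variable {n : ℕ}

theorem phi_nhds {ι : Type*} {τ : ι → Set (E n)} (hτ : ∀ a, IsCompact (τ a)) {y : E n}
    (hlf : ∃ t ∈ 𝓝 y, {a | (τ a ∩ t).Nonempty}.Finite) :
    ∃ S : Set ι, S.Finite ∧ (∀ a ∈ S, y ∈ τ a) ∧ ∀ᶠ z in 𝓝 y, ∀ a, z ∈ τ a → a ∈ S := by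
  obtain ⟨t, ht, hfin⟩ := hlf
  refine ⟨{a | y ∈ τ a}, hfin.subset fun a ha => ⟨y, ha, mem_of_mem_nhds ht⟩, fun a ha => ha, ?_⟩
  have h1 : ∀ᶠ z in 𝓝 y, ∀ a ∈ {a | (τ a ∩ t).Nonempty}, z ∈ τ a → y ∈ τ a := by
    refine (eventually_all_finite hfin).2 fun a _ => ?_
    by_cases ha : y ∈ τ a
    · exact Eventually.of_forall fun _ _ => ha
    · filter_upwards [(hτ a).isClosed.isOpen_compl.mem_nhds ha] with z hz hz'
      exact absurd hz' hz
  filter_upwards [h1, ht] with z hz hzt a ha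
  exact hz a ⟨z, ha, hzt⟩ ha

theorem phi_compact {ι : Type*} {CB : Set (E n)} {τ : ι → Set (E n)} (hCB : IsCompact CB)
    (hτ : ∀ a, IsCompact (τ a)) (hbd : Bornology.IsBounded (⋃ a, τ a))
    (hlf : ∀ y, y ∉ CB → ∃ t ∈ 𝓝 y, {a | (τ a ∩ t).Nonempty}.Finite) (S : Set ι) :
    IsCompact (CB ∪ ⋃ a ∈ S, τ a) := by
  refine Metric.isCompact_of_isClosed_isBounded ?_ (hCB.isBounded.union (hbd.subset
    (iUnion₂_subset fun a _ => subset_iUnion τ a)))
  rw [← isOpen_compl_iff, isOpen_iff_mem_nhds]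
  intro y hy
  rw [mem_compl_iff, mem_union, not_or] at hy
  obtain ⟨S', -, hS', hev⟩ := phi_nhds hτ (hlf y hy.1)
  filter_upwards [hev, hCB.isClosed.isOpen_compl.mem_nhds hy.1] with z hz hz'
  rintro (h | h)
  · exact hz' h
  · obtain ⟨a, ha, hza⟩ := mem_iUnion₂.1 h
    exact hy.2 (mem_iUnion₂.2 ⟨a, ha, hS' a (hz a hza)⟩)

theorem phi_lipschitz {Z : Set (E n)} (hZ : IsCompact Z) {π : E n → E n} (hπ : Continuous π)
    (hinj : InjOn π Z) (σ : E n → ℝ)
    (hloc : ∀ y ∈ Z, ∃ (L : ℝ≥0) (t : Set (E n)), t ∈ 𝓝 y ∧ ∀ z ∈ Z ∩ t, ∀ z' ∈ Z ∩ t,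
      dist (σ z) (σ z') ≤ L * dist (π z) (π z')) :
    ∃ L, LipschitzOnWith L (fun z => σ (Function.invFunOn π Z z)) (π '' Z) := by
  refine LocallyLipschitzOn.exists_lipschitzOnWith_of_compact (hZ.image hπ) ?_
  rintro _ ⟨y, hy, rfl⟩
  obtain ⟨L, t, ht, hL⟩ := hloc y hy
  refine ⟨L, π '' (Z ∩ t), ?_, LipschitzOnWith.of_dist_le_mul ?_⟩
  · have h1 : IsClosed (π '' (Z \ interior t)) := ((hZ.diff isOpen_interior).image hπ).isClosed
    have h2 : π y ∉ π '' (Z \ interior t) := by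
      rintro ⟨z, hz, e⟩
      rw [hinj hz.1 hy e] at hz
      exact hz.2 (mem_interior_iff_mem_nhds.2 ht)
    refine mem_of_superset (inter_mem_nhdsWithin _ (h1.isOpen_compl.mem_nhds h2)) ?_
    rintro _ ⟨⟨z, hz, rfl⟩, hz'⟩
    refine ⟨z, ⟨hz, interior_subset ?_⟩, rfl⟩
    by_contra h
    exact hz' ⟨z, ⟨hz, h⟩, rfl⟩
  · rintro _ ⟨z, hz, rfl⟩ _ ⟨z', hz', rfl⟩
    rw [hinj.leftInvOn_invFunOn hz.1, hinj.leftInvOn_invFunOn hz'.1]
    exact hL z hz z' hz'

/-- T2d. A function constant along `v` with prescribed values on `CB ∪ ⋃ a, τ a`. -/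
theorem phi_lemma {ι : Type*} (CB : Set (E n)) (τ : ι → Set (E n)) (v : E n) (i0 : Fin n)
    (hv : v i0 = 1) (hCB : IsCompact CB) (hτ : ∀ a, IsCompact (τ a))
    (hbd : Bornology.IsBounded (⋃ a, τ a)) (hdisj : ∀ a, Disjoint (τ a) CB)
    (hlf : ∀ y, y ∉ CB → ∃ t ∈ 𝓝 y, {a | (τ a ∩ t).Nonempty}.Finite)
    (hinj : ∀ y ∈ CB ∪ ⋃ a, τ a, ∀ y' ∈ CB ∪ ⋃ a, τ a, ∀ s : ℝ, y - y' = s • v → y = y')
    (hν : ∀ a b, (τ a ∩ τ b).Nonempty → ∃ ν : E n →L[ℝ] ℝ, ν v = 1 ∧
      ∀ y ∈ τ a ∪ τ b, ∀ y' ∈ τ a ∪ τ b, ν y = ν y')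
    (σ : E n → ℝ) (hσ : ContDiff ℝ 1 σ) (K : ℝ≥0) (hσK : LipschitzWith K σ)
    (hloc : ∀ y ∈ CB, ∀ᶠ y' in 𝓝 y, σ y' = σ y) (A : ℝ) (hA : 0 < A) (hσA : ∀ y, |σ y| ≤ A) :
    ∃ ψ : E n → ℝ, LL univ ψ ∧ (∀ (y : E n) (s : ℝ), ψ (y + s • v) = ψ y) ∧
      (∀ y, |ψ y| ≤ 2 * A) ∧ (∀ y ∈ CB ∪ ⋃ a, τ a, ψ y = σ y) ∧
      (∀ y, (∀ s : ℝ, y + s • v ∉ CB ∪ ⋃ a, τ a) → ContDiffAt ℝ 1 ψ y) ∧
      ∀ a, ∀ y ∈ τ a, (∀ b, y ∈ τ b → b = a) → ∀ s : ℝ, ContDiffAt ℝ 1 ψ (y + s • v) := by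
  classical
  set Z : Set (E n) := CB ∪ ⋃ a, τ a with hZdef
  have hZ : IsCompact Z := by simpa using phi_compact hCB hτ hbd hlf univ
  have hτZ : ∀ a, τ a ⊆ Z := fun a => (subset_iUnion τ a).trans subset_union_right
  set π : E n → E n := fun y => y - y i0 • v with hπ
  have hπc : ContDiff ℝ 1 π := by fun_prop
  have hπv : ∀ (y : E n) (s : ℝ), π (y + s • v) = π y := fun y s => by
    simp only [hπ, Pi.add_apply, Pi.smul_apply, hv, smul_eq_mul, mul_one, add_smul]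
    abel
  have hπeq : ∀ y y', π y = π y' → y - y' = (y i0 - y' i0) • v := fun y y' h => by
    simp only [hπ] at h
    rw [sub_smul]
    linear_combination (norm := module) h
  have hπinj : InjOn π Z := fun y hy y' hy' h => hinj y hy y' hy' _ (hπeq y y' h)
  -- the boundary function is Lipschitz
  obtain ⟨L, hL⟩ := phi_lipschitz hZ hπc.continuous hπinj σ (by
    intro y hy
    by_cases hyC : y ∈ CB
    · refine ⟨0, _, hloc y hyC, fun z hz z' hz' => ?_⟩
      have h1 : σ z = σ y := hz.2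
      have h2 : σ z' = σ y := hz'.2
      simp [h1, h2]
    · obtain ⟨S, hS, hyS, hev⟩ := phi_nhds hτ (hlf y hyC)
      have := hS.to_subtype
      choose ν hν1 hν2 using fun p : S × S => hν p.1 p.2 ⟨y, hyS _ p.1.2, hyS _ p.2.2⟩
      obtain ⟨M, hM⟩ := Finite.exists_le fun p => ‖ν p‖₊
      refine ⟨K * (1 + M * ‖v‖₊), _, hev.and (hCB.isClosed.isOpen_compl.mem_nhds hyC),
        fun z hz z' hz' => ?_⟩
      obtain ⟨a, ha⟩ := mem_iUnion.1 (hz.1.resolve_left hz.2.2)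
      obtain ⟨b, hb⟩ := mem_iUnion.1 (hz'.1.resolve_left hz'.2.2)
      set p : S × S := (⟨a, hz.2.1 a ha⟩, ⟨b, hz'.2.1 b hb⟩) with hp
      have h1 := hν2 p z (Or.inl ha) z' (Or.inr hb)
      have h2 : z - z' = (π z - π z') - ν p (π z - π z') • v := by
        simp only [hπ, map_sub, map_smul, hν1, h1, smul_eq_mul, mul_one]
        module
      have h3 : ‖ν p (π z - π z')‖ ≤ M * ‖π z - π z'‖ :=
        ((ν p).le_opNorm _).trans (mul_le_mul_of_nonneg_right (hM p) (norm_nonneg _))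
      have h4 : ‖z - z'‖ ≤ (1 + M * ‖v‖) * ‖π z - π z'‖ := by
        conv_lhs => rw [h2]
        refine (norm_sub_le _ _).trans ?_
        rw [norm_smul]
        nlinarith [mul_le_mul_of_nonneg_right h3 (norm_nonneg v)]
      refine (hσK.dist_le_mul z z').trans ?_
      rw [NNReal.coe_mul, mul_assoc, dist_eq_norm, dist_eq_norm]
      exact mul_le_mul_of_nonneg_left h4 K.2)
  -- the faces where the function is not locally constant
  set U : Set (E n) := {y | ∀ᶠ y' in 𝓝 y, σ y' = σ y} with hU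
  have hUo : IsOpen U := isOpen_iff_mem_nhds.2 fun y hy => by
    filter_upwards [hy.eventually_nhds, hy] with z hz hz'
    filter_upwards [hz] with w hw
    rw [hw, hz']
  set F : Set ι := {a | (τ a ∩ (Z \ U)).Nonempty} with hF
  have hFfin : F.Finite := by
    refine (hZ.diff hUo).induction_on (p := fun S => {a | (τ a ∩ S).Nonempty}.Finite) (by simp)
      (fun s t hst ht => ht.subset fun a ha => ha.mono (inter_subset_inter_right _ hst))
      (fun s t hs ht => (hs.union ht).subset fun a ha => ?_) fun y hy => ?_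
    · obtain ⟨z, hz, hz'⟩ := ha
      exact hz'.elim (fun h => Or.inl ⟨z, hz, h⟩) fun h => Or.inr ⟨z, hz, h⟩
    · obtain ⟨t, ht, hfin⟩ := hlf y fun h => hy.2 (hloc y h)
      exact ⟨t, mem_nhdsWithin_of_mem_nhds ht, hfin⟩
  set Z' : Set (E n) := CB ∪ ⋃ a ∈ Fᶜ, τ a with hZ'
  have hZ'c : IsCompact Z' := phi_compact hCB hτ hbd hlf _
  have hZ'Z : Z' ⊆ Z := union_subset subset_union_left (iUnion₂_subset fun a _ => hτZ a)
  have hZ'U : Z' ⊆ U := by
    rintro y (hy | hy)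
    · exact hloc y hy
    · obtain ⟨a, ha, hya⟩ := mem_iUnion₂.1 hy
      by_contra h
      exact ha ⟨y, hya, hτZ a hya, h⟩
  have hvals : (σ '' Z').Finite := by
    refine hZ'c.induction_on (p := fun S => (σ '' S).Finite) (by simp)
      (fun s t hst ht => ht.subset (image_mono hst))
      (fun s t hs ht => by rw [image_union]; exact hs.union ht) fun y hy => ?_
    refine ⟨_, mem_nhdsWithin_of_mem_nhds (hZ'U hy), (finite_singleton (σ y)).subset ?_⟩
    rintro _ ⟨z, hz, rfl⟩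
    exact hz
  have := hFfin.to_subtype
  have := hvals.to_subtype
  choose y0 hy0 using fun a : F => a.2
  choose ν hν1 hν2 using fun a : F => hν a a ⟨y0 a, (hy0 a).1, (hy0 a).1⟩
  let X : F ⊕ (σ '' Z') → Set (E n) := Sum.elim (fun a => τ a) fun c => Z' ∩ σ ⁻¹' {c.1}
  let g : F ⊕ (σ '' Z') → E n → ℝ :=
    Sum.elim (fun a z => σ (z + (ν a (y0 a) - ν a z) • v)) fun c _ => c.1
  have hXZ : ∀ i, X i ⊆ Z := by
    rintro (a | c)
    · exact hτZ a
    · exact inter_subset_left.trans hZ'Z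
  have hXc : ∀ i, IsCompact (X i) := by
    rintro (a | c)
    · exact hτ a
    · exact hZ'c.inter_right (isClosed_singleton.preimage hσ.continuous)
  have hXU : ⋃ i, π '' X i = π '' Z := by
    rw [← image_iUnion]
    congr 1
    refine Subset.antisymm (iUnion_subset hXZ) fun y hy => ?_
    by_cases h : y ∈ Z'
    · exact mem_iUnion.2 ⟨Sum.inr ⟨σ y, y, h, rfl⟩, h, rfl⟩
    · obtain ⟨a, ha⟩ := mem_iUnion.1 (hy.resolve_left fun h' => h (Or.inl h'))
      have haF : a ∈ F := by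
        by_contra h'
        exact h (Or.inr (mem_iUnion₂.2 ⟨a, h', ha⟩))
      exact mem_iUnion.2 ⟨Sum.inl ⟨a, haF⟩, ha⟩
  have hgc : ∀ i, ContDiff ℝ 1 (g i) := by
    rintro (a | c)
    · exact hσ.comp (contDiff_id.add ((contDiff_const.sub (ν a).contDiff).smul contDiff_const))
    · exact contDiff_const
  have hgl : ∀ i, ∃ L, LipschitzWith L (g i) := by
    rintro (a | c)
    · let T : E n →L[ℝ] E n := ContinuousLinearMap.id ℝ _ - (ν a).smulRight v
      have h1 : g (Sum.inl a) = σ ∘ (fun z => ν a (y0 a) • v + z) ∘ T := by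
        funext z
        simp only [g, T, Sum.elim_inl, Function.comp_apply, sub_apply,
          ContinuousLinearMap.id_apply, ContinuousLinearMap.smulRight_apply]
        congr 1
        module
      rw [h1]
      exact ⟨_, hσK.comp ((isometry_add_left _).lipschitz.comp T.lipschitz)⟩
    · exact ⟨_, LipschitzWith.const _⟩
  choose Lg hLg using hgl
  obtain ⟨M, hM⟩ := Finite.exists_le Lg
  obtain ⟨φ, h1, h2, h3, h4⟩ := ext_lemma (fun i => π '' X i)
    (fun i => (hXc i).image hπc.continuous) g (max M L) hgc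
    (fun i => (hLg i).weaken ((hM i).trans (le_max_left _ _)))
    (fun z => σ (Function.invFunOn π Z z)) (by rw [hXU]; exact hL.weaken (le_max_right _ _))
    (by
      rintro i _ ⟨y, hy, rfl⟩
      rw [hπinj.leftInvOn_invFunOn (hXZ i hy)]
      rcases i with a | c
      · have h1 := hν2 a y (Or.inl hy) (y0 a) (Or.inl (hy0 a).1)
        simp only [g, Sum.elim_inl, hπ, map_sub, map_smul, hν1, h1, smul_eq_mul, mul_one]
        congr 1
        module
      · exact hy.2) A hA fun z _ => hσA _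
  refine ⟨fun y => φ (π y), h1.comp (LL.of_contDiffAt fun x _ => hπc.contDiffAt)
    (mapsTo_univ _ _), fun y s => by simp only [hπv], fun y => h2 _, fun y hy => ?_,
    fun y hy => ?_, fun a y hy huniq s => ?_⟩
  · refine (h3 (π y) (by rw [hXU]; exact mem_image_of_mem _ hy)).trans ?_
    rw [hπinj.leftInvOn_invFunOn hy]
  · refine (h4 _ fun i j hi _ => ?_).comp y hπc.contDiffAt
    obtain ⟨y', hy', e⟩ := hi
    refine absurd ?_ (hy (y' i0 - y i0))
    rw [← hπeq y' y e, add_sub_cancel]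
    exact hXZ i hy'
  · refine (h4 _ ?_).comp _ hπc.contDiffAt
    rw [hπv]
    have key : ∀ i, π y ∈ π '' X i → y ∈ X i := by
      rintro i ⟨y', hy', e⟩
      rwa [← hπinj (hXZ i hy') (hτZ a hy) e]
    have hnot : y ∈ Z' → a ∉ F := by
      rintro (h | h)
      · exact absurd h (disjoint_left.1 (hdisj a) hy)
      · obtain ⟨b, hb, hyb⟩ := mem_iUnion₂.1 h
        rwa [← huniq b hyb]
    rintro (b | c) (b' | c') hi hj
    · exact congrArg Sum.inl (Subtype.ext ((huniq _ (key _ hi)).trans (huniq _ (key _ hj)).symm))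
    · exact absurd (huniq _ (key _ hi) ▸ b.2) (hnot (key _ hj).1)
    · exact absurd (huniq _ (key _ hj) ▸ b'.2) (hnot (key _ hi).1)
    · exact congrArg Sum.inr (Subtype.ext ((key _ hi).2.symm.trans (key _ hj).2))

end Pool.Agent.P.MP_667fa2_an
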