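import Pool.Agent.P.MP_667fa2_an.Cells

/-! A single radial push inside a face, tapered in the normal directions. -/

namespace Pool.Agent.P.MP_667fa2_an

open Set Filter Topology MeasureTheory Metric
open scoped ENNReal NNReal

variable {n : ℕ}

/-- Coordinate projection. -/
noncomputable def prj (I : Finset (Fin n)) : E n →L[ℝ] E n :=
  ContinuousLinearMap.pi fun i => if i ∈ I then ContinuousLinearMap.proj i else 0

theorem prj_apply (I : Finset (Fin n)) (y : E n) (i : Fin n) :
    prj I y i = if i ∈ I then y i else 0 := by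
  by_cases hi : i ∈ I <;> simp [prj, hi]

theorem prj_prj (I : Finset (Fin n)) (y : E n) : prj I (prj I y) = prj I y := by
  ext i; by_cases hi : i ∈ I <;> simp [prj_apply, hi]

theorem prj_compl_prj (I : Finset (Fin n)) (y : E n) : prj Iᶜ (prj I y) = 0 := by
  ext i; by_cases hi : i ∈ I <;> simp [prj_apply, hi]

theorem norm_prj_le (I : Finset (Fin n)) (y : E n) : ‖prj I y‖ ≤ ‖y‖ := by
  rw [pi_norm_le_iff_of_nonneg (norm_nonneg _)]
  intro i
  by_cases hi : i ∈ I
  · simpa [prj_apply, hi] using norm_le_pi_norm y i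
  · simp [prj_apply, hi]

/-- A fixed bump function. -/
noncomputable def bump (n : ℕ) : ContDiffBump (0 : E n) := ⟨1 / 8, 1 / 4, by norm_num, by norm_num⟩

theorem exists_bump_lip (n : ℕ) : ∃ K : ℝ≥0, LipschitzWith K (bump n) :=
  ContDiff.lipschitzWith_of_hasCompactSupport (bump n).hasCompactSupport
    ((bump n).contDiff (n := 1)) one_ne_zero

/-- Lipschitz constant of the bump. -/
noncomputable def bumpK (n : ℕ) : ℝ≥0 := (exists_bump_lip n).choose

theorem bump_lip (n : ℕ) : LipschitzWith (bumpK n) (bump n) := (exists_bump_lip n).choose_spec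

/-- One-dimensional gauge. -/
noncomputable def gz (c : E n) (s l : ℝ) (a : E n) (i : Fin n) (y : E n) : ℝ :=
  max ((y i - (c i + s * a i)) / (s * (1 - a i) - l)) ((c i + s * a i - y i) / (s * a i - l))

/-- Gauge of the inner box with respect to the centre `c + s • a`. -/
noncomputable def rad (I : Finset (Fin n)) (c : E n) (s l : ℝ) (a y : E n) : ℝ :=
  ‖(fun i => if i ∈ I then gz c s l a i y else 0 : E n)‖

/-- Clamping to `[e, 1]`. -/
noncomputable def clp (e r : ℝ) : ℝ := max e (min r 1)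

/-- Taper in the normal directions. -/
noncomputable def tap (I : Finset (Fin n)) (c : E n) (s : ℝ) (y : E n) : ℝ :=
  bump n (s⁻¹ • prj Iᶜ (y - c))

/-- Radial factor of the push. -/
noncomputable def pD (I : Finset (Fin n)) (c : E n) (s l e : ℝ) (a y : E n) : ℝ :=
  (1 - l) * tap I c s y * ((clp e (rad I c s l a y))⁻¹ - 1)

/-- The push. -/
noncomputable def push (I : Finset (Fin n)) (c : E n) (s l e : ℝ) (a y : E n) : E n :=
  y + pD I c s l e a y • prj I (y - (c + s • a))

/-- Admissible parameters. -/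
structure Par (s l e : ℝ) (a : E n) : Prop where
  s_pos : 0 < s
  l_pos : 0 < l
  l_le : l ≤ s / 12
  s_le : s ≤ 1
  e_pos : 0 < e
  e_lt : e < 1
  mem : ∀ i, 1 / 3 ≤ a i ∧ a i ≤ 2 / 3

theorem clp_pos {e : ℝ} (he : 0 < e) (r : ℝ) : 0 < clp e r := he.trans_le (le_max_left _ _)

theorem le_clp (e r : ℝ) : e ≤ clp e r := le_max_left _ _

theorem clp_le_one {e : ℝ} (he : e < 1) (r : ℝ) : clp e r ≤ 1 := max_le he.le (min_le_right _ _)

theorem clp_of_one_le {e r : ℝ} (he : e < 1) (hr : 1 ≤ r) : clp e r = 1 := by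
  rw [clp, min_eq_right hr, max_eq_right he.le]

theorem self_le_clp {e r : ℝ} (hr : r ≤ 1) : r ≤ clp e r := by
  rw [clp, min_eq_left hr]; exact le_max_right _ _

theorem clp_of_mem {e r : ℝ} (h1 : e ≤ r) (h2 : r ≤ 1) : clp e r = r := by
  rw [clp, min_eq_left h2, max_eq_right h1]

theorem clp_lip (e r r' : ℝ) : |clp e r' - clp e r| ≤ |r' - r| := by
  unfold clp
  rw [max_comm e, max_comm e]
  refine (abs_max_sub_max_le_abs _ _ _).trans ?_
  simpa using abs_min_sub_min_le_max r' 1 r 1

theorem continuous_clp (e : ℝ) : Continuous (clp e) := by unfold clp; fun_prop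

theorem clp_ray {e r t t' : ℝ} (he : 0 < e) (ht' : 0 ≤ t') (ht : t' ≤ t) :
    t' * (clp e (t' * r))⁻¹ ≤ t * (clp e (t * r))⁻¹ := by
  have h1 := clp_pos he (t' * r)
  have h2 := clp_pos he (t * r)
  rw [← div_eq_mul_inv, ← div_eq_mul_inv, div_le_div_iff₀ h1 h2]
  have h0 : 0 ≤ t := ht'.trans ht
  unfold clp
  rw [mul_max_of_nonneg _ _ ht', mul_max_of_nonneg _ _ h0, mul_min_of_nonneg _ _ ht',
    mul_min_of_nonneg _ _ h0]
  refine max_le_max (by nlinarith) (min_le_min (le_of_eq (by ring)) (by linarith))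

variable {I : Finset (Fin n)} {c : E n} {s l e : ℝ} {a : E n}

theorem Par.dp (h : Par s l e a) (i : Fin n) :
    s / 4 ≤ s * (1 - a i) - l ∧ s * (1 - a i) - l ≤ s := by
  have := h.mem i
  constructor <;> nlinarith [h.s_pos, h.l_pos, h.l_le]

theorem Par.dm (h : Par s l e a) (i : Fin n) : s / 4 ≤ s * a i - l ∧ s * a i - l ≤ s := by
  have := h.mem i
  constructor <;> nlinarith [h.s_pos, h.l_pos, h.l_le]

theorem Par.dp_pos (h : Par s l e a) (i : Fin n) : 0 < s * (1 - a i) - l := by
  linarith [(h.dp i).1, h.s_pos]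

theorem Par.dm_pos (h : Par s l e a) (i : Fin n) : 0 < s * a i - l := by
  linarith [(h.dm i).1, h.s_pos]

theorem Par.l_lt (h : Par s l e a) : l ≤ 1 / 12 := by linarith [h.l_le, h.s_le]

theorem gz_of_ge (h : Par s l e a) {i : Fin n} {y : E n} (hy : c i + s * a i ≤ y i) :
    gz c s l a i y = (y i - (c i + s * a i)) / (s * (1 - a i) - l) :=
  max_eq_left ((div_nonpos_of_nonpos_of_nonneg (by linarith) (h.dm_pos i).le).trans
    (div_nonneg (by linarith) (h.dp_pos i).le))

theorem gz_of_le (h : Par s l e a) {i : Fin n} {y : E n} (hy : y i ≤ c i + s * a i) :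
    gz c s l a i y = (c i + s * a i - y i) / (s * a i - l) :=
  max_eq_right ((div_nonpos_of_nonpos_of_nonneg (by linarith) (h.dp_pos i).le).trans
    (div_nonneg (by linarith) (h.dm_pos i).le))

theorem abs_le_gz (h : Par s l e a) (c : E n) (i : Fin n) (y : E n) :
    |y i - (c i + s * a i)| ≤ s * gz c s l a i y := by
  rcases le_total (c i + s * a i) (y i) with hy | hy
  · rw [gz_of_ge h hy, abs_of_nonneg (by linarith), ← mul_div_assoc, le_div_iff₀ (h.dp_pos i)]
    nlinarith [(h.dp i).2]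
  · rw [gz_of_le h hy, abs_of_nonpos (by linarith), ← mul_div_assoc, le_div_iff₀ (h.dm_pos i)]
    nlinarith [(h.dm i).2]

theorem gz_nonneg (h : Par s l e a) (c : E n) (i : Fin n) (y : E n) : 0 ≤ gz c s l a i y :=
  nonneg_of_mul_nonneg_right ((abs_nonneg _).trans (abs_le_gz h c i y)) h.s_pos

theorem gz_lip (h : Par s l e a) (c : E n) (i : Fin n) (y y' : E n) :
    |gz c s l a i y' - gz c s l a i y| ≤ 4 / s * |y' i - y i| := by
  have hs := h.s_pos
  have aux : ∀ d : ℝ, s / 4 ≤ d → |y' i - y i| / d ≤ 4 / s * |y' i - y i| := fun d hd => by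
    have hd0 : 0 < d := by linarith
    rw [div_le_iff₀ hd0, div_mul_eq_mul_div, div_mul_eq_mul_div, le_div_iff₀ hs]
    nlinarith [abs_nonneg (y' i - y i)]
  refine (abs_max_sub_max_le_max _ _ _ _).trans (max_le ?_ ?_)
  · rw [← sub_div, abs_div, abs_of_pos (h.dp_pos i), sub_sub_sub_cancel_right]
    exact aux _ (h.dp i).1
  · rw [← sub_div, abs_div, abs_of_pos (h.dm_pos i), sub_sub_sub_cancel_left, abs_sub_comm]
    exact aux _ (h.dm i).1

theorem gz_lt_one (h : Par s l e a) {i : Fin n} {y : E n} (hy : gz c s l a i y < 1) :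
    c i + l < y i ∧ y i < c i + s - l := by
  have h1 := (le_max_left _ _).trans_lt hy
  have h2 := (le_max_right _ _).trans_lt hy
  rw [div_lt_one (h.dp_pos i)] at h1
  rw [div_lt_one (h.dm_pos i)] at h2
  constructor <;> linarith

theorem gz_le_of_mem (h : Par s l e a) {i : Fin n} {y : E n} {σ : ℝ} (hσ : 2 * l ≤ σ)
    (h1 : c i + σ ≤ y i) (h2 : y i ≤ c i + s - σ) : gz c s l a i y ≤ 1 - σ / (2 * s) := by
  have hs := h.s_pos
  have aux : ∀ d : ℝ, d ≤ s → σ / (2 * s) * d ≤ σ / 2 := fun d hd => by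
    rw [div_mul_eq_mul_div, div_le_div_iff₀ (by positivity) (by positivity)]
    nlinarith [h.l_pos]
  refine max_le ?_ ?_
  · rw [div_le_iff₀ (h.dp_pos i)]
    nlinarith [aux _ (h.dp i).2]
  · rw [div_le_iff₀ (h.dm_pos i)]
    nlinarith [aux _ (h.dm i).2]

theorem rad_nonneg (I : Finset (Fin n)) (c : E n) (s l : ℝ) (a y : E n) : 0 ≤ rad I c s l a y :=
  norm_nonneg _

theorem gz_le_rad {i : Fin n} (hi : i ∈ I) (y : E n) : gz c s l a i y ≤ rad I c s l a y := by
  have := norm_le_pi_norm (fun i => if i ∈ I then gz c s l a i y else 0 : E n) i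
  simp only [hi, if_true] at this
  exact (le_abs_self _).trans this

theorem rad_le (h : Par s l e a) {y : E n} {r : ℝ} (hr : 0 ≤ r)
    (hy : ∀ i ∈ I, gz c s l a i y ≤ r) : rad I c s l a y ≤ r := by
  rw [rad, pi_norm_le_iff_of_nonneg hr]
  intro i
  by_cases hi : i ∈ I
  · simpa [hi, abs_of_nonneg (gz_nonneg h c i y)] using hy i hi
  · simpa [hi] using hr

theorem exists_rad_eq (h : Par s l e a) (hI : I.Nonempty) (c y : E n) :
    ∃ i ∈ I, rad I c s l a y = gz c s l a i y := by
  obtain ⟨i, hi, hm⟩ := I.exists_max_image (fun i => gz c s l a i y) hI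
  exact ⟨i, hi, le_antisymm (rad_le h (gz_nonneg h c i y) hm) (gz_le_rad hi y)⟩

theorem rad_lip (h : Par s l e a) (I : Finset (Fin n)) (c y y' : E n) :
    |rad I c s l a y' - rad I c s l a y| ≤ 4 / s * ‖y' - y‖ := by
  have hs := h.s_pos
  refine (abs_norm_sub_norm_le _ _).trans ?_
  rw [pi_norm_le_iff_of_nonneg (by positivity)]
  intro i
  by_cases hi : i ∈ I
  · simp only [Pi.sub_apply, hi, if_true, Real.norm_eq_abs]
    exact (gz_lip h c i y y').trans
      (mul_le_mul_of_nonneg_left (norm_le_pi_norm (y' - y) i) (by positivity))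
  · simp only [Pi.sub_apply, hi, if_false, sub_self, norm_zero]
    positivity

theorem continuous_gz (c : E n) (s l : ℝ) (a : E n) (i : Fin n) : Continuous (gz c s l a i) := by
  unfold gz; fun_prop

theorem continuous_rad (I : Finset (Fin n)) (c : E n) (s l : ℝ) (a : E n) :
    Continuous (rad I c s l a) := by
  unfold rad
  refine (continuous_pi fun i => ?_).norm
  by_cases hi : i ∈ I
  · simpa [hi] using continuous_gz c s l a i
  · simpa [hi] using continuous_const

theorem norm_prj_le_rad (h : Par s l e a) (I : Finset (Fin n)) (c y : E n) :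
    ‖prj I (y - (c + s • a))‖ ≤ s * rad I c s l a y := by
  have hs := h.s_pos
  have hr := rad_nonneg I c s l a y
  rw [pi_norm_le_iff_of_nonneg (by positivity)]
  intro i
  by_cases hi : i ∈ I
  · simp only [prj_apply, hi, if_true, Real.norm_eq_abs, Pi.sub_apply, Pi.add_apply,
      Pi.smul_apply, smul_eq_mul]
    exact (abs_le_gz h c i y).trans (mul_le_mul_of_nonneg_left (gz_le_rad hi y) hs.le)
  · simp only [prj_apply, hi, if_false, norm_zero]
    positivity

theorem rad_ray (I : Finset (Fin n)) (c : E n) (s l : ℝ) (a y : E n) {t : ℝ} (ht : 0 ≤ t) :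
    rad I c s l a (y + (t - 1) • prj I (y - (c + s • a))) = t * rad I c s l a y := by
  unfold rad
  rw [← Real.norm_of_nonneg ht, ← norm_smul, Real.norm_of_nonneg ht]
  congr 1
  ext i
  by_cases hi : i ∈ I
  · simp only [hi, if_true, Pi.smul_apply, smul_eq_mul, gz, Pi.add_apply, prj_apply, Pi.sub_apply]
    rw [mul_max_of_nonneg _ _ ht]
    congr 1 <;> ring
  · simp [hi]

theorem tap_add (I : Finset (Fin n)) (c : E n) (s : ℝ) (y w : E n) (t : ℝ) :
    tap I c s (y + t • prj I w) = tap I c s y := by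
  unfold tap
  have : y + t • prj I w - c = (y - c) + t • prj I w := by abel
  rw [this, map_add, map_smul, prj_compl_prj, smul_zero, add_zero]

theorem tap_nonneg (I : Finset (Fin n)) (c : E n) (s : ℝ) (y : E n) : 0 ≤ tap I c s y :=
  (bump n).nonneg

theorem tap_le_one (I : Finset (Fin n)) (c : E n) (s : ℝ) (y : E n) : tap I c s y ≤ 1 :=
  (bump n).le_one

theorem contDiff_tap (I : Finset (Fin n)) (c : E n) (s : ℝ) : ContDiff ℝ 1 (tap I c s) := by
  unfold tap
  exact (bump n).contDiff.comp (((prj Iᶜ).contDiff.comp (contDiff_id.sub contDiff_const)).const_smul _)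

theorem tap_lip (hs : 0 < s) (I : Finset (Fin n)) (c y y' : E n) :
    |tap I c s y' - tap I c s y| ≤ bumpK n / s * ‖y' - y‖ := by
  have h1 := (bump_lip n).dist_le_mul (s⁻¹ • prj Iᶜ (y' - c)) (s⁻¹ • prj Iᶜ (y - c))
  rw [Real.dist_eq, dist_eq_norm, ← smul_sub, ← map_sub, sub_sub_sub_cancel_right, norm_smul,
    norm_inv, Real.norm_of_nonneg hs.le] at h1
  refine h1.trans ?_
  rw [div_eq_mul_inv, mul_assoc]
  exact mul_le_mul_of_nonneg_left (mul_le_mul_of_nonneg_left (norm_prj_le _ _) (by positivity))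
    (bumpK n).2

theorem tap_ne_zero (hs : 0 < s) {y : E n} (hy : tap I c s y ≠ 0) {i : Fin n} (hi : i ∉ I) :
    |y i - c i| < s / 4 := by
  have h1 : s⁻¹ • prj Iᶜ (y - c) ∈ Function.support (bump n) := hy
  rw [(bump n).support_eq, mem_ball_zero_iff] at h1
  have h2 := (norm_le_pi_norm _ i).trans_lt h1
  simp only [Pi.smul_apply, prj_apply, Finset.mem_compl, hi, not_false_eq_true, if_true,
    Pi.sub_apply, smul_eq_mul, Real.norm_eq_abs, abs_mul, abs_inv, abs_of_pos hs, bump] at h2
  rw [inv_mul_lt_iff₀ hs] at h2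
  linarith

theorem tap_eq_one (hs : 0 < s) {y : E n} (hy : ∀ i, i ∉ I → |y i - c i| ≤ s / 8) :
    tap I c s y = 1 := by
  refine (bump n).one_of_mem_closedBall ?_
  rw [mem_closedBall_zero_iff, pi_norm_le_iff_of_nonneg (by simp [bump])]
  intro i
  by_cases hi : i ∈ I
  · simp [prj_apply, hi, bump]
  · simp only [Pi.smul_apply, prj_apply, Finset.mem_compl, hi, not_false_eq_true, if_true,
      Pi.sub_apply, smul_eq_mul, Real.norm_eq_abs, abs_mul, abs_inv, abs_of_pos hs, bump]
    rw [inv_mul_le_iff₀ hs]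
    linarith [hy i hi]

theorem inv_clp_sub_one_nonneg (h : Par s l e a) (r : ℝ) : 0 ≤ (clp e r)⁻¹ - 1 :=
  sub_nonneg.2 ((one_le_inv₀ (clp_pos h.e_pos r)).2 (clp_le_one h.e_lt r))

theorem pD_nonneg (h : Par s l e a) (I : Finset (Fin n)) (c y : E n) : 0 ≤ pD I c s l e a y :=
  mul_nonneg (mul_nonneg (by linarith [h.l_lt]) (tap_nonneg _ _ _ _)) (inv_clp_sub_one_nonneg h _)

theorem coef_mem (h : Par s l e a) (I : Finset (Fin n)) (c y : E n) :
    0 ≤ (1 - l) * tap I c s y ∧ (1 - l) * tap I c s y ≤ 1 - l := by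
  have h1 := tap_nonneg I c s y
  have h2 := tap_le_one I c s y
  have h3 := h.l_lt
  constructor <;> nlinarith

theorem pD_le (h : Par s l e a) (I : Finset (Fin n)) (c y : E n) :
    pD I c s l e a y ≤ (clp e (rad I c s l a y))⁻¹ - 1 := by
  have h1 := coef_mem h I c y
  have h2 := inv_clp_sub_one_nonneg h (rad I c s l a y)
  have h3 := h.l_pos
  unfold pD
  nlinarith

theorem continuous_pD (h : Par s l e a) (I : Finset (Fin n)) (c : E n) :
    Continuous (pD I c s l e a) := by
  unfold pD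
  refine (continuous_const.mul (contDiff_tap I c s).continuous).mul (Continuous.sub ?_
    continuous_const)
  exact ((continuous_clp e).comp (continuous_rad I c s l a)).inv₀ fun y => (clp_pos h.e_pos _).ne'

theorem push_rayMono (h : Par s l e a) (I : Finset (Fin n)) (c : E n) :
    RayMono (prj I) (c + s • a) (pD I c s l e a) l := by
  intro y t t' ht' ht
  simp only [pD]
  rw [rad_ray I c s l a y ht', rad_ray I c s l a y (ht'.trans ht), tap_add, tap_add]
  have h1 := coef_mem h I c y
  have h2 := clp_ray (r := rad I c s l a y) h.e_pos ht' ht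
  nlinarith [mul_le_mul_of_nonneg_left h2 h1.1, mul_le_mul_of_nonneg_right h1.2 (sub_nonneg.2 ht)]

theorem pD_eq_zero (h : Par s l e a) {y : E n} (hy : 1 ≤ rad I c s l a y) :
    pD I c s l e a y = 0 := by
  simp [pD, clp_of_one_le h.e_lt hy]

theorem norm_push_sub (h : Par s l e a) (I : Finset (Fin n)) (c y : E n) :
    ‖pD I c s l e a y • prj I (y - (c + s • a))‖ ≤ s := by
  rcases le_total 1 (rad I c s l a y) with hy | hy
  · simpa [pD_eq_zero h hy] using h.s_pos.le
  · rw [norm_smul, Real.norm_of_nonneg (pD_nonneg h I c y)]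
    have h1 := pD_le h I c y
    have h2 := norm_prj_le_rad h I c y
    have h3 := self_le_clp (e := e) hy
    have h4 := clp_pos h.e_pos (rad I c s l a y)
    have h5 := inv_clp_sub_one_nonneg h (rad I c s l a y)
    have h6 : ((clp e (rad I c s l a y))⁻¹ - 1) * clp e (rad I c s l a y) ≤ 1 := by
      rw [sub_mul, inv_mul_cancel₀ h4.ne']; linarith
    calc _ ≤ ((clp e (rad I c s l a y))⁻¹ - 1) * (s * clp e (rad I c s l a y)) :=
          mul_le_mul h1 (h2.trans (mul_le_mul_of_nonneg_left h3 h.s_pos.le)) (norm_nonneg _) h5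
      _ ≤ s := by nlinarith [h.s_pos]

theorem exists_push_homeo (h : Par s l e a) (I : Finset (Fin n)) (c : E n) :
    ∃ F : E n ≃ₜ E n, ∀ y, F y = push I c s l e a y :=
  radial_homeo (prj I) (prj_prj I) _ _ (continuous_pD h I c) h.l_pos (push_rayMono h I c) s
    (norm_push_sub h I c)

theorem dist_push_le (h : Par s l e a) (I : Finset (Fin n)) (c y : E n) :
    dist (push I c s l e a y) y ≤ s := by
  simpa [push, dist_eq_norm] using norm_push_sub h I c y

theorem push_apply_of_notMem (c : E n) (s l e : ℝ) (a y : E n) {i : Fin n} (hi : i ∉ I) :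
    push I c s l e a y i = y i := by
  simp [push, prj_apply, hi]

theorem push_support (h : Par s l e a) {y : E n} (hy : push I c s l e a y ≠ y) :
    (∀ i ∈ I, c i + l < y i ∧ y i < c i + s - l) ∧ ∀ i, i ∉ I → |y i - c i| < s / 4 := by
  have h1 : pD I c s l e a y ≠ 0 := fun h0 => hy (by simp [push, h0])
  refine ⟨fun i hi => gz_lt_one h ((gz_le_rad hi y).trans_lt ?_), fun i hi =>
    tap_ne_zero h.s_pos (fun h0 => h1 (by simp [pD, h0])) hi⟩
  exact not_le.1 fun h0 => h1 (pD_eq_zero h h0)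

theorem push_PLip (h : Par s l e a) (I : Finset (Fin n)) (c y : E n) :
    PLip (push I c s l e a) y ((11 + bumpK n) / clp e (rad I c s l a y)) := by
  have hK : (0 : ℝ) ≤ bumpK n := (bumpK n).2
  have hc0 := clp_pos h.e_pos (rad I c s l a y)
  have hc1 := clp_le_one h.e_lt (rad I c s l a y)
  have hs := h.s_pos
  rcases lt_or_ge 1 (rad I c s l a y) with hy | hy
  · refine ((PLip.id y).congr ?_).mono ?_
    · filter_upwards [(continuous_rad I c s l a).continuousAt.eventually (lt_mem_nhds hy)] with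
        w hw
      simp [push, pD_eq_zero h hw.le]
    · rw [le_div_iff₀ hc0]; linarith
  have hcont : ContinuousAt (fun w => clp e (rad I c s l a w)) y :=
    ((continuous_clp e).comp (continuous_rad I c s l a)).continuousAt
  filter_upwards [hcont.eventually (lt_mem_nhds (half_lt_self hc0))] with w hw
  set c0 := clp e (rad I c s l a y) with hc0d
  set c1 := clp e (rad I c s l a w) with hc1d
  set N := ‖w - y‖ with hN
  have hN0 : 0 ≤ N := norm_nonneg _
  have hc10 : 0 < c1 := by linarith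
  have hi1 : c1⁻¹ ≤ 2 * c0⁻¹ := by
    rw [inv_le_iff_one_le_mul₀ hc10]
    have : 2 * c0⁻¹ * c1 = c1 / (c0 / 2) := by field_simp
    rw [this, le_div_iff₀ (by linarith)]; linarith
  have hi0 : 1 ≤ c0⁻¹ := (one_le_inv₀ hc0).2 hc1
  have e1 : push I c s l e a w - push I c s l e a y = (w - y) + pD I c s l e a w • prj I (w - y) +
      (pD I c s l e a w - pD I c s l e a y) • prj I (y - (c + s • a)) := by
    have : w - (c + s • a) = (w - y) + (y - (c + s • a)) := by abel
    simp only [push]
    rw [this, map_add]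
    module
  have b1 : ‖pD I c s l e a w • prj I (w - y)‖ ≤ 2 * c0⁻¹ * N := by
    rw [norm_smul, Real.norm_of_nonneg (pD_nonneg h I c w)]
    exact mul_le_mul (by linarith [pD_le h I c w]) (norm_prj_le _ _) (norm_nonneg _)
      (by positivity)
  have b2 : ‖prj I (y - (c + s • a))‖ ≤ s * c0 :=
    (norm_prj_le_rad h I c y).trans (mul_le_mul_of_nonneg_left (self_le_clp hy) hs.le)
  have b3 : |c1 - c0| ≤ 4 / s * N := (clp_lip e _ _).trans (rad_lip h I c y w)
  have b4 := tap_lip hs I c y w
  have e2 : pD I c s l e a w - pD I c s l e a y =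
      (1 - l) * (tap I c s w - tap I c s y) * (c0⁻¹ - 1) +
        (1 - l) * tap I c s w * ((c0 - c1) * c0⁻¹ * c1⁻¹) := by
    simp only [pD, ← hc0d, ← hc1d]
    field_simp
    ring
  have hl := h.l_pos
  have hl' := h.l_lt
  have b5 : |pD I c s l e a w - pD I c s l e a y| ≤
      bumpK n / s * N * c0⁻¹ + 4 / s * N * c0⁻¹ * (2 * c0⁻¹) := by
    rw [e2]
    refine (abs_add_le _ _).trans (add_le_add ?_ ?_)
    · rw [abs_mul, abs_mul, abs_of_nonneg (by linarith : 0 ≤ 1 - l),
        abs_of_nonneg (by linarith : 0 ≤ c0⁻¹ - 1)]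
      refine mul_le_mul ?_ (by linarith) (by linarith) (by positivity)
      nlinarith [abs_nonneg (tap I c s w - tap I c s y)]
    · have h1 := coef_mem h I c w
      rw [abs_mul, abs_of_nonneg h1.1, abs_mul, abs_mul, abs_of_pos (inv_pos.2 hc0),
        abs_of_pos (inv_pos.2 hc10), abs_sub_comm]
      have h2 : |c1 - c0| * c0⁻¹ * c1⁻¹ ≤ 4 / s * N * c0⁻¹ * (2 * c0⁻¹) :=
        mul_le_mul (mul_le_mul_of_nonneg_right b3 (by positivity)) hi1 (by positivity)
          (by positivity)
      have h3 : 0 ≤ |c1 - c0| * c0⁻¹ * c1⁻¹ := by positivity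
      nlinarith
  have b6 : ‖(pD I c s l e a w - pD I c s l e a y) • prj I (y - (c + s • a))‖ ≤
      bumpK n * N + 8 * c0⁻¹ * N := by
    rw [norm_smul, Real.norm_eq_abs]
    refine (mul_le_mul b5 b2 (norm_nonneg _) (by positivity)).trans (le_of_eq ?_)
    field_simp
    ring
  rw [e1, div_eq_mul_inv]
  refine (norm_add_le _ _).trans ((add_le_add ((norm_add_le _ _).trans (add_le_add le_rfl b1))
    b6).trans ?_)
  nlinarith [mul_le_mul_of_nonneg_right hi0 hN0, mul_le_mul_of_nonneg_right hi0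
    (mul_nonneg hK hN0)]

end Pool.Agent.P.MP_667fa2_an
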