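import Pool.Agent.P.MP_667fa2_an.Push

/-! Regularity of a push and its effect at good points. -/

namespace Pool.Agent.P.MP_667fa2_an

open Set Filter Topology MeasureTheory Metric
open scoped ENNReal NNReal

variable {n : ℕ}

theorem null_one (i : Fin n) {α : ℝ} (hα : α ≠ 0) (b : ℝ) :
    ∀ᵐ y : E n, α * y i ≠ b := by
  have := null_hyperplane (α • ContinuousLinearMap.proj (R := ℝ) (φ := fun _ : Fin n => ℝ) i)
    (fun h => hα (by simpa using DFunLike.congr_fun h (Pi.single i 1))) b
  rw [ae_iff]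
  simpa using this

theorem null_two {i j : Fin n} (hij : i ≠ j) {α : ℝ} (hα : α ≠ 0) (β b : ℝ) :
    ∀ᵐ y : E n, α * y i + β * y j ≠ b := by
  have := null_hyperplane (α • ContinuousLinearMap.proj (R := ℝ) (φ := fun _ : Fin n => ℝ) i +
    β • ContinuousLinearMap.proj (R := ℝ) (φ := fun _ : Fin n => ℝ) j)
    (fun h => hα (by simpa [hij.symm] using DFunLike.congr_fun h (Pi.single i 1))) b
  rw [ae_iff]
  simpa using this

theorem contDiffAt_max {u v : E n → ℝ} {y : E n} (hu : ContDiffAt ℝ 1 u y)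
    (hv : ContDiffAt ℝ 1 v y) (h : u y ≠ v y) : ContDiffAt ℝ 1 (fun w => max (u w) (v w)) y := by
  rcases lt_or_gt_of_ne h with h | h
  · refine hv.congr_of_eventuallyEq ?_
    filter_upwards [hu.continuousAt.eventually_lt hv.continuousAt h] with w hw
    exact max_eq_right hw.le
  · refine hu.congr_of_eventuallyEq ?_
    filter_upwards [hv.continuousAt.eventually_lt hu.continuousAt h] with w hw
    exact max_eq_left hw.le

theorem contDiffAt_min {u v : E n → ℝ} {y : E n} (hu : ContDiffAt ℝ 1 u y)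
    (hv : ContDiffAt ℝ 1 v y) (h : u y ≠ v y) : ContDiffAt ℝ 1 (fun w => min (u w) (v w)) y := by
  rcases lt_or_gt_of_ne h with h | h
  · refine hu.congr_of_eventuallyEq ?_
    filter_upwards [hu.continuousAt.eventually_lt hv.continuousAt h] with w hw
    exact min_eq_left hw.le
  · refine hv.congr_of_eventuallyEq ?_
    filter_upwards [hv.continuousAt.eventually_lt hu.continuousAt h] with w hw
    exact min_eq_right hw.le

variable {I : Finset (Fin n)} {c : E n} {s l e : ℝ} {a : E n}

theorem exists_gz_cases (h : Par s l e a) (c : E n) (i : Fin n) :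
    ∃ α b : Bool → ℝ, (∀ σ, α σ ≠ 0) ∧ ∀ y : E n, ∃ σ, gz c s l a i y = α σ * y i + b σ := by
  refine ⟨fun σ => cond σ (s * (1 - a i) - l)⁻¹ (-(s * a i - l)⁻¹),
    fun σ => cond σ (-(c i + s * a i) / (s * (1 - a i) - l)) ((c i + s * a i) / (s * a i - l)),
    fun σ => ?_, fun y => ?_⟩
  · cases σ
    · simpa using (h.dm_pos i).ne'
    · simpa using (h.dp_pos i).ne'
  · rcases le_total (c i + s * a i) (y i) with hy | hy
    · exact ⟨true, by rw [gz_of_ge h hy]; simp only [cond_true]; ring⟩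
    · exact ⟨false, by rw [gz_of_le h hy]; simp only [cond_false]; ring⟩

theorem ae_gz_ne_const (h : Par s l e a) (c : E n) (i : Fin n) (r : ℝ) :
    ∀ᵐ y : E n, gz c s l a i y ≠ r := by
  obtain ⟨α, b, hα, hg⟩ := exists_gz_cases h c i
  have : ∀ᵐ y : E n, ∀ σ, α σ * y i ≠ r - b σ := ae_all_iff.2 fun σ => null_one i (hα σ) _
  filter_upwards [this] with y hy h0
  obtain ⟨σ, hσ⟩ := hg y
  exact hy σ (by linarith)

theorem ae_gz_ne_gz (h : Par s l e a) (c : E n) {i j : Fin n} (hij : i ≠ j) :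
    ∀ᵐ y : E n, gz c s l a i y ≠ gz c s l a j y := by
  obtain ⟨α, b, hα, hg⟩ := exists_gz_cases h c i
  obtain ⟨α', b', -, hg'⟩ := exists_gz_cases h c j
  have : ∀ᵐ y : E n, ∀ σ τ, α σ * y i + (-α' τ) * y j ≠ b' τ - b σ :=
    ae_all_iff.2 fun σ => ae_all_iff.2 fun τ => null_two hij (hα σ) _ _
  filter_upwards [this] with y hy h0
  obtain ⟨σ, hσ⟩ := hg y
  obtain ⟨τ, hτ⟩ := hg' y
  exact hy σ τ (by linarith)

theorem rad_eventuallyEq (h : Par s l e a) {y : E n} {j : Fin n} (hj : j ∈ I)
    (hlt : ∀ i ∈ I, i ≠ j → gz c s l a i y < gz c s l a j y) :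
    rad I c s l a =ᶠ[𝓝 y] gz c s l a j := by
  have : ∀ᶠ w in 𝓝 y, ∀ i ∈ I, gz c s l a i w ≤ gz c s l a j w := by
    rw [Finset.eventually_all]
    intro i hi
    by_cases hij : i = j
    · subst hij; exact Eventually.of_forall fun _ => le_rfl
    · exact ((continuous_gz c s l a i).continuousAt.eventually_lt
        (continuous_gz c s l a j).continuousAt (hlt i hi hij)).mono fun _ h => h.le
  filter_upwards [this] with w hw
  exact le_antisymm (rad_le h (gz_nonneg h c j w) hw) (gz_le_rad hj w)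

theorem contDiffAt_gz (h : Par s l e a) {i : Fin n} {y : E n} (hy : gz c s l a i y ≠ 0) :
    ContDiffAt ℝ 1 (gz c s l a i) y := by
  have hp : ContDiff ℝ 1 fun w : E n => w i := contDiff_apply ℝ ℝ i
  refine contDiffAt_max ((hp.sub contDiff_const).div_const _).contDiffAt
    ((contDiff_const.sub hp).div_const _).contDiffAt fun h0 => hy ?_
  have h1 := h.dp_pos i
  have h2 := h.dm_pos i
  rw [div_eq_div_iff h1.ne' h2.ne'] at h0
  have h3 : y i = c i + s * a i := by
    have : (y i - (c i + s * a i)) * ((s * a i - l) + (s * (1 - a i) - l)) = 0 := by linarith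
    rcases mul_eq_zero.1 this with h4 | h4 <;> linarith
  rw [gz_of_ge h h3.ge, h3]; simp

theorem push_aenice (h : Par s l e a) (I : Finset (Fin n)) (c : E n) :
    ∀ᵐ y, Nice (push I c s l e a) y := by
  have h1 : ∀ᵐ y : E n, ∀ i, gz c s l a i y ≠ 0 ∧ gz c s l a i y ≠ e ∧ gz c s l a i y ≠ 1 :=
    ae_all_iff.2 fun i => (ae_gz_ne_const h c i 0).and
      ((ae_gz_ne_const h c i e).and (ae_gz_ne_const h c i 1))
  have h2 : ∀ᵐ y : E n, ∀ i j, i ≠ j → gz c s l a i y ≠ gz c s l a j y :=
    ae_all_iff.2 fun i => ae_all_iff.2 fun j => by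
      by_cases hij : i = j
      · exact Eventually.of_forall fun _ h => absurd hij h
      · exact (ae_gz_ne_gz h c hij).mono fun _ h _ => h
  filter_upwards [h1, h2] with y hy1 hy2
  have hr : ContDiffAt ℝ 1 (rad I c s l a) y ∧ rad I c s l a y ≠ e ∧ rad I c s l a y ≠ 1 := by
    rcases I.eq_empty_or_nonempty with rfl | hI
    · have : rad (∅ : Finset (Fin n)) c s l a = fun _ => 0 := by
        ext w; exact le_antisymm (rad_le h le_rfl (by simp)) (rad_nonneg _ _ _ _ _ _)
      rw [this]
      exact ⟨contDiffAt_const, h.e_pos.ne, zero_ne_one⟩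
    · obtain ⟨j, hj, hm⟩ := exists_rad_eq h hI c y
      refine ⟨(contDiffAt_gz h (hy1 j).1).congr_of_eventuallyEq (rad_eventuallyEq h hj
        fun i hi hij => lt_of_le_of_ne (hm ▸ gz_le_rad hi y) (hy2 i j hij)), ?_⟩
      rw [hm]; exact (hy1 j).2
  have hc : ContDiffAt ℝ 1 (fun w => clp e (rad I c s l a w)) y := by
    refine contDiffAt_max contDiffAt_const (contDiffAt_min hr.1 contDiffAt_const hr.2.2) ?_
    rcases le_total (rad I c s l a y) 1 with h3 | h3
    · rw [min_eq_left h3]; exact hr.2.1.symm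
    · rw [min_eq_right h3]; exact h.e_lt.ne
  have hD : ContDiffAt ℝ 1 (pD I c s l e a) y :=
    (contDiffAt_const.mul (contDiff_tap I c s).contDiffAt).mul
      ((hc.inv (clp_pos h.e_pos _).ne').sub contDiffAt_const)
  exact ⟨contDiffAt_id.add (hD.smul ((prj I).contDiff.comp
      (contDiff_id.sub contDiff_const)).contDiffAt),
    radial_injective (prj I) (prj_prj I) _ _ h.l_pos (push_rayMono h I c)
      (hD.differentiableAt one_ne_zero)⟩

theorem push_apply_of_mem {y : E n} (ht : tap I c s y = 1) (h1 : e ≤ rad I c s l a y)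
    (h2 : rad I c s l a y ≤ 1) {i : Fin n} (hi : i ∈ I) :
    push I c s l e a y i =
      c i + s * a i + (l + (1 - l) / rad I c s l a y) * (y i - (c i + s * a i)) := by
  simp only [push, pD, ht, clp_of_mem h1 h2, Pi.add_apply, Pi.smul_apply, prj_apply, hi, if_true,
    Pi.sub_apply, smul_eq_mul]
  ring

theorem push_mem (h : Par s l e a) {y : E n} (ht : tap I c s y = 1) (h1 : e ≤ rad I c s l a y)
    (h2 : rad I c s l a y ≤ 1) {i : Fin n} (hi : i ∈ I) :
    c i + l ≤ push I c s l e a y i ∧ push I c s l e a y i ≤ c i + s - l := by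
  rw [push_apply_of_mem ht h1 h2 hi]
  set r := rad I c s l a y
  have hr : 0 < r := h.e_pos.trans_le h1
  have g1 : (y i - (c i + s * a i)) / (s * (1 - a i) - l) ≤ r :=
    (le_max_left _ _).trans (gz_le_rad hi y)
  have g2 : (c i + s * a i - y i) / (s * a i - l) ≤ r := (le_max_right _ _).trans (gz_le_rad hi y)
  rw [div_le_iff₀ (h.dp_pos i)] at g1
  rw [div_le_iff₀ (h.dm_pos i)] at g2
  have hl := h.l_pos
  have hl' := h.l_lt
  have hlam : 0 ≤ l + (1 - l) / r := add_nonneg hl.le (div_nonneg (by linarith) hr.le)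
  have hlr : (l + (1 - l) / r) * r ≤ 1 := by
    rw [add_mul, div_mul_cancel₀ _ hr.ne']; nlinarith
  have k1 := mul_le_mul_of_nonneg_left g1 hlam
  have k2 := mul_le_mul_of_nonneg_left g2 hlam
  have k3 := mul_le_mul_of_nonneg_right hlr (h.dp_pos i).le
  have k4 := mul_le_mul_of_nonneg_right hlr (h.dm_pos i).le
  constructor <;> nlinarith

theorem push_end (h : Par s l e a) {y : E n} (ht : tap I c s y = 1) (h1 : e ≤ rad I c s l a y)
    (h2 : rad I c s l a y ≤ 1) {i : Fin n} (hi : i ∈ I) (hm : rad I c s l a y = gz c s l a i y) :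
    |push I c s l e a y i - c i| ≤ 2 * l ∨ |push I c s l e a y i - (c i + s)| ≤ 2 * l := by
  rw [push_apply_of_mem ht h1 h2 hi]
  set r := rad I c s l a y
  have hr : 0 < r := h.e_pos.trans_le h1
  have hl := h.l_pos
  have hs := h.s_le
  rcases le_total (c i + s * a i) (y i) with hy | hy
  · right
    rw [gz_of_ge h hy, eq_div_iff (h.dp_pos i).ne'] at hm
    have hd := h.dp_pos i
    have hd' := (h.dp i).2
    set d := s * (1 - a i) - l with hdd
    have : c i + s * a i + (l + (1 - l) / r) * (y i - (c i + s * a i)) - (c i + s) =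
        -(l * (1 + d * (1 - r))) := by
      rw [← hm]; field_simp; rw [hdd]; ring
    rw [this, abs_neg, abs_of_nonneg (by have := sub_nonneg.2 h2; positivity)]
    nlinarith [mul_pos hd hr]
  · left
    rw [gz_of_le h hy, eq_div_iff (h.dm_pos i).ne'] at hm
    have hd := h.dm_pos i
    have hd' := (h.dm i).2
    set d := s * a i - l with hdd
    have h3 : y i - (c i + s * a i) = -(r * d) := by linarith
    have : c i + s * a i + (l + (1 - l) / r) * (y i - (c i + s * a i)) - c i =
        l * (1 + d * (1 - r)) := by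
      rw [h3]; field_simp; rw [hdd]; ring
    rw [this, abs_of_nonneg (by have := sub_nonneg.2 h2; positivity)]
    nlinarith [mul_pos hd hr]

theorem push_lock (h : Par s l e a) {y : E n} (ht : ∀ i, i ∉ I → |y i - c i| < s / 8)
    (h1 : e < rad I c s l a y) (h2 : rad I c s l a y < 1) {j : Fin n} (hj : j ∈ I)
    (hlt : ∀ i ∈ I, i ≠ j → gz c s l a i y < gz c s l a j y) :
    PLip (fun w => push I c s l e a w j) y l := by
  have e1 : ∀ᶠ w in 𝓝 y, tap I c s w = 1 := by
    have : ∀ᶠ w in 𝓝 y, ∀ i ∈ Iᶜ, |w i - c i| < s / 8 := by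
      rw [Finset.eventually_all]
      intro i hi
      have hc : Continuous fun w : E n => |w i - c i| := by fun_prop
      exact hc.continuousAt.eventually (gt_mem_nhds (ht i (Finset.mem_compl.1 hi)))
    exact this.mono fun w hw => tap_eq_one h.s_pos fun i hi => (hw i (Finset.mem_compl.2 hi)).le
  have e2 : ∀ᶠ w in 𝓝 y, e < rad I c s l a w ∧ rad I c s l a w < 1 :=
    ((continuous_rad I c s l a).continuousAt.eventually (lt_mem_nhds h1)).and
      ((continuous_rad I c s l a).continuousAt.eventually (gt_mem_nhds h2))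
  have e3 := rad_eventuallyEq h hj hlt
  have hp : Continuous fun w : E n => w j := continuous_apply j
  have key : ∃ b : ℝ, ∀ᶠ w in 𝓝 y, push I c s l e a w j = l * w j + b := by
    have hy0 : y j ≠ c j + s * a j := fun h0 => by
      have h3 := e3.self_of_nhds
      rw [gz_of_ge h h0.ge, h0, sub_self, zero_div] at h3
      linarith [h.e_pos]
    rcases lt_or_gt_of_ne hy0 with h0 | h0
    · refine ⟨(1 - l) * (c j + s * a j) - (1 - l) * (s * a j - l), ?_⟩
      filter_upwards [e1, e2, e3, hp.continuousAt.eventually (gt_mem_nhds h0)] with w w1 w2 w3 w4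
      rw [push_apply_of_mem w1 w2.1.le w2.2.le hj, w3, gz_of_le h w4.le]
      have := h.dm_pos j
      have h5 : c j + s * a j - w j ≠ 0 := (sub_pos.2 w4).ne'
      field_simp
      ring
    · refine ⟨(1 - l) * (c j + s * a j) + (1 - l) * (s * (1 - a j) - l), ?_⟩
      filter_upwards [e1, e2, e3, hp.continuousAt.eventually (lt_mem_nhds h0)] with w w1 w2 w3 w4
      rw [push_apply_of_mem w1 w2.1.le w2.2.le hj, w3, gz_of_ge h w4.le]
      have := h.dp_pos j
      have h5 : w j - (c j + s * a j) ≠ 0 := (sub_pos.2 w4).ne'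
      field_simp
      ring
  obtain ⟨b, hb⟩ := key
  filter_upwards [hb] with w hw
  rw [hw, hb.self_of_nhds, add_sub_add_right_eq_sub, ← mul_sub, norm_mul,
    Real.norm_of_nonneg h.l_pos.le]
  exact mul_le_mul_of_nonneg_left (norm_le_pi_norm (w - y) j) h.l_pos.le

end Pool.Agent.P.MP_667fa2_an
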