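import Pool.Agent.P.MP_667fa2_an.Avg

/-! All pushes of the faces with a given set of free directions, glued together. -/

namespace Pool.Agent.P.MP_667fa2_an

open Set Filter Topology MeasureTheory Metric
open scoped ENNReal NNReal

variable {n : ℕ}

open Classical in
/-- Gluing functions given on disjoint sets. -/
noncomputable def glue {ι β : Type*} (S : ι → Set (E n)) (f : ι → E n → β) (d : E n → β)
    (y : E n) : β :=
  if h : ∃ w, y ∈ S w then f h.choose y else d y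

theorem glue_of_mem {ι β : Type*} {S : ι → Set (E n)} (f : ι → E n → β) (d : E n → β)
    (hd : ∀ w w' y, y ∈ S w → y ∈ S w' → w = w') {w : ι} {y : E n} (hy : y ∈ S w) :
    glue S f d y = f w y := by
  have h : ∃ w, y ∈ S w := ⟨w, hy⟩
  rw [glue, dif_pos h, hd _ _ _ h.choose_spec hy]

theorem glue_of_not {ι β : Type*} {S : ι → Set (E n)} (f : ι → E n → β) (d : E n → β)
    {y : E n} (hy : ∀ w, y ∉ S w) : glue S f d y = d y := by
  rw [glue, dif_neg (not_exists.2 hy)]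

theorem measurable_glue {ι β : Type*} [Countable ι] [MeasurableSpace β] {S : ι → Set (E n)}
    {f : ι → E n → β} {d : E n → β} (hd : ∀ w w' y, y ∈ S w → y ∈ S w' → w = w')
    (hS : ∀ w, MeasurableSet (S w)) (hf : ∀ w, Measurable (f w)) (hd' : Measurable d) :
    Measurable (glue S f d) := by
  intro T hT
  have : glue S f d ⁻¹' T = (⋃ w, S w ∩ f w ⁻¹' T) ∪ ((⋃ w, S w)ᶜ ∩ d ⁻¹' T) := by
    ext y
    by_cases h : ∃ w, y ∈ S w
    · obtain ⟨w, hw⟩ := h
      simp only [mem_preimage, glue_of_mem f d hd hw, mem_union, mem_iUnion, mem_inter_iff,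
        mem_compl_iff]
      constructor
      · exact fun h => Or.inl ⟨w, hw, h⟩
      · rintro (⟨w', h1, h2⟩ | ⟨h1, -⟩)
        · rwa [hd _ _ _ hw h1]
        · exact absurd ⟨w, hw⟩ h1
    · push Not at h
      simp [glue_of_not f d h, h]
  rw [this]
  exact (MeasurableSet.iUnion fun w => (hS w).inter (hf w hT)).union
    ((MeasurableSet.iUnion hS).compl.inter (hd' hT))

theorem mapsTo_of_id_off {f : E n → E n} (hf : Function.Injective f) {S : Set (E n)}
    (h : ∀ y, y ∉ S → f y = y) : MapsTo f S S := fun y hy => by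
  by_contra hc
  exact hc (by rw [hf (h _ hc)]; exact hy)

theorem exists_glue_homeo {ι : Type*} (S K : ι → Set (E n)) (F : ι → E n ≃ₜ E n) (ϱ : E n → ℝ)
    (hϱ : Continuous ϱ) (hϱ0 : ∀ y, 0 ≤ ϱ y) (hd : ∀ w w' y, y ∈ S w → y ∈ S w' → w = w')
    (hS : ∀ w, IsOpen (S w)) (hK : ∀ w, IsClosed (K w)) (hKS : ∀ w, K w ⊆ S w)
    (hF : ∀ w y, y ∉ K w → F w y = y)
    (hlf : ∀ y, 0 < ϱ y → ∃ t ∈ 𝓝 y, {w | (S w ∩ t).Nonempty}.Finite) (M : ℝ) (hM : 0 ≤ M)
    (hδ : ∀ w, ∀ y ∈ S w, dist (F w y) y ≤ M ∧ dist (F w y) y ≤ ϱ y ∧ 0 < ϱ y) :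
    ∃ P : E n ≃ₜ E n, (∀ w, ∀ y ∈ S w, P y = F w y) ∧ (∀ y, (∀ w, y ∉ S w) → P y = y) ∧
      ∀ y, 0 < ϱ y → (∀ w, y ∉ K w) → ∀ᶠ x in 𝓝 y, P x = x := by
  set P := glue S (fun w y => F w y) id with hP
  set Q := glue S (fun w y => (F w).symm y) id with hQ
  have p1 : ∀ w, ∀ y ∈ S w, P y = F w y := fun w y hy => glue_of_mem _ _ hd hy
  have p2 : ∀ y, (∀ w, y ∉ S w) → P y = y := fun y hy => glue_of_not _ _ hy
  have q1 : ∀ w, ∀ y ∈ S w, Q y = (F w).symm y := fun w y hy => glue_of_mem _ _ hd hy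
  have q2 : ∀ y, (∀ w, y ∉ S w) → Q y = y := fun y hy => glue_of_not _ _ hy
  have m1 : ∀ w, MapsTo (F w) (S w) (S w) := fun w =>
    mapsTo_of_id_off (F w).injective fun y hy => hF w y fun h => hy (hKS w h)
  have m2 : ∀ w, MapsTo (F w).symm (S w) (S w) := fun w =>
    mapsTo_of_id_off (F w).symm.injective fun y hy =>
      (F w).symm_apply_eq.2 (hF w y fun h => hy (hKS w h)).symm
  have p3 : ∀ y, 0 < ϱ y → (∀ w, y ∉ K w) → ∀ᶠ x in 𝓝 y, P x = x := by
    intro y hy hyK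
    obtain ⟨t, ht, hfin⟩ := hlf y hy
    have h1 : ∀ᶠ x in 𝓝 y, ∀ w ∈ {w | (S w ∩ t).Nonempty}, x ∉ K w :=
      (eventually_all_finite hfin).2 fun w _ => (hK w).isOpen_compl.mem_nhds (hyK w)
    filter_upwards [h1, ht] with x hx hxt
    by_cases h : ∃ w, x ∈ S w
    · obtain ⟨w, hw⟩ := h
      rw [p1 w x hw, hF w x (hx w ⟨x, hw, hxt⟩)]
    · exact p2 x (not_exists.1 h)
  have pd : ∀ y, dist (P y) y ≤ M ∧ dist (P y) y ≤ ϱ y := fun y => by
    by_cases h : ∃ w, y ∈ S w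
    · obtain ⟨w, hw⟩ := h
      rw [p1 w y hw]; exact ⟨(hδ w y hw).1, (hδ w y hw).2.1⟩
    · rw [p2 y (not_exists.1 h), dist_self]; exact ⟨hM, hϱ0 y⟩
  have hc : Continuous P := by
    rw [continuous_iff_continuousAt]
    intro y
    by_cases h : ∃ w, y ∈ S w
    · obtain ⟨w, hw⟩ := h
      refine (F w).continuous.continuousAt.congr ?_
      filter_upwards [(hS w).mem_nhds hw] with x hx using (p1 w x hx).symm
    rcases (hϱ0 y).lt_or_eq with hy | hy
    · exact continuousAt_id.congr ((p3 y hy fun w hw => h ⟨w, hKS w hw⟩).mono fun x hx => hx.symm)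
    · rw [ContinuousAt, p2 y (not_exists.1 h), tendsto_iff_dist_tendsto_zero]
      have h1 : Tendsto (fun x => ϱ x + dist x y) (𝓝 y) (𝓝 0) := by
        have : Continuous fun x => ϱ x + dist x y := by fun_prop
        simpa [← hy] using this.tendsto y
      refine squeeze_zero (fun _ => dist_nonneg) (fun x => ?_) h1
      linarith [dist_triangle (P x) x y, (pd x).2]
  have hl : Function.LeftInverse Q P := fun y => by
    by_cases h : ∃ w, y ∈ S w
    · obtain ⟨w, hw⟩ := h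
      rw [p1 w y hw, q1 w _ (m1 w hw), Homeomorph.symm_apply_apply]
    · rw [p2 y (not_exists.1 h), q2 y (not_exists.1 h)]
  have hr : Function.RightInverse Q P := fun y => by
    by_cases h : ∃ w, y ∈ S w
    · obtain ⟨w, hw⟩ := h
      rw [q1 w y hw, p1 w _ (m2 w hw), Homeomorph.apply_symm_apply]
    · rw [q2 y (not_exists.1 h), p2 y (not_exists.1 h)]
  obtain ⟨G, hG⟩ := homeo_of_bij P hc hl.injective hr.surjective M fun y => (pd y).1
  exact ⟨G, fun w y hy => (hG y).trans (p1 w y hy), fun y hy => (hG y).trans (p2 y hy),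
    fun y hy hyK => (p3 y hy hyK).mono fun x hx => (hG x).trans hx⟩

/-- The corner of a face. -/
noncomputable def cor (s : ℝ) (z : Fin n → ℤ) : E n := fun i => s * z i

/-- Closed support of a push. -/
def Kset (s l : ℝ) (I : Finset (Fin n)) (z : Fin n → ℤ) : Set (E n) :=
  {y | (∀ i ∈ I, s * z i + l ≤ y i ∧ y i ≤ s * z i + s - l) ∧ ∀ i, i ∉ I → |y i - s * z i| ≤ s / 4}

theorem isClosed_Kset (s l : ℝ) (I : Finset (Fin n)) (z : Fin n → ℤ) : IsClosed (Kset s l I z) := by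
  have : Kset s l I z = (⋂ i ∈ I, ({x : E n | s * z i + l ≤ x i} ∩ {x | x i ≤ s * z i + s - l})) ∩
      ⋂ i ∈ Iᶜ, {x : E n | |x i - s * z i| ≤ s / 4} := by
    ext x; simp [Kset]
  rw [this]
  refine (isClosed_biInter fun i _ => ?_).inter (isClosed_biInter fun i _ => ?_)
  · exact (isClosed_le (by fun_prop) (by fun_prop)).inter (isClosed_le (by fun_prop) (by fun_prop))
  · exact isClosed_le (by fun_prop) (by fun_prop)

theorem Kset_subset {s l : ℝ} (hs : 0 < s) (hl : 0 < l) (I : Finset (Fin n)) (z : Fin n → ℤ) :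
    Kset s l I z ⊆ Sset s I z := fun y hy =>
  ⟨fun i hi => by constructor <;> linarith [(hy.1 i hi).1, (hy.1 i hi).2],
    fun i hi => by linarith [hy.2 i hi]⟩

variable {ϱ : E n → ℝ} {μ : ℝ} {X : Set (E n)}

theorem pushI (h : Setup ϱ μ X) {m : ℕ} (hm1 : 1 ≤ m) (I : Finset (Fin n)) (hm : m ≤ I.card)
    {q : ℝ} (hq : 0 < q) (ν ν' : Measure (E n)) [IsFiniteMeasure ν]
    (hν' : ∀ s : ℝ, 0 < s → ν' {x | s ≤ ϱ x} < ⊤) (l e σi σo : ℕ → ℝ)
    (hl : ∀ k, 0 < l k ∧ l k ≤ mesh μ k / 12) (he : ∀ k, 0 < e k ∧ e k < 1)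
    (hσi : ∀ k, 0 < σi k) (hσo : ∀ k, 0 < σo k) :
    ∃ (P : E n ≃ₜ E n) (β : E n → ℝ) (bad : Set (E n)),
      (∀ y, ϱ y = 0 → P y = y) ∧ (∀ y, (∀ x ∈ X, 3 * μ ≤ dist y x) → P y = y) ∧
      (∀ y, dist (P y) y ≤ μ) ∧ (∀ y, ϱ (P y) ≤ 2 * ϱ y ∧ ϱ y ≤ 2 * ϱ (P y)) ∧
      (∀ y i, i ∉ I → P y i = y i) ∧ Measurable β ∧ (∀ y, 1 ≤ β y) ∧
      (∀ y, 0 < ϱ y → PLip P y (β y)) ∧ (∀ s : ℝ, 0 < s → ∃ L : ℝ, ∀ y, s ≤ ϱ y → β y ≤ L) ∧
      AENice {y | 0 < ϱ y} P ∧
      ∫⁻ y, ENNReal.ofReal (β y) ^ q ∂ν ≤ (3 * Cq n m q + 1) * ν univ ∧ MeasurableSet bad ∧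
      ν' bad ≤ ∑' k, 3 * ENNReal.ofReal (6 * e k + 36 * n ^ 2 * (σo k / σi k)) *
        ν' {y | mesh μ k ≤ ϱ y} ∧
      (∀ y, 0 < ϱ y → (∀ k z, Active ϱ μ X k I z → y ∉ Kset (mesh μ k) (l k) I z) →
        ∀ᶠ x in 𝓝 y, P x = x) ∧
      ∀ k z, Active ϱ μ X k I z → ∃ a, Par (mesh μ k) (l k) (e k) a ∧
        ∀ y ∈ Sset (mesh μ k) I z,
          (∀ᶠ x in 𝓝 y, P x = push I (cor (mesh μ k) z) (mesh μ k) (l k) (e k) a x) ∧
          (y ∉ bad → ¬Bad I (cor (mesh μ k) z) (mesh μ k) (l k) (e k) (σi k) (σo k) a y) := by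
  let ι := Σ k : ℕ, {z : Fin n → ℤ // Active ϱ μ X k I z}
  let S : ι → Set (E n) := fun w => Sset (mesh μ w.1) I w.2.1
  have hs := mesh_pos h.pos
  have hSo : ∀ w, IsOpen (S w) := fun w => isOpen_Sset _ _ _
  have hSm : ∀ w, MeasurableSet (S w) := fun w => (hSo w).measurableSet
  have hd : ∀ w w' y, y ∈ S w → y ∈ S w' → w = w' := by
    rintro ⟨k, z, hz⟩ ⟨k', z', hz'⟩ y hy hy'
    obtain ⟨rfl, rfl⟩ := hz.eq_of_mem_Sset h hz' hy hy'
    rfl
  have hlt : ∀ w, ∀ y ∈ S w, mesh μ w.1 < ϱ y := fun w y hy =>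
    w.2.2.near_lt_rho h (Sset_subset_near (hs _) hy)
  have hPar : ∀ k, ∀ a : E n, (∀ i, 1 / 3 ≤ a i ∧ a i ≤ 2 / 3) → Par (mesh μ k) (l k) (e k) a :=
    fun k a ha => ⟨hs k, (hl k).1, (hl k).2, (mesh_le h.pos k).trans h.le_one, (he k).1,
      (he k).2, ha⟩
  have hex : ∀ w : ι, ∃ a, Par (mesh μ w.1) (l w.1) (e w.1) a ∧
      ∫⁻ y in S w, ENNReal.ofReal ((11 + bumpK n) /
        clp (e w.1) (rad I (cor (mesh μ w.1) w.2.1) (mesh μ w.1) (l w.1) a y)) ^ q ∂ν ≤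
        3 * Cq n m q * ν (S w) ∧
      ν' (S w ∩ {y | Bad I (cor (mesh μ w.1) w.2.1) (mesh μ w.1) (l w.1) (e w.1) (σi w.1)
        (σo w.1) a y}) ≤ 3 * ENNReal.ofReal (6 * e w.1 + 36 * n ^ 2 * (σo w.1 / σi w.1)) *
        ν' (S w) := by
    intro w
    have : IsFiniteMeasure (ν'.restrict (S w)) := isFiniteMeasure_restrict.2
      ((measure_mono fun y hy => (hlt w y hy).le).trans_lt (hν' _ (hs w.1))).ne
    obtain ⟨a, h1, h2, h3⟩ := exists_centre hm1 hm hq (hσi w.1) (hσo w.1) (hPar w.1)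
      (cor (mesh μ w.1) w.2.1) (ν.restrict (S w)) (ν'.restrict (S w))
    refine ⟨a, h1, by simpa using h2, ?_⟩
    rw [Measure.restrict_apply' (hSm w), Measure.restrict_apply_univ, inter_comm] at h3
    exact h3
  choose a haP haν haν' using hex
  choose F hF using fun w : ι => exists_push_homeo (haP w) I (cor (mesh μ w.1) w.2.1)
  have hlf : ∀ y, 0 < ϱ y → ∃ t ∈ 𝓝 y, {w | (S w ∩ t).Nonempty}.Finite := by
    intro y hy
    obtain ⟨t, ht, hfin⟩ := h.locFin hy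
    refine ⟨t, ht, Set.Finite.of_finite_image (f := fun w : ι => (w.1, I, w.2.1))
      (hfin.subset ?_) ?_⟩
    · rintro _ ⟨w, ⟨x, hx, hxt⟩, rfl⟩
      exact ⟨w.2.2, x, Sset_subset_near (hs _) hx, hxt⟩
    · rintro ⟨k, z, hz⟩ - ⟨k', z', hz'⟩ - heq
      simp only [Prod.mk.injEq, true_and] at heq
      obtain ⟨rfl, rfl⟩ := heq
      rfl
  have hFd : ∀ w y, dist (F w y) y ≤ mesh μ w.1 := fun w y => by
    rw [hF]; exact dist_push_le (haP w) _ _ _
  have hFK : ∀ w y, y ∉ Kset (mesh μ w.1) (l w.1) I w.2.1 → F w y = y := fun w y hy => by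
    by_contra hc
    rw [hF] at hc
    have := push_support (haP w) hc
    exact hy ⟨fun i hi => ⟨(this.1 i hi).1.le, (this.1 i hi).2.le⟩, fun i hi => (this.2 i hi).le⟩
  have hKS : ∀ w : ι, Kset (mesh μ w.1) (l w.1) I w.2.1 ⊆ S w :=
    fun w => Kset_subset (hs _) (hl _).1 _ _
  obtain ⟨P, p1, p2, p3⟩ := exists_glue_homeo S (fun w => Kset (mesh μ w.1) (l w.1) I w.2.1) F ϱ
    h.lip.continuous h.nonneg hd hSo (fun w => isClosed_Kset _ _ _ _) hKS hFK hlf μ h.pos.le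
    fun w y hy => ⟨(hFd w y).trans (mesh_le h.pos _), (hFd w y).trans (hlt w y hy).le,
      (hs _).trans (hlt w y hy)⟩
  have p1' : ∀ w, ∀ y ∈ S w, ∀ᶠ x in 𝓝 y,
      P x = push I (cor (mesh μ w.1) w.2.1) (mesh μ w.1) (l w.1) (e w.1) (a w) x :=
    fun w y hy => mem_of_superset ((hSo w).mem_nhds hy) fun x hx => (p1 w x hx).trans (hF w x)
  have p3' : ∀ y, 0 < ϱ y → (∀ w, y ∉ S w) → ∀ᶠ x in 𝓝 y, P x = x :=
    fun y hy hyS => p3 y hy fun w hw => hyS w (hKS w hw)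
  set g : ι → E n → ℝ := fun w y => (11 + bumpK n) /
    clp (e w.1) (rad I (cor (mesh μ w.1) w.2.1) (mesh μ w.1) (l w.1) (a w) y) with hg
  have hK0 : (0 : ℝ) ≤ bumpK n := (bumpK n).2
  have hgm : ∀ w, Measurable (g w) := fun w =>
    measurable_const.div ((continuous_clp _).comp (continuous_rad _ _ _ _ _)).measurable
  set β := glue S g (fun _ => 1) with hβ
  have b1 : ∀ w, ∀ y ∈ S w, β y = g w y := fun w y hy => glue_of_mem _ _ hd hy
  have b2 : ∀ y, (∀ w, y ∉ S w) → β y = 1 := fun y hy => glue_of_not _ _ hy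
  have hbm : ∀ w : ι, MeasurableSet {y | Bad I (cor (mesh μ w.1) w.2.1) (mesh μ w.1) (l w.1)
      (e w.1) (σi w.1) (σo w.1) (a w) y} := fun w =>
    (measurable_id.prodMk measurable_const) (measurableSet_bad _ _ _ _ _ _ _)
  refine ⟨P, β, ⋃ w, S w ∩ {y | Bad I (cor (mesh μ w.1) w.2.1) (mesh μ w.1) (l w.1)
      (e w.1) (σi w.1) (σo w.1) (a w) y}, ?_, ?_, ?_, ?_, ?_, measurable_glue hd hSm hgm
      measurable_const, ?_, ?_, ?_, ?_, ?_, MeasurableSet.iUnion fun w => (hSm w).inter (hbm w),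
      ?_, ?_, ?_⟩
  · intro y hy
    exact p2 y fun w hw => by linarith [hlt w y hw, hs w.1]
  · intro y hy
    refine p2 y fun w hw => ?_
    obtain ⟨x, hx, hxd⟩ := w.2.2.near_X h (Sset_subset_near (hs _) hw)
    linarith [hy x hx, h.pos]
  · intro y
    by_cases hy : ∃ w, y ∈ S w
    · obtain ⟨w, hw⟩ := hy
      rw [p1 w y hw]; exact (hFd w y).trans (mesh_le h.pos _)
    · rw [p2 y (not_exists.1 hy), dist_self]; exact h.pos.le
  · intro y
    by_cases hy : ∃ w, y ∈ S w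
    · obtain ⟨w, hw⟩ := hy
      have h1 : F w y ∈ S w :=
        mapsTo_of_id_off (F w).injective (fun x hx => hFK w x fun h => hx (hKS w h)) hw
      rw [p1 w y hw]
      have h2 := h.le_add (F w y) y
      have h3 := h.le_add y (F w y)
      rw [dist_comm] at h3
      constructor <;> linarith [hlt w y hw, hlt w _ h1, hFd w y]
    · rw [p2 y (not_exists.1 hy)]
      constructor <;> linarith [h.nonneg y]
  · intro y i hi
    by_cases hy : ∃ w, y ∈ S w
    · obtain ⟨w, hw⟩ := hy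
      rw [p1 w y hw, hF, push_apply_of_notMem _ _ _ _ _ _ hi]
    · rw [p2 y (not_exists.1 hy)]
  · intro y
    by_cases hy : ∃ w, y ∈ S w
    · obtain ⟨w, hw⟩ := hy
      rw [b1 w y hw, hg, le_div_iff₀ (clp_pos (he _).1 _)]
      linarith [clp_le_one (he w.1).2
        (rad I (cor (mesh μ w.1) w.2.1) (mesh μ w.1) (l w.1) (a w) y)]
    · rw [b2 y (not_exists.1 hy)]
  · intro y hy0
    by_cases hy : ∃ w, y ∈ S w
    · obtain ⟨w, hw⟩ := hy
      rw [b1 w y hw]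
      exact (push_PLip (haP w) I _ y).congr ((p1' w y hw).mono fun x hx => hx.symm)
    · rw [b2 y (not_exists.1 hy)]
      exact (PLip.id y).congr ((p3' y hy0 (not_exists.1 hy)).mono fun x hx => hx.symm)
  · intro s hs0
    have h2 : Tendsto (fun k => 7 * mesh μ k) atTop (𝓝 0) := by
      simpa using (mesh_tendsto μ).const_mul 7
    obtain ⟨N, hN⟩ := eventually_atTop.1 (h2.eventually (gt_mem_nhds hs0))
    have hnn : ∀ k, 0 ≤ (11 + bumpK n) / e k := fun k => div_nonneg (by linarith) (he k).1.le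
    refine ⟨1 + ∑ k ∈ Finset.range (N + 1), (11 + bumpK n) / e k, fun y hy0 => ?_⟩
    by_cases hy : ∃ w, y ∈ S w
    · obtain ⟨⟨k, z, hz⟩, hw⟩ := hy
      have hk : k < N + 1 := by
        by_contra hk
        obtain ⟨j, rfl⟩ : ∃ j, k = j + 1 := ⟨k - 1, by omega⟩
        linarith [hz.near_rho_le h (Sset_subset_near (hs _) hw), hN (j + 1) (by omega)]
      rw [b1 _ y hw]
      have h3 : g ⟨k, z, hz⟩ y ≤ (11 + bumpK n) / e k :=
        div_le_div_of_nonneg_left (by linarith) (he k).1 (le_clp _ _)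
      have h4 := Finset.single_le_sum (f := fun k => (11 + (bumpK n : ℝ)) / e k)
        (fun k _ => hnn k) (Finset.mem_range.2 hk)
      linarith
    · rw [b2 y (not_exists.1 hy)]
      have := Finset.sum_nonneg (s := Finset.range (N + 1)) fun k _ => hnn k
      linarith
  · have h1 : ∀ᵐ y, ∀ w : ι,
        Nice (push I (cor (mesh μ w.1) w.2.1) (mesh μ w.1) (l w.1) (e w.1) (a w)) y :=
      ae_all_iff.2 fun w => push_aenice (haP w) I _
    filter_upwards [h1] with y hy1 hy0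
    by_cases hy : ∃ w, y ∈ S w
    · obtain ⟨w, hw⟩ := hy
      exact (hy1 w).congr ((p1' w y hw).mono fun x hx => hx.symm)
    · exact (Nice.id y).congr ((p3' y hy0 (not_exists.1 hy)).mono fun x hx => hx.symm)
  · have hdis : Pairwise (Function.onFun Disjoint S) := fun w w' hne =>
      Set.disjoint_left.2 fun y h1 h2 => hne (hd _ _ _ h1 h2)
    rw [← lintegral_add_compl _ (MeasurableSet.iUnion hSm), add_mul, one_mul]
    refine add_le_add ?_ ?_
    · rw [lintegral_iUnion hSm hdis]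
      calc ∑' w, ∫⁻ y in S w, ENNReal.ofReal (β y) ^ q ∂ν
          ≤ ∑' w, 3 * Cq n m q * ν (S w) := by
            refine ENNReal.tsum_le_tsum fun w => le_trans (le_of_eq ?_) (haν w)
            exact setLIntegral_congr_fun (hSm w) fun y hy => by simp only [b1 w y hy, hg]
        _ = 3 * Cq n m q * ν (⋃ w, S w) := by
            rw [ENNReal.tsum_mul_left, measure_iUnion hdis hSm]
        _ ≤ _ := by gcongr; exact subset_univ _
    · rw [setLIntegral_congr_fun (g := fun _ => 1) (MeasurableSet.iUnion hSm).compl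
        fun y hy => by simp [b2 y (by simpa using hy)]]
      simpa using measure_mono (subset_univ _)
  · rw [iUnion_sigma]
    refine (measure_iUnion_le _).trans (ENNReal.tsum_le_tsum fun k => ?_)
    refine (measure_iUnion_le _).trans ((ENNReal.tsum_le_tsum fun z => haν' ⟨k, z⟩).trans ?_)
    have hdis : Pairwise (Function.onFun Disjoint
        fun z : {z : Fin n → ℤ // Active ϱ μ X k I z} => S ⟨k, z⟩) := fun z z' hne =>
      Set.disjoint_left.2 fun y h1 h2 => hne (by simpa [ι] using hd _ _ _ h1 h2)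
    simp only
    rw [ENNReal.tsum_mul_left, ← measure_iUnion hdis fun z => hSm _]
    gcongr
    exact iUnion_subset fun z y hy => (hlt ⟨k, z⟩ y hy).le
  · intro y hy hyK
    exact p3 y hy fun w => hyK w.1 w.2.1 w.2.2
  · intro k z hz
    refine ⟨a ⟨k, z, hz⟩, haP ⟨k, z, hz⟩, fun y hy => ⟨p1' ⟨k, z, hz⟩ y hy, fun hb hb' => hb ?_⟩⟩
    exact mem_iUnion.2 ⟨⟨k, z, hz⟩, hy, hb'⟩

end Pool.Agent.P.MP_667fa2_an
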