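import Pool.Agent.P.MP_667fa2_an.PushI

/-! The effect of one family of pushes on good points. -/

namespace Pool.Agent.P.MP_667fa2_an

open Set Filter Topology MeasureTheory Metric
open scoped ENNReal NNReal

variable {n : ℕ} {ϱ : E n → ℝ} {μ : ℝ} {X : Set (E n)}

theorem Good.congr {ς η : ℕ → ℝ} {j : ℕ} {h h' : E n → E n} {B B' : E n → ℝ} {x : E n}
    (hg : Good ϱ μ X ς η j h B x) (he : h =ᶠ[𝓝 x] h') (hB : B x ≤ B' x) (hη : ∀ k, 0 < η k) :
    Good ϱ μ X ς η j h' B' x := by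
  obtain ⟨k, I, z, h1, h2, h3, h4⟩ := hg
  have h0 : h x = h' x := he.eq_of_nhds
  refine ⟨k, I, z, h1, h2, h0 ▸ h3, fun i hi => ⟨h0 ▸ (h4 i hi).1, ?_⟩⟩
  exact ((h4 i hi).2.congr (he.mono fun y hy => by simp only [hy])).mono
    (mul_le_mul_of_nonneg_left hB (hη k).le)

/-- Compatibility of the small parameters of one stage. -/
structure Params (μ : ℝ) (ς η l σo ς' η' : ℕ → ℝ) : Prop where
  η_pos : ∀ k, 0 < η k
  l_pos : ∀ k, 0 < l k
  l_ς : ∀ k, 2 * l k ≤ ς k
  l_σ : ∀ k, 2 * l k ≤ σo k * mesh μ k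
  ς'_le : ∀ k, ς' k ≤ σo k * mesh μ k ∧ ς' (k + 1) ≤ σo k * mesh μ k
  l_η' : ∀ k, 2 * l k ≤ η' k ∧ 2 * l k ≤ η' (k + 1)
  l_mesh : ∀ k, l k ≤ mesh μ k / 12
  η_lt : ∀ k k', k' ≤ k + 2 → η k < l k'

variable {ς η l σo ς' η' : ℕ → ℝ}

theorem not_mem_Kset (h : Setup ϱ μ X) (hp : Params μ ς η l σo ς' η') {k k' : ℕ}
    {I I' : Finset (Fin n)} {z z' : Fin n → ℤ} (ha : Active ϱ μ X k I z)
    (ha' : Active ϱ μ X k' I' z') (hc : I.card ≤ I'.card) (hne : I ≠ I') {y : E n}
    (h1 : ∀ i ∈ I, mesh μ k * z i < y i ∧ y i < mesh μ k * (z i + 1))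
    (h2 : ∀ i, i ∉ I → |y i - mesh μ k * z i| ≤ η k) : y ∉ Kset (mesh μ k') (l k') I' z' := by
  intro hy
  have hs := mesh_pos h.pos
  have hd := dist_snap_le (hp.η_pos k).le h2
  have hx := snap_mem_oface h1
  have e1 := hp.η_lt k k (by omega)
  have e2 := hp.l_mesh k
  have n1 : mesh μ k < ϱ y := ha.near_lt_rho h ⟨_, oface_subset_face hx, by linarith [hs k]⟩
  have hk : k' ≤ k + 2 := by
    by_contra hk
    obtain ⟨j, rfl⟩ : ∃ j, k' = j + 1 := ⟨k' - 1, by omega⟩
    have n2 := ha'.near_rho_le h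
      (Sset_subset_near (hs _) (Kset_subset (hs _) (hp.l_pos _) _ _ hy))
    have n3 := mesh_anti h.pos (show k + 3 ≤ j + 1 by omega)
    have n4 := mesh_add μ k 3
    have n5 := hs (k + 3)
    push_cast at n4
    linarith
  have e3 := hp.η_lt k k' hk
  have e4 := hp.l_mesh k'
  refine hne (ha.eq_of_mem_star h ha' hc hx ⟨fun i hi => ?_, fun i hi => ?_⟩).2.1
  · have := abs_le.1 ((dist_le_pi_dist y _ i).trans hd)
    constructor <;> linarith [(hy.1 i hi).1, (hy.1 i hi).2]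
  · have h3 := abs_le.1 ((dist_le_pi_dist y _ i).trans hd)
    have h4 := abs_le.1 (hy.2 i hi)
    rw [abs_lt]
    constructor <;> linarith [hs k']

theorem good_of_lock (h : Setup ϱ μ X) (hp : Params μ ς η l σo ς' η') {k : ℕ}
    {I : Finset (Fin n)} {z : Fin n → ℤ} (ha : Active ϱ μ X k I z) {f : E n → E n}
    {B : E n → ℝ} {x : E n} (hB : 0 ≤ B x) {j : Fin n} (hj : j ∈ I)
    (h1 : ∀ i ∈ I, mesh μ k * z i < f x i ∧ f x i < mesh μ k * (z i + 1))
    (h2 : ∀ i, i ∉ I → |f x i - mesh μ k * z i| ≤ η k ∧ PLip (fun y => f y i) x (η k * B x))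
    (h3 : |f x j - mesh μ k * z j| ≤ 2 * l k ∨ |f x j - (mesh μ k * z j + mesh μ k)| ≤ 2 * l k)
    (h4 : PLip (fun y => f y j) x (l k * B x))
    (h5 : ∀ i ∈ I, i ≠ j → ∀ κ : Fin 3,
      σo k * mesh μ k < |f x i - (mesh μ k * z i + mesh μ k * ((κ : ℝ) / 2))|) :
    Good ϱ μ X ς' η' (I.card - 1) f B x := by
  have hs := mesh_pos h.pos k
  set s := mesh μ k with hsd
  obtain ⟨w, hw1, hw2, hw3⟩ : ∃ w : Fin n → ℤ, (∀ i, i ≠ j → w i = z i) ∧
      (w j = z j ∨ w j = z j + 1) ∧ |f x j - s * w j| ≤ 2 * l k := by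
    rcases h3 with h3 | h3
    · exact ⟨z, fun _ _ => rfl, Or.inl rfl, h3⟩
    · refine ⟨Function.update z j (z j + 1), fun i hi => Function.update_of_ne hi _ _,
        Or.inr (by simp), ?_⟩
      simpa [mul_add] using h3
  have hmem : ∀ i, i ∈ I.erase j ↔ i ≠ j ∧ i ∈ I := fun i => Finset.mem_erase
  have hx0 : snap s (I.erase j) w (f x) ∈ oface s (I.erase j) w :=
    snap_mem_oface fun i hi => by rw [hw1 i ((hmem i).1 hi).1]; exact h1 i ((hmem i).1 hi).2
  have hx1 : snap s (I.erase j) w (f x) ∈ face s I z := by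
    refine ⟨fun i hi => ?_, fun i hi => ?_⟩
    · by_cases hij : i = j
      · subst hij
        simp only [snap, Finset.notMem_erase, if_false]
        rcases hw2 with h6 | h6 <;> rw [h6] <;> push_cast <;> constructor <;> linarith
      · simp only [snap, (hmem i).2 ⟨hij, hi⟩, if_true]
        exact ⟨(h1 i hi).1.le, (h1 i hi).2.le⟩
    · have hij : i ≠ j := fun h => hi (h ▸ hj)
      simp [snap, hi, hw1 i hij]
  have hl := hp.l_pos k
  have hη := hp.η_lt k k (by omega)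
  have hlock : ∀ r : ℝ, 2 * l k ≤ r → ∀ i, i ∉ I.erase j →
      |f x i - s * w i| ≤ r ∧ PLip (fun y => f y i) x (r * B x) := by
    intro r hr i hi
    by_cases hij : i = j
    · subst hij
      exact ⟨hw3.trans hr, h4.mono (mul_le_mul_of_nonneg_right (by linarith) hB)⟩
    · have hi' : i ∉ I := fun h => hi ((hmem i).2 ⟨hij, h⟩)
      rw [hw1 i hij]
      exact ⟨by linarith [(h2 i hi').1],
        (h2 i hi').2.mono (mul_le_mul_of_nonneg_right (by linarith) hB)⟩
  have hav : ∀ i ∈ I.erase j, (s * z i + σo k * s ≤ f x i ∧ f x i ≤ s * (z i + 1) - σo k * s) ∧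
      (f x i ≤ s * z i + s / 2 - σo k * s ∨ s * z i + s / 2 + σo k * s ≤ f x i) := by
    intro i hi
    obtain ⟨hij, hi⟩ := (hmem i).1 hi
    have a0 := h5 i hi hij 0
    have a1 := h5 i hi hij 1
    have a2 := h5 i hi hij 2
    have b := h1 i hi
    simp only [Fin.val_zero, Fin.val_one, Fin.val_two, Nat.cast_zero, Nat.cast_one,
      Nat.cast_ofNat] at a0 a1 a2
    rw [abs_of_pos (by linarith)] at a0
    rw [abs_of_neg (by linarith)] at a2
    refine ⟨⟨by linarith, by linarith⟩, ?_⟩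
    rcases lt_abs.1 a1 with a1 | a1
    · right; linarith
    · left; linarith
  by_cases hD : snap s (I.erase j) w (f x) ∈ D ϱ μ X (k + 1)
  · have hs2 : s = 2 * mesh μ (k + 1) := mesh_succ μ k
    have hσ : 0 < σo k * s := by linarith [hp.l_σ k]
    have hς := (hp.ς'_le k).2
    set w' : Fin n → ℤ := fun i => if i ∈ I.erase j then
      (if f x i < s * z i + s / 2 then 2 * z i else 2 * z i + 1) else 2 * w i with hw'
    have key : ∀ i ∈ I.erase j, mesh μ (k + 1) * w' i + σo k * s ≤ f x i ∧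
        f x i ≤ mesh μ (k + 1) * (w' i + 1) - σo k * s := by
      intro i hi
      obtain ⟨⟨c1, c2⟩, c3⟩ := hav i hi
      have hs3 : mesh μ (k + 1) = s / 2 := by linarith
      rw [hs3]
      by_cases hlt : f x i < s * z i + s / 2
      · simp only [hw', hi, hlt, if_true]
        push_cast
        rcases c3 with c3 | c3 <;> constructor <;> linarith
      · simp only [hw', hi, hlt, if_true, if_false]
        push_cast
        rcases c3 with c3 | c3 <;> constructor <;> linarith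
    have key2 : ∀ i, i ∉ I.erase j → mesh μ (k + 1) * w' i = s * w i := fun i hi => by
      simp only [hw', hi, if_false]; push_cast; rw [hs2]; ring
    refine ⟨k + 1, I.erase j, w', Finset.card_erase_of_mem hj,
      ⟨snap s (I.erase j) w (f x), ⟨fun i hi => ?_, fun i hi => ?_⟩, hD, fun hD' => ?_⟩,
      fun i hi => ?_, fun i hi => ?_⟩
    · simp only [snap, hi, if_true]
      constructor <;> linarith [(key i hi).1, (key i hi).2]
    · rw [key2 i hi]; simp only [snap, hi, if_false]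
    · linarith [h.rho_le_of_D hD', ha.lt_rho h hx1]
    · constructor <;> linarith [(key i hi).1, (key i hi).2]
    · rw [key2 i hi]; exact hlock _ (hp.l_η' k).2 i hi
  · refine ⟨k, I.erase j, w, Finset.card_erase_of_mem hj,
      ⟨_, hx0, ha.face_subset h hx1, hD⟩, fun i hi => ?_, hlock _ (hp.l_η' k).1⟩
    rw [hw1 i ((hmem i).1 hi).1]
    constructor <;> linarith [(hav i hi).1.1, (hav i hi).1.2, (hp.ς'_le k).1]

/-- The state of a good point after the pushes for the index sets in `T` have been applied. -/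
def Mid (ϱ : E n → ℝ) (μ : ℝ) (X : Set (E n)) (ς η ς' η' : ℕ → ℝ) (j : ℕ)
    (T : Finset (Finset (Fin n))) (h : E n → E n) (B : E n → ℝ) (x : E n) : Prop :=
  ∃ (k : ℕ) (I : Finset (Fin n)) (z : Fin n → ℤ), I.card = j ∧ Active ϱ μ X k I z ∧
    (∀ i ∈ I, mesh μ k * z i < h x i ∧ h x i < mesh μ k * (z i + 1)) ∧
    (∀ i, i ∉ I → |h x i - mesh μ k * z i| ≤ η k) ∧
    ((I ∉ T ∧ (∀ i ∈ I, mesh μ k * z i + ς k ≤ h x i ∧ h x i ≤ mesh μ k * (z i + 1) - ς k) ∧
      ∀ i, i ∉ I → PLip (fun y => h y i) x (η k * B x)) ∨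
     (I ∈ T ∧ Good ϱ μ X ς' η' (j - 1) h B x))

theorem mid_step (h : Setup ϱ μ X) (hp : Params μ ς η l σo ς' η') {e : ℕ → ℝ} {j : ℕ}
    (hj : 1 ≤ j) {T : Finset (Finset (Fin n))} {I' : Finset (Fin n)} (hI' : I'.card = j)
    (hT : I' ∉ T) {f P : E n → E n} {B : E n → ℝ} {x : E n} {b : ℝ} (hb : 1 ≤ b)
    (hB : 1 ≤ B x) (hf : PLip f x (B x)) (hP1 : ∀ y i, i ∉ I' → P y i = y i)
    (hP2 : (∀ k z, Active ϱ μ X k I' z → f x ∉ Kset (mesh μ k) (l k) I' z) →
      ∀ᶠ w in 𝓝 (f x), P w = w)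
    (hP3 : ∀ k z, Active ϱ μ X k I' z → ∃ a, Par (mesh μ k) (l k) (e k) a ∧
      (f x ∈ Sset (mesh μ k) I' z →
        (∀ᶠ w in 𝓝 (f x), P w = push I' (cor (mesh μ k) z) (mesh μ k) (l k) (e k) a w) ∧
        ¬Bad I' (cor (mesh μ k) z) (mesh μ k) (l k) (e k) (ς k / (2 * mesh μ k)) (σo k) a (f x)))
    {B' : E n → ℝ} (hB' : B' x = b * B x) (hm : Mid ϱ μ X ς η ς' η' j T f B x) :
    Mid ϱ μ X ς η ς' η' j (insert I' T) (fun y => P (f y)) B' x := by
  obtain ⟨k, I, z, hc, ha, h1, h2, h3⟩ := hm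
  have hBB : B x ≤ B' x := by rw [hB']; nlinarith
  have hη' : ∀ k, 0 < η' k := fun k => by linarith [(hp.l_η' k).1, hp.l_pos k]
  by_cases hI : I = I'
  · subst hI
    obtain ⟨-, h4, h5⟩ := h3.resolve_right fun h => hT h.1
    have hs := mesh_pos h.pos k
    have e1 := hp.η_lt k k (by omega)
    have e2 := hp.l_mesh k
    have hl := hp.l_pos k
    obtain ⟨a, hPar, hP4⟩ := hP3 k z ha
    obtain ⟨hP5, hbad⟩ := hP4 ⟨h1, fun i hi => by linarith [h2 i hi]⟩
    set s := mesh μ k with hsd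
    set c := cor s z with hcd
    have hci : ∀ i, c i = s * z i := fun _ => rfl
    have hne : I.Nonempty := Finset.card_pos.1 (by omega)
    obtain ⟨i0, hi0, hr⟩ := exists_rad_eq hPar hne c (f x)
    have hgz : ∀ i ∈ I, gz c s (l k) a i (f x) ≤ 1 - ς k / (2 * s) := fun i hi =>
      gz_le_of_mem hPar (hp.l_ς k) (h4 i hi).1 (by rw [hci]; linarith [(h4 i hi).2])
    have hς : 0 < ς k / (2 * s) := div_pos (by linarith [hp.l_ς k]) (by positivity)
    have r1 : rad I c s (l k) a (f x) < 1 := by rw [hr]; linarith [hgz i0 hi0]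
    have r0 : e k < rad I c s (l k) a (f x) := not_le.1 fun h0 => hbad (Or.inl h0)
    have ht : ∀ i, i ∉ I → |f x i - c i| < s / 8 := fun i hi => by
      rw [hci]; linarith [h2 i hi]
    have ht1 := tap_eq_one hs fun i hi => (ht i hi).le
    have hP6 : P (f x) = push I c s (l k) (e k) a (f x) := hP5.self_of_nhds
    have hav : ∀ i ∈ I, i ≠ i0 → ∀ κ : Fin 3,
        σo k * s < |P (f x) i - (s * z i + s * ((κ : ℝ) / 2))| := by
      intro i hi hne κ
      rw [hP6, push_apply_of_mem ht1 r0.le r1.le hi, hr]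
      refine not_le.1 fun h0 => hbad (Or.inr ⟨i, hi, i0, hi0, κ, hne, ?_, hgz i0 hi0, h0⟩)
      rw [← hr]; exact hPar.e_pos.trans r0
    have hlt : ∀ i ∈ I, i ≠ i0 → gz c s (l k) a i (f x) < gz c s (l k) a i0 (f x) := by
      intro i hi hne
      refine lt_of_le_of_ne (hr ▸ gz_le_rad hi _) fun h0 => ?_
      have a0 := hav i hi hne 0
      have a2 := hav i hi hne 2
      simp only [Fin.val_zero, Fin.val_two, Nat.cast_zero, Nat.cast_ofNat, zero_div, mul_zero,
        add_zero, div_self (two_ne_zero' ℝ), mul_one] at a0 a2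
      rw [hP6] at a0 a2
      rcases push_end hPar ht1 r0.le r1.le hi (hr.trans h0.symm) with h6 | h6 <;>
        rw [hci] at h6 <;> linarith [hp.l_σ k]
    have g1 : ∀ i ∈ I, s * z i < P (f x) i ∧ P (f x) i < s * (z i + 1) := fun i hi => by
      have := push_mem hPar ht1 r0.le r1.le hi
      rw [← hP6, hci] at this
      constructor <;> linarith [this.1, this.2]
    refine ⟨k, I, z, hc, ha, g1, fun i hi => by simpa only [hP1 _ i hi] using h2 i hi,
      Or.inr ⟨Finset.mem_insert_self _ _, ?_⟩⟩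
    rw [← hc]
    refine good_of_lock h hp ha (by linarith) hi0 g1 (fun i hi => ?_) ?_ ?_ hav
    · simp only [hP1 _ i hi]
      exact ⟨h2 i hi, (h5 i hi).mono (mul_le_mul_of_nonneg_left hBB (hp.η_pos k).le)⟩
    · simpa only [hP6, hci] using push_end hPar ht1 r0.le r1.le hi0 hr
    · have := ((push_lock hPar ht r0 r1 hi0 hlt).congr
        (g := fun w => P w i0) (hP5.mono fun w hw => by simp only [hw])).comp hf hl.le
      exact this.mono (mul_le_mul_of_nonneg_left hBB hl.le)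
  · have hid := hP2 fun k' z' ha' => not_mem_Kset h hp ha ha' (by omega) hI h1 h2
    have he : f =ᶠ[𝓝 x] fun y => P (f y) :=
      (hf.continuousAt.eventually hid).mono fun y hy => hy.symm
    have h0 : f x = P (f x) := he.eq_of_nhds
    refine ⟨k, I, z, hc, ha, by simpa only [← h0] using h1, by simpa only [← h0] using h2, ?_⟩
    rcases h3 with ⟨h3, h4, h5⟩ | ⟨h3, h4⟩
    · refine Or.inl ⟨by simp [hI, h3], by simpa only [← h0] using h4, fun i hi => ?_⟩
      exact ((h5 i hi).congr (he.mono fun y hy => by simp only [← hy])).mono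
        (mul_le_mul_of_nonneg_left hBB (hp.η_pos k).le)
    · exact Or.inr ⟨Finset.mem_insert_of_mem h3, h4.congr he hBB hη'⟩

end Pool.Agent.P.MP_667fa2_an
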